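import Mathlib

/-!
# The ring `K[ν_i : i ∈ ι] / (ν_i ^ 2)`
-/

open scoped BigOperators
open MvPolynomial

namespace Pool.Agent.Helper44.CI

section

variable (ι : Type) (K : Type) [CommRing K]

/-- The ideal generated by the squares of the variables. -/
noncomputable def sqIdeal : Ideal (MvPolynomial ι K) :=
  Ideal.span (Set.range fun i : ι => (X i : MvPolynomial ι K) ^ 2)

/-- The ring `K[ν_i : i ∈ ι] / (ν_i ^ 2)`. -/
abbrev Sq : Type := MvPolynomial ι K ⧸ sqIdeal ι K

variable {ι K}

/-- The generators of `Sq ι K`. -/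
noncomputable def nu (i : ι) : Sq ι K := Ideal.Quotient.mk _ (X i)

lemma nu_sq (i : ι) : (nu i : Sq ι K) ^ 2 = 0 := by
  rw [nu, ← map_pow]
  exact Ideal.Quotient.eq_zero_iff_mem.2 (Ideal.subset_span ⟨i, rfl⟩)

lemma nu_mul_self (i : ι) : (nu i : Sq ι K) * nu i = 0 := by
  rw [← sq, nu_sq]

/-- The exponent of the square-free monomial of the finite set `S`. -/
noncomputable def indic (S : Finset ι) : ι →₀ ℕ := by
  classical exact Finsupp.indicator S (fun _ _ => 1)

lemma indic_apply [DecidableEq ι] (S : Finset ι) (i : ι) :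
    indic S i = if i ∈ S then 1 else 0 := by
  classical
  simp [indic, Finsupp.indicator_apply]

lemma indic_injective : Function.Injective (indic : Finset ι → ι →₀ ℕ) := by
  classical
  intro S T h
  ext i
  have := DFunLike.congr_fun h i
  simp only [indic_apply] at this
  by_cases hS : i ∈ S <;> by_cases hT : i ∈ T <;> simp_all

lemma coeff_indic_of_mem (S : Finset ι) {p : MvPolynomial ι K} (hp : p ∈ sqIdeal ι K) :
    coeff (indic S) p = 0 := by
  classical
  have h : sqIdeal ι K =
      Ideal.span ((fun s => monomial s (1 : K)) '' (Set.range fun i : ι => Finsupp.single i 2)) := by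
    rw [sqIdeal]
    congr 1
    ext q
    constructor
    · rintro ⟨i, rfl⟩
      refine ⟨Finsupp.single i 2, ⟨i, rfl⟩, ?_⟩
      simp only
      rw [X_pow_eq_monomial]
    · rintro ⟨_, ⟨i, rfl⟩, rfl⟩
      refine ⟨i, ?_⟩
      simp only
      rw [X_pow_eq_monomial]
  rw [h, mem_ideal_span_monomial_image] at hp
  by_contra hc
  obtain ⟨_, ⟨i, rfl⟩, hi⟩ := hp (indic S) (mem_support_iff.2 hc)
  have := hi i
  rw [Finsupp.single_eq_same, indic_apply] at this
  split_ifs at this <;> omega

/-- The coefficient of the square-free monomial `∏_{i ∈ S} ν_i`. -/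
noncomputable def coef (S : Finset ι) : Sq ι K →ₗ[K] K :=
  (Submodule.liftQ ((sqIdeal ι K).restrictScalars K) (lcoeff K (indic S))
    (fun _ hp => coeff_indic_of_mem S hp))

@[simp] lemma coef_mk (S : Finset ι) (p : MvPolynomial ι K) :
    coef S (Ideal.Quotient.mk _ p : Sq ι K) = coeff (indic S) p := rfl

lemma prod_nu_eq_mk (S : Finset ι) :
    (∏ i ∈ S, (nu i : Sq ι K)) = Ideal.Quotient.mk _ (monomial (indic S) 1) := by
  classical
  have : (monomial (indic S) (1 : K)) = ∏ i ∈ S, X i := by
    rw [monomial_eq, C_1, one_mul]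
    rw [Finsupp.prod]
    have hs : (indic S).support = S := by
      ext i
      simp [indic_apply]
    rw [hs]
    refine Finset.prod_congr rfl fun i hi => ?_
    rw [indic_apply, if_pos hi, pow_one]
  rw [this, map_prod]
  rfl

lemma coef_prod_nu [DecidableEq ι] (S T : Finset ι) :
    coef S (∏ i ∈ T, (nu i : Sq ι K)) = if S = T then 1 else 0 := by
  classical
  rw [prod_nu_eq_mk, coef_mk, coeff_monomial]
  by_cases h : S = T
  · simp [h]
  · rw [if_neg h, if_neg]
    intro h'
    exact h (indic_injective h').symm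

lemma coef_smul_prod_nu [DecidableEq ι] (S T : Finset ι) (a : K) :
    coef S (algebraMap K (Sq ι K) a * ∏ i ∈ T, (nu i : Sq ι K)) = if S = T then a else 0 := by
  rw [← Algebra.smul_def, map_smul, coef_prod_nu]
  simp

lemma coef_algebraMap [DecidableEq ι] (S : Finset ι) (a : K) :
    coef S (algebraMap K (Sq ι K) a) = if S = ∅ then a else 0 := by
  have := coef_smul_prod_nu (K := K) S (∅ : Finset ι) a
  simpa using this

lemma monomial_mem_or (m : ι →₀ ℕ) (a : K) :
    (∃ i, 2 ≤ m i ∧ (monomial m a : MvPolynomial ι K) ∈ sqIdeal ι K) ∨ (∃ S, m = indic S) := by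
  classical
  by_cases h : ∃ i, 2 ≤ m i
  · obtain ⟨i, hi⟩ := h
    left
    refine ⟨i, hi, ?_⟩
    have : (monomial m a : MvPolynomial ι K) = monomial (m - Finsupp.single i 2) a * X i ^ 2 := by
      have hm : m - Finsupp.single i 2 + Finsupp.single i 2 = m := by
        refine tsub_add_cancel_of_le ?_
        intro j
        by_cases hj : j = i
        · subst hj
          simpa using hi
        · simp [Ne.symm hj]
      rw [X_pow_eq_monomial, monomial_mul, mul_one, hm]
    rw [this]
    exact Ideal.mul_mem_left _ _ (Ideal.subset_span ⟨i, rfl⟩)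
  · push Not at h
    right
    refine ⟨m.support, ?_⟩
    ext j
    rw [indic_apply]
    by_cases hj : j ∈ m.support
    · rw [if_pos hj]
      have := Finsupp.mem_support_iff.1 hj
      have := h j
      omega
    · rw [if_neg hj]
      simpa using hj

/-- Expansion in square-free monomials. -/
lemma sq_expand [Fintype ι] (q : Sq ι K) :
    q = ∑ S : Finset ι, algebraMap K (Sq ι K) (coef S q) * ∏ i ∈ S, nu i := by
  classical
  obtain ⟨p, rfl⟩ := Ideal.Quotient.mk_surjective q
  induction p using MvPolynomial.induction_on' with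
  | monomial m a =>
    rcases monomial_mem_or m a with ⟨i, -, hi⟩ | ⟨T, rfl⟩
    · rw [Ideal.Quotient.eq_zero_iff_mem.2 hi]
      simp
    · have h1 : (Ideal.Quotient.mk (sqIdeal ι K) (monomial (indic T) a)) =
          algebraMap K (Sq ι K) a * ∏ i ∈ T, nu i := by
        rw [prod_nu_eq_mk]
        have : (monomial (indic T) a : MvPolynomial ι K) = C a * monomial (indic T) 1 := by
          rw [C_mul_monomial, mul_one]
        rw [this, map_mul]
        rfl
      rw [h1]
      rw [Finset.sum_eq_single T]
      · rw [coef_smul_prod_nu, if_pos rfl]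
      · intro S _ hS
        rw [coef_smul_prod_nu, if_neg hS, map_zero, zero_mul]
      · intro h
        exact absurd (Finset.mem_univ _) h
  | add p q hp hq =>
    rw [map_add]
    conv_lhs => rw [hp, hq]
    rw [← Finset.sum_add_distrib]
    refine Finset.sum_congr rfl fun S _ => ?_
    rw [map_add, map_add, add_mul]

lemma sq_ext [Fintype ι] {q r : Sq ι K} (h : ∀ S, coef S q = coef S r) : q = r := by
  rw [sq_expand q, sq_expand r]
  exact Finset.sum_congr rfl fun S _ => by rw [h S]

/-- The universal property of `Sq ι K`. -/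
noncomputable def sqLift {R : Type} [CommRing R] [Algebra K R] (r : ι → R)
    (hr : ∀ i, r i * r i = 0) : Sq ι K →ₐ[K] R :=
  Ideal.Quotient.liftₐ (sqIdeal ι K) (aeval r) (by
    intro p hp
    have : sqIdeal ι K ≤ RingHom.ker (aeval r : MvPolynomial ι K →ₐ[K] R) := by
      rw [sqIdeal, Ideal.span_le]
      rintro _ ⟨i, rfl⟩
      simp [RingHom.mem_ker, sq, hr i]
    exact this hp)

@[simp] lemma sqLift_nu {R : Type} [CommRing R] [Algebra K R] (r : ι → R)
    (hr : ∀ i, r i * r i = 0) (i : ι) : sqLift (K := K) r hr (nu i) = r i := by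
  simp [sqLift, nu]

end

end Pool.Agent.Helper44.CI
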