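import Pool.Agent.Helper44.CI.Defs
import Pool.Agent.Helper44.CI.Sq

/-!
# Working vocabulary for the proof
-/

open scoped BigOperators
open MvPowerSeries (constantCoeff pderiv)

namespace Pool.Agent.Helper44.CI

section Abstract

variable {n : ℕ} {A : Type*}

/-- commuting `ℝ`-linear derivations -/
structure IsDer [CommRing A] [Algebra ℝ A] (d : Fin n → A → A) : Prop where
  add : ∀ i a b, d i (a + b) = d i a + d i b
  mul : ∀ i a b, d i (a * b) = d i a * b + a * d i b
  smul : ∀ i (r : ℝ) a, d i (r • a) = r • d i a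
  comm : ∀ i j a, d i (d j a) = d j (d i a)

/-- symmetric matrix of ring elements -/
def SymM (g : Fin n → Fin n → A) : Prop := ∀ i j, g i j = g j i

/-- the Kronecker symbol -/
def dl [Zero A] [One A] (i j : Fin n) : A := if i = j then 1 else 0

/-- `G` is a right inverse of `g` -/
def IsInv [CommRing A] (g G : Fin n → Fin n → A) : Prop := ∀ i j, ∑ k, g i k * G k j = dl i j

/-- the inverse matrix -/
noncomputable def invM [CommRing A] (g : Fin n → Fin n → A) (i j : Fin n) : A :=
  (Matrix.of g)⁻¹ i j

lemma IsInv.eq_invM [CommRing A] {g G : Fin n → Fin n → A} (h : IsInv g G) : invM g = G := by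
  have h1 : Matrix.of g * Matrix.of G = 1 := by
    ext i j
    rw [Matrix.mul_apply]
    have := h i j
    simp only [dl] at this
    simpa [Matrix.one_apply] using this
  funext i j
  rw [invM, Matrix.inv_eq_right_inv h1]
  rfl

lemma isInv_invM [CommRing A] {g : Fin n → Fin n → A} (h : IsUnit (Matrix.of g).det) :
    IsInv g (invM g) := by
  intro i j
  have h1 := congrFun (congrFun (Matrix.mul_nonsing_inv _ h) i) j
  rw [Matrix.mul_apply] at h1
  simpa [Matrix.one_apply, dl, invM] using h1

end Abstract

section Formal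

variable (n : ℕ) (K : Type) [CommRing K]

/-- matrices of formal power series in `n` variables -/
abbrev Fld : Type := Fin n → Fin n → MvPowerSeries (Fin n) K

/-- the partial derivatives of formal power series -/
noncomputable def pdv (i : Fin n) (f : MvPowerSeries (Fin n) K) : MvPowerSeries (Fin n) K :=
  pderiv K i f

variable {n K}

/-- the value at the origin of the scalar attached to a formal metric -/
noncomputable def J [Algebra ℝ K] (c : Contraction →₀ ℝ) (g : Fld n K) : K :=
  constantCoeff (linComb c (pdv n K) g (invM g))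

/-- base change of matrices of power series -/
noncomputable def mapF {K' : Type} [CommRing K'] (θ : K →+* K') (g : Fld n K) : Fld n K' :=
  fun i j => MvPowerSeries.map θ (g i j)

/-- the metric `δ + ∑ᵢ rᵢ Hᵢ` -/
noncomputable def fam {ι : Type} [Fintype ι] {R : Type} [CommRing R] [Algebra K R] (r : ι → R)
    (H : ι → Fld n K) : Fld n R :=
  fun a b => dl a b + ∑ i, r i • MvPowerSeries.map (algebraMap K R) (H i a b)

/-- the coefficient of `∏ᵢ νᵢ` in `J(δ + ∑ᵢ νᵢ Hᵢ)` -/
noncomputable def F [Algebra ℝ K] (c : Contraction →₀ ℝ) {ι : Type} [Fintype ι]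
    (H : ι → Fld n K) : K :=
  coef Finset.univ (J c (fam (fun i => (nu i : Sq ι K)) H))

/-- `J` vanishes to order `> j` provided this holds for all smaller numbers -/
def Vanish (n : ℕ) (c : Contraction →₀ ℝ) (j : ℕ) : Prop :=
  ∀ (ι : Type) [Fintype ι] [DecidableEq ι], Fintype.card ι = j →
    ∀ (K : Type) [CommRing K] [Algebra ℝ K] (H : ι → Fld n K), (∀ i, SymM (H i)) → F c H = 0

/-- all the contractions have weight `-n` -/
def HasWeight (n : ℕ) (c : Contraction →₀ ℝ) : Prop :=
  ∀ C ∈ c.support, ∑ a, (C.l a + 2) = n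

/-- formal conformal invariance -/
def FConf (n : ℕ) (c : Contraction →₀ ℝ) : Prop :=
  ∀ (K : Type) [CommRing K] [Algebra ℝ K] (g : Fld n K) (f : MvPowerSeries (Fin n) K), SymM g →
    (∀ i j, constantCoeff (g i j) = dl i j) → constantCoeff f = 1 →
      J c (fun i j => f * g i j) = J c g

/-- the exponential series `exp(a · X)` -/
noncomputable def ex [Algebra ℝ K] (a : Fin n → K) : MvPowerSeries (Fin n) K :=
  fun α => algebraMap ℝ K (∏ i, ((Nat.factorial (α i) : ℝ))⁻¹) * ∏ i, a i ^ α i

/-- the plane wave `exp(a · X) A` -/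
noncomputable def wave [Algebra ℝ K] (a : Fin n → K) (A : Fin n → Fin n → K) : Fld n K :=
  fun i j => MvPowerSeries.C (A i j) * ex a

/-- the matrix `ζ ζᵀ` -/
def sqM (z : Fin n → K) (i j : Fin n) : K := z i * z j

/-- `L_ξ δ` -/
noncomputable def lieDl (xi : Fin n → MvPowerSeries (Fin n) K) : Fld n K :=
  fun i j => pderiv K i (xi j) + pderiv K j (xi i)

/-- the special conformal vector field `v_k = |X|² b_k - 2 (b·X) X_k` -/
noncomputable def spv (b : Fin n → K) (k : Fin n) : MvPowerSeries (Fin n) K :=
  (∑ l, MvPowerSeries.X l ^ 2) * MvPowerSeries.C (b k) -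
    2 * (∑ l, MvPowerSeries.C (b l) * MvPowerSeries.X l) * MvPowerSeries.X k

/-- `K_b H = L_v H - 2 ω H` with `v = spv b`, `ω = -2 b·X` -/
noncomputable def spH (b : Fin n → K) (H : Fld n K) : Fld n K :=
  fun i j => ∑ k, spv b k * pderiv K k (H i j) +
    ∑ k, (H k j * pderiv K i (spv b k) + H i k * pderiv K j (spv b k)) +
      4 * (∑ l, MvPowerSeries.C (b l) * MvPowerSeries.X l) * H i j

end Formal

/-- the Gram variables -/
def gram {V K : Type} [CommRing K] {n : ℕ} (v : V → Fin n → K) : Sym2 V → K :=
  Sym2.lift ⟨fun s t => ∑ i, v s i * v t i, fun s t => by simp only [mul_comm]⟩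

@[simp] lemma gram_mk {V K : Type} [CommRing K] {n : ℕ} (v : V → Fin n → K) (s t : V) :
    gram v s(s, t) = ∑ i, v s i * v t i := rfl

end Pool.Agent.Helper44.CI
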