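import Pool.Agent.Helper44.CI.Basic

/-!
# Symmetry of the Ricci tensor and the contracted Bianchi identity
-/

open scoped BigOperators

namespace Pool.Agent.Helper44.CI

variable {n : ℕ} {A : Type*} [CommRing A] [Algebra ℝ A]

namespace Bia

open Matrix

/-- entrywise derivative of a matrix -/
def dM (d : Fin n → A → A) (i : Fin n) (X : Matrix (Fin n) (Fin n) A) :
    Matrix (Fin n) (Fin n) A := X.map (d i)

/-- the connection matrices -/
noncomputable def Gam (d : Fin n → A → A) (g G : Fin n → Fin n → A) (i : Fin n) :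
    Matrix (Fin n) (Fin n) A := Matrix.of fun k j => christoffel d g G k i j

/-- the curvature matrices -/
noncomputable def Rm (d : Fin n → A → A) (g G : Fin n → Fin n → A) (i j : Fin n) :
    Matrix (Fin n) (Fin n) A :=
  dM d i (Gam d g G j) - dM d j (Gam d g G i) + Gam d g G i * Gam d g G j
    - Gam d g G j * Gam d g G i

section der

variable {d : Fin n → A → A} (hd : IsDer d)
include hd

lemma d_zero (i : Fin n) : d i 0 = 0 := by
  have := hd.add i 0 0
  simpa using this

/-- the derivation as an additive map -/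
def dHom (i : Fin n) : A →+ A where
  toFun := d i
  map_zero' := d_zero hd i
  map_add' := hd.add i

lemma d_sum {ι : Type*} (i : Fin n) (s : Finset ι) (f : ι → A) :
    d i (∑ x ∈ s, f x) = ∑ x ∈ s, d i (f x) := map_sum (dHom hd i) f s

lemma d_neg (i : Fin n) (a : A) : d i (-a) = - d i a := map_neg (dHom hd i) a

lemma d_sub (i : Fin n) (a b : A) : d i (a - b) = d i a - d i b := map_sub (dHom hd i) a b

lemma d_one (i : Fin n) : d i 1 = 0 := by
  have := hd.mul i 1 1
  simpa using this

lemma dM_add (i : Fin n) (X Y : Matrix (Fin n) (Fin n) A) : dM d i (X + Y) = dM d i X + dM d i Y := by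
  ext a b; simp [dM, hd.add]

lemma dM_sub (i : Fin n) (X Y : Matrix (Fin n) (Fin n) A) : dM d i (X - Y) = dM d i X - dM d i Y := by
  ext a b; simp [dM, d_sub hd]

lemma dM_neg (i : Fin n) (X : Matrix (Fin n) (Fin n) A) : dM d i (-X) = -dM d i X := by
  ext a b; simp [dM, d_neg hd]

lemma dM_mul (i : Fin n) (X Y : Matrix (Fin n) (Fin n) A) :
    dM d i (X * Y) = dM d i X * Y + X * dM d i Y := by
  ext a b
  simp only [dM, Matrix.map_apply, Matrix.mul_apply, Matrix.add_apply]
  rw [d_sum hd, ← Finset.sum_add_distrib]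
  exact Finset.sum_congr rfl fun k _ => hd.mul i _ _

lemma dM_one (i : Fin n) : dM d i (1 : Matrix (Fin n) (Fin n) A) = 0 := by
  ext a b
  simp only [dM, Matrix.map_apply, Matrix.one_apply, Matrix.zero_apply]
  split_ifs
  · exact d_one hd i
  · exact d_zero hd i

lemma dM_comm (i j : Fin n) (X : Matrix (Fin n) (Fin n) A) :
    dM d i (dM d j X) = dM d j (dM d i X) := by
  ext a b; simp [dM, hd.comm i j]

end der

lemma dM_transpose (d : Fin n → A → A) (i : Fin n) (X : Matrix (Fin n) (Fin n) A) :
    dM d i Xᵀ = (dM d i X)ᵀ := by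
  ext a b; simp [dM]

section metric

variable {d : Fin n → A → A} (hd : IsDer d) {g G : Fin n → Fin n → A} (hg : SymM g)
    (hG : IsInv g G)

include hG in
lemma mul_gG : (Matrix.of g) * (Matrix.of G) = 1 := by
  ext i j
  rw [Matrix.mul_apply]
  have := hG i j
  simp only [dl] at this
  simpa [Matrix.one_apply] using this

include hG in
lemma mul_Gg : (Matrix.of G) * (Matrix.of g) = 1 := mul_eq_one_comm.1 (mul_gG hG)

include hg in
lemma g_T : (Matrix.of g)ᵀ = Matrix.of g := by
  ext i j; simp [hg j i]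

include hg hG in
lemma G_T : (Matrix.of G)ᵀ = Matrix.of G := by
  have h1 : (Matrix.of G)ᵀ * (Matrix.of g) = 1 := by
    have := congrArg Matrix.transpose (mul_gG hG)
    rwa [Matrix.transpose_mul, g_T hg, Matrix.transpose_one] at this
  calc (Matrix.of G)ᵀ = (Matrix.of G)ᵀ * (Matrix.of g * Matrix.of G) := by
        rw [mul_gG hG, Matrix.mul_one]
    _ = Matrix.of G := by rw [← Matrix.mul_assoc, h1, Matrix.one_mul]

include hg hG in
lemma G_symm (i j : Fin n) : G i j = G j i := by
  have := congrFun (congrFun (G_T hg hG) j) i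
  simpa using this

include hg in
lemma chr_symm (k i j : Fin n) : christoffel d g G k i j = christoffel d g G k j i := by
  unfold christoffel
  congr 1
  apply Finset.sum_congr rfl
  intro l _
  rw [hg i j]
  ring

include hG in
lemma lower (k i j : Fin n) :
    ∑ l, g k l * christoffel d g G l i j =
      (1 / 2 : ℝ) • (d i (g j k) + d j (g i k) - d k (g i j)) := by
  unfold christoffel
  have h1 : ∀ l, g k l * ((1 / 2 : ℝ) • ∑ m, G l m * (d i (g j m) + d j (g i m) - d m (g i j)))
      = (1 / 2 : ℝ) • ∑ m, (g k l * G l m) * (d i (g j m) + d j (g i m) - d m (g i j)) := by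
    intro l
    rw [mul_smul_comm, Finset.mul_sum]
    simp only [mul_assoc]
  rw [Finset.sum_congr rfl fun l _ => h1 l, ← Finset.smul_sum, Finset.sum_comm]
  congr 1
  have h2 : ∀ m, ∑ l, (g k l * G l m) * (d i (g j m) + d j (g i m) - d m (g i j))
      = dl k m * (d i (g j m) + d j (g i m) - d m (g i j)) := by
    intro m
    rw [← Finset.sum_mul, hG k m]
  rw [Finset.sum_congr rfl fun m _ => h2 m]
  simp [dl]

include hg hG in
/-- compatibility of the connection with the metric -/
lemma compat (i : Fin n) : dM d i (Matrix.of g) =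
    (Gam d g G i)ᵀ * (Matrix.of g) + (Matrix.of g) * Gam d g G i := by
  ext j k
  simp only [dM, Gam, Matrix.map_apply, Matrix.of_apply, Matrix.add_apply, Matrix.mul_apply,
    Matrix.transpose_apply]
  have h1 : ∑ l, christoffel d g G l i j * g l k = ∑ l, g k l * christoffel d g G l i j :=
    Finset.sum_congr rfl fun l _ => by rw [hg l k, mul_comm]
  rw [h1, lower hG k i j, lower hG j i k, ← smul_add]
  have h2 : d i (g j k) + d j (g i k) - d k (g i j) + (d i (g k j) + d k (g i j) - d j (g i k))
      = (2 : ℝ) • d i (g j k) := by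
    rw [hg k j, two_smul]
    ring
  rw [h2, smul_smul]
  norm_num

include hd hg hG in
lemma dG (i : Fin n) : dM d i (Matrix.of G) =
    -((Matrix.of G) * (Gam d g G i)ᵀ + Gam d g G i * (Matrix.of G)) := by
  have h1 : dM d i (Matrix.of g) * Matrix.of G + Matrix.of g * dM d i (Matrix.of G) = 0 := by
    rw [← dM_mul hd, mul_gG hG, dM_one hd]
  have h2 : dM d i (Matrix.of G) = - (Matrix.of G * (dM d i (Matrix.of g) * Matrix.of G)) := by
    have h3 : Matrix.of G * (dM d i (Matrix.of g) * Matrix.of G + Matrix.of g * dM d i (Matrix.of G))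
      = 0 := by rw [h1, Matrix.mul_zero]
    rw [Matrix.mul_add, ← Matrix.mul_assoc (Matrix.of G) (Matrix.of g), mul_Gg hG,
      Matrix.one_mul] at h3
    exact (neg_eq_of_add_eq_zero_right h3).symm
  rw [h2, compat hg hG, Matrix.add_mul, Matrix.mul_assoc (Gam d g G i)ᵀ, mul_gG hG,
    Matrix.mul_one, Matrix.mul_add, Matrix.mul_assoc (Matrix.of g), ← Matrix.mul_assoc (Matrix.of G) (Matrix.of g),
    mul_Gg hG, Matrix.one_mul]

lemma Rm_antisymm (i j : Fin n) : Rm d g G j i = - Rm d g G i j := by
  unfold Rm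
  abel

include hd hg hG in
/-- the curvature matrices are antisymmetric with respect to the metric -/
lemma Rm_g (i j : Fin n) :
    (Rm d g G i j)ᵀ * (Matrix.of g) + (Matrix.of g) * Rm d g G i j = 0 := by
  have hij := dM_comm hd i j (Matrix.of g)
  rw [compat hg hG j, compat hg hG i, dM_add hd, dM_add hd, dM_mul hd, dM_mul hd, dM_mul hd,
    dM_mul hd, compat hg hG i, compat hg hG j, dM_transpose, dM_transpose] at hij
  unfold Rm
  simp only [Matrix.transpose_add, Matrix.transpose_sub, Matrix.transpose_mul]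
  rw [← sub_eq_zero] at hij
  rw [← hij]
  noncomm_ring

include hd hg hG in
lemma S_antisymm (i j : Fin n) :
    (Rm d g G i j * Matrix.of G)ᵀ = - (Rm d g G i j * Matrix.of G) := by
  have h := Rm_g hd hg hG i j
  have h2 : Matrix.of G * ((Rm d g G i j)ᵀ * (Matrix.of g) + (Matrix.of g) * Rm d g G i j)
      * Matrix.of G = 0 := by rw [h]; simp
  rw [Matrix.mul_add, Matrix.add_mul, ← Matrix.mul_assoc (Matrix.of G) (Matrix.of g), mul_Gg hG,
    Matrix.one_mul, ← Matrix.mul_assoc (Matrix.of G), Matrix.mul_assoc _ (Matrix.of g), mul_gG hG,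
    Matrix.mul_one] at h2
  rw [Matrix.transpose_mul, G_T hg hG]
  exact eq_neg_of_add_eq_zero_left h2

include hg in
/-- the Ricci tensor as a contraction of the curvature -/
lemma ricci_eq (i j : Fin n) : ricci d g G i j = ∑ k, Rm d g G k j k i := by
  unfold ricci Rm
  simp only [Matrix.sub_apply, Matrix.add_apply, Matrix.mul_apply, dM, Matrix.map_apply, Gam,
    Matrix.of_apply]
  rw [← Finset.sum_add_distrib]
  apply Finset.sum_congr rfl
  intro k _
  rw [Finset.sum_sub_distrib, chr_symm hg k i j, chr_symm hg k i k]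
  have h1 : ∀ l, christoffel d g G l i j = christoffel d g G l j i := fun l => chr_symm hg l i j
  have h2 : ∀ l, christoffel d g G l i k = christoffel d g G l k i := fun l => chr_symm hg l i k
  simp only [h1, h2]
  abel

include hd hg hG in
lemma trace_Rm (i j : Fin n) : Matrix.trace (Rm d g G i j) = 0 := by
  have h := S_antisymm hd hg hG i j
  have h0 := Rm_g hd hg hG i j
  have h1 : Matrix.of G * ((Rm d g G i j)ᵀ * (Matrix.of g)) + Rm d g G i j = 0 := by
    have h2 : Matrix.of G * ((Rm d g G i j)ᵀ * (Matrix.of g) + (Matrix.of g) * Rm d g G i j) = 0 := by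
      rw [h0, Matrix.mul_zero]
    rwa [Matrix.mul_add, ← Matrix.mul_assoc (Matrix.of G) (Matrix.of g), mul_Gg hG,
      Matrix.one_mul] at h2
  have h3 := congrArg Matrix.trace h1
  rw [Matrix.trace_add, Matrix.trace_mul_comm, Matrix.mul_assoc, mul_gG hG, Matrix.mul_one,
    Matrix.trace_transpose, Matrix.trace_zero, ← two_smul ℝ] at h3
  have h4 : (1 / 2 : ℝ) • ((2 : ℝ) • Matrix.trace (Rm d g G i j)) = 0 := by rw [h3, smul_zero]
  rw [smul_smul] at h4
  norm_num at h4
  exact h4

include hd in
/-- the second Bianchi identity -/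
lemma second_bianchi (m i j : Fin n) :
    (dM d m (Rm d g G i j) + Gam d g G m * Rm d g G i j - Rm d g G i j * Gam d g G m) +
    (dM d i (Rm d g G j m) + Gam d g G i * Rm d g G j m - Rm d g G j m * Gam d g G i) +
    (dM d j (Rm d g G m i) + Gam d g G j * Rm d g G m i - Rm d g G m i * Gam d g G j) = 0 := by
  unfold Rm
  simp only [dM_add hd, dM_sub hd, dM_mul hd]
  rw [dM_comm hd m i, dM_comm hd m j, dM_comm hd i j (Gam d g G m)]
  noncomm_ring

include hd hg hG in
lemma S_der (m i j : Fin n) :
    dM d m (Rm d g G i j * Matrix.of G) + Gam d g G m * (Rm d g G i j * Matrix.of G)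
      + (Rm d g G i j * Matrix.of G) * (Gam d g G m)ᵀ
      = (dM d m (Rm d g G i j) + Gam d g G m * Rm d g G i j - Rm d g G i j * Gam d g G m)
        * Matrix.of G := by
  rw [dM_mul hd, dG hd hg hG]
  noncomm_ring

include hd hg hG in
lemma S_bianchi (m i j : Fin n) :
    (dM d m (Rm d g G i j * Matrix.of G) + Gam d g G m * (Rm d g G i j * Matrix.of G)
      + (Rm d g G i j * Matrix.of G) * (Gam d g G m)ᵀ) +
    (dM d i (Rm d g G j m * Matrix.of G) + Gam d g G i * (Rm d g G j m * Matrix.of G)
      + (Rm d g G j m * Matrix.of G) * (Gam d g G i)ᵀ) +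
    (dM d j (Rm d g G m i * Matrix.of G) + Gam d g G j * (Rm d g G m i * Matrix.of G)
      + (Rm d g G m i * Matrix.of G) * (Gam d g G j)ᵀ) = 0 := by
  rw [S_der hd hg hG, S_der hd hg hG, S_der hd hg hG, ← Matrix.add_mul, ← Matrix.add_mul,
    second_bianchi hd, Matrix.zero_mul]

end metric

end Bia

open Bia
open scoped Matrix

theorem ricci_symm {d : Fin n → A → A} (hd : IsDer d) {g G : Fin n → Fin n → A} (hg : SymM g)
    (hG : IsInv g G) : SymM (ricci d g G) := by
  intro i j
  have htr : ∑ k, d i (christoffel d g G k j k) = ∑ k, d j (christoffel d g G k i k) := by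
    have h := trace_Rm hd hg hG i j
    unfold Rm at h
    rw [Matrix.trace_sub, Matrix.trace_add, Matrix.trace_sub, Matrix.trace_mul_comm (Gam d g G i),
      add_sub_cancel_right, sub_eq_zero] at h
    exact h
  unfold ricci
  rw [Finset.sum_sub_distrib, Finset.sum_sub_distrib, htr]
  congr 1
  · congr 1
    exact Finset.sum_congr rfl fun k _ => by rw [chr_symm hg k i j]
  · simp only [Finset.sum_sub_distrib]
    congr 1
    · exact Finset.sum_congr rfl fun k _ => Finset.sum_congr rfl fun l _ => by
        rw [chr_symm hg l i j]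
    · rw [Finset.sum_comm]
      exact Finset.sum_congr rfl fun k _ => Finset.sum_congr rfl fun l _ => by ring

theorem bianchi {d : Fin n → A → A} (hd : IsDer d) {g G : Fin n → Fin n → A} (hg : SymM g)
    (hG : IsInv g G) (m : Fin n) :
    ∑ i, ∑ j, G i j * (d i (ricci d g G j m)
        - ∑ p, christoffel d g G p i j * ricci d g G p m
        - ∑ p, christoffel d g G p i m * ricci d g G j p) =
      (1 / 2 : ℝ) • d m (scalarCurv d g G) := by
  set S : Fin n → Fin n → Fin n → Fin n → A := fun i j k l => (Rm d g G i j * Matrix.of G) k l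
    with hS
  set Q : Fin n → Fin n → A := fun l j => ∑ p, G l p * ricci d g G p j with hQ
  set Γ : Fin n → Fin n → Fin n → A := fun k i j => christoffel d g G k i j with hΓ
  have hΓs : ∀ k i j, Γ k i j = Γ k j i := fun k i j => chr_symm hg k i j
  have hS1 : ∀ i j k l, S i j l k = - S i j k l := by
    intro i j k l
    have := congrFun (congrFun (S_antisymm hd hg hG i j) k) l
    simpa using this
  have hS2 : ∀ i j k l, S j i k l = - S i j k l := by
    intro i j k l
    simp only [hS]
    rw [Rm_antisymm (d := d) (g := g) (G := G) i j, Matrix.neg_mul, Matrix.neg_apply]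
  -- contractions of `S`
  have hQ1 : ∀ l j, ∑ i, S i j i l = Q l j := by
    intro l j
    simp only [hS, hQ, Matrix.mul_apply, Matrix.of_apply]
    rw [Finset.sum_comm]
    apply Finset.sum_congr rfl
    intro p _
    rw [← Finset.sum_mul, ricci_eq hg p j, G_symm hg hG l p, mul_comm]
  have hQ2 : ∀ l j, ∑ i, S i j l i = - Q l j := by
    intro l j
    rw [← hQ1, ← Finset.sum_neg_distrib]
    exact Finset.sum_congr rfl fun i _ => hS1 i j i l
  have hQ3 : ∀ l j, ∑ i, S j i i l = - Q l j := by
    intro l j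
    rw [← hQ1, ← Finset.sum_neg_distrib]
    exact Finset.sum_congr rfl fun i _ => hS2 i j i l
  have hQ4 : ∀ l j, ∑ i, S j i l i = Q l j := by
    intro l j
    rw [← hQ1]
    exact Finset.sum_congr rfl fun i _ => by rw [hS2 i j l i, hS1 i j i l, neg_neg]
  have hscal : ∑ j, Q j j = scalarCurv d g G := by
    simp only [hQ, scalarCurv]
    exact Finset.sum_congr rfl fun j _ => Finset.sum_congr rfl fun p _ => by
      rw [ricci_symm hd hg hG p j]
  -- the contracted second Bianchi identity
  have hB : ∀ i j, (d m (S i j i j) + ∑ p, Γ i m p * S i j p j + ∑ p, S i j i p * Γ j m p)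
      + (d i (S j m i j) + ∑ p, Γ i i p * S j m p j + ∑ p, S j m i p * Γ j i p)
      + (d j (S m i i j) + ∑ p, Γ i j p * S m i p j + ∑ p, S m i i p * Γ j j p) = 0 := by
    intro i j
    have h := congrFun (congrFun (S_bianchi hd hg hG m i j) i) j
    simp only [Matrix.add_apply, Matrix.mul_apply (M := Gam d g G _),
      Matrix.mul_apply (N := (Gam d g G _)ᵀ), Matrix.transpose_apply, Matrix.zero_apply] at h
    exact h
  have hsum : ∑ i, ∑ j, ((d m (S i j i j) + ∑ p, Γ i m p * S i j p j + ∑ p, S i j i p * Γ j m p)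
      + (d i (S j m i j) + ∑ p, Γ i i p * S j m p j + ∑ p, S j m i p * Γ j i p)
      + (d j (S m i i j) + ∑ p, Γ i j p * S m i p j + ∑ p, S m i i p * Γ j j p)) = 0 :=
    Finset.sum_eq_zero fun i _ => Finset.sum_eq_zero fun j _ => hB i j
  simp only [Finset.sum_add_distrib] at hsum
  -- evaluate the nine sums
  have e1 : ∑ i, ∑ j, d m (S i j i j) = d m (scalarCurv d g G) := by
    rw [← hscal, d_sum hd, Finset.sum_comm]
    apply Finset.sum_congr rfl
    intro j _
    rw [← d_sum hd, hQ1]
  have e2 : ∑ i, ∑ j, ∑ p, Γ i m p * S i j p j = ∑ i, ∑ p, Γ i m p * Q p i := by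
    apply Finset.sum_congr rfl
    intro i _
    rw [Finset.sum_comm]
    apply Finset.sum_congr rfl
    intro p _
    rw [← Finset.mul_sum, hQ4]
  have e3 : ∑ i, ∑ j, ∑ p, S i j i p * Γ j m p = ∑ i, ∑ p, Γ i m p * Q p i := by
    rw [Finset.sum_comm]
    apply Finset.sum_congr rfl
    intro j _
    rw [Finset.sum_comm]
    apply Finset.sum_congr rfl
    intro p _
    rw [← Finset.sum_mul, hQ1, mul_comm]
  have e4 : ∑ i, ∑ j, d i (S j m i j) = - ∑ i, d i (Q i m) := by
    rw [← Finset.sum_neg_distrib]
    apply Finset.sum_congr rfl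
    intro i _
    rw [← d_sum hd, hQ2, d_neg hd]
  have e5 : ∑ i, ∑ j, ∑ p, Γ i i p * S j m p j = - ∑ i, ∑ p, Γ i i p * Q p m := by
    rw [← Finset.sum_neg_distrib]
    apply Finset.sum_congr rfl
    intro i _
    rw [Finset.sum_comm, ← Finset.sum_neg_distrib]
    apply Finset.sum_congr rfl
    intro p _
    rw [← Finset.mul_sum, hQ2, mul_neg]
  have hhalf : ∀ a : A, a = -a → a = 0 := by
    intro a ha
    have h1 : (2 : ℝ) • a = 0 := by
      rw [two_smul]
      nth_rw 2 [ha]
      simp
    have h2 : (1 / 2 : ℝ) • ((2 : ℝ) • a) = 0 := by rw [h1, smul_zero]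
    rw [smul_smul] at h2
    norm_num at h2
    exact h2
  have e6 : ∑ i, ∑ j, ∑ p, S j m i p * Γ j i p = 0 := by
    rw [Finset.sum_comm]
    apply Finset.sum_eq_zero
    intro j _
    apply hhalf
    rw [← Finset.sum_neg_distrib]
    nth_rw 1 [Finset.sum_comm]
    apply Finset.sum_congr rfl
    intro i _
    rw [← Finset.sum_neg_distrib]
    apply Finset.sum_congr rfl
    intro p _
    rw [hS1 j m i p, hΓs j p i, neg_mul]
  have e7 : ∑ i, ∑ j, d j (S m i i j) = - ∑ i, d i (Q i m) := by
    rw [Finset.sum_comm, ← Finset.sum_neg_distrib]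
    apply Finset.sum_congr rfl
    intro j _
    rw [← d_sum hd, hQ3, d_neg hd]
  have e8 : ∑ i, ∑ j, ∑ p, Γ i j p * S m i p j = 0 := by
    apply Finset.sum_eq_zero
    intro i _
    apply hhalf
    rw [← Finset.sum_neg_distrib]
    nth_rw 1 [Finset.sum_comm]
    apply Finset.sum_congr rfl
    intro j _
    rw [← Finset.sum_neg_distrib]
    apply Finset.sum_congr rfl
    intro p _
    rw [hS1 m i p j, hΓs i p j, mul_neg]
  have e9 : ∑ i, ∑ j, ∑ p, S m i i p * Γ j j p = - ∑ i, ∑ p, Γ i i p * Q p m := by
    rw [Finset.sum_comm, ← Finset.sum_neg_distrib]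
    apply Finset.sum_congr rfl
    intro j _
    rw [Finset.sum_comm, ← Finset.sum_neg_distrib]
    apply Finset.sum_congr rfl
    intro p _
    rw [← Finset.sum_mul, hQ3, neg_mul, mul_comm]
  rw [e1, e2, e3, e4, e5, e6, e7, e8, e9] at hsum
  -- expand the divergence of `Q`
  have hdiv : ∑ i, d i (Q i m) = ∑ i, ∑ j, G i j * d i (ricci d g G j m)
      - ∑ i, ∑ j, ∑ p, G i p * Γ j i p * ricci d g G j m - ∑ i, ∑ p, Γ i i p * Q p m := by
    have h1 : ∀ i j, d i (G i j) = - (∑ p, G i p * Γ j i p + ∑ p, Γ i i p * G p j) := by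
      intro i j
      have h := congrFun (congrFun (dG hd hg hG i) i) j
      simpa [dM, Gam, Matrix.mul_apply] using h
    have h2 : ∀ i j, d i (G i j * ricci d g G j m) = G i j * d i (ricci d g G j m)
        - ∑ p, G i p * Γ j i p * ricci d g G j m - ∑ p, Γ i i p * (G p j * ricci d g G j m) := by
      intro i j
      rw [hd.mul, h1, neg_mul, add_mul, Finset.sum_mul, Finset.sum_mul]
      simp only [mul_assoc]
      ring
    simp only [hQ]
    rw [Finset.sum_congr rfl fun i _ => d_sum hd i _ _]
    simp only [h2, Finset.sum_sub_distrib]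
    congr 1
    apply Finset.sum_congr rfl
    intro i _
    rw [Finset.sum_comm]
    apply Finset.sum_congr rfl
    intro p _
    rw [Finset.mul_sum]
  have hlhs : ∑ i, ∑ j, G i j * (d i (ricci d g G j m)
        - ∑ p, christoffel d g G p i j * ricci d g G p m
        - ∑ p, christoffel d g G p i m * ricci d g G j p)
      = ∑ i, ∑ j, G i j * d i (ricci d g G j m)
        - ∑ i, ∑ j, ∑ p, G i p * Γ j i p * ricci d g G j m - ∑ i, ∑ p, Γ i m p * Q p i := by
    simp only [mul_sub, Finset.sum_sub_distrib, Finset.mul_sum]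
    congr 1
    · congr 1
      apply Finset.sum_congr rfl
      intro i _
      rw [Finset.sum_comm]
      apply Finset.sum_congr rfl
      intro j _
      apply Finset.sum_congr rfl
      intro p _
      simp only [hΓ]
      ring
    · simp only [hQ, Finset.mul_sum]
      -- ∑ i j p, G i j * (Γ p i m * Ric j p) = ∑ i p q, Γ i m p * (G p q * Ric q i)
      rw [Finset.sum_comm (f := fun i p => ∑ q, Γ i m p * (G p q * ricci d g G q i))]
      apply Finset.sum_congr rfl
      intro i _
      rw [Finset.sum_comm]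
      apply Finset.sum_congr rfl
      intro p _
      apply Finset.sum_congr rfl
      intro j _
      rw [hΓs p m i]
      simp only [hΓ]
      ring
  have hkey : d m (scalarCurv d g G) = (2 : ℝ) • (∑ i, ∑ j, G i j * (d i (ricci d g G j m)
        - ∑ p, christoffel d g G p i j * ricci d g G p m
        - ∑ p, christoffel d g G p i m * ricci d g G j p)) := by
    rw [hlhs, two_smul]
    rw [hdiv] at hsum
    linear_combination hsum
  rw [hkey, smul_smul]
  norm_num

end Pool.Agent.Helper44.CI
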