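import Mathlib

/-!
# Complete contractions of the covariant derivatives of the Schouten tensor

The definitions are made for a commutative `ℝ`-algebra `A` with operators `d 0, …, d (n-1)`
(the partial derivatives) and a metric `g i j : A` with inverse `G i j : A`; they are then applied to
real functions on open subsets of `ℝⁿ`.
-/

open scoped BigOperators ContDiff

namespace Pool.Agent.Helper44.CI

section Algebraic

variable {n : ℕ} {A : Type*} [CommRing A] [Algebra ℝ A]

/-- The Christoffel symbols `Γ^k_{ij} = ½ ∑ₗ g^{kl} (∂ᵢ g_{jl} + ∂ⱼ g_{il} - ∂ₗ g_{ij})`. -/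
noncomputable def christoffel (d : Fin n → A → A) (g G : Fin n → Fin n → A) (k i j : Fin n) : A :=
  (1 / 2 : ℝ) • ∑ l, G k l * (d i (g j l) + d j (g i l) - d l (g i j))

/-- The Ricci tensor `R_{ij} = ∂ₖ Γ^k_{ij} - ∂ⱼ Γ^k_{ik} + Γ^k_{kl} Γ^l_{ij} - Γ^k_{jl} Γ^l_{ik}`. -/
noncomputable def ricci (d : Fin n → A → A) (g G : Fin n → Fin n → A) (i j : Fin n) : A :=
  ∑ k, (d k (christoffel d g G k i j) - d j (christoffel d g G k i k)) +
    ∑ k, ∑ l, (christoffel d g G k k l * christoffel d g G l i j -
      christoffel d g G k j l * christoffel d g G l i k)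

/-- The scalar curvature `R = g^{ij} R_{ij}`. -/
noncomputable def scalarCurv (d : Fin n → A → A) (g G : Fin n → Fin n → A) : A :=
  ∑ i, ∑ j, G i j * ricci d g G i j

/-- The Schouten tensor `P_{ij} = (R_{ij} - R g_{ij} / (2 (n - 1))) / (n - 2)`. -/
noncomputable def schouten (d : Fin n → A → A) (g G : Fin n → Fin n → A) (i j : Fin n) : A :=
  (1 / ((n : ℝ) - 2)) •
    (ricci d g G i j - (1 / (2 * ((n : ℝ) - 1))) • (scalarCurv d g G * g i j))

/-- The covariant derivative of a covariant tensor `T` of rank `r`; the new index comes first: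
`(∇T)_{i₀ i₁ … i_r} = ∂_{i₀} T_{i₁ … i_r} - ∑ₛ ∑ₖ Γ^k_{i₀ iₛ} T_{i₁ … k … i_r}`. -/
noncomputable def covDeriv (d : Fin n → A → A) (g G : Fin n → Fin n → A) {r : ℕ}
    (T : (Fin r → Fin n) → A) (i : Fin (r + 1) → Fin n) : A :=
  d (i 0) (T (Fin.tail i)) -
    ∑ s : Fin r, ∑ k, christoffel d g G k (i 0) (i s.succ) *
      T (Function.update (Fin.tail i) s k)

/-- The `l`-th covariant derivative `∇^l P` of the Schouten tensor, of rank `l + 2`. -/
noncomputable def covDerivP (d : Fin n → A → A) (g G : Fin n → Fin n → A) :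
    (l : ℕ) → (Fin (l + 2) → Fin n) → A
  | 0 => fun i => schouten d g G (i 0) (i 1)
  | l + 1 => covDeriv d g G (covDerivP d g G l)

/-- The data of a complete contraction of `∇^{l₀}P ⊗ ⋯ ⊗ ∇^{l_{k-1}}P`: the number `k` of factors,
the orders `l a` of the derivatives, and a grouping of all the indices (the `p`-th index of the
`a`-th factor is `⟨a, p⟩`) into `m` pairs `(e (s, 0), e (s, 1))`. -/
structure Contraction where
  /-- the number of factors -/
  k : ℕ
  /-- the orders of the covariant derivatives -/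
  l : Fin k → ℕ
  /-- the number of pairs of indices -/
  m : ℕ
  /-- the pairs of indices -/
  e : Fin m × Fin 2 ≃ (Σ a : Fin k, Fin (l a + 2))

/-- The value of a complete contraction:
`∑ ∏ₛ g^{i_{e(s,0)} i_{e(s,1)}} ∏ₐ (∇^{l_a}P)_{i_{a,0} i_{a,1} …}`, summed over all values of all
the indices. -/
noncomputable def Contraction.eval (C : Contraction) (d : Fin n → A → A)
    (g G : Fin n → Fin n → A) : A :=
  ∑ i : (Σ a : Fin C.k, Fin (C.l a + 2)) → Fin n,
    (∏ s : Fin C.m, G (i (C.e (s, 0))) (i (C.e (s, 1)))) *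
      ∏ a : Fin C.k, covDerivP d g G (C.l a) (fun p => i ⟨a, p⟩)

/-- The value of a linear combination, with real coefficients, of complete contractions. -/
noncomputable def linComb (c : Contraction →₀ ℝ) (d : Fin n → A → A)
    (g G : Fin n → Fin n → A) : A :=
  c.sum fun C r => r • C.eval d g G

end Algebraic

section Smooth

variable {n : ℕ}

/-- The partial derivatives of real functions on `ℝⁿ`. -/
noncomputable def partialDeriv (i : Fin n) (f : (Fin n → ℝ) → ℝ) (x : Fin n → ℝ) : ℝ :=
  fderiv ℝ f x (Pi.single i 1)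

/-- A Riemannian metric on the open set `U ⊆ ℝⁿ`, given by its components `g i j : ℝⁿ → ℝ`: they
are smooth on `U`, and at every point of `U` the matrix is symmetric and positive definite. -/
structure IsMetricOn (U : Set (Fin n → ℝ)) (g : Fin n → Fin n → (Fin n → ℝ) → ℝ) : Prop where
  /-- the components are smooth -/
  smooth : ∀ i j, ContDiffOn ℝ ∞ (g i j) U
  /-- the matrix is symmetric and positive definite -/
  posDef : ∀ x ∈ U, (Matrix.of fun i j => g i j x).PosDef

/-- The components `g^{ij}` of the inverse metric. -/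
noncomputable def inverseMetric (g : Fin n → Fin n → (Fin n → ℝ) → ℝ) (i j : Fin n)
    (x : Fin n → ℝ) : ℝ :=
  (Matrix.of fun i j => g i j x)⁻¹ i j

/-- The scalar function assigned to the metric `g` by a linear combination of complete contractions
of the tensors `∇^l P`. -/
noncomputable def scalar (c : Contraction →₀ ℝ) (g : Fin n → Fin n → (Fin n → ℝ) → ℝ) :
    (Fin n → ℝ) → ℝ :=
  linComb c partialDeriv g (inverseMetric g)

/-- `c` is a scalar conformal invariant of weight `w` in dimension `n`: for every open set `U`,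
every metric `g` on `U` and every smooth function `u` on `U`, `I(e^{2u} g) = e^{wu} I(g)` on
`U`. -/
def IsConformalInvariant (n : ℕ) (w : ℝ) (c : Contraction →₀ ℝ) : Prop :=
  ∀ (U : Set (Fin n → ℝ)), IsOpen U → ∀ (g : Fin n → Fin n → (Fin n → ℝ) → ℝ), IsMetricOn U g →
    ∀ u : (Fin n → ℝ) → ℝ, ContDiffOn ℝ ∞ u U → ∀ x ∈ U,
      scalar c (fun i j y => Real.exp (2 * u y) * g i j y) x = Real.exp (w * u x) * scalar c g x

end Smooth

end Pool.Agent.Helper44.CI
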