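import Pool.Agent.Helper44.CI.Func

/-!
# Reduction to monomial fields and to real plane waves
-/

open scoped BigOperators
open MvPowerSeries (constantCoeff pderiv)

namespace Pool.Agent.Helper44.CI

variable {n : ℕ} {c : Contraction →₀ ℝ}

/-- the field `X^α A` -/
noncomputable def monF {K : Type} [CommRing K] (α : Fin n →₀ ℕ) (A : Fin n → Fin n → K) :
    Fld n K := fun i j => MvPowerSeries.monomial α (A i j)

namespace Mon

section leg

variable {K : Type} [CommRing K] [Algebra ℝ K]

/-- `F` as a linear function of one leg -/
noncomputable def leg (c : Contraction →₀ ℝ) {ι : Type} [Fintype ι] [DecidableEq ι]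
    (H : ι → Fld n K) (i : ι) : Fld n K →ₗ[K] K where
  toFun Y := F c (Function.update H i Y)
  map_add' Y Z := F_add H i Y Z
  map_smul' r Y := by
    have h1 : (r • Y : Fld n K) = fun a b => MvPowerSeries.C r * Y a b := by
      funext a b
      exact MvPowerSeries.smul_eq_C_mul _ _
    rw [h1]
    exact F_smul H i r Y

lemma leg_apply {ι : Type} [Fintype ι] [DecidableEq ι] (H : ι → Fld n K) (i : ι) (Y : Fld n K) :
    leg c H i Y = F c (Function.update H i Y) := rfl

lemma leg_self {ι : Type} [Fintype ι] [DecidableEq ι] (H : ι → Fld n K) (i : ι) :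
    leg c H i (H i) = F c H := by
  rw [leg_apply, Function.update_eq_self]

/-- reduction to a spanning set -/
theorem F_span (S : Set (Fld n K)) {ι : Type} [Fintype ι] [DecidableEq ι]
    (h : ∀ B : ι → Fld n K, (∀ i, B i ∈ S) → F c B = 0) (H : ι → Fld n K)
    (hH : ∀ i, H i ∈ Submodule.span K S) : F c H = 0 := by
  have key : ∀ s : Finset ι, ∀ H : ι → Fld n K, (∀ i ∈ s, H i ∈ Submodule.span K S) →
      (∀ i, i ∉ s → H i ∈ S) → F c H = 0 := by
    intro s
    induction s using Finset.induction_on with
    | empty =>
      intro H _ h2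
      exact h H fun i => h2 i (Finset.notMem_empty i)
    | insert i s hi ih =>
      intro H h1 h2
      rw [← leg_self H i]
      have h3 : Submodule.span K S ≤ LinearMap.ker (leg c H i) := by
        rw [Submodule.span_le]
        intro Y hY
        rw [SetLike.mem_coe, LinearMap.mem_ker, leg_apply]
        apply ih
        · intro j hj
          have hne : j ≠ i := fun h => hi (h ▸ hj)
          rw [Function.update_of_ne hne]
          exact h1 j (Finset.mem_insert_of_mem hj)
        · intro j hj
          by_cases hji : j = i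
          · subst hji
            rw [Function.update_self]
            exact hY
          · rw [Function.update_of_ne hji]
            exact h2 j (by simp [hji, hj])
      exact LinearMap.mem_ker.1 (h3 (h1 i (Finset.mem_insert_self i s)))
  exact key Finset.univ H (fun i _ => hH i) fun i hi => absurd (Finset.mem_univ i) hi

/-- scalars in all the legs -/
theorem F_smul_all {ι : Type} [Fintype ι] (r : ι → K) (H : ι → Fld n K) :
    F c (fun i => r i • H i) = (∏ i, r i) * F c H := by
  classical
  have key : ∀ s : Finset ι, F c (fun i => if i ∈ s then r i • H i else H i) =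
      (∏ i ∈ s, r i) * F c H := by
    intro s
    induction s using Finset.induction_on with
    | empty => simp
    | insert i s hi ih =>
      have h1 : (fun j => if j ∈ insert i s then r j • H j else H j) =
          Function.update (fun j => if j ∈ s then r j • H j else H j) i (r i • H i) := by
        funext j
        by_cases hj : j = i
        · subst hj; simp
        · rw [Function.update_of_ne hj]
          simp [hj]
      have h2 : Function.update (fun j => if j ∈ s then r j • H j else H j) i (H i) =
          fun j => if j ∈ s then r j • H j else H j := by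
        rw [Function.update_eq_iff]
        refine ⟨by simp [hi], fun _ _ => rfl⟩
      rw [h1, ← leg_apply, map_smul, leg_apply, h2, ih, Finset.prod_insert hi, smul_eq_mul,
        mul_assoc]
  have := key Finset.univ
  simpa using this

end leg

section trunc

variable {K : Type} [CommRing K]

/-- the exponents of degree at most `n` -/
noncomputable def expo (n : ℕ) : Finset (Fin n →₀ ℕ) := (Finsupp.finite_of_degree_le n).toFinset

lemma mem_expo {α : Fin n →₀ ℕ} : α ∈ expo n ↔ α.degree ≤ n := by
  simp [expo]

lemma coeff_monF (α β : Fin n →₀ ℕ) (A : Fin n → Fin n → K) (i j : Fin n) :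
    MvPowerSeries.coeff β (monF α A i j) = if β = α then A i j else 0 := by
  classical
  rw [monF, MvPowerSeries.coeff_monomial]

/-- the terms of degree at most `n` -/
noncomputable def tr (Y : Fld n K) : Fld n K :=
  ∑ α ∈ expo n, monF α (fun i j => MvPowerSeries.coeff α (Y i j))

lemma coeff_tr (Y : Fld n K) (β : Fin n →₀ ℕ) (i j : Fin n) :
    MvPowerSeries.coeff β (tr Y i j) =
      if β.degree ≤ n then MvPowerSeries.coeff β (Y i j) else 0 := by
  classical
  have h1 : tr Y i j = ∑ α ∈ expo n, monF α (fun i j => MvPowerSeries.coeff α (Y i j)) i j := by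
    rw [tr, Finset.sum_apply, Finset.sum_apply]
  rw [h1, map_sum]
  simp only [coeff_monF]
  rw [Finset.sum_ite_eq]
  simp only [mem_expo]

variable [Algebra ℝ K]

lemma F_tr (hw : HasWeight n c) {ι : Type} [Fintype ι] (H : ι → Fld n K) :
    F c H = F c (fun i => tr (H i)) :=
  F_congr hw H _ fun i a b α hα => by rw [coeff_tr, if_pos hα]

/-- a leg without terms of degree at most `n` -/
lemma F_zero_leg (hw : HasWeight n c) {ι : Type} [Fintype ι] [DecidableEq ι]
    (H : ι → Fld n K) (i : ι)
    (h : ∀ a b, ∀ α : Fin n →₀ ℕ, α.degree ≤ n → MvPowerSeries.coeff α (H i a b) = 0) :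
    F c H = 0 := by
  have h1 : F c H = F c (Function.update H i 0) := by
    apply F_congr hw
    intro j a b α hα
    by_cases hj : j = i
    · subst hj
      rw [Function.update_self, h a b α hα]
      simp
    · rw [Function.update_of_ne hj]
  rw [h1, ← leg_apply, map_zero]

end trunc

section basis

/-- the real symmetric matrices -/
noncomputable def eM (x y : Fin n) : Fin n → Fin n → ℝ := fun i j =>
  (1 / 2 : ℝ) * ((if x = i then 1 else 0) * (if y = j then 1 else 0) +
    (if x = j then 1 else 0) * (if y = i then 1 else 0))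

lemma eM_symm (x y : Fin n) : SymM (eM x y) := by
  intro i j
  simp only [eM]
  ring

variable {K : Type} [CommRing K] [Algebra ℝ K]

lemma monF_expand (α : Fin n →₀ ℕ) (A : Fin n → Fin n → K) (hA : SymM A) :
    monF α A = ∑ x, ∑ y, A x y • mapF (algebraMap ℝ K) (monF α (eM x y)) := by
  classical
  funext i j
  rw [Finset.sum_apply, Finset.sum_apply]
  ext β
  rw [coeff_monF, map_sum]
  have h1 : ∀ x, MvPowerSeries.coeff β
      ((∑ y, A x y • mapF (algebraMap ℝ K) (monF α (eM x y))) i j) =
      if β = α then ∑ y, A x y * algebraMap ℝ K (eM x y i j) else 0 := by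
    intro x
    rw [Finset.sum_apply, Finset.sum_apply, map_sum]
    have h2 : ∀ y, MvPowerSeries.coeff β ((A x y • mapF (algebraMap ℝ K) (monF α (eM x y))) i j) =
        if β = α then A x y * algebraMap ℝ K (eM x y i j) else 0 := by
      intro y
      rw [Pi.smul_apply, Pi.smul_apply, MvPowerSeries.coeff_smul, mapF, MvPowerSeries.coeff_map,
        coeff_monF]
      split_ifs
      · rfl
      · rw [map_zero, mul_zero]
    simp only [h2]
    split_ifs
    · rfl
    · exact Finset.sum_const_zero
  simp only [h1]
  split_ifs with h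
  · have h3 : ∀ x y, A x y * algebraMap ℝ K (eM x y i j) =
        (if x = i then (if y = j then algebraMap ℝ K (1 / 2) * A x y else 0) else 0) +
        (if x = j then (if y = i then algebraMap ℝ K (1 / 2) * A x y else 0) else 0) := by
      intro x y
      simp only [eM, map_mul, map_add, apply_ite (algebraMap ℝ K), map_one, map_zero]
      split_ifs <;> ring
    simp only [h3, Finset.sum_add_distrib]
    simp only [Finset.sum_ite_irrel, Finset.sum_const_zero, Finset.sum_ite_eq', Finset.mem_univ,
      if_true]
    rw [hA j i, ← add_mul, ← map_add]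
    norm_num
  · exact Finset.sum_const_zero.symm

end basis

section wave

/-- a functional of one leg which vanishes on plane waves vanishes on monomials -/
theorem leg_wave (hw : HasWeight n c) {ι : Type} [Fintype ι] [DecidableEq ι] (H : ι → Fld n ℝ)
    (i : ι) (A : Fin n → Fin n → ℝ)
    (h : ∀ b : Fin n → ℝ, b ≠ 0 → leg c H i (wave b A) = 0) (α : Fin n →₀ ℕ) :
    leg c H i (monF α A) = 0 := by
  classical
  by_cases hn : n = 0
  · subst hn
    exact F_zero_leg hw _ i (fun a => a.elim0)
  by_cases hα : α.degree ≤ n
  swap
  · rw [leg_apply]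
    apply F_zero_leg hw _ i
    intro a b β hβ
    rw [Function.update_self, coeff_monF, if_neg]
    rintro rfl
    exact hα hβ
  let w : (Fin n →₀ ℕ) → ℝ := fun β => ∏ l, ((Nat.factorial (β l) : ℝ))⁻¹
  have hw0 : ∀ β, w β ≠ 0 := fun β => Finset.prod_ne_zero_iff.2 fun l _ =>
    inv_ne_zero (Nat.cast_ne_zero.2 (Nat.factorial_ne_zero _))
  -- expansion
  have hexp : ∀ b : Fin n → ℝ, leg c H i (wave b A) =
      ∑ β ∈ expo n, (w β * ∏ l, b l ^ β l) * leg c H i (monF β A) := by
    intro b
    have h1 : leg c H i (wave b A) = leg c H i (∑ β ∈ expo n, (w β * ∏ l, b l ^ β l) • monF β A) := by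
      rw [leg_apply, leg_apply]
      apply F_congr hw
      intro j x y β hβ
      by_cases hj : j = i
      · subst hj
        rw [Function.update_self, Function.update_self, Finset.sum_apply, Finset.sum_apply, map_sum]
        have h2 : ∀ γ, MvPowerSeries.coeff β (((w γ * ∏ l, b l ^ γ l) • monF γ A) x y) =
            if β = γ then (w γ * ∏ l, b l ^ γ l) * A x y else 0 := by
          intro γ
          rw [Pi.smul_apply, Pi.smul_apply, MvPowerSeries.coeff_smul, coeff_monF]
          split_ifs <;> simp
        simp only [h2]
        rw [Finset.sum_ite_eq, if_pos (mem_expo.2 hβ), wave, MvPowerSeries.coeff_C_mul]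
        rw [mul_comm]
        rfl
      · rw [Function.update_of_ne hj, Function.update_of_ne hj]
    rw [h1, map_sum]
    refine Finset.sum_congr rfl fun β _ => ?_
    rw [map_smul, smul_eq_mul]
  -- the polynomial
  let p : MvPolynomial (Fin n) ℝ := ∑ β ∈ expo n, MvPolynomial.monomial β
    (w β * leg c H i (monF β A))
  have hp : ∀ b : Fin n → ℝ, MvPolynomial.eval b p = leg c H i (wave b A) := by
    intro b
    rw [hexp b]
    simp only [p, map_sum, MvPolynomial.eval_monomial]
    refine Finset.sum_congr rfl fun β _ => ?_
    rw [Finsupp.prod_fintype _ _ (fun _ => pow_zero _)]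
    ring
  have hp0 : MvPolynomial.X ⟨0, Nat.pos_of_ne_zero hn⟩ * p = 0 := by
    apply MvPolynomial.funext
    intro b
    rw [map_mul, MvPolynomial.eval_X, map_zero]
    by_cases hb : b ⟨0, Nat.pos_of_ne_zero hn⟩ = 0
    · rw [hb, zero_mul]
    · rw [hp b, h b (fun h0 => hb (by rw [h0]; rfl)), mul_zero]
  have hp1 : p = 0 := by
    rcases mul_eq_zero.1 hp0 with h1 | h1
    · exact absurd h1 (MvPolynomial.X_ne_zero _)
    · exact h1
  have hc : MvPolynomial.coeff α p = w α * leg c H i (monF α A) := by
    simp only [p, MvPolynomial.coeff_sum, MvPolynomial.coeff_monomial]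
    rw [Finset.sum_ite_eq', if_pos (mem_expo.2 hα)]
  rw [hp1, MvPolynomial.coeff_zero] at hc
  rcases mul_eq_zero.1 hc.symm with h1 | h1
  · exact absurd h1 (hw0 α)
  · exact h1

end wave

end Mon

open Mon

/-- It suffices to consider monomial fields with real coefficients. -/
theorem vanish_of_mono (hw : HasWeight n c) (m : ℕ)
    (h : ∀ (ι : Type) [Fintype ι] [DecidableEq ι], Fintype.card ι = m →
      ∀ (α : ι → Fin n →₀ ℕ) (A : ι → Fin n → Fin n → ℝ), (∀ j, SymM (A j)) →
        F c (fun j => monF (α j) (A j)) = 0) : Vanish n c m := by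
  intro ι _ _ hm K _ _ H hH
  rw [F_tr hw]
  apply F_span (Set.range fun p : (Fin n →₀ ℕ) × Fin n × Fin n =>
    mapF (algebraMap ℝ K) (monF p.1 (eM p.2.1 p.2.2)))
  · intro B hB
    choose p hp using hB
    have h1 : B = fun i => mapF (Algebra.ofId ℝ K).toRingHom
        (monF (p i).1 (eM (p i).2.1 (p i).2.2)) := by
      funext i
      rw [← hp i]
      rfl
    rw [h1, F_map (Algebra.ofId ℝ K), h ι hm _ _ fun j => eM_symm _ _, map_zero]
  · intro i
    rw [tr]
    apply Submodule.sum_mem
    intro α _
    rw [monF_expand α _ (fun a b => by rw [hH i a b])]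
    apply Submodule.sum_mem
    intro x _
    apply Submodule.sum_mem
    intro y _
    apply Submodule.smul_mem
    exact Submodule.subset_span ⟨(α, x, y), rfl⟩

/-- weights -/
theorem F_monF_weight (hw : HasWeight n c) {ι : Type} [Fintype ι] (α : ι → Fin n →₀ ℕ)
    (A : ι → Fin n → Fin n → ℝ) (h : ∑ j, (α j).degree ≠ n) :
    F c (fun j => monF (α j) (A j)) = 0 := by
  let θ : ℝ →ₐ[ℝ] Polynomial ℝ := Algebra.ofId ℝ (Polynomial ℝ)
  have h1 := F_map (c := c) θ (fun j => monF (α j) (A j))
  have h2 := F_rescale hw (Polynomial.X : Polynomial ℝ)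
    (fun j => mapF θ.toRingHom (monF (α j) (A j)))
  have h3 : (fun i a b => MvPowerSeries.rescale (fun _ => (Polynomial.X : Polynomial ℝ))
      (mapF θ.toRingHom (monF (α i) (A i)) a b)) =
      fun i => ((Polynomial.X : Polynomial ℝ) ^ (α i).degree) •
        mapF θ.toRingHom (monF (α i) (A i)) := by
    funext i a b
    ext β
    rw [MvPowerSeries.coeff_rescale, Pi.smul_apply, Pi.smul_apply, MvPowerSeries.coeff_smul,
      mapF, MvPowerSeries.coeff_map, coeff_monF]
    split_ifs with hβ
    · subst hβ
      congr 1
      rw [Finsupp.prod_fintype _ _ (fun _ => pow_zero _), Finset.prod_pow_eq_pow_sum,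
        Finsupp.degree_eq_sum]
    · rw [map_zero, mul_zero, mul_zero]
  rw [h3, F_smul_all, Finset.prod_pow_eq_pow_sum, h1] at h2
  have h4 : ((Polynomial.X : Polynomial ℝ) ^ (∑ j, (α j).degree) - Polynomial.X ^ n) *
      θ (F c fun j => monF (α j) (A j)) = 0 := by
    rw [sub_mul, h2, sub_self]
  rcases mul_eq_zero.1 h4 with h5 | h5
  · exfalso
    apply h
    have h6 := sub_eq_zero.1 h5
    have h7 := congrArg Polynomial.natDegree h6
    simpa using h7
  · have h6 : θ (F c fun j => monF (α j) (A j)) = Polynomial.C (F c fun j => monF (α j) (A j)) := rfl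
    rw [h6] at h5
    exact Polynomial.C_eq_zero.1 h5

/-- fields of degree at most one are Lie derivatives of `δ` -/
theorem exists_lieDl {K : Type} [CommRing K] [Algebra ℝ K] (α : Fin n →₀ ℕ) (hα : α.degree ≤ 1)
    (A : Fin n → Fin n → K) (hA : SymM A) :
    ∃ xi : Fin n → MvPowerSeries (Fin n) K, (∀ k, constantCoeff (xi k) = 0) ∧
      lieDl xi = monF α A := by
  classical
  have hhalf : ∀ f : MvPowerSeries (Fin n) K, MvPowerSeries.C (algebraMap ℝ K (1 / 2)) * f +
      MvPowerSeries.C (algebraMap ℝ K (1 / 2)) * f = f := by
    intro f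
    rw [← add_mul, ← map_add, ← map_add]
    norm_num
  have hlin : ∀ (i : Fin n) (B : Fin n → K), pderiv K i (∑ l, MvPowerSeries.C (B l) *
      MvPowerSeries.X l) = MvPowerSeries.C (B i) := by
    intro i B
    rw [map_sum, Finset.sum_eq_single i]
    · rw [Derivation.leibniz, MvPowerSeries.pderiv_X_self, MvPowerSeries.pderiv_C]
      simp
    · intro l _ hl
      rw [Derivation.leibniz, MvPowerSeries.pderiv_X_of_ne hl, MvPowerSeries.pderiv_C]
      simp
    · intro h; exact absurd (Finset.mem_univ _) h
  rcases Nat.le_one_iff_eq_zero_or_eq_one.1 hα with h0 | h1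
  · rw [Finsupp.degree_eq_zero_iff] at h0
    subst h0
    refine ⟨fun k => MvPowerSeries.C (algebraMap ℝ K (1 / 2)) *
      ∑ l, MvPowerSeries.C (A k l) * MvPowerSeries.X l, ?_, ?_⟩
    · intro k
      simp
    · funext i j
      simp only [lieDl, monF]
      rw [Derivation.leibniz, Derivation.leibniz, hlin, hlin, MvPowerSeries.pderiv_C,
        MvPowerSeries.pderiv_C, hA j i]
      simp only [smul_eq_mul, mul_zero, add_zero]
      rw [hhalf]
      rfl
  · obtain ⟨k, rfl⟩ : ∃ k, Finsupp.single k 1 = α := by
      have : α ∈ Set.range (fun a : Fin n ↦ Finsupp.single a 1) := by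
        rw [Finsupp.range_single_one]; exact h1
      exact this
    let q : MvPowerSeries (Fin n) K := MvPowerSeries.C (algebraMap ℝ K (1 / 4))
    have hq : 4 * q = 1 := by
      have h4 : (4 : MvPowerSeries (Fin n) K) = MvPowerSeries.C (algebraMap ℝ K 4) := by
        rw [map_ofNat (algebraMap ℝ K) 4]
        exact (map_ofNat (MvPowerSeries.C (σ := Fin n) (R := K)) 4).symm
      rw [h4, ← map_mul, ← map_mul]
      norm_num
    have hdq : ∀ i, pderiv K i q = 0 := fun i => MvPowerSeries.pderiv_C
    let D : Fin n → MvPowerSeries (Fin n) K := fun i => if i = k then 1 else 0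
    have hdD : ∀ i j, pderiv K i (D j) = 0 := by
      intro i j
      simp only [D]
      split_ifs
      · exact MvPowerSeries.pderiv_one
      · exact map_zero _
    have hX : ∀ i, pderiv K i (MvPowerSeries.X k) = D i := by
      intro i
      by_cases hik : i = k
      · subst hik
        simp [D]
      · simp only [D, if_neg hik]
        exact MvPowerSeries.pderiv_X_of_ne (Ne.symm hik)
    let L : Fin n → MvPowerSeries (Fin n) K := fun i =>
      ∑ l, MvPowerSeries.C (A i l) * MvPowerSeries.X l
    have hL : ∀ i j, pderiv K i (L j) = MvPowerSeries.C (A i j) := by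
      intro i j
      rw [hA i j]
      exact hlin i _
    let Q : MvPowerSeries (Fin n) K := ∑ j, MvPowerSeries.X j * L j
    have hQ : ∀ i, pderiv K i Q = 2 * L i := by
      intro i
      have h2 : ∀ j, pderiv K i (MvPowerSeries.X j * L j) =
          MvPowerSeries.C (A i j) * MvPowerSeries.X j + (if i = j then L j else 0) := by
        intro j
        rw [Derivation.leibniz, hL, smul_eq_mul, smul_eq_mul]
        by_cases hij : i = j
        · subst hij
          rw [MvPowerSeries.pderiv_X_self, if_pos rfl]
          ring
        · rw [MvPowerSeries.pderiv_X_of_ne (Ne.symm hij), if_neg hij]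
          ring
      simp only [Q, map_sum, h2]
      rw [Finset.sum_add_distrib, Finset.sum_ite_eq, if_pos (Finset.mem_univ _), two_mul]
    refine ⟨fun i => 2 * q * (MvPowerSeries.X k * L i) - q * (D i * Q), ?_, ?_⟩
    · intro i
      have h5 : constantCoeff (L i) = 0 := by
        simp [L]
      have h6 : constantCoeff Q = 0 := by
        simp [Q]
      simp [h5, h6]
    · funext i j
      have hmon : monF (Finsupp.single k 1) A i j =
          MvPowerSeries.C (A i j) * MvPowerSeries.X k := by
        ext β
        rw [coeff_monF, MvPowerSeries.coeff_C_mul, MvPowerSeries.coeff_X]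
        split_ifs <;> simp
      have h2 : (pderiv K i) (2 : MvPowerSeries (Fin n) K) = 0 := by
        have := (pderiv K i).map_natCast 2
        simpa using this
      have h3 : (pderiv K j) (2 : MvPowerSeries (Fin n) K) = 0 := by
        have := (pderiv K j).map_natCast 2
        simpa using this
      rw [hmon]
      simp only [lieDl, map_sub, Derivation.leibniz, hdq, hdD, hX, hL, hQ, smul_eq_mul, h2, h3]
      rw [hA j i]
      linear_combination (MvPowerSeries.C (A i j) * MvPowerSeries.X k) * hq

/-- fields of degree at most one -/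
theorem F_monF_low {ι : Type} [Fintype ι] [DecidableEq ι]
    (hv : ∀ j, j < Fintype.card ι → Vanish n c j) (α : ι → Fin n →₀ ℕ)
    (A : ι → Fin n → Fin n → ℝ) (hA : ∀ j, SymM (A j)) (j : ι) (h : (α j).degree ≤ 1) :
    F c (fun j => monF (α j) (A j)) = 0 := by
  obtain ⟨xi, hxi, hxi2⟩ := exists_lieDl (α j) h (A j) (hA j)
  have hcard : Fintype.card {i : ι // i ≠ j} < Fintype.card ι := by
    rw [Fintype.card_subtype_compl, Fintype.card_subtype_eq]
    have : 0 < Fintype.card ι := Fintype.card_pos_iff.2 ⟨j⟩
    omega
  have h1 := F_gauge (K := ℝ) (hv _ hcard) xi hxi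
    (fun i : {i : ι // i ≠ j} => monF (α i) (A i)) (fun i a b => by simp only [monF]; rw [hA i a b])
  rw [← F_reindex (Equiv.optionSubtypeNe j)]
  convert h1 using 2
  funext o
  rcases o with _ | o
  · rw [Equiv.optionSubtypeNe_none]
    exact hxi2.symm
  · rw [Equiv.optionSubtypeNe_some]
    rfl

/-- more than `n / 2` legs -/
theorem vanish_large (hw : HasWeight n c) (m : ℕ) (hm : n < 2 * m)
    (hv : ∀ j, j < m → Vanish n c j) : Vanish n c m := by
  apply vanish_of_mono hw
  intro ι _ _ hι α A hA
  by_cases h : ∑ j, (α j).degree = n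
  · by_cases h2 : ∃ j, (α j).degree ≤ 1
    · obtain ⟨j, hj⟩ := h2
      exact F_monF_low (by rw [hι]; exact hv) α A hA j hj
    · push Not at h2
      exfalso
      have h3 : ∑ j : ι, 2 ≤ ∑ j, (α j).degree := Finset.sum_le_sum fun j _ => h2 j
      rw [Finset.sum_const, Finset.card_univ, hι, smul_eq_mul] at h3
      omega
  · exact F_monF_weight hw α A h

/-- From real plane waves to everything. -/
theorem vanish_of_wave (hw : HasWeight n c) (m : ℕ)
    (h : ∀ (ι : Type) [Fintype ι] [DecidableEq ι], Fintype.card ι = m →
      ∀ (a : ι → Fin n → ℝ) (A : ι → Fin n → Fin n → ℝ), (∀ j, a j ≠ 0) → (∀ j, SymM (A j)) →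
        F c (fun j => wave (a j) (A j)) = 0) : Vanish n c m := by
  apply vanish_of_mono hw
  intro ι _ _ hι α A hA
  have key : ∀ s : Finset ι, ∀ a : ι → Fin n → ℝ, (∀ j, a j ≠ 0) →
      F c (fun j => if j ∈ s then monF (α j) (A j) else wave (a j) (A j)) = 0 := by
    intro s
    induction s using Finset.induction_on with
    | empty =>
      intro a ha
      simpa using h ι hι a A ha hA
    | insert i s hi ih =>
      intro a ha
      set H : ι → Fld n ℝ := fun j => if j ∈ s then monF (α j) (A j) else wave (a j) (A j) with hH
      have h1 : (fun j => if j ∈ insert i s then monF (α j) (A j) else wave (a j) (A j)) =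
          Function.update H i (monF (α i) (A i)) := by
        funext j
        by_cases hj : j = i
        · subst hj; simp
        · rw [Function.update_of_ne hj]
          simp [hj, hH]
      have h2 : ∀ b : Fin n → ℝ, b ≠ 0 → leg c H i (wave b (A i)) = 0 := by
        intro b hb
        have := ih (Function.update a i b) (by
          intro j
          by_cases hj : j = i
          · subst hj; rw [Function.update_self]; exact hb
          · rw [Function.update_of_ne hj]; exact ha j)
        rw [leg_apply, ← this]
        congr 1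
        funext j
        by_cases hj : j = i
        · subst hj
          rw [Function.update_self, if_neg hi, Function.update_self]
        · rw [Function.update_of_ne hj, Function.update_of_ne hj]
      rw [h1, ← leg_apply]
      exact leg_wave hw H i (A i) h2 (α i)
  have h1 : n ≠ 0 → F c (fun j => monF (α j) (A j)) = 0 := by
    intro hn
    have := key Finset.univ (fun _ _ => 1) (by
      intro j h
      have := congrFun h ⟨0, Nat.pos_of_ne_zero hn⟩
      simp at this)
    simpa using this
  by_cases hn : n = 0
  · subst hn
    by_cases hm : Nonempty ι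
    · obtain ⟨i⟩ := hm
      exact F_zero_leg hw _ i (fun a => a.elim0)
    · rw [not_nonempty_iff] at hm
      have := h ι hι (fun _ _ => 0) A (fun j => (hm.false j).elim) hA
      rw [← this]
      congr 1
      funext j
      exact (hm.false j).elim
  · exact h1 hn

end Pool.Agent.Helper44.CI
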