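import Pool.Agent.Helper44.CI.Func
import Pool.Agent.Helper44.CI.Bianchi

/-!
# Vanishing on Ricci-flat perturbations
-/

open scoped BigOperators

namespace Pool.Agent.Helper44.CI

variable {n : ℕ}

section Ord

variable {ι : Type} {K : Type} [CommRing K]

/-- all the coefficients of order `< m` vanish -/
def Ord (m : ℕ) (q : Sq ι K) : Prop := ∀ T : Finset ι, T.card < m → coef T q = 0

lemma ord_zero (q : Sq ι K) : Ord 0 q := fun _ h => absurd h (Nat.not_lt_zero _)

lemma ord_of_zero (m : ℕ) : Ord m (0 : Sq ι K) := fun _ _ => map_zero _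

lemma Ord.mono {m k : ℕ} {q : Sq ι K} (h : Ord m q) (hk : k ≤ m) : Ord k q :=
  fun T hT => h T (lt_of_lt_of_le hT hk)

lemma Ord.add {m : ℕ} {p q : Sq ι K} (hp : Ord m p) (hq : Ord m q) : Ord m (p + q) :=
  fun T hT => by rw [map_add, hp T hT, hq T hT, add_zero]

lemma Ord.sub {m : ℕ} {p q : Sq ι K} (hp : Ord m p) (hq : Ord m q) : Ord m (p - q) :=
  fun T hT => by rw [map_sub, hp T hT, hq T hT, sub_zero]

lemma Ord.sum {m : ℕ} {β : Type*} (s : Finset β) (f : β → Sq ι K) (h : ∀ b ∈ s, Ord m (f b)) :
    Ord m (∑ b ∈ s, f b) :=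
  fun T hT => by
    rw [map_sum]
    exact Finset.sum_eq_zero fun b hb => h b hb T hT

lemma coef_rsmul [Algebra ℝ K] (S : Finset ι) (r : ℝ) (q : Sq ι K) :
    coef S (r • q) = r • coef S q := by
  rw [← algebraMap_smul K r q, map_smul, algebraMap_smul]

lemma Ord.rsmul [Algebra ℝ K] {m : ℕ} {q : Sq ι K} (h : Ord m q) (r : ℝ) : Ord m (r • q) :=
  fun T hT => by rw [coef_rsmul, h T hT, smul_zero]

lemma prod_nu_mul [DecidableEq ι] (T U : Finset ι) :
    (∏ i ∈ T, (nu i : Sq ι K)) * ∏ i ∈ U, nu i =
      if Disjoint T U then ∏ i ∈ T ∪ U, nu i else 0 := by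
  split_ifs with h
  · rw [Finset.prod_union h]
  · rw [Finset.not_disjoint_iff] at h
    obtain ⟨i, hT, hU⟩ := h
    rw [← Finset.mul_prod_erase T _ hT, ← Finset.mul_prod_erase U _ hU]
    have : (nu i : Sq ι K) * (∏ x ∈ T.erase i, nu x) * (nu i * ∏ x ∈ U.erase i, nu x) =
        (nu i * nu i) * ((∏ x ∈ T.erase i, nu x) * ∏ x ∈ U.erase i, nu x) := by ring
    rw [this, nu_mul_self, zero_mul]

variable [Fintype ι] [DecidableEq ι]

lemma Ord.mul {m k : ℕ} {p q : Sq ι K} (hp : Ord m p) (hq : Ord k q) : Ord (m + k) (p * q) := by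
  intro S hS
  rw [sq_expand p, sq_expand q, Finset.sum_mul_sum, map_sum]
  refine Finset.sum_eq_zero fun T _ => ?_
  rw [map_sum]
  refine Finset.sum_eq_zero fun U _ => ?_
  have e : algebraMap K (Sq ι K) (coef T p) * (∏ i ∈ T, nu i) *
      (algebraMap K (Sq ι K) (coef U q) * ∏ i ∈ U, nu i) =
      algebraMap K (Sq ι K) (coef T p * coef U q) * ((∏ i ∈ T, nu i) * ∏ i ∈ U, nu i) := by
    rw [map_mul]; ring
  rw [e, prod_nu_mul]
  split_ifs with hd
  · rw [coef_smul_prod_nu]
    split_ifs with hSU
    · have hc : S.card = T.card + U.card := by rw [hSU, Finset.card_union_of_disjoint hd]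
      by_cases hT : T.card < m
      · rw [hp T hT, zero_mul]
      · have hU : U.card < k := by omega
        rw [hq U hU, mul_zero]
    · rfl
  · rw [mul_zero, map_zero]

lemma Ord.mul_left {m : ℕ} {q : Sq ι K} (h : Ord m q) (p : Sq ι K) : Ord m (p * q) := by
  have := (ord_zero p).mul h
  rwa [zero_add] at this

lemma Ord.mul_right {m : ℕ} {q : Sq ι K} (h : Ord m q) (p : Sq ι K) : Ord m (q * p) := by
  rw [mul_comm]; exact h.mul_left p

lemma ord_one_sub (p : Sq ι K) : Ord 1 (p - algebraMap K (Sq ι K) (coef ∅ p)) := by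
  intro T hT
  have hT0 : T = ∅ := Finset.card_eq_zero.1 (by omega)
  rw [hT0, map_sub, coef_algebraMap, if_pos rfl, sub_self]

/-- The leading coefficient of a product. -/
lemma coef_mul_lead {m : ℕ} (p : Sq ι K) {q : Sq ι K} (hq : Ord m q) {S : Finset ι}
    (hS : S.card ≤ m) : coef S (p * q) = coef ∅ p * coef S q := by
  have h1 := (ord_one_sub p).mul hq S (by omega)
  rw [sub_mul, map_sub, sub_eq_zero] at h1
  rw [h1, ← Algebra.smul_def, map_smul, smul_eq_mul]

lemma Ord.pow {q : Sq ι K} (h : Ord 1 q) (k : ℕ) : Ord k (q ^ k) := by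
  induction k with
  | zero => exact ord_zero _
  | succ k ih =>
    rw [pow_succ]
    exact ih.mul h

lemma ord_top {q : Sq ι K} (h : Ord (Fintype.card ι + 1) q) : q = 0 := by
  apply sq_ext
  intro S
  rw [map_zero]
  exact h S (Nat.lt_succ_of_le (Finset.card_le_univ S))

lemma isUnit_of_ord {q : Sq ι K} (h : Ord 1 (q - 1)) : IsUnit q := by
  have hn : IsNilpotent (q - 1) := ⟨Fintype.card ι + 1, ord_top (h.pow _)⟩
  have := hn.isUnit_one_add
  rwa [add_sub_cancel] at this

/-- the augmentation -/
noncomputable def aug : Sq ι K →ₐ[K] K := sqLift (fun _ => 0) (fun _ => by simp)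

lemma aug_eq (q : Sq ι K) : aug q = coef ∅ q := by
  conv_lhs => rw [sq_expand q]
  rw [map_sum, Finset.sum_eq_single ∅]
  · simp [aug]
  · intro S _ hS
    obtain ⟨i, hi⟩ := Finset.nonempty_iff_ne_empty.2 hS
    rw [map_mul, map_prod, Finset.prod_eq_zero hi, mul_zero]
    simp [aug]
  · intro h
    exact absurd (Finset.mem_univ _) h

lemma isUnit_det_of_coef {g : Fin n → Fin n → Sq ι K} (h0 : ∀ x y, coef ∅ (g x y) = dl x y) :
    IsUnit (Matrix.of g).det := by
  apply isUnit_of_ord
  intro T hT
  have hT0 : T = ∅ := Finset.card_eq_zero.1 (by omega)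
  rw [hT0, ← aug_eq, map_sub, map_one, AlgHom.map_det, sub_eq_zero]
  have : aug.mapMatrix (Matrix.of g) = (1 : Matrix (Fin n) (Fin n) K) := by
    ext i j
    rw [AlgHom.mapMatrix_apply, Matrix.map_apply, Matrix.of_apply, aug_eq, h0, Matrix.one_apply]
    rfl
  rw [this, Matrix.det_one]

end Ord

section Lin

variable {ι : Type} [Fintype ι] [DecidableEq ι] {K : Type} [CommRing K] [Algebra ℝ K]

lemma coef_dsq (a : ι → Fin n → K) (i : Fin n) (S : Finset ι) (q : Sq ι K) :
    coef S (dsq a i q) = (∑ j ∈ S, a j i) * coef S q := by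
  rw [dsq, map_sum, Finset.sum_eq_single S]
  · rw [coef_smul_prod_nu, if_pos rfl]
  · intro T _ hT
    rw [coef_smul_prod_nu, if_neg (Ne.symm hT)]
  · intro h
    exact absurd (Finset.mem_univ _) h

lemma Ord.dsq {m : ℕ} {q : Sq ι K} (h : Ord m q) (a : ι → Fin n → K) (i : Fin n) :
    Ord m (dsq a i q) := fun T hT => by rw [coef_dsq, h T hT, mul_zero]

lemma ord_one_dsq (a : ι → Fin n → K) (i : Fin n) (q : Sq ι K) : Ord 1 (dsq a i q) := by
  intro T hT
  have hT0 : T = ∅ := Finset.card_eq_zero.1 (by omega)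
  rw [coef_dsq, hT0, Finset.sum_empty, zero_mul]

/-- the linearised Christoffel symbols -/
noncomputable def linC (b : Fin n → K) (A : Fin n → Fin n → K) (k i j : Fin n) : K :=
  (1 / 2 : ℝ) • (b i * A j k + b j * A i k - b k * A i j)

/-- the linearised Ricci tensor -/
noncomputable def linR (b : Fin n → K) (A : Fin n → Fin n → K) (i j : Fin n) : K :=
  ∑ k, (b k * linC b A k i j - b j * linC b A k i k)

variable {g g' G G' : Fin n → Fin n → Sq ι K} {m : ℕ}

lemma coef_inv (hG : IsInv g G) (h0 : ∀ x y, coef ∅ (g x y) = dl x y) (x y : Fin n) :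
    coef ∅ (G x y) = dl x y := by
  have h1 := congrArg (coef (∅ : Finset ι)) (hG x y)
  rw [map_sum] at h1
  have h2 : ∀ k, coef (∅ : Finset ι) (g x k * G k y) = dl x k * coef ∅ (G k y) := by
    intro k
    rw [coef_mul_lead (m := 0) _ (ord_zero _) (by simp), h0]
  simp_rw [h2] at h1
  rw [Finset.sum_eq_single x] at h1
  · have h3 : coef (∅ : Finset ι) ((dl x y : Sq ι K)) = dl x y := by
      unfold dl
      split_ifs
      · have := coef_algebraMap (K := K) (∅ : Finset ι) (1 : K)
        rwa [map_one, if_pos rfl] at this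
      · exact map_zero _
    rw [h3] at h1
    rw [← h1]
    simp [dl]
  · intro k _ hk
    simp [dl, Ne.symm hk]
  · intro h
    exact absurd (Finset.mem_univ _) h

lemma ord_inv (hG : IsInv g G) (hG' : IsInv g' G') (hh : ∀ x y, Ord m (g' x y - g x y))
    (x y : Fin n) : Ord m (G' x y - G x y) := by
  have h1 : Matrix.of g * Matrix.of G = 1 := by
    ext i j
    rw [Matrix.mul_apply]
    simpa [Matrix.one_apply, dl] using hG i j
  have h2 : Matrix.of g' * Matrix.of G' = 1 := by
    ext i j
    rw [Matrix.mul_apply]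
    simpa [Matrix.one_apply, dl] using hG' i j
  have h3 : Matrix.of G * Matrix.of g = 1 := mul_eq_one_comm.1 h1
  have h4 : Matrix.of G' - Matrix.of G =
      Matrix.of G * (Matrix.of g - Matrix.of g') * Matrix.of G' := by
    rw [mul_sub, sub_mul, h3, one_mul, mul_assoc, h2, mul_one]
  have h5 : G' x y - G x y = (Matrix.of G' - Matrix.of G) x y := rfl
  rw [h5, h4, Matrix.mul_apply]
  refine Ord.sum _ _ fun k _ => ?_
  refine Ord.mul_right ?_ _
  rw [Matrix.mul_apply]
  refine Ord.sum _ _ fun l _ => ?_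
  refine Ord.mul_left ?_ _
  rw [Matrix.sub_apply, Matrix.of_apply, Matrix.of_apply]
  have := hh l k
  intro T hT
  have h6 := this T hT
  rw [map_sub, sub_eq_zero] at h6
  rw [map_sub, h6, sub_self]

lemma ord_christoffel (a : ι → Fin n → K) (k i j : Fin n) :
    Ord 1 (christoffel (dsq a) g G k i j) := by
  unfold christoffel
  refine Ord.rsmul (Ord.sum _ _ fun l _ => ?_) _
  refine Ord.mul_left ?_ _
  exact ((ord_one_dsq _ _ _).add (ord_one_dsq _ _ _)).sub (ord_one_dsq _ _ _)

lemma coef_christoffel (a : ι → Fin n → K) (hG : IsInv g G) (hG' : IsInv g' G')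
    (h0 : ∀ x y, coef ∅ (g x y) = dl x y) (hh : ∀ x y, Ord m (g' x y - g x y))
    {S : Finset ι} (hS : S.card ≤ m) (k i j : Fin n) :
    coef S (christoffel (dsq a) g' G' k i j) = coef S (christoffel (dsq a) g G k i j) +
      linC (fun x => ∑ j ∈ S, a j x) (fun x y => coef S (g' x y - g x y)) k i j := by
  have hd := isDer_dsq (n := n) a
  unfold christoffel linC
  rw [coef_rsmul, coef_rsmul, ← smul_add]
  congr 1
  rw [map_sum, map_sum]
  have key : ∀ l, coef S (G' k l * (dsq a i (g' j l) + dsq a j (g' i l) - dsq a l (g' i j))) =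
      coef S (G k l * (dsq a i (g j l) + dsq a j (g i l) - dsq a l (g i j))) +
      dl k l * ((∑ s ∈ S, a s i) * coef S (g' j l - g j l) + (∑ s ∈ S, a s j) *
        coef S (g' i l - g i l) - (∑ s ∈ S, a s l) * coef S (g' i j - g i j)) := by
    intro l
    have hsub : ∀ (x : Fin n) (p q : Sq ι K), dsq a x (p - q) = dsq a x p - dsq a x q := by
      intro x p q
      have := hd.add x (p - q) q
      rw [sub_add_cancel] at this
      rw [this, add_sub_cancel_right]
    have e : G' k l * (dsq a i (g' j l) + dsq a j (g' i l) - dsq a l (g' i j)) =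
        G k l * (dsq a i (g j l) + dsq a j (g i l) - dsq a l (g i j)) +
        (G' k l - G k l) * (dsq a i (g' j l) + dsq a j (g' i l) - dsq a l (g' i j)) +
        G k l * (dsq a i (g' j l - g j l) + dsq a j (g' i l - g i l) -
          dsq a l (g' i j - g i j)) := by
      rw [hsub, hsub, hsub]
      ring
    rw [e, map_add, map_add]
    have e1 : coef S ((G' k l - G k l) * (dsq a i (g' j l) + dsq a j (g' i l) -
        dsq a l (g' i j))) = 0 := by
      apply (ord_inv hG hG' hh k l).mul
        (((ord_one_dsq a _ _).add (ord_one_dsq a _ _)).sub (ord_one_dsq a _ _)) S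
      omega
    rw [e1, add_zero]
    congr 1
    rw [coef_mul_lead (m := m) _ ((((hh _ _).dsq a _).add ((hh _ _).dsq a _)).sub
      ((hh _ _).dsq a _)) hS, coef_inv hG h0, map_sub, map_add, coef_dsq, coef_dsq, coef_dsq]
  simp_rw [key]
  rw [Finset.sum_add_distrib]
  congr 1
  rw [Finset.sum_eq_single k]
  · simp [dl]
  · intro l _ hl
    simp [dl, Ne.symm hl]
  · intro h
    exact absurd (Finset.mem_univ _) h

lemma ord_christoffel_sub (a : ι → Fin n → K) (hG : IsInv g G) (hG' : IsInv g' G')
    (h0 : ∀ x y, coef ∅ (g x y) = dl x y) (hh : ∀ x y, Ord m (g' x y - g x y)) (k i j : Fin n) :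
    Ord m (christoffel (dsq a) g' G' k i j - christoffel (dsq a) g G k i j) := by
  intro S hS
  rw [map_sub, coef_christoffel a hG hG' h0 hh hS.le]
  have : (fun x y => coef S (g' x y - g x y)) = fun _ _ => (0 : K) := by
    funext x y
    exact hh x y S hS
  rw [this]
  simp [linC]

/-- The variation of the Ricci tensor. -/
theorem coef_ricci (a : ι → Fin n → K) (hG : IsInv g G) (hG' : IsInv g' G')
    (h0 : ∀ x y, coef ∅ (g x y) = dl x y) (hh : ∀ x y, Ord m (g' x y - g x y))
    {S : Finset ι} (hS : S.card ≤ m) (i j : Fin n) :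
    coef S (ricci (dsq a) g' G' i j) = coef S (ricci (dsq a) g G i j) +
      linR (fun x => ∑ j ∈ S, a j x) (fun x y => coef S (g' x y - g x y)) i j := by
  unfold ricci linR
  rw [map_add, map_add, map_sum, map_sum, map_sum, map_sum]
  have e1 : ∀ k, coef S (dsq a k (christoffel (dsq a) g' G' k i j) -
      dsq a j (christoffel (dsq a) g' G' k i k)) =
      coef S (dsq a k (christoffel (dsq a) g G k i j) - dsq a j (christoffel (dsq a) g G k i k)) +
      ((∑ s ∈ S, a s k) * linC (fun x => ∑ j ∈ S, a j x)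
        (fun x y => coef S (g' x y - g x y)) k i j -
       (∑ s ∈ S, a s j) * linC (fun x => ∑ j ∈ S, a j x)
        (fun x y => coef S (g' x y - g x y)) k i k) := by
    intro k
    rw [map_sub, map_sub, coef_dsq, coef_dsq, coef_dsq, coef_dsq,
      coef_christoffel a hG hG' h0 hh hS, coef_christoffel a hG hG' h0 hh hS]
    ring
  have e2 : ∀ k l i j k' l' i' j' : Fin n, coef S (christoffel (dsq a) g' G' k i j *
      christoffel (dsq a) g' G' k' i' j') = coef S (christoffel (dsq a) g G k i j *
      christoffel (dsq a) g G k' i' j') := by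
    intro k l i j k' l' i' j'
    have e : christoffel (dsq a) g' G' k i j * christoffel (dsq a) g' G' k' i' j' =
        christoffel (dsq a) g G k i j * christoffel (dsq a) g G k' i' j' +
        (christoffel (dsq a) g' G' k i j - christoffel (dsq a) g G k i j) *
          christoffel (dsq a) g' G' k' i' j' +
        (christoffel (dsq a) g' G' k' i' j' - christoffel (dsq a) g G k' i' j') *
          christoffel (dsq a) g G k i j := by ring
    rw [e, map_add, map_add]
    have z1 := (ord_christoffel_sub a hG hG' h0 hh k i j).mul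
      (ord_christoffel (g := g') (G := G') a k' i' j') S (by omega)
    have z2 := (ord_christoffel_sub a hG hG' h0 hh k' i' j').mul
      (ord_christoffel (g := g) (G := G) a k i j) S (by omega)
    rw [z1, z2, add_zero, add_zero]
  simp_rw [e1]
  rw [Finset.sum_add_distrib]
  have e3 : ∀ k, coef S (∑ l, (christoffel (dsq a) g' G' k k l * christoffel (dsq a) g' G' l i j -
      christoffel (dsq a) g' G' k j l * christoffel (dsq a) g' G' l i k)) =
      coef S (∑ l, (christoffel (dsq a) g G k k l * christoffel (dsq a) g G l i j -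
      christoffel (dsq a) g G k j l * christoffel (dsq a) g G l i k)) := by
    intro k
    rw [map_sum, map_sum]
    refine Finset.sum_congr rfl fun l _ => ?_
    rw [map_sub, map_sub, e2 k l k l l l i j, e2 k l j l l l i k]
  simp_rw [e3]
  ring

/-- the linearised Ricci tensor, explicitly -/
lemma linR_eq (b : Fin n → K) (A : Fin n → Fin n → K) (i j : Fin n) :
    linR b A i j = (1 / 2 : ℝ) • (b i * (∑ k, A j k * b k) + b j * (∑ k, A i k * b k) -
      (∑ k, b k * b k) * A i j - b i * b j * ∑ k, A k k) := by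
  unfold linR linC
  have e : ∀ k, b k * ((1 / 2 : ℝ) • (b i * A j k + b j * A i k - b k * A i j)) -
      b j * ((1 / 2 : ℝ) • (b i * A k k + b k * A i k - b k * A i k)) =
      (1 / 2 : ℝ) • (b i * (A j k * b k) + b j * (A i k * b k) - b k * b k * A i j -
        b i * b j * A k k) := by
    intro k
    rw [mul_smul_comm, mul_smul_comm, ← smul_sub]
    congr 1
    ring
  simp_rw [e]
  rw [← Finset.smul_sum]
  congr 1
  rw [Finset.sum_sub_distrib, Finset.sum_sub_distrib, Finset.sum_add_distrib, ← Finset.mul_sum,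
    ← Finset.mul_sum, ← Finset.sum_mul, ← Finset.mul_sum]

/-- The contracted Bianchi identity in leading order. -/
lemma bianchi_lead (a : ι → Fin n → K) (hg : SymM g) (hG : IsInv g G)
    (h0 : ∀ x y, coef ∅ (g x y) = dl x y) (hR : ∀ i j, Ord m (ricci (dsq a) g G i j))
    {S : Finset ι} (hS : S.card ≤ m) (x : Fin n) :
    ∑ i, (∑ s ∈ S, a s i) * coef S (ricci (dsq a) g G i x) =
      (1 / 2 : ℝ) • ((∑ s ∈ S, a s x) * ∑ i, coef S (ricci (dsq a) g G i i)) := by
  have h1 := congrArg (coef S) (bianchi (isDer_dsq a) hg hG x)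
  rw [coef_rsmul, coef_dsq, scalarCurv, map_sum, map_sum] at h1
  have e1 : ∀ i, coef S (∑ j, G i j * ricci (dsq a) g G i j) =
      coef S (ricci (dsq a) g G i i) := by
    intro i
    rw [map_sum, Finset.sum_eq_single i]
    · rw [coef_mul_lead _ (hR _ _) hS, coef_inv hG h0]
      simp [dl]
    · intro j _ hj
      rw [coef_mul_lead _ (hR _ _) hS, coef_inv hG h0]
      simp [dl, Ne.symm hj]
    · intro h
      exact absurd (Finset.mem_univ _) h
  have e2 : ∀ i, coef S (∑ j, G i j * (dsq a i (ricci (dsq a) g G j x)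
        - ∑ p, christoffel (dsq a) g G p i j * ricci (dsq a) g G p x
        - ∑ p, christoffel (dsq a) g G p i x * ricci (dsq a) g G j p)) =
      (∑ s ∈ S, a s i) * coef S (ricci (dsq a) g G i x) := by
    intro i
    have o1 : ∀ j, Ord m (dsq a i (ricci (dsq a) g G j x)
        - ∑ p, christoffel (dsq a) g G p i j * ricci (dsq a) g G p x
        - ∑ p, christoffel (dsq a) g G p i x * ricci (dsq a) g G j p) := by
      intro j
      refine (((hR j x).dsq a i).sub ?_).sub ?_
      · exact Ord.sum _ _ fun p _ => (hR p x).mul_left _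
      · exact Ord.sum _ _ fun p _ => (hR j p).mul_left _
    have o2 : ∀ j, coef S (dsq a i (ricci (dsq a) g G j x)
        - ∑ p, christoffel (dsq a) g G p i j * ricci (dsq a) g G p x
        - ∑ p, christoffel (dsq a) g G p i x * ricci (dsq a) g G j p) =
        (∑ s ∈ S, a s i) * coef S (ricci (dsq a) g G j x) := by
      intro j
      rw [map_sub, map_sub, coef_dsq, map_sum, map_sum]
      have z1 : ∀ p, coef S (christoffel (dsq a) g G p i j * ricci (dsq a) g G p x) = 0 :=
        fun p => (ord_christoffel (g := g) (G := G) a p i j).mul (hR p x) S (by omega)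
      have z2 : ∀ p, coef S (christoffel (dsq a) g G p i x * ricci (dsq a) g G j p) = 0 :=
        fun p => (ord_christoffel (g := g) (G := G) a p i x).mul (hR j p) S (by omega)
      rw [Finset.sum_eq_zero fun p _ => z1 p, Finset.sum_eq_zero fun p _ => z2 p, sub_zero,
        sub_zero]
    rw [map_sum, Finset.sum_eq_single i]
    · rw [coef_mul_lead _ (o1 _) hS, coef_inv hG h0, o2]
      simp [dl]
    · intro j _ hj
      rw [coef_mul_lead _ (o1 _) hS, coef_inv hG h0]
      simp [dl, Ne.symm hj]
    · intro h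
      exact absurd (Finset.mem_univ _) h
  simp_rw [e1, e2] at h1
  exact h1

end Lin

section Exist

variable {ι : Type} [Fintype ι] [DecidableEq ι] {K : Type} [Field K] [Algebra ℝ K]

lemma half_smul (y : K) : (1 / 2 : ℝ) • y = y / 2 := by
  rw [Algebra.smul_def, map_div₀, map_one, map_ofNat]
  ring

lemma two_ne' : (2 : K) ≠ 0 := by
  have : (2 : K) = algebraMap ℝ K 2 := by rw [map_ofNat]
  rw [this]
  exact (map_ne_zero _).2 two_ne_zero

lemma coef_dl (S : Finset ι) (x y : Fin n) :
    coef S (dl x y : Sq ι K) = if S = ∅ then dl x y else 0 := by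
  unfold dl
  split_ifs with h1 h2 h2
  · have := coef_algebraMap (K := K) S (1 : K)
    rwa [map_one, if_pos h2] at this
  · have := coef_algebraMap (K := K) S (1 : K)
    rwa [map_one, if_neg h2] at this
  · exact map_zero _
  · exact map_zero _

lemma isInv_dl {A : Type*} [CommRing A] : IsInv (dl : Fin n → Fin n → A) dl := by
  intro i j
  rw [Finset.sum_eq_single i]
  · simp [dl]
  · intro k _ hk
    simp [dl, Ne.symm hk]
  · intro h
    exact absurd (Finset.mem_univ _) h

lemma dsq_dl (a : ι → Fin n → K) (i x y : Fin n) : dsq a i (dl x y : Sq ι K) = 0 := by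
  apply sq_ext
  intro S
  rw [coef_dsq, coef_dl, map_zero]
  split_ifs with h
  · rw [h, Finset.sum_empty, zero_mul]
  · rw [mul_zero]

lemma dsq_zero (a : ι → Fin n → K) (i : Fin n) : dsq a i (0 : Sq ι K) = 0 := by
  apply sq_ext
  intro S
  rw [coef_dsq, map_zero, mul_zero]

lemma ricci_dl (a : ι → Fin n → K) (i j : Fin n) :
    ricci (dsq a) (dl : Fin n → Fin n → Sq ι K) dl i j = 0 := by
  have h : ∀ k i j, christoffel (dsq a) (dl : Fin n → Fin n → Sq ι K) dl k i j = 0 := by
    intro k i j
    unfold christoffel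
    simp [dsq_dl]
  unfold ricci
  simp [h, dsq_zero]

lemma isInv_invM_of_coef {g : Fin n → Fin n → Sq ι K} (h0 : ∀ x y, coef ∅ (g x y) = dl x y) :
    IsInv g (invM g) := isInv_invM (isUnit_det_of_coef h0)

/-- First step. -/
lemma exists_one (a z : ι → Fin n → K) (haa : ∀ j, ∑ x, a j x * a j x = 0)
    (haz : ∀ j, ∑ x, a j x * z j x = 0) (hzz : ∀ j, ∑ x, z j x * z j x = 0) :
    ∃ g : Fin n → Fin n → Sq ι K, SymM g ∧ (∀ x y, coef ∅ (g x y) = dl x y) ∧
      (∀ j x y, coef {j} (g x y) = z j x * z j y) ∧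
      ∀ x y, Ord 2 (ricci (dsq a) g (invM g) x y) := by
  set h : Fin n → Fin n → Sq ι K := fun x y =>
    ∑ j : ι, algebraMap K (Sq ι K) (z j x * z j y) * ∏ i ∈ {j}, nu i with hh
  have hcoef : ∀ (S : Finset ι) x y, coef S (h x y) =
      ∑ j : ι, if S = {j} then z j x * z j y else 0 := by
    intro S x y
    rw [hh, map_sum]
    refine Finset.sum_congr rfl fun j _ => ?_
    rw [coef_smul_prod_nu]
  have hcoef0 : ∀ x y, coef ∅ (h x y) = 0 := by
    intro x y
    rw [hcoef]
    refine Finset.sum_eq_zero fun j _ => ?_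
    rw [if_neg (Ne.symm (Finset.singleton_ne_empty j))]
  have hcoef1 : ∀ j x y, coef {j} (h x y) = z j x * z j y := by
    intro j x y
    rw [hcoef, Finset.sum_eq_single j]
    · simp
    · intro k _ hk
      rw [if_neg]
      intro h'
      exact hk (Finset.singleton_injective h').symm
    · intro h'
      exact absurd (Finset.mem_univ _) h'
  have hsub : ∀ x y, (dl x y + h x y) - dl x y = h x y := fun x y => add_sub_cancel_left _ _
  refine ⟨fun x y => dl x y + h x y, ?_, ?_, ?_, ?_⟩
  · intro x y
    have e1 : (dl x y : Sq ι K) = dl y x := by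
      unfold dl
      by_cases hxy : x = y
      · simp [hxy]
      · simp [hxy, Ne.symm hxy]
    have e2 : h x y = h y x := by
      rw [hh]
      refine Finset.sum_congr rfl fun j _ => ?_
      rw [mul_comm (z j x)]
    simp only [e1, e2]
  · intro x y
    rw [map_add, hcoef0, coef_dl, if_pos rfl, add_zero]
  · intro j x y
    rw [map_add, hcoef1, coef_dl, if_neg (Finset.singleton_ne_empty j), zero_add]
  · intro x y S hS
    have h0 : ∀ x y, coef ∅ (dl x y + h x y) = dl x y := by
      intro x y
      rw [map_add, hcoef0, coef_dl, if_pos rfl, add_zero]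
    rw [coef_ricci (m := 1) a isInv_dl (isInv_invM_of_coef h0)
      (fun x y => by rw [coef_dl, if_pos rfl]) ?_ (by omega), ricci_dl, map_zero, zero_add]
    · have hS' : S.card = 0 ∨ S.card = 1 := by omega
      rcases hS' with h' | h'
      · have : S = ∅ := Finset.card_eq_zero.1 h'
        subst this
        simp [linR, linC]
      · obtain ⟨j, rfl⟩ := Finset.card_eq_one.1 h'
        have e : (fun x y => coef {j} ((dl x y + h x y) - dl x y)) = fun x y => z j x * z j y := by
          funext x y
          rw [hsub, hcoef1]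
        rw [e]
        have e2 : (fun x => ∑ j ∈ {j}, a j x) = a j := by
          funext x
          rw [Finset.sum_singleton]
        rw [e2, linR_eq]
        have e3 : ∀ w : Fin n, ∑ k, z j w * z j k * a j k = 0 := by
          intro w
          have : ∑ k, z j w * z j k * a j k = z j w * ∑ k, a j k * z j k := by
            rw [Finset.mul_sum]
            exact Finset.sum_congr rfl fun k _ => by ring
          rw [this, haz, mul_zero]
        rw [e3, e3, haa, hzz]
        simp
    · intro x y T hT
      have hT0 : T = ∅ := Finset.card_eq_zero.1 (by omega)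
      rw [hsub, hT0, hcoef0]

/-- Induction step. -/
lemma exists_succ (a z : ι → Fin n → K)
    (hS : ∀ S : Finset ι, 2 ≤ S.card → ∑ x, (∑ j ∈ S, a j x) * (∑ j ∈ S, a j x) ≠ 0) {m : ℕ}
    (hm : 1 ≤ m) (hex : ∃ g : Fin n → Fin n → Sq ι K, SymM g ∧
      (∀ x y, coef ∅ (g x y) = dl x y) ∧ (∀ j x y, coef {j} (g x y) = z j x * z j y) ∧
      ∀ x y, Ord (m + 1) (ricci (dsq a) g (invM g) x y)) :
    ∃ g : Fin n → Fin n → Sq ι K, SymM g ∧ (∀ x y, coef ∅ (g x y) = dl x y) ∧
      (∀ j x y, coef {j} (g x y) = z j x * z j y) ∧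
      ∀ x y, Ord (m + 2) (ricci (dsq a) g (invM g) x y) := by
  obtain ⟨g, hg, h0, h1, hR⟩ := hex
  have hG := isInv_invM_of_coef h0
  have hRs := ricci_symm (isDer_dsq a) hg hG
  set A : Finset ι → Fin n → Fin n → K := fun S x y =>
    if S.card = m + 1 then 2 / (∑ x, (∑ j ∈ S, a j x) * (∑ j ∈ S, a j x)) *
      coef S (ricci (dsq a) g (invM g) x y) else 0 with hA
  have hAs : ∀ S x y, A S x y = A S y x := by
    intro S x y
    simp only [hA]
    rw [hRs x y]
  set h : Fin n → Fin n → Sq ι K := fun x y =>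
    ∑ S : Finset ι, algebraMap K (Sq ι K) (A S x y) * ∏ i ∈ S, nu i with hh
  have hcoef : ∀ (S : Finset ι) x y, coef S (h x y) = A S x y := by
    intro S x y
    rw [hh, map_sum, Finset.sum_eq_single S]
    · rw [coef_smul_prod_nu, if_pos rfl]
    · intro T _ hT
      rw [coef_smul_prod_nu, if_neg (Ne.symm hT)]
    · intro h'
      exact absurd (Finset.mem_univ _) h'
  have hA0 : ∀ S x y, S.card ≠ m + 1 → A S x y = 0 := by
    intro S x y hne
    simp only [hA]
    rw [if_neg hne]
  have h0' : ∀ x y, coef ∅ (g x y + h x y) = dl x y := by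
    intro x y
    rw [map_add, h0, hcoef, hA0 _ _ _ (by simp), add_zero]
  refine ⟨fun x y => g x y + h x y, ?_, h0', ?_, ?_⟩
  · intro x y
    have e2 : h x y = h y x := by
      rw [hh]
      refine Finset.sum_congr rfl fun S _ => ?_
      rw [hAs S x y]
    simp only [hg x y, e2]
  · intro j x y
    rw [map_add, h1, hcoef, hA0 _ _ _ (by rw [Finset.card_singleton]; omega), add_zero]
  · intro x y S hSc
    have hsub : ∀ x y, (g x y + h x y) - g x y = h x y := fun x y => add_sub_cancel_left _ _
    rw [coef_ricci (m := m + 1) a hG (isInv_invM_of_coef h0') h0 ?_ (by omega)]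
    · have e : (fun x y => coef S ((g x y + h x y) - g x y)) = A S := by
        funext x y
        rw [hsub, hcoef]
      rw [e]
      by_cases hc : S.card = m + 1
      · set q := ∑ x, (∑ j ∈ S, a j x) * (∑ j ∈ S, a j x) with hq
        have hq0 : q ≠ 0 := hS S (by omega)
        have hAe : ∀ x y, A S x y = 2 / q * coef S (ricci (dsq a) g (invM g) x y) := by
          intro x y
          simp only [hA]
          rw [if_pos hc]
        have hb := bianchi_lead a hg hG h0 hR hc.le
        have hsum : ∀ w : Fin n, ∑ k, A S w k * ∑ j ∈ S, a j k =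
            (∑ s ∈ S, a s w) * (∑ i, coef S (ricci (dsq a) g (invM g) i i)) / q := by
          intro w
          have e1 : ∑ k, A S w k * ∑ j ∈ S, a j k =
              2 / q * ∑ k, (∑ j ∈ S, a j k) * coef S (ricci (dsq a) g (invM g) k w) := by
            rw [Finset.mul_sum]
            refine Finset.sum_congr rfl fun k _ => ?_
            rw [hAe, hRs w k]
            ring
          rw [e1, hb w, half_smul]
          have := two_ne' (K := K)
          field_simp
        have htr : ∑ k, A S k k = 2 / q * ∑ i, coef S (ricci (dsq a) g (invM g) i i) := by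
          rw [Finset.mul_sum]
          exact Finset.sum_congr rfl fun k _ => hAe k k
        rw [linR_eq, hsum, hsum, htr, hAe, ← hq, half_smul]
        have := two_ne' (K := K)
        field_simp
        ring
      · have hlt : S.card < m + 1 := by omega
        rw [hR x y S hlt]
        have : A S = fun _ _ => 0 := by
          funext x y
          exact hA0 S x y hc
        rw [this]
        simp [linR, linC]
    · intro x y T hT
      rw [hsub, hcoef, hA0 _ _ _ (by omega)]

end Exist

/-- A Ricci-flat metric over `Sq ι K` with given null transverse traceless linear part. -/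
theorem exists_ricciFlat {ι : Type} [Fintype ι] [DecidableEq ι] {K : Type} [Field K] [Algebra ℝ K]
    (a z : ι → Fin n → K) (haa : ∀ j, ∑ x, a j x * a j x = 0) (haz : ∀ j, ∑ x, a j x * z j x = 0)
    (hzz : ∀ j, ∑ x, z j x * z j x = 0)
    (hS : ∀ S : Finset ι, 2 ≤ S.card → ∑ x, (∑ j ∈ S, a j x) * (∑ j ∈ S, a j x) ≠ 0) :
    ∃ g G : Fin n → Fin n → Sq ι K, SymM g ∧ IsInv g G ∧ (∀ x y, coef ∅ (g x y) = dl x y) ∧
      (∀ j x y, coef {j} (g x y) = z j x * z j y) ∧ ∀ x y, ricci (dsq a) g G x y = 0 := by
  have key : ∀ m : ℕ, 1 ≤ m → ∃ g : Fin n → Fin n → Sq ι K, SymM g ∧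
      (∀ x y, coef ∅ (g x y) = dl x y) ∧ (∀ j x y, coef {j} (g x y) = z j x * z j y) ∧
      ∀ x y, Ord (m + 1) (ricci (dsq a) g (invM g) x y) := by
    intro m hm
    induction m, hm using Nat.le_induction with
    | base => exact exists_one a z haa haz hzz
    | succ m hm ih => exact exists_succ a z hS hm ih
  obtain ⟨g, hg, h0, h1, hR⟩ := key (Fintype.card ι + 1) (by omega)
  refine ⟨g, invM g, hg, isInv_invM_of_coef h0, h0, h1, fun x y => ?_⟩
  exact ord_top ((hR x y).mono (by omega))

/-- `F` vanishes on null transverse traceless plane waves in general position. -/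
theorem null_vanish {c : Contraction →₀ ℝ} (hn : 0 < n) (hw : HasWeight n c) {ι : Type} [Fintype ι]
    [DecidableEq ι] (hv : ∀ j, j < Fintype.card ι → Vanish n c j)
    {K : Type} [Field K] [Algebra ℝ K]
    (a z : ι → Fin n → K) (haa : ∀ j, ∑ x, a j x * a j x = 0) (haz : ∀ j, ∑ x, a j x * z j x = 0)
    (hzz : ∀ j, ∑ x, z j x * z j x = 0)
    (hS : ∀ S : Finset ι, 2 ≤ S.card → ∑ x, (∑ j ∈ S, a j x) * (∑ j ∈ S, a j x) ≠ 0) :
    F c (fun j => wave (a j) (sqM (z j))) = 0 := by
  obtain ⟨g, G, hg, hG, h0, h1, hR⟩ := exists_ricciFlat a z haa haz hzz hS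
  rw [F_wave hv a g G hg hG (fun j => sqM (z j)) h0 (fun j x y => h1 j x y)]
  have hP : ∀ (l : ℕ) (i : Fin (l + 2) → Fin n), covDerivP (dsq a) g G l i = 0 := by
    intro l
    induction l with
    | zero =>
      intro i
      simp [covDerivP, schouten, scalarCurv, hR]
    | succ l ih =>
      intro i
      simp [covDerivP, covDeriv, ih, dsq_zero]
  have hE : linComb c (dsq a) g G = 0 := by
    unfold linComb
    refine Finset.sum_eq_zero fun C hC => ?_
    have hk : 0 < C.k := by
      rcases Nat.eq_zero_or_pos C.k with hk0 | hk0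
      · exfalso
        have hh := hw C hC
        obtain ⟨k, l, m, e⟩ := C
        simp only at hk0
        subst hk0
        simp at hh
        omega
      · exact hk0
    have : C.eval (dsq a) g G = 0 := by
      unfold Contraction.eval
      refine Finset.sum_eq_zero fun i _ => ?_
      rw [Finset.prod_eq_zero (Finset.mem_univ (⟨0, hk⟩ : Fin C.k)) (hP _ _), mul_zero]
    simp only [this, smul_zero]
  rw [hE, map_zero]

end Pool.Agent.Helper44.CI
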