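import Pool.Agent.Helper44.CI.Pde4

/-!
# The differential equation in the Gram variables
-/

open scoped BigOperators
open MvPolynomial

namespace Pool.Agent.Helper44.CI

variable {n : ℕ}

lemma coeff_scale {σ : Type} [Fintype σ] (m : σ → ℂ) (p : MvPolynomial σ ℂ) (μ : σ →₀ ℕ) :
    coeff μ (aeval (fun q => C (m q) * X q) p : MvPolynomial σ ℂ) =
      (∏ q, m q ^ μ q) * coeff μ p := by
  classical
  induction p using MvPolynomial.induction_on' with
  | monomial l a =>
    have h1 : (aeval (fun q => C (m q) * X q) (monomial l a) : MvPolynomial σ ℂ) =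
        monomial l ((∏ q, m q ^ l q) * a) := by
      rw [aeval_monomial, Finsupp.prod_fintype _ _ (fun i => pow_zero _)]
      simp only [mul_pow, Finset.prod_mul_distrib]
      rw [monomial_eq, Finsupp.prod_fintype _ _ (fun i => pow_zero _), map_mul, map_prod]
      simp only [map_pow]
      rw [MvPolynomial.algebraMap_eq]
      ring
    rw [h1, coeff_monomial, coeff_monomial]
    by_cases h : l = μ
    · subst h
      rw [if_pos rfl, if_pos rfl]
    · rw [if_neg h, if_neg h, mul_zero]
  | add p r hp hr => rw [map_add, coeff_add, coeff_add, hp, hr, mul_add]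

/-- The purely algebraic core: a polynomial in the Gram variables which satisfies the special
conformal equation and vanishes on null transverse traceless families vanishes on all transverse
traceless families. -/
theorem gram_vanish {ι : Type} [Fintype ι] [DecidableEq ι] (hn : Even n) (hn4 : 4 ≤ n)
    (hι : 0 < Fintype.card ι) (hιn : 2 * Fintype.card ι ≤ n) (Φ : MvPolynomial (Sym2 (ι ⊕ ι)) ℝ)
    (hK : SpecialEq n Φ)
    (hN : ∀ v : ι ⊕ ι → Fin n → ℂ, (∀ j, ∑ x, v (Sum.inl j) x * v (Sum.inl j) x = 0) →
      (∀ j, ∑ x, v (Sum.inl j) x * v (Sum.inr j) x = 0) →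
      (∀ j, ∑ x, v (Sum.inr j) x * v (Sum.inr j) x = 0) →
      (∀ S : Finset ι, 2 ≤ S.card →
        ∑ x, (∑ j ∈ S, v (Sum.inl j) x) * (∑ j ∈ S, v (Sum.inl j) x) ≠ 0) →
      aeval (gram v) Φ = 0)
    (hH : ∀ (v : ι ⊕ ι → Fin n → ℂ) (t : ℂ),
      aeval (gram (fun s => Sum.elim (fun j => t • v (Sum.inl j)) (fun j => v (Sum.inr j)) s)) Φ =
        t ^ n * aeval (gram v) Φ)
    (ha : ∀ (v : ι ⊕ ι → Fin n → ℂ) (j : ι), v (Sum.inl j) = 0 → aeval (gram v) Φ = 0)
    (hz : ∀ (v : ι ⊕ ι → Fin n → ℂ) (j : ι), v (Sum.inr j) = 0 → aeval (gram v) Φ = 0)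
    (v : ι ⊕ ι → Fin n → ℂ) (h1 : ∀ j, ∑ x, v (Sum.inl j) x * v (Sum.inr j) x = 0)
    (h2 : ∀ j, ∑ x, v (Sum.inr j) x * v (Sum.inr j) x = 0) :
    aeval (gram v) Φ = 0 := by
  have hcard : Fintype.card (ι ⊕ ι) ≤ n := by
    rw [Fintype.card_sum]; omega
  set Ψ : MvPolynomial (Sym2 (ι ⊕ ι)) ℂ := map (algebraMap ℝ ℂ) Φ with hΨ
  have hev : ∀ x : Sym2 (ι ⊕ ι) → ℂ, aeval x Φ = eval x Ψ := by
    intro x
    rw [hΨ, eval_map, aeval_def]
  have hE := fun c => opE_eq_zero hιn hK c
  rw [← hΨ] at hE
  -- the first restriction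
  have h0 : kill (kT (∅ : Finset ι)) Ψ = 0 := by
    let f : Finset ι → MvPolynomial (Sym2 (ι ⊕ ι)) ℂ := fun S =>
      ∑ i ∈ S, ∑ j ∈ S, kill (kT (∅ : Finset ι)) (X s(Sum.inl i, Sum.inl j))
    let M : MvPolynomial (Sym2 (ι ⊕ ι)) ℂ :=
      ∏ S ∈ (Finset.univ : Finset (Finset ι)).filter (fun S => 2 ≤ S.card), f S
    have hmem : ∀ i j : ι, s((Sum.inl i : ι ⊕ ι), Sum.inl j) ∈ kT (∅ : Finset ι) ↔ i = j := by
      intro i j
      rw [mem_kT]
      constructor
      · rintro (⟨d, h⟩ | ⟨d, h⟩ | ⟨d, -, h⟩)
        · simp at h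
        · simp at h
        · simp only [Sym2.eq_iff, Sum.inl.injEq] at h
          rcases h with ⟨a, b⟩ | ⟨a, b⟩
          · rw [← a, ← b]
          · rw [← a, ← b]
      · rintro rfl
        exact Or.inr (Or.inr ⟨i, by simp, rfl⟩)
    have hM : M ≠ 0 := by
      rw [Finset.prod_ne_zero_iff]
      intro S hS h
      have hS2 := (Finset.mem_filter.1 hS).2
      have h3 := congrArg (eval (fun _ => (1 : ℂ))) h
      simp only [f, map_sum, eval_kill, eval_X, hmem, map_zero] at h3
      have h4 : ∀ i ∈ S, ∑ j ∈ S, (if i = j then (0 : ℂ) else 1) = (S.card : ℂ) - 1 := by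
        intro i hi
        have : ∀ j, (if i = j then (0 : ℂ) else 1) = 1 - if i = j then 1 else 0 := by
          intro j
          split_ifs <;> ring
        simp only [this, Finset.sum_sub_distrib, Finset.sum_const, nsmul_eq_mul, mul_one,
          Finset.sum_ite_eq, if_pos hi]
      rw [Finset.sum_congr rfl h4, Finset.sum_const, nsmul_eq_mul] at h3
      rcases mul_eq_zero.1 h3 with h5 | h5
      · have : S.card = 0 := by exact_mod_cast h5
        omega
      · have : (S.card : ℂ) = 1 := by linear_combination h5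
        have : S.card = 1 := by exact_mod_cast this
        omega
    have h3 : kill (kT (∅ : Finset ι)) Ψ * M = 0 := by
      refine MvPolynomial.funext fun x => ?_
      rw [map_zero, map_mul, eval_kill]
      obtain ⟨w, hw⟩ := exists_gram_eq (n := n) hcard
        (fun q => if q ∈ kT (∅ : Finset ι) then 0 else x q)
      by_cases hMx : eval x M = 0
      · rw [hMx, mul_zero]
      · rw [← hw, ← hev, hN w, zero_mul]
        · intro j
          have := congrFun hw s(Sum.inl j, Sum.inl j)
          rw [gram_mk, if_pos ((hmem j j).2 rfl)] at this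
          exact this
        · intro j
          have := congrFun hw s(Sum.inl j, Sum.inr j)
          rw [gram_mk, if_pos ((mem_kT _ _).2 (Or.inl ⟨j, rfl⟩))] at this
          exact this
        · intro j
          have := congrFun hw s(Sum.inr j, Sum.inr j)
          rw [gram_mk, if_pos ((mem_kT _ _).2 (Or.inr (Or.inl ⟨j, rfl⟩)))] at this
          exact this
        · intro S hS h4
          apply hMx
          have h5 : eval x (f S) = 0 := by
            rw [← h4]
            simp only [f, map_sum, eval_kill, eval_X]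
            have h6 : ∀ i j : ι, (if s((Sum.inl i : ι ⊕ ι), Sum.inl j) ∈ kT (∅ : Finset ι) then 0
                else x s(Sum.inl i, Sum.inl j)) = ∑ y, w (Sum.inl i) y * w (Sum.inl j) y := by
              intro i j
              have := congrFun hw s(Sum.inl i, Sum.inl j)
              rw [gram_mk] at this
              exact this.symm
            simp only [h6, Finset.sum_mul_sum]
            symm
            rw [Finset.sum_comm]
            refine Finset.sum_congr rfl fun i _ => ?_
            rw [Finset.sum_comm]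
          simp only [M, map_prod]
          exact Finset.prod_eq_zero (Finset.mem_filter.2 ⟨Finset.mem_univ S, hS⟩) h5
    rcases mul_eq_zero.1 h3 with h | h
    · exact h
    · exact absurd h hM
  -- degrees
  have hdeg : ∀ μ ∈ Ψ.support, ∑ q, μ q * adeg q = n := by
    intro μ hμ
    have h3 : (aeval (fun q => C ((2 : ℂ) ^ adeg q) * X q) Ψ : MvPolynomial (Sym2 (ι ⊕ ι)) ℂ) =
        C (2 ^ n) * Ψ := by
      refine MvPolynomial.funext fun x => ?_
      obtain ⟨w, hw⟩ := exists_gram_eq (n := n) hcard x
      subst hw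
      have h4 := hH w 2
      rw [hev, hev] at h4
      rw [map_mul, eval_C, ← h4]
      have h5 : eval (gram w) (aeval (fun q => C ((2 : ℂ) ^ adeg q) * X q) Ψ) =
          eval (fun q => (2 : ℂ) ^ adeg q * gram w q) Ψ := by
        have : (aeval (gram w) : MvPolynomial (Sym2 (ι ⊕ ι)) ℂ →ₐ[ℂ] ℂ).comp
            (aeval (fun q => C ((2 : ℂ) ^ adeg q) * X q)) =
            aeval (fun q => (2 : ℂ) ^ adeg q * gram w q) := by
          ext q
          simp
        have h6 := DFunLike.congr_fun this Ψ
        simpa [aeval_eq_eval] using h6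
      rw [h5]
      congr 2
      funext q
      induction q using Sym2.ind with
      | _ s t =>
      rw [gram_mk, gram_mk]
      rcases s with s | s <;> rcases t with t | t
      · simp only [adeg, Sym2.lift_mk, Sum.isLeft_inl, if_true, Sum.elim_inl, Pi.smul_apply,
          smul_eq_mul, Finset.mul_sum]
        exact Finset.sum_congr rfl fun i _ => by ring
      · simp only [adeg, Sym2.lift_mk, Sum.isLeft_inl, Sum.isLeft_inr, if_true, Sum.elim_inl,
          Sum.elim_inr, Pi.smul_apply, smul_eq_mul, Finset.mul_sum]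
        exact Finset.sum_congr rfl fun i _ => by simp; ring
      · simp only [adeg, Sym2.lift_mk, Sum.isLeft_inl, Sum.isLeft_inr, if_true, Sum.elim_inl,
          Sum.elim_inr, Pi.smul_apply, smul_eq_mul, Finset.mul_sum]
        exact Finset.sum_congr rfl fun i _ => by simp; ring
      · simp only [adeg, Sym2.lift_mk, Sum.isLeft_inr, Sum.elim_inr, Finset.mul_sum]
        exact Finset.sum_congr rfl fun i _ => by simp
    have h4 := congrArg (coeff μ) h3
    rw [coeff_scale, coeff_C_mul] at h4
    have h5 := mul_right_cancel₀ (mem_support_iff.1 hμ) h4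
    have h6 : ∏ q, ((2 : ℂ) ^ adeg q) ^ μ q = 2 ^ (∑ q, μ q * adeg q) := by
      rw [← Finset.prod_pow_eq_pow_sum]
      refine Finset.prod_congr rfl fun q _ => ?_
      rw [← pow_mul, mul_comm]
    rw [h6] at h5
    have h7 : (2 : ℕ) ^ (∑ q, μ q * adeg q) = 2 ^ n := by exact_mod_cast h5
    exact Nat.pow_right_injective le_rfl h7
  -- every leg occurs
  have hleg : ∀ s : ι ⊕ ι, (∀ w : ι ⊕ ι → Fin n → ℂ, w s = 0 → aeval (gram w) Φ = 0) →
      ∀ μ ∈ Ψ.support, ∃ q, s ∈ q ∧ μ q ≠ 0 := by
    intro s hs μ hμ
    by_contra hcon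
    push Not at hcon
    let T : Finset (Sym2 (ι ⊕ ι)) := Finset.univ.filter (fun q => s ∈ q)
    have h3 : kill T Ψ = 0 := by
      refine MvPolynomial.funext fun x => ?_
      rw [map_zero, eval_kill]
      obtain ⟨w, hw⟩ := exists_gram_eq (n := n) hcard (fun q => if q ∈ T then 0 else x q)
      rw [← hw, ← hev]
      have h4 : gram w = gram (Function.update w s 0) := by
        funext q
        induction q using Sym2.ind with
        | _ a b =>
        by_cases hq : s ∈ s(a, b)
        · have h5 := congrFun hw s(a, b)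
          have hT : s(a, b) ∈ T := Finset.mem_filter.2 ⟨Finset.mem_univ _, hq⟩
          rw [if_pos hT] at h5
          rw [h5, gram_mk]
          symm
          refine Finset.sum_eq_zero fun i _ => ?_
          rcases Sym2.mem_iff.1 hq with rfl | rfl
          · rw [Function.update_self, Pi.zero_apply, zero_mul]
          · rw [Function.update_self, Pi.zero_apply, mul_zero]
        · rw [gram_mk, gram_mk]
          rw [Sym2.mem_iff, not_or] at hq
          rw [Function.update_of_ne (Ne.symm hq.1), Function.update_of_ne (Ne.symm hq.2)]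
      rw [h4]
      exact hs _ (Function.update_self _ _ _)
    have h4 := congrArg (coeff μ) h3
    rw [coeff_kill, if_pos, coeff_zero] at h4
    · exact mem_support_iff.1 hμ h4
    · intro q hq
      exact hcon q (Finset.mem_filter.1 hq).2
  have h3 := poly_vanish hn hn4 hE h0 hdeg (fun μ hμ j => hleg _ (fun w hw => ha w j hw) μ hμ)
    (fun μ hμ j => hleg _ (fun w hw => hz w j hw) μ hμ) Finset.univ
  have h4 := congrArg (eval (gram v)) h3
  rw [eval_kill, map_zero] at h4
  rw [hev, ← h4]
  congr 2
  funext q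
  split_ifs with hq
  · rcases (mem_kT _ _).1 hq with ⟨d, rfl⟩ | ⟨d, rfl⟩ | ⟨d, hd, -⟩
    · rw [gram_mk]
      exact h1 d
    · rw [gram_mk]
      exact h2 d
    · exact absurd (Finset.mem_univ d) hd
  · rfl

end Pool.Agent.Helper44.CI
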