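import Pool.Agent.Helper44.CI.Gram
import Pool.Agent.Helper44.CI.Null
import Pool.Agent.Helper44.CI.Pde

/-!
# Vanishing on transverse traceless plane waves
-/

open scoped BigOperators
open MvPowerSeries (constantCoeff)

namespace Pool.Agent.Helper44.CI

variable {n : ℕ} {c : Contraction →₀ ℝ}

namespace TtAux

section Aux

variable {K : Type} [CommRing K] [Algebra ℝ K]

/-- the exponential series of a vector of square zero -/
lemma ex_nu (ν : K) (hν : ν * ν = 0) (p : Fin n → K) :
    ex (fun x => ν * p x) = 1 + ∑ l, MvPowerSeries.C (ν * p l) * MvPowerSeries.X l := by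
  classical
  ext α
  have hex : MvPowerSeries.coeff α (ex (fun x => ν * p x)) =
      algebraMap ℝ K (∏ i, ((Nat.factorial (α i) : ℝ))⁻¹) * ∏ i, (ν * p i) ^ α i := rfl
  rw [hex, map_add, map_sum, MvPowerSeries.coeff_one]
  simp only [MvPowerSeries.coeff_C_mul, MvPowerSeries.coeff_X]
  by_cases h0 : α = 0
  · subst h0
    have : ∀ l : Fin n, ¬ (0 : Fin n →₀ ℕ) = Finsupp.single l 1 := by
      intro l h
      have := DFunLike.congr_fun h l
      simp at this
    simp [this]
  by_cases h1 : ∃ l, α = Finsupp.single l 1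
  · obtain ⟨l, rfl⟩ := h1
    have h2 : ∀ m : Fin n, Finsupp.single l 1 = Finsupp.single m 1 ↔ m = l := by
      intro m
      constructor
      · intro h
        by_contra hm
        have := DFunLike.congr_fun h l
        rw [Finsupp.single_eq_same, Finsupp.single_eq_of_ne] at this
        · omega
        · exact fun h => hm h.symm
      · rintro rfl
        rfl
    rw [if_neg h0]
    simp only [h2, mul_ite, mul_one, mul_zero, Finset.sum_ite_eq', Finset.mem_univ, if_true,
      zero_add]
    rw [Finset.prod_eq_single l, Finset.prod_eq_single l]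
    · simp
    · intro i _ hi
      rw [Finsupp.single_eq_of_ne hi]
      simp
    · simp
    · intro i _ hi
      rw [Finsupp.single_eq_of_ne hi]
      simp
    · simp
  · -- degree at least two
    push Not at h1
    rw [if_neg h0]
    have h2 : ∀ l : Fin n, ¬ α = Finsupp.single l 1 := h1
    simp only [h2, if_false, mul_zero, Finset.sum_const_zero, add_zero]
    have h3 : ∏ i, (ν * p i) ^ α i = ν ^ (∑ i, α i) * ∏ i, p i ^ α i := by
      simp only [mul_pow]
      rw [Finset.prod_mul_distrib, Finset.prod_pow_eq_pow_sum]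
    have h4 : 2 ≤ ∑ i, α i := by
      by_contra hlt
      push Not at hlt
      have hex0 : ∃ l, α l ≠ 0 := by
        by_contra hno
        push Not at hno
        exact h0 (Finsupp.ext hno)
      obtain ⟨l, hl⟩ := hex0
      apply h1 l
      have h5 : α l + ∑ i ∈ Finset.univ.erase l, α i = ∑ i, α i :=
        Finset.add_sum_erase _ _ (Finset.mem_univ l)
      ext i
      by_cases hi : i = l
      · subst hi
        rw [Finsupp.single_eq_same]
        omega
      · rw [Finsupp.single_eq_of_ne hi]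
        have h6 : α i ≤ ∑ i ∈ Finset.univ.erase l, α i :=
          Finset.single_le_sum (f := fun i => α i) (fun _ _ => Nat.zero_le _)
            (Finset.mem_erase.2 ⟨hi, Finset.mem_univ i⟩)
        omega
    have h5 : ν ^ (∑ i, α i) = 0 := by
      obtain ⟨k, hk⟩ := Nat.exists_eq_add_of_le h4
      rw [hk, pow_add, sq, hν, zero_mul]
    rw [h3, h5, zero_mul, mul_zero]

/-- `F` as a linear form in one leg -/
noncomputable def Flin {ι : Type} [Fintype ι] [DecidableEq ι] (c : Contraction →₀ ℝ)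
    (H : ι → Fld n K) (d : ι) : Fld n K →ₗ[K] K where
  toFun Y := F c (Function.update H d Y)
  map_add' Y Z := F_add H d Y Z
  map_smul' r Y := by
    rw [RingHom.id_apply, smul_eq_mul, ← F_smul]
    congr 2
    funext a b
    simp only [Pi.smul_apply, MvPowerSeries.smul_eq_C_mul]

lemma Flin_apply {ι : Type} [Fintype ι] [DecidableEq ι] (c : Contraction →₀ ℝ)
    (H : ι → Fld n K) (d : ι) (Y : Fld n K) :
    Flin c H d Y = F c (Function.update H d Y) := rfl

omit [Algebra ℝ K] in
lemma rescale_C (t r : K) :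
    MvPowerSeries.rescale (fun _ => t) (MvPowerSeries.C r : MvPowerSeries (Fin n) K) =
      MvPowerSeries.C r := by
  classical
  ext α
  rw [MvPowerSeries.coeff_rescale, MvPowerSeries.coeff_C]
  split_ifs with h
  · subst h
    simp
  · simp

lemma rescale_ex (t : K) (a : Fin n → K) :
    MvPowerSeries.rescale (fun _ => t) (ex a) = ex (t • a) := by
  ext α
  rw [MvPowerSeries.coeff_rescale]
  have h1 : ∀ b : Fin n → K, MvPowerSeries.coeff α (ex b) =
      algebraMap ℝ K (∏ i, ((Nat.factorial (α i) : ℝ))⁻¹) * ∏ i, b i ^ α i := fun _ => rfl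
  rw [h1, h1]
  simp only [Pi.smul_apply, smul_eq_mul, mul_pow]
  rw [Finset.prod_mul_distrib, Finsupp.prod_fintype _ _ (fun i => by simp)]
  ring

/-- the inclusion of the constants -/
noncomputable def iota2 (K : Type) [CommRing K] [Algebra ℝ K] : K →ₐ[ℝ] Sq (Fin 2) K :=
  (IsScalarTower.toAlgHom ℝ K (Sq (Fin 2) K))

lemma iota2_apply (x : K) : iota2 K x = algebraMap K (Sq (Fin 2) K) x := rfl

/-- extraction of the coefficient of `ν₀ ν₁` -/
lemma coef_F_two {ι : Type} [Fintype ι] [DecidableEq ι] (H : ι → Fld n K) (d : ι)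
    (Y0 Y1 Y2 Y3 : Fld n K) (Z : ι → Fld n (Sq (Fin 2) K))
    (hZ : ∀ j, j ≠ d → Z j = mapF (iota2 K).toRingHom (H j))
    (hZd : Z d = mapF (iota2 K).toRingHom Y0 + (nu 0 : Sq (Fin 2) K) • mapF (iota2 K).toRingHom Y1 +
      (nu 1 : Sq (Fin 2) K) • mapF (iota2 K).toRingHom Y2 +
      (nu 0 * nu 1 : Sq (Fin 2) K) • mapF (iota2 K).toRingHom Y3) :
    coef Finset.univ (F c Z) = F c (Function.update H d Y3) := by
  have h1 : ∀ Y : Fld n K, Flin c Z d (mapF (iota2 K).toRingHom Y) =
      algebraMap K (Sq (Fin 2) K) (F c (Function.update H d Y)) := by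
    intro Y
    rw [← iota2_apply, ← F_map, Flin_apply]
    congr 1
    funext j
    by_cases hj : j = d
    · subst hj
      simp
    · rw [Function.update_of_ne hj, Function.update_of_ne hj, hZ j hj]
  have h2 : F c Z = Flin c Z d (Z d) := by
    rw [Flin_apply, Function.update_eq_self]
  have h3 : F c Z = algebraMap K (Sq (Fin 2) K) (F c (Function.update H d Y0)) +
      nu 0 * algebraMap K (Sq (Fin 2) K) (F c (Function.update H d Y1)) +
      nu 1 * algebraMap K (Sq (Fin 2) K) (F c (Function.update H d Y2)) +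
      (nu 0 * nu 1) * algebraMap K (Sq (Fin 2) K) (F c (Function.update H d Y3)) := by
    rw [h2, hZd, LinearMap.map_add, LinearMap.map_add, LinearMap.map_add, LinearMap.map_smul,
      LinearMap.map_smul, LinearMap.map_smul, h1, h1, h1, h1]
    rfl
  have e0 : (nu 0 : Sq (Fin 2) K) = ∏ i ∈ ({0} : Finset (Fin 2)), nu i := by simp
  have e1 : (nu 1 : Sq (Fin 2) K) = ∏ i ∈ ({1} : Finset (Fin 2)), nu i := by simp
  have e2 : (nu 0 * nu 1 : Sq (Fin 2) K) = ∏ i ∈ (Finset.univ : Finset (Fin 2)), nu i := by simp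
  rw [h3, e2, e0, e1]
  simp only [map_add]
  have hh0 : ¬ (Finset.univ : Finset (Fin 2)) = ∅ := by decide
  have hh1 : ¬ (Finset.univ : Finset (Fin 2)) = {0} := by decide
  have hh2 : ¬ (Finset.univ : Finset (Fin 2)) = {1} := by decide
  have e3 : ∀ (T : Finset (Fin 2)) (x : K), coef Finset.univ ((∏ i ∈ T, (nu i : Sq (Fin 2) K)) *
      algebraMap K (Sq (Fin 2) K) x) = if Finset.univ = T then x else 0 := by
    intro T x
    rw [mul_comm, coef_smul_prod_nu]
  rw [e3, e3, e3, coef_algebraMap, if_neg hh0, if_neg hh1, if_neg hh2, if_pos rfl]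
  ring

/-- the linear form `p · X` -/
noncomputable def linX (p : Fin n → K) : MvPowerSeries (Fin n) K :=
  ∑ l, MvPowerSeries.C (p l) * MvPowerSeries.X l

lemma ex_nu' (ν : K) (hν : ν * ν = 0) (p : Fin n → K) :
    ex (ν • p) = 1 + MvPowerSeries.C ν * linX p := by
  have := ex_nu ν hν p
  rw [show (ν • p) = fun x => ν * p x from rfl, this, linX, Finset.mul_sum]
  congr 1
  refine Finset.sum_congr rfl fun l _ => ?_
  rw [map_mul, mul_assoc]

lemma map_linX {K' : Type} [CommRing K'] [Algebra ℝ K'] (θ : K →ₐ[ℝ] K') (p : Fin n → K) :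
    MvPowerSeries.map θ.toRingHom (linX p) = linX (fun x => θ (p x)) := by
  rw [linX, linX, map_sum]
  refine Finset.sum_congr rfl fun l _ => ?_
  rw [map_mul, MvPowerSeries.map_C, MvPowerSeries.map_X]
  rfl

/-- first order change of both vectors of a plane wave, in two directions -/
lemma wave_two (a z p q : Fin n → K) :
    wave (fun x => iota2 K (a x) + nu 0 * iota2 K (p x))
      (sqM (fun x => iota2 K (z x) + nu 1 * iota2 K (q x))) =
    mapF (iota2 K).toRingHom (wave a (sqM z)) +
      (nu 0 : Sq (Fin 2) K) • mapF (iota2 K).toRingHom (fun x y => linX p * wave a (sqM z) x y) +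
      (nu 1 : Sq (Fin 2) K) • mapF (iota2 K).toRingHom (wave a (fun x y => q x * z y + z x * q y)) +
      (nu 0 * nu 1 : Sq (Fin 2) K) • mapF (iota2 K).toRingHom
        (fun x y => linX p * wave a (fun x y => q x * z y + z x * q y) x y) := by
  have h1 : ex (fun x => iota2 K (a x) + nu 0 * iota2 K (p x)) =
      ex (fun x => iota2 K (a x)) * (1 + MvPowerSeries.C (nu 0) * linX (fun x => iota2 K (p x))) := by
    rw [← ex_nu' (nu 0) (nu_mul_self _), ← ex_add]
    rfl
  funext x y
  simp only [Pi.add_apply, Pi.smul_apply, MvPowerSeries.smul_eq_C_mul, mapF, wave, sqM, h1,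
    map_mul, map_linX, ex_map, MvPowerSeries.map_C, map_add]
  have h2 : (MvPowerSeries.C (nu 1 : Sq (Fin 2) K) : MvPowerSeries (Fin n) (Sq (Fin 2) K)) *
      MvPowerSeries.C (nu 1) = 0 := by
    rw [← map_mul, nu_mul_self, map_zero]
  have h3 : ∀ r : K, (iota2 K).toRingHom r = iota2 K r := fun _ => rfl
  simp only [h3]
  linear_combination (MvPowerSeries.C (iota2 K (q x)) * MvPowerSeries.C (iota2 K (q y)) *
    ex (fun x => iota2 K (a x)) *
      (1 + MvPowerSeries.C (nu 0) * linX (fun x => iota2 K (p x)))) * h2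

/-- change of the wave vector, in two directions -/
lemma wave_two' (a z p q : Fin n → K) :
    wave (fun x => iota2 K (a x) + nu 0 * iota2 K (p x) + nu 1 * iota2 K (q x))
      (sqM (fun x => iota2 K (z x))) =
    mapF (iota2 K).toRingHom (wave a (sqM z)) +
      (nu 0 : Sq (Fin 2) K) • mapF (iota2 K).toRingHom (fun x y => linX p * wave a (sqM z) x y) +
      (nu 1 : Sq (Fin 2) K) • mapF (iota2 K).toRingHom (fun x y => linX q * wave a (sqM z) x y) +
      (nu 0 * nu 1 : Sq (Fin 2) K) • mapF (iota2 K).toRingHom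
        (fun x y => linX p * linX q * wave a (sqM z) x y) := by
  have h1 : ex (fun x => iota2 K (a x) + nu 0 * iota2 K (p x) + nu 1 * iota2 K (q x)) =
      ex (fun x => iota2 K (a x)) * (1 + MvPowerSeries.C (nu 0) * linX (fun x => iota2 K (p x))) *
        (1 + MvPowerSeries.C (nu 1) * linX (fun x => iota2 K (q x))) := by
    rw [← ex_nu' (nu 0) (nu_mul_self _), ← ex_nu' (nu 1) (nu_mul_self _), ← ex_add, ← ex_add]
    rfl
  funext x y
  simp only [Pi.add_apply, Pi.smul_apply, MvPowerSeries.smul_eq_C_mul, mapF, wave, sqM, h1,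
    map_mul, map_linX, ex_map, MvPowerSeries.map_C]
  have h3 : ∀ r : K, (iota2 K).toRingHom r = iota2 K r := fun _ => rfl
  simp only [h3]
  ring

end Aux

section Special

variable {K : Type} [CommRing K] [Algebra ℝ K]

omit [Algebra ℝ K] in
lemma pderiv_linX (p : Fin n → K) (i : Fin n) :
    MvPowerSeries.pderiv K i (linX p) = MvPowerSeries.C (p i) := by
  classical
  rw [linX, map_sum]
  simp only [Derivation.leibniz, smul_eq_mul]
  simp [MvPowerSeries.pderiv_X, Pi.single_apply]

omit [Algebra ℝ K] in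
lemma pderiv_spv (b : Fin n → K) (i k : Fin n) :
    MvPowerSeries.pderiv K i (spv b k) = 2 * MvPowerSeries.X i * MvPowerSeries.C (b k) -
      2 * MvPowerSeries.C (b i) * MvPowerSeries.X k - 2 * linX b * (if i = k then 1 else 0) := by
  classical
  have h := pderiv_linX b i
  have h2 : MvPowerSeries.pderiv K i (2 : MvPowerSeries (Fin n) K) = 0 :=
    Derivation.map_natCast (MvPowerSeries.pderiv K i) 2
  have h3 : MvPowerSeries.pderiv K i (∑ l : Fin n, MvPowerSeries.X l ^ 2) =
      2 * MvPowerSeries.X i := by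
    rw [map_sum]
    simp only [MvPowerSeries.pderiv_pow]
    simp [MvPowerSeries.pderiv_X, Pi.single_apply]
  rw [spv]
  rw [← linX]
  simp only [Derivation.leibniz, smul_eq_mul, map_sub, h, h2, h3, MvPowerSeries.pderiv_C]
  by_cases hik : i = k
  · subst hik
    rw [MvPowerSeries.pderiv_X_self, if_pos rfl]
    ring
  · rw [MvPowerSeries.pderiv_X_of_ne (Ne.symm hik), if_neg hik]
    ring

omit [Algebra ℝ K] in
lemma sum_C_mul (p q : Fin n → K) :
    ∑ k, (MvPowerSeries.C (p k) : MvPowerSeries (Fin n) K) * MvPowerSeries.C (q k) =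
      MvPowerSeries.C (∑ k, p k * q k) := by
  rw [map_sum]
  simp only [map_mul]

/-- the special conformal transformation of a transverse traceless plane wave -/
lemma spH_wave (b a z : Fin n → K)
    (hbz : ∑ x, b x * z x = 0) :
    spH b (wave a (sqM z)) = (∑ x, b x * a x) • ∑ i : Fin n,
        (fun x y => MvPowerSeries.X i * MvPowerSeries.X i * wave a (sqM z) x y) -
      (2 : K) • (fun x y => linX b * linX a * wave a (sqM z) x y) -
      (2 : K) • (fun x y => linX z * wave a (fun x y => b x * z y + z x * b y) x y) := by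
  funext x y
  have hC2 : (MvPowerSeries.C (2 : K) : MvPowerSeries (Fin n) K) = 2 := map_ofNat _ 2
  have hs1 : ∑ k, spv b k * MvPowerSeries.pderiv K k (wave a (sqM z) x y) =
      (MvPowerSeries.C (∑ x, b x * a x) * (∑ l, MvPowerSeries.X l ^ 2) - 2 * linX b * linX a) *
        wave a (sqM z) x y := by
    have hk : ∀ k, spv b k * MvPowerSeries.pderiv K k (wave a (sqM z) x y) =
        ((∑ l, MvPowerSeries.X l ^ 2) * (MvPowerSeries.C (b k) * MvPowerSeries.C (a k)) -
          2 * linX b * (MvPowerSeries.C (a k) * MvPowerSeries.X k)) * wave a (sqM z) x y := by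
      intro k
      rw [spv, ← linX]
      simp only [wave, Derivation.leibniz, smul_eq_mul, MvPowerSeries.pderiv_C, pderiv_ex]
      ring
    rw [Finset.sum_congr rfl fun k _ => hk k, ← Finset.sum_mul, Finset.sum_sub_distrib,
      ← Finset.mul_sum, ← Finset.mul_sum, sum_C_mul, ← linX]
    ring
  have hz : ∑ k, (MvPowerSeries.C (z k) : MvPowerSeries (Fin n) K) * MvPowerSeries.C (b k) = 0 := by
    rw [sum_C_mul]
    simp only [mul_comm (z _), hbz, map_zero]
  have hs2 : ∀ i : Fin n, ∑ k, (MvPowerSeries.C (z k) : MvPowerSeries (Fin n) K) *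
      MvPowerSeries.pderiv K i (spv b k) =
        - 2 * MvPowerSeries.C (b i) * linX z - 2 * linX b * MvPowerSeries.C (z i) := by
    intro i
    have hk : ∀ k, (MvPowerSeries.C (z k) : MvPowerSeries (Fin n) K) *
        MvPowerSeries.pderiv K i (spv b k) =
        2 * MvPowerSeries.X i * (MvPowerSeries.C (z k) * MvPowerSeries.C (b k)) -
        2 * MvPowerSeries.C (b i) * (MvPowerSeries.C (z k) * MvPowerSeries.X k) -
        2 * linX b * (if i = k then MvPowerSeries.C (z k) else 0) := by
      intro k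
      rw [pderiv_spv]
      split_ifs <;> ring
    rw [Finset.sum_congr rfl fun k _ => hk k, Finset.sum_sub_distrib, Finset.sum_sub_distrib,
      ← Finset.mul_sum, ← Finset.mul_sum, ← Finset.mul_sum, ← linX, hz]
    simp
  have hs3 : ∑ k, (wave a (sqM z) k y * MvPowerSeries.pderiv K x (spv b k) +
      wave a (sqM z) x k * MvPowerSeries.pderiv K y (spv b k)) =
      MvPowerSeries.C (z y) * ex a * (- 2 * MvPowerSeries.C (b x) * linX z -
        2 * linX b * MvPowerSeries.C (z x)) +
      MvPowerSeries.C (z x) * ex a * (- 2 * MvPowerSeries.C (b y) * linX z -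
        2 * linX b * MvPowerSeries.C (z y)) := by
    rw [← hs2, ← hs2, Finset.mul_sum, Finset.mul_sum, ← Finset.sum_add_distrib]
    refine Finset.sum_congr rfl fun k _ => ?_
    simp only [wave, sqM, map_mul]
    ring
  rw [spH, hs1, hs3, ← linX]
  simp only [Pi.sub_apply, Pi.smul_apply, Finset.sum_apply, MvPowerSeries.smul_eq_C_mul, hC2]
  rw [← Finset.sum_mul]
  simp only [wave, sqM, map_mul, map_add]
  have h4 : ∑ l : Fin n, (MvPowerSeries.X l : MvPowerSeries (Fin n) K) ^ 2 =
      ∑ l : Fin n, MvPowerSeries.X l * MvPowerSeries.X l := by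
    simp only [sq]
  rw [h4]
  ring

end Special

section Main

lemma dd_eq {c : Contraction →₀ ℝ} {ι : Type} [Fintype ι] [DecidableEq ι]
    (Φ : MvPolynomial (Sym2 (ι ⊕ ι)) ℝ)
    (hΦ : ∀ (K : Type) [CommRing K] [Algebra ℝ K] (v : ι ⊕ ι → Fin n → K),
        F c (fun j => wave (v (Sum.inl j)) (sqM (v (Sum.inr j)))) = MvPolynomial.aeval (gram v) Φ)
    (v y y' : ι ⊕ ι → Fin n → ℂ) :
    dd Φ v y y' = coef Finset.univ (F c (fun j => wave
      (fun x => iota2 ℂ (v (Sum.inl j) x) + nu 0 * iota2 ℂ (y (Sum.inl j) x) +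
        nu 1 * iota2 ℂ (y' (Sum.inl j) x))
      (sqM (fun x => iota2 ℂ (v (Sum.inr j) x) + nu 0 * iota2 ℂ (y (Sum.inr j) x) +
        nu 1 * iota2 ℂ (y' (Sum.inr j) x))))) := by
  rw [dd, ← hΦ]
  rfl

lemma dd_inl_inl {c : Contraction →₀ ℝ} {ι : Type} [Fintype ι] [DecidableEq ι]
    (Φ : MvPolynomial (Sym2 (ι ⊕ ι)) ℝ)
    (hΦ : ∀ (K : Type) [CommRing K] [Algebra ℝ K] (v : ι ⊕ ι → Fin n → K),
        F c (fun j => wave (v (Sum.inl j)) (sqM (v (Sum.inr j)))) = MvPolynomial.aeval (gram v) Φ)
    (v : ι ⊕ ι → Fin n → ℂ) (d : ι) (p q : Fin n → ℂ) :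
    dd Φ v (Pi.single (Sum.inl d) p) (Pi.single (Sum.inl d) q) =
      F c (Function.update (fun j => wave (v (Sum.inl j)) (sqM (v (Sum.inr j)))) d
        (fun x y => linX p * linX q * wave (v (Sum.inl d)) (sqM (v (Sum.inr d))) x y)) := by
  rw [dd_eq Φ hΦ]
  refine coef_F_two _ d (wave (v (Sum.inl d)) (sqM (v (Sum.inr d))))
    (fun x y => linX p * wave (v (Sum.inl d)) (sqM (v (Sum.inr d))) x y)
    (fun x y => linX q * wave (v (Sum.inl d)) (sqM (v (Sum.inr d))) x y) _ _ ?_ ?_
  · intro j hj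
    rw [mapF_wave]
    have h1 : (Sum.inl j : ι ⊕ ι) ≠ Sum.inl d := fun h => hj (Sum.inl_injective h)
    have h2 : (Sum.inr j : ι ⊕ ι) ≠ Sum.inl d := by simp
    simp only [Pi.single_eq_of_ne h1, Pi.single_eq_of_ne h2, Pi.zero_apply, map_zero, mul_zero,
      add_zero]
    congr 1
    funext x y
    simp only [sqM, map_mul]
  · rw [← wave_two']
    have h2 : (Sum.inr d : ι ⊕ ι) ≠ Sum.inl d := by simp
    simp only [Pi.single_eq_same, Pi.single_eq_of_ne h2, Pi.zero_apply, map_zero, mul_zero,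
      add_zero]

lemma dd_inl_inr {c : Contraction →₀ ℝ} {ι : Type} [Fintype ι] [DecidableEq ι]
    (Φ : MvPolynomial (Sym2 (ι ⊕ ι)) ℝ)
    (hΦ : ∀ (K : Type) [CommRing K] [Algebra ℝ K] (v : ι ⊕ ι → Fin n → K),
        F c (fun j => wave (v (Sum.inl j)) (sqM (v (Sum.inr j)))) = MvPolynomial.aeval (gram v) Φ)
    (v : ι ⊕ ι → Fin n → ℂ) (d : ι) (p q : Fin n → ℂ) :
    dd Φ v (Pi.single (Sum.inl d) p) (Pi.single (Sum.inr d) q) =
      F c (Function.update (fun j => wave (v (Sum.inl j)) (sqM (v (Sum.inr j)))) d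
        (fun x y => linX p * wave (v (Sum.inl d))
          (fun x y => q x * v (Sum.inr d) y + v (Sum.inr d) x * q y) x y)) := by
  rw [dd_eq Φ hΦ]
  refine coef_F_two _ d (wave (v (Sum.inl d)) (sqM (v (Sum.inr d))))
    (fun x y => linX p * wave (v (Sum.inl d)) (sqM (v (Sum.inr d))) x y)
    (wave (v (Sum.inl d)) (fun x y => q x * v (Sum.inr d) y + v (Sum.inr d) x * q y)) _ _ ?_ ?_
  · intro j hj
    rw [mapF_wave]
    have h1 : (Sum.inl j : ι ⊕ ι) ≠ Sum.inl d := fun h => hj (Sum.inl_injective h)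
    have h2 : (Sum.inr j : ι ⊕ ι) ≠ Sum.inl d := by simp
    have h3 : (Sum.inl j : ι ⊕ ι) ≠ Sum.inr d := by simp
    have h4 : (Sum.inr j : ι ⊕ ι) ≠ Sum.inr d := fun h => hj (Sum.inr_injective h)
    simp only [Pi.single_eq_of_ne h1, Pi.single_eq_of_ne h2, Pi.single_eq_of_ne h3,
      Pi.single_eq_of_ne h4, Pi.zero_apply, map_zero, mul_zero, add_zero]
    congr 1
    funext x y
    simp only [sqM, map_mul]
  · rw [← wave_two]
    have h2 : (Sum.inr d : ι ⊕ ι) ≠ Sum.inl d := by simp
    have h3 : (Sum.inl d : ι ⊕ ι) ≠ Sum.inr d := by simp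
    simp only [Pi.single_eq_same, Pi.single_eq_of_ne h2, Pi.single_eq_of_ne h3, Pi.zero_apply,
      map_zero, mul_zero, add_zero]

lemma special_eq (hc : FConf n c) {ι : Type} [Fintype ι] [DecidableEq ι]
    (hv : ∀ j, j < Fintype.card ι → Vanish n c j) (Φ : MvPolynomial (Sym2 (ι ⊕ ι)) ℝ)
    (hΦ : ∀ (K : Type) [CommRing K] [Algebra ℝ K] (v : ι ⊕ ι → Fin n → K),
        F c (fun j => wave (v (Sum.inl j)) (sqM (v (Sum.inr j)))) =
          MvPolynomial.aeval (gram v) Φ) : SpecialEq n Φ := by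
  intro e v b hb
  let H : ι → Fld n ℂ := fun j => wave (v (Sum.inl j)) (sqM (v (Sum.inr j)))
  have hs := F_spec hc hv b H (fun i x y => by simp only [H, wave, sqM, mul_comm])
  have hd : ∀ d, F c (Function.update H d (spH b (H d))) =
      (if d = e then ∑ i : Fin n, F c (Function.update H d (fun x y =>
        MvPowerSeries.X i * MvPowerSeries.X i * H d x y)) else 0) -
      2 * dd Φ v (Pi.single (Sum.inl d) b) (Pi.single (Sum.inl d) (v (Sum.inl d))) -
      2 * dd Φ v (Pi.single (Sum.inl d) (v (Sum.inr d))) (Pi.single (Sum.inr d) b) := by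
    intro d
    have h1 : ∑ x, b x * v (Sum.inr d) x = 0 := by
      rw [hb]
      simp
    rw [dd_inl_inl Φ hΦ, dd_inl_inr Φ hΦ]
    have h2 : spH b (H d) = _ := spH_wave b (v (Sum.inl d)) (v (Sum.inr d)) h1
    rw [h2, ← Flin_apply, map_sub, map_sub, map_smul, map_smul, map_smul, map_sum, hb]
    simp only [smul_eq_mul, Flin_apply]
    congr 2
    by_cases hde : d = e
    · subst hde
      simp [H]
    · rw [if_neg hde, if_neg (fun h => hde (Sum.inl_injective h)), zero_mul]
  rw [Finset.sum_congr rfl fun d _ => hd d, Finset.sum_sub_distrib, Finset.sum_sub_distrib,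
    ← Finset.mul_sum, ← Finset.mul_sum, Finset.sum_ite_eq', if_pos (Finset.mem_univ _)] at hs
  rw [← hs]
  congr 2
  refine Finset.sum_congr rfl fun i _ => ?_
  rw [dd_inl_inl Φ hΦ]
  have hX : linX (Pi.single i (1 : ℂ)) = MvPowerSeries.X i := by
    rw [linX, Finset.sum_eq_single i]
    · simp
    · intro j _ hj
      simp [hj]
    · simp
  rw [hX]

/-- one constant leg -/
lemma F_const {ι : Type} [Fintype ι] [DecidableEq ι]
    (hv : ∀ j, j < Fintype.card ι → Vanish n c j) {K : Type} [CommRing K] [Algebra ℝ K]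
    (H : ι → Fld n K) (hH : ∀ i, SymM (H i)) (j : ι) (A : Fin n → Fin n → K) (hA : SymM A)
    (hj : H j = fun x y => MvPowerSeries.C (A x y)) : F c H = 0 := by
  let xi : Fin n → MvPowerSeries (Fin n) K := fun k => (1 / 2 : ℝ) • linX (A k)
  have h0 : ∀ k, constantCoeff (xi k) = 0 := by
    intro k
    have : constantCoeff (linX (A k)) = 0 := by simp [linX]
    simp only [xi]
    rw [← algebraMap_smul (MvPowerSeries (Fin n) K) (1 / 2 : ℝ), smul_eq_mul, map_mul, this,
      mul_zero]
  have h1 : lieDl xi = H j := by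
    rw [hj]
    funext x y
    have hp : ∀ x k, MvPowerSeries.pderiv K x (xi k) =
        (1 / 2 : ℝ) • MvPowerSeries.C (A k x) := by
      intro x k
      have := isDer_pdv (n := n) (K := K)
      have h2 := this.smul x (1 / 2) (linX (A k))
      rw [show MvPowerSeries.pderiv K x (xi k) = pdv n K x ((1 / 2 : ℝ) • linX (A k)) from rfl, h2,
        pdv, pderiv_linX]
    rw [lieDl, hp, hp, hA y x, ← smul_add, ← two_smul ℝ, smul_smul]
    norm_num
  have h2 : Fintype.card {i // i ≠ j} < Fintype.card ι := by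
    rw [Fintype.card_subtype_compl]
    simp
    exact Fintype.card_pos_iff.2 ⟨j⟩
  have h3 := F_gauge (hv _ h2) xi h0 (fun i : {i // i ≠ j} => H i) (fun i => hH i)
  rw [← h3, ← F_reindex (Equiv.optionSubtypeNe j)]
  congr 1
  funext o
  rcases o with _ | i
  · simp [h1]
  · simp

end Main

end TtAux

theorem tt_vanish (hn : Even n) (hn4 : 4 ≤ n) (hw : HasWeight n c) (hc : FConf n c)
    {ι : Type} [Fintype ι] [DecidableEq ι] (hι : 0 < Fintype.card ι) (hιn : 2 * Fintype.card ι ≤ n)
    (hv : ∀ j, j < Fintype.card ι → Vanish n c j) (a z : ι → Fin n → ℂ)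
    (h1 : ∀ j, ∑ x, a j x * z j x = 0) (h2 : ∀ j, ∑ x, z j x * z j x = 0) :
    F c (fun j => wave (a j) (sqM (z j))) = 0 := by
  obtain ⟨Φ, hΦ⟩ := exists_gram (n := n) c ι
  have key := gram_vanish hn hn4 hι hιn Φ (TtAux.special_eq hc hv Φ hΦ) ?_ ?_ ?_ ?_ (Sum.elim a z) h1 h2
  · rw [← hΦ] at key
    exact key
  · intro v haa haz hzz hS
    rw [← hΦ]
    exact null_vanish (by omega) hw hv _ _ haa haz hzz hS
  · intro v t
    rw [← hΦ, ← hΦ, ← F_rescale hw]
    congr 1
    funext j x y
    simp only [wave, map_mul, TtAux.rescale_ex, Sum.elim_inl, Sum.elim_inr, TtAux.rescale_C]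
  · intro v j hj
    rw [← hΦ]
    refine TtAux.F_const hv _ (fun i x y => by simp only [wave, sqM, mul_comm]) j
      (sqM (v (Sum.inr j))) (fun x y => by simp only [sqM, mul_comm]) ?_
    funext x y
    have h3 : ex (0 : Fin n → ℂ) = 1 := by
      have := TtAux.ex_nu' (n := n) (0 : ℂ) (by simp) 0
      simpa using this
    simp only [wave]
    rw [hj, h3, mul_one]
  · intro v j hj
    rw [← hΦ]
    have h3 : (fun i => wave (v (Sum.inl i)) (sqM (v (Sum.inr i)))) =
        Function.update (fun i => wave (v (Sum.inl i)) (sqM (v (Sum.inr i)))) j 0 := by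
      symm
      rw [Function.update_eq_self_iff]
      funext x y
      simp only [wave, sqM, hj, Pi.zero_apply, mul_zero, map_zero, zero_mul]
    rw [h3, ← TtAux.Flin_apply, map_zero]

end Pool.Agent.Helper44.CI
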