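import Pool.Agent.Helper44.CI.Mono
import Pool.Agent.Helper44.CI.Tt

/-!
# Vanishing on all plane waves
-/

open scoped BigOperators
open MvPowerSeries (constantCoeff pderiv)

namespace Pool.Agent.Helper44.CI

variable {n : ℕ}

/-! ### Linear algebra: symmetric matrices -/

lemma exists_frame (a : Fin n → ℝ) (ha : a ≠ 0) : ∃ (i₀ : Fin n) (f : Fin n → Fin n → ℝ) (r : ℝ),
    (∀ x, a x = r * f i₀ x) ∧ r ≠ 0 ∧ (∀ k l, ∑ x, f k x * f l x = if k = l then 1 else 0) ∧
      (∀ x y, ∑ k, f k x * f k y = if x = y then 1 else 0) := by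
  classical
  obtain ⟨i₀, hi₀⟩ : ∃ i, a i ≠ 0 := by
    by_contra h
    push Not at h
    exact ha (funext h)
  let a' : EuclideanSpace ℝ (Fin n) := WithLp.toLp 2 a
  have ha' : a' ≠ 0 := by
    intro h
    apply hi₀
    have := congrArg (fun v : EuclideanSpace ℝ (Fin n) => v i₀) h
    simpa [a'] using this
  have hr : ‖a'‖ ≠ 0 := norm_ne_zero_iff.2 ha'
  obtain ⟨b, hb⟩ := Orthonormal.exists_orthonormalBasis_extension_of_card_eq (𝕜 := ℝ)
    (E := EuclideanSpace ℝ (Fin n)) (ι := Fin n) (by simp)
    (v := fun _ => (‖a'‖⁻¹ : ℝ) • a') (s := {i₀}) (by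
      constructor
      · intro i
        simp only [Set.domRestrict_apply, norm_smul, norm_inv, norm_norm]
        exact inv_mul_cancel₀ hr
      · intro i j hij
        exact absurd (Subsingleton.elim i j) hij)
  refine ⟨i₀, fun k x => b k x, ‖a'‖, ?_, hr, ?_, ?_⟩
  · intro x
    have h1 := hb i₀ rfl
    show a x = ‖a'‖ * (b i₀) x
    rw [h1]
    simp only [PiLp.smul_apply, smul_eq_mul]
    rw [mul_inv_cancel_left₀ hr]
  · intro k l
    have h1 := (orthonormal_iff_ite.1 b.orthonormal) k l
    rw [← h1]
    simp only [PiLp.inner_apply, RCLike.inner_apply, conj_trivial]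
    exact Finset.sum_congr rfl fun x _ => mul_comm _ _
  · intro x y
    have h1 := b.sum_inner_mul_inner (EuclideanSpace.single x (1 : ℝ))
      (EuclideanSpace.single y (1 : ℝ))
    simp only [EuclideanSpace.inner_single_left, EuclideanSpace.inner_single_right,
      conj_trivial, one_mul] at h1
    rw [h1]
    simp [eq_comm]

/-- the symmetric product of two vectors -/
def symP (x y : Fin n → ℂ) : Fin n → Fin n → ℂ := fun i j => x i * y j + y i * x j

lemma symP_comm (x y : Fin n → ℂ) : symP x y = symP y x := by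
  funext i j
  simp only [symP]
  ring

lemma symP_add (x y z : Fin n → ℂ) : symP x (y + z) = symP x y + symP x z := by
  funext i j
  simp only [symP, Pi.add_apply]
  ring

lemma symP_smul (x y : Fin n → ℂ) (r : ℂ) : symP x (r • y) = r • symP x y := by
  funext i j
  simp only [symP, Pi.smul_apply, smul_eq_mul]
  ring

lemma symP_sum {κ : Type} (s : Finset κ) (x : Fin n → ℂ) (r : κ → ℂ) (y : κ → Fin n → ℂ) :
    symP x (∑ k ∈ s, r k • y k) = ∑ k ∈ s, r k • symP x (y k) := by
  classical
  induction s using Finset.induction_on with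
  | empty =>
    funext i j
    simp [symP]
  | insert k s hk ih => rw [Finset.sum_insert hk, Finset.sum_insert hk, symP_add, symP_smul, ih]

/-- Every symmetric matrix is a combination of `a eᵀ + e aᵀ`, `δ` and the `z zᵀ` with `z` null
and orthogonal to `a`. -/
lemma sym_span (hn : 2 ≤ n) (a : Fin n → ℝ) (ha : a ≠ 0) (W : Submodule ℂ (Fin n → Fin n → ℂ))
    (h1 : ∀ e : Fin n → ℂ, symP (fun i => (a i : ℂ)) e ∈ W)
    (h2 : (fun i j : Fin n => (dl i j : ℂ)) ∈ W)
    (h3 : ∀ z : Fin n → ℂ, ∑ x, (a x : ℂ) * z x = 0 → ∑ x, z x * z x = 0 → sqM z ∈ W)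
    (B : Fin n → Fin n → ℂ) (hB : SymM B) : B ∈ W := by
  classical
  obtain ⟨i₀, f, r, haf, hr, hf1, hf2⟩ := exists_frame a ha
  let φ : Fin n → Fin n → ℂ := fun k x => (f k x : ℂ)
  have hφ1 : ∀ k l, ∑ x, φ k x * φ l x = if k = l then 1 else 0 := by
    intro k l
    have := congrArg (fun t : ℝ => (t : ℂ)) (hf1 k l)
    simp only [Complex.ofReal_sum, Complex.ofReal_mul] at this
    simp only [φ, this]
    split_ifs <;> simp
  have hφ2 : ∀ x y, ∑ k, φ k x * φ k y = if x = y then 1 else 0 := by
    intro x y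
    have := congrArg (fun t : ℝ => (t : ℂ)) (hf2 x y)
    simp only [Complex.ofReal_sum, Complex.ofReal_mul] at this
    simp only [φ, this]
    split_ifs <;> simp
  have hr' : (r : ℂ) ≠ 0 := by exact_mod_cast hr
  have haφ : (fun i => (a i : ℂ)) = (r : ℂ) • φ i₀ := by
    funext i
    simp only [Pi.smul_apply, smul_eq_mul, φ]
    rw [haf i]
    push_cast
    ring
  -- the first frame vector
  have hW0 : ∀ e : Fin n → ℂ, symP e (φ i₀) ∈ W := by
    intro e
    have h := h1 e
    rw [haφ, symP_comm, symP_smul] at h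
    exact (W.smul_mem_iff hr').1 h
  have hau : ∀ k, k ≠ i₀ → ∑ x, (a x : ℂ) * φ k x = 0 := by
    intro k hk
    have : ∀ x, (a x : ℂ) * φ k x = (r : ℂ) * (φ i₀ x * φ k x) := by
      intro x
      have := congrFun haφ x
      simp only [Pi.smul_apply, smul_eq_mul] at this
      rw [this, mul_assoc]
    rw [Finset.sum_congr rfl fun x _ => this x, ← Finset.mul_sum, hφ1, if_neg (Ne.symm hk),
      mul_zero]
  -- null vectors
  have hz : ∀ (k l : Fin n), k ≠ i₀ → l ≠ i₀ → k ≠ l → ∀ s : ℂ, s * s = -1 →
      sqM (φ k + s • φ l) ∈ W := by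
    intro k l hk hl hkl s hs
    apply h3
    · have : ∀ x, (a x : ℂ) * (φ k + s • φ l) x =
          (a x : ℂ) * φ k x + s * ((a x : ℂ) * φ l x) := by
        intro x
        simp only [Pi.add_apply, Pi.smul_apply, smul_eq_mul]
        ring
      rw [Finset.sum_congr rfl fun x _ => this x, Finset.sum_add_distrib, ← Finset.mul_sum,
        hau k hk, hau l hl]
      simp
    · have : ∀ x, (φ k + s • φ l) x * (φ k + s • φ l) x =
          φ k x * φ k x + (2 * s) * (φ k x * φ l x) + (s * s) * (φ l x * φ l x) := by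
        intro x
        simp only [Pi.add_apply, Pi.smul_apply, smul_eq_mul]
        ring
      rw [Finset.sum_congr rfl fun x _ => this x, Finset.sum_add_distrib,
        Finset.sum_add_distrib, ← Finset.mul_sum, ← Finset.mul_sum, hφ1, hφ1, hφ1, hs,
        if_pos rfl, if_pos rfl, if_neg hkl]
      ring
  have hexp : ∀ (k l : Fin n) (s : ℂ), s * s = -1 → sqM (φ k + s • φ l) =
      (1 / 2 : ℂ) • (symP (φ k) (φ k) - symP (φ l) (φ l)) + s • symP (φ k) (φ l) := by
    intro k l s hs
    funext i j
    simp only [sqM, symP, Pi.add_apply, Pi.sub_apply, Pi.smul_apply, smul_eq_mul]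
    linear_combination (φ l i * φ l j) * hs
  have hoff : ∀ (k l : Fin n), k ≠ i₀ → l ≠ i₀ → k ≠ l →
      symP (φ k) (φ k) - symP (φ l) (φ l) ∈ W ∧ symP (φ k) (φ l) ∈ W := by
    intro k l hk hl hkl
    have e1 := hz k l hk hl hkl Complex.I Complex.I_mul_I
    have e2 := hz k l hk hl hkl (-Complex.I) (by rw [neg_mul_neg, Complex.I_mul_I])
    rw [hexp k l _ Complex.I_mul_I] at e1
    rw [hexp k l _ (by rw [neg_mul_neg, Complex.I_mul_I])] at e2
    have e3 := W.add_mem e1 e2
    have e4 := W.sub_mem e1 e2
    constructor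
    · convert e3 using 1
      funext i j
      simp only [Pi.add_apply, Pi.sub_apply, Pi.smul_apply, smul_eq_mul]
      ring
    · have e5 : (2 * Complex.I) • symP (φ k) (φ l) ∈ W := by
        convert e4 using 1
        funext i j
        simp only [Pi.add_apply, Pi.sub_apply, Pi.smul_apply, smul_eq_mul]
        ring
      exact (W.smul_mem_iff (mul_ne_zero two_ne_zero Complex.I_ne_zero)).1 e5
  -- the sum of the squares
  have hsum : ∑ k, symP (φ k) (φ k) = (2 : ℂ) • (fun i j : Fin n => (dl i j : ℂ)) := by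
    funext i j
    simp only [Finset.sum_apply, symP, Pi.smul_apply, smul_eq_mul, dl]
    rw [Finset.sum_add_distrib, hφ2]
    ring
  have hdiag : ∀ k, symP (φ k) (φ k) ∈ W := by
    intro k
    by_cases hk : k = i₀
    · rw [hk]
      exact hW0 _
    · have e1 : ∑ l ∈ Finset.univ.erase i₀, symP (φ l) (φ l) ∈ W := by
        have e2 : ∑ l ∈ Finset.univ.erase i₀, symP (φ l) (φ l) =
            (2 : ℂ) • (fun i j : Fin n => (dl i j : ℂ)) - symP (φ i₀) (φ i₀) := by
          rw [← hsum, ← Finset.add_sum_erase _ _ (Finset.mem_univ i₀)]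
          abel
        rw [e2]
        exact W.sub_mem (W.smul_mem _ h2) (hW0 _)
      have e3 : ∑ l ∈ Finset.univ.erase i₀, (symP (φ k) (φ k) - symP (φ l) (φ l)) ∈ W := by
        refine W.sum_mem fun l hl => ?_
        by_cases hkl : k = l
        · rw [hkl, sub_self]
          exact W.zero_mem
        · exact (hoff k l hk (Finset.ne_of_mem_erase hl) hkl).1
      have e4 := W.add_mem e1 e3
      rw [Finset.sum_sub_distrib, Finset.sum_const, Finset.card_erase_of_mem (Finset.mem_univ _),
        Finset.card_univ, Fintype.card_fin, add_sub_cancel, ← Nat.cast_smul_eq_nsmul ℂ] at e4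
      refine (W.smul_mem_iff ?_).1 e4
      rw [Nat.cast_ne_zero]
      omega
  have hall : ∀ k l, symP (φ k) (φ l) ∈ W := by
    intro k l
    by_cases hk : k = i₀
    · rw [hk, symP_comm]
      exact hW0 _
    · by_cases hl : l = i₀
      · rw [hl]
        exact hW0 _
      · by_cases hkl : k = l
        · rw [hkl]
          exact hdiag l
        · exact (hoff k l hk hl hkl).2
  -- all vectors
  have hx : ∀ x : Fin n → ℂ, x = ∑ k, (∑ y, φ k y * x y) • φ k := by
    intro x
    funext i
    simp only [Finset.sum_apply, Pi.smul_apply, smul_eq_mul, Finset.sum_mul]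
    rw [Finset.sum_comm]
    have : ∀ y, ∑ k, φ k y * x y * φ k i = (if y = i then 1 else 0) * x y := by
      intro y
      rw [← hφ2 y i, Finset.sum_mul]
      exact Finset.sum_congr rfl fun k _ => by ring
    rw [Finset.sum_congr rfl fun y _ => this y]
    simp
  have hgen : ∀ x y : Fin n → ℂ, symP x y ∈ W := by
    intro x y
    rw [hx y, symP_sum]
    refine W.sum_mem fun k _ => W.smul_mem _ ?_
    rw [symP_comm, hx x, symP_sum]
    exact W.sum_mem fun l _ => W.smul_mem _ (hall k l)
  have hBe : B = ∑ i, ∑ j, (1 / 2 * B i j) • symP (Pi.single i (1 : ℂ)) (Pi.single j 1) := by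
    funext p q
    simp only [Finset.sum_apply, Pi.smul_apply, smul_eq_mul, symP, mul_add,
      Finset.sum_add_distrib]
    have e1 : ∑ i, ∑ j, 1 / 2 * B i j * ((Pi.single i (1 : ℂ) : Fin n → ℂ) p *
        (Pi.single j (1 : ℂ) : Fin n → ℂ) q) = 1 / 2 * B p q := by
      rw [Finset.sum_eq_single p, Finset.sum_eq_single q]
      · simp
      · intro j _ hj
        simp [Ne.symm hj]
      · simp
      · intro i _ hi
        simp [Pi.single_apply, Ne.symm hi]
      · simp
    have e2 : ∑ i, ∑ j, 1 / 2 * B i j * ((Pi.single j (1 : ℂ) : Fin n → ℂ) p *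
        (Pi.single i (1 : ℂ) : Fin n → ℂ) q) = 1 / 2 * B q p := by
      rw [Finset.sum_eq_single q, Finset.sum_eq_single p]
      · simp
      · intro j _ hj
        simp [Ne.symm hj]
      · simp
      · intro i _ hi
        simp [Pi.single_apply, Ne.symm hi]
      · simp
    rw [e1, e2, hB q p]
    ring
  rw [hBe]
  exact W.sum_mem fun i _ => W.sum_mem fun j _ => W.smul_mem _ (hgen _ _)

/-! ### Plane waves -/

variable {c : Contraction →₀ ℝ}

lemma symM_wave {K : Type} [CommRing K] [Algebra ℝ K] (a : Fin n → K) {A : Fin n → Fin n → K}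
    (hA : SymM A) : SymM (wave a A) := by
  intro i j
  simp only [wave, hA i j]

lemma wave_add {K : Type} [CommRing K] [Algebra ℝ K] (a : Fin n → K) (A B : Fin n → Fin n → K) :
    wave a (A + B) = wave a A + wave a B := by
  funext i j
  simp only [wave, Pi.add_apply, map_add, add_mul]

lemma wave_smul {K : Type} [CommRing K] [Algebra ℝ K] (a : Fin n → K) (r : K)
    (A : Fin n → Fin n → K) :
    wave a (r • A) = fun i j => MvPowerSeries.C r * wave a A i j := by
  funext i j
  simp only [wave, Pi.smul_apply, smul_eq_mul, map_mul, mul_assoc]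

/-- the matrices `B` which may be put on the leg `j` -/
noncomputable def legW (c : Contraction →₀ ℝ) {ι : Type} [Fintype ι] [DecidableEq ι]
    (H : ι → Fld n ℂ) (j : ι) (a : Fin n → ℂ) : Submodule ℂ (Fin n → Fin n → ℂ) where
  carrier := {B | F c (Function.update H j (wave a B)) = 0}
  add_mem' := by
    intro A B hA hB
    simp only [Set.mem_ofPred_eq] at hA hB ⊢
    rw [wave_add, F_add, hA, hB, add_zero]
  zero_mem' := by
    simp only [Set.mem_ofPred_eq]
    have : wave a (0 : Fin n → Fin n → ℂ) = fun _ _ => 0 := by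
      funext i j
      simp [wave]
    rw [this]
    exact F_update_zero H j
  smul_mem' := by
    intro r A hA
    simp only [Set.mem_ofPred_eq] at hA ⊢
    rw [wave_smul, F_smul, hA, mul_zero]

lemma mem_legW {ι : Type} [Fintype ι] [DecidableEq ι] {H : ι → Fld n ℂ} {j : ι} {a : Fin n → ℂ}
    {B : Fin n → Fin n → ℂ} : B ∈ legW c H j a ↔ F c (Function.update H j (wave a B)) = 0 :=
  Iff.rfl

lemma wave_gauge (a e : Fin n → ℂ) : ∃ xi : Fin n → MvPowerSeries (Fin n) ℂ,
    (∀ k, constantCoeff (xi k) = 0) ∧ wave a (symP a e) = lieDl xi := by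
  refine ⟨fun k => MvPowerSeries.C (e k) * (ex a - 1), fun k => ?_, ?_⟩
  · rw [map_mul, map_sub, constantCoeff_ex, map_one, sub_self, mul_zero]
  · funext i j
    have h : ∀ p q : Fin n, pderiv ℂ p (MvPowerSeries.C (e q) * (ex a - 1)) =
        MvPowerSeries.C (e q) * (MvPowerSeries.C (a p) * ex a) := by
      intro p q
      rw [Derivation.leibniz, map_sub, pderiv_ex, MvPowerSeries.pderiv_C, smul_zero, add_zero,
        Derivation.map_one_eq_zero, sub_zero, smul_eq_mul]
    rw [lieDl, h, h, wave, symP, map_add, map_mul, map_mul]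
    ring

lemma F_update_conf (hc : FConf n c) {K : Type} [CommRing K] [Algebra ℝ K]
    {ι : Type} [Fintype ι] [DecidableEq ι] (hv : ∀ j, j < Fintype.card ι → Vanish n c j)
    (w : MvPowerSeries (Fin n) K) (H : ι → Fld n K) (hH : ∀ i, SymM (H i)) (i : ι) :
    F c (Function.update H i (fun p q => w * dl p q)) = 0 := by
  let e : Option {j // j ≠ i} ≃ ι := (Equiv.optionSubtypeNe i)
  have h1 := F_reindex (c := c) e (Function.update H i (fun p q => w * dl p q))
  rw [← h1]
  have h2 : (fun o => Function.update H i (fun p q => w * dl p q) (e o)) =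
      fun o : Option {j // j ≠ i} => o.elim (fun p q => w * dl p q) (fun j => H j) := by
    funext o
    rcases o with _ | ⟨j, hj⟩
    · simp [e]
    · simp [e, hj]
  rw [h2]
  refine F_conf hc (fun k hk => hv k ?_) w _ (fun j => hH j)
  refine lt_of_le_of_lt hk ?_
  exact Fintype.card_subtype_lt (p := fun j => j ≠ i) (x := i) (by simp)

/-- complex matrices on real wave vectors -/
theorem wave_vanish_complex (hn : Even n) (hn4 : 4 ≤ n) (hw : HasWeight n c)
    (hc : FConf n c) {ι : Type} [Fintype ι] [DecidableEq ι] (hι : 0 < Fintype.card ι)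
    (hιn : 2 * Fintype.card ι ≤ n) (hv : ∀ j, j < Fintype.card ι → Vanish n c j)
    (a : ι → Fin n → ℝ) (ha : ∀ j, a j ≠ 0) (S : Finset ι) :
    ∀ (B : ι → Fin n → Fin n → ℂ), (∀ j, SymM (B j)) →
      (∀ j, j ∉ S → ∃ z : Fin n → ℂ, ∑ x, (a j x : ℂ) * z x = 0 ∧ ∑ x, z x * z x = 0 ∧
        B j = sqM z) →
      F c (fun j => wave (fun x => (a j x : ℂ)) (B j)) = 0 := by
  induction S using Finset.induction_on with
  | empty =>
    intro B _ h
    choose z hz1 hz2 hz3 using fun j => h j (Finset.notMem_empty j)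
    have : (fun j => wave (fun x => (a j x : ℂ)) (B j)) =
        fun j => wave (fun x => (a j x : ℂ)) (sqM (z j)) := by
      funext j
      rw [hz3]
    rw [this]
    exact tt_vanish hn hn4 hw hc hι hιn hv (fun j x => (a j x : ℂ)) z hz1 hz2
  | insert j S hj ih =>
    intro B hB h
    have hupd : ∀ B' : Fin n → Fin n → ℂ,
        Function.update (fun j => wave (fun x => (a j x : ℂ)) (B j)) j
          (wave (fun x => (a j x : ℂ)) B') =
        fun i => wave (fun x => (a i x : ℂ)) (Function.update B j B' i) := by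
      intro B'
      funext i
      by_cases hi : i = j
      · subst hi
        rw [Function.update_self, Function.update_self]
      · rw [Function.update_of_ne hi, Function.update_of_ne hi]
    have key : B j ∈ legW c (fun j => wave (fun x => (a j x : ℂ)) (B j)) j
        (fun x => (a j x : ℂ)) := by
      refine sym_span (by omega) (a j) (ha j) _ ?_ ?_ ?_ (B j) (hB j)
      · intro e
        rw [mem_legW]
        obtain ⟨xi, hxi, h4⟩ := wave_gauge (fun x => (a j x : ℂ)) e
        rw [h4]
        exact F_update_gauge hv xi hxi _ (fun i => symM_wave _ (hB i)) j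
      · rw [mem_legW]
        have h4 : wave (fun x => (a j x : ℂ)) (fun p q : Fin n => (dl p q : ℂ)) =
            fun p q => ex (fun x => (a j x : ℂ)) * dl p q := by
          funext p q
          simp only [wave, dl]
          split_ifs <;> simp
        rw [h4]
        exact F_update_conf hc hv _ _ (fun i => symM_wave _ (hB i)) j
      · intro z hz1 hz2
        rw [mem_legW, hupd]
        refine ih _ ?_ ?_
        · intro i
          by_cases hi : i = j
          · subst hi
            rw [Function.update_self]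
            intro p q
            simp only [sqM]
            ring
          · rw [Function.update_of_ne hi]
            exact hB i
        · intro i hi
          by_cases hij : i = j
          · subst hij
            exact ⟨z, hz1, hz2, by rw [Function.update_self]⟩
          · obtain ⟨z', h1', h2', h3'⟩ := h i (by
              rw [Finset.mem_insert, not_or]
              exact ⟨hij, hi⟩)
            exact ⟨z', h1', h2', by rw [Function.update_of_ne hij, h3']⟩
    rw [mem_legW, Function.update_eq_self] at key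
    exact key

theorem wave_vanish (hn : Even n) (hn4 : 4 ≤ n) {c : Contraction →₀ ℝ} (hw : HasWeight n c)
    (hc : FConf n c) {ι : Type} [Fintype ι] [DecidableEq ι] (hι : 0 < Fintype.card ι)
    (hιn : 2 * Fintype.card ι ≤ n) (hv : ∀ j, j < Fintype.card ι → Vanish n c j)
    (a : ι → Fin n → ℝ) (A : ι → Fin n → Fin n → ℝ) (ha : ∀ j, a j ≠ 0) (hA : ∀ j, SymM (A j)) :
    F c (fun j => wave (a j) (A j)) = 0 := by
  let θ : ℝ →ₐ[ℝ] ℂ := Algebra.ofId ℝ ℂ
  have hθ : ∀ r : ℝ, θ r = (r : ℂ) := fun r => rfl
  have h1 := F_map (c := c) θ (fun j => wave (a j) (A j))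
  have h2 : (fun j => mapF θ.toRingHom (wave (a j) (A j))) =
      fun j => wave (fun x => (a j x : ℂ)) (fun p q => (A j p q : ℂ)) := by
    funext j
    rw [mapF_wave]
    rfl
  rw [h2, wave_vanish_complex hn hn4 hw hc hι hιn hv a ha Finset.univ _
    (fun j p q => by simp only [hA j p q])
    (fun j hj => absurd (Finset.mem_univ j) hj), hθ] at h1
  exact_mod_cast h1.symm

end Pool.Agent.Helper44.CI
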