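import Pool.Agent.Helper44.CI.Smooth
import Pool.Agent.Helper44.CI.Mono
import Pool.Agent.Helper44.CI.Tt
import Pool.Agent.Helper44.CI.WaveVanish

/-!
# Conclusion
-/

open scoped BigOperators
open MvPowerSeries (constantCoeff)

namespace Pool.Agent.Helper44.CI

variable {n : ℕ}

theorem vanish_all (hn : Even n) (hn4 : 4 ≤ n) {c : Contraction →₀ ℝ} (hw : HasWeight n c)
    (hc : FConf n c) (j : ℕ) : Vanish n c j := by
  induction j using Nat.strong_induction_on with
  | _ m ih =>
    by_cases hm : n < 2 * m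
    · exact vanish_large hw m hm ih
    · by_cases h0 : m = 0
      · subst h0
        -- no legs: homogeneity
        refine vanish_of_mono hw 0 fun ι _ _ hι α A _ => F_monF_weight hw α A ?_
        have : IsEmpty ι := Fintype.card_eq_zero_iff.1 hι
        simp
        omega
      · refine vanish_of_wave hw m fun ι _ _ hι a A ha hA => ?_
        subst hι
        exact wave_vanish hn hn4 hw hc (Nat.pos_of_ne_zero h0) (by omega) ih a A ha hA

theorem main (hn : Even n) (hn4 : 4 ≤ n) (c : Contraction →₀ ℝ)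
    (hc : IsConformalInvariant n (-(n : ℝ)) c) (U : Set (Fin n → ℝ)) (hU : IsOpen U)
    (g : Fin n → Fin n → (Fin n → ℝ) → ℝ) (hg : IsMetricOn U g) (x : Fin n → ℝ) (hx : x ∈ U) :
    scalar c g x = 0 := by
  obtain ⟨c', hw, hc', h⟩ := exists_weight c hc
  rw [h U hU g hg x hx]
  obtain ⟨g', hs, h0, hJ⟩ := exists_normalized hU hg hx
  rw [hJ]
  exact J_eq_zero (vanish_all hn hn4 hw (fconf_of_isConformalInvariant hn hc')) g' hs h0

end Pool.Agent.Helper44.CI
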