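import Pool.Agent.Helper44.CI.Func2

/-!
# Homogeneity and locality of `F`
-/

open scoped BigOperators
open MvPowerSeries (constantCoeff pderiv)

namespace Pool.Agent.Helper44.CI

/-! ## Multiplying the derivations by a constant -/

section Scale

variable {n : ℕ} {A : Type*} [CommRing A] [Algebra ℝ A]

lemma christoffel_scale (d : Fin n → A → A) (t : A) (g G : Fin n → Fin n → A) (k i j : Fin n) :
    christoffel (fun i a => t * d i a) g G k i j = t * christoffel d g G k i j := by
  simp only [christoffel]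
  rw [mul_smul_comm, Finset.mul_sum]
  congr 1
  refine Finset.sum_congr rfl fun l _ => ?_
  ring

lemma IsDer.const_mul {d : Fin n → A → A} (hd : IsDer d) {t : A} (ht : ∀ i, d i t = 0)
    (i : Fin n) (a : A) : d i (t * a) = t * d i a := by
  rw [hd.mul, ht, zero_mul, zero_add]

lemma IsDer.const_pow {d : Fin n → A → A} (hd : IsDer d) {t : A} (ht : ∀ i, d i t = 0)
    (m : ℕ) (i : Fin n) : d i (t ^ m) = 0 := by
  induction m with
  | zero =>
    have h1 := hd.mul i 1 1
    rw [mul_one, mul_one, one_mul] at h1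
    rw [pow_zero]
    have : d i 1 + 0 = d i 1 + d i 1 := by rw [add_zero]; exact h1
    exact (add_left_cancel this).symm
  | succ m ih => rw [pow_succ, hd.mul, ih, ht, zero_mul, mul_zero, add_zero]

lemma ricci_scale {d : Fin n → A → A} (hd : IsDer d) {t : A} (ht : ∀ i, d i t = 0)
    (g G : Fin n → Fin n → A) (i j : Fin n) :
    ricci (fun i a => t * d i a) g G i j = t ^ 2 * ricci d g G i j := by
  simp only [ricci, christoffel_scale, hd.const_mul ht]
  rw [mul_add, Finset.mul_sum, Finset.mul_sum]
  congr 1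
  · refine Finset.sum_congr rfl fun k _ => ?_
    ring
  · refine Finset.sum_congr rfl fun k _ => ?_
    rw [Finset.mul_sum]
    refine Finset.sum_congr rfl fun l _ => ?_
    ring

lemma schouten_scale {d : Fin n → A → A} (hd : IsDer d) {t : A} (ht : ∀ i, d i t = 0)
    (g G : Fin n → Fin n → A) (i j : Fin n) :
    schouten (fun i a => t * d i a) g G i j = t ^ 2 * schouten d g G i j := by
  have h1 : scalarCurv (fun i a => t * d i a) g G = t ^ 2 * scalarCurv d g G := by
    simp only [scalarCurv, ricci_scale hd ht, Finset.mul_sum]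
    refine Finset.sum_congr rfl fun k _ => Finset.sum_congr rfl fun l _ => ?_
    ring
  simp only [schouten, ricci_scale hd ht, h1]
  rw [mul_smul_comm, mul_assoc, ← mul_smul_comm, ← mul_sub]

lemma covDerivP_scale {d : Fin n → A → A} (hd : IsDer d) {t : A} (ht : ∀ i, d i t = 0)
    (g G : Fin n → Fin n → A) (l : ℕ) (i : Fin (l + 2) → Fin n) :
    covDerivP (fun i a => t * d i a) g G l i = t ^ (l + 2) * covDerivP d g G l i := by
  induction l with
  | zero => exact schouten_scale hd ht g G _ _
  | succ l ih =>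
    have ht' : ∀ i, d i (t ^ (l + 2)) = 0 := hd.const_pow ht (l + 2)
    simp only [covDerivP, covDeriv, christoffel_scale, ih, hd.const_mul ht']
    rw [mul_sub, Finset.mul_sum]
    congr 1
    · ring
    · refine Finset.sum_congr rfl fun s _ => ?_
      rw [Finset.mul_sum]
      refine Finset.sum_congr rfl fun k _ => ?_
      ring

lemma eval_scale {d : Fin n → A → A} (hd : IsDer d) {t : A} (ht : ∀ i, d i t = 0)
    (g G : Fin n → Fin n → A) (C : Contraction) :
    C.eval (fun i a => t * d i a) g G = t ^ (∑ a, (C.l a + 2)) * C.eval d g G := by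
  simp only [Contraction.eval, covDerivP_scale hd ht, Finset.mul_sum, Finset.prod_mul_distrib,
    Finset.prod_pow_eq_pow_sum]
  refine Finset.sum_congr rfl fun i _ => ?_
  ring

lemma linComb_scale {c : Contraction →₀ ℝ} (hw : HasWeight n c) {d : Fin n → A → A}
    (hd : IsDer d) {t : A} (ht : ∀ i, d i t = 0) (g G : Fin n → Fin n → A) :
    linComb c (fun i a => t * d i a) g G = t ^ n * linComb c d g G := by
  simp only [linComb, Finsupp.sum, eval_scale hd ht, Finset.mul_sum]
  refine Finset.sum_congr rfl fun C hC => ?_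
  rw [hw C hC, mul_smul_comm]

end Scale

section Rescale

variable {n : ℕ} {c : Contraction →₀ ℝ} {K : Type} [CommRing K] [Algebra ℝ K]

/-- rescaling of power series as an algebra hom -/
noncomputable def rescaleA (n : ℕ) (t : K) :
    MvPowerSeries (Fin n) K →ₐ[ℝ] MvPowerSeries (Fin n) K :=
  { MvPowerSeries.rescale (σ := Fin n) (fun _ => t) with
    commutes' := fun r => by
      change MvPowerSeries.rescale (σ := Fin n) (fun _ => t) (algebraMap ℝ _ r) = _
      rw [MvPowerSeries.algebraMap_apply]
      ext α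
      rw [MvPowerSeries.coeff_rescale, MvPowerSeries.coeff_C]
      split_ifs with h
      · subst h
        simp
      · simp }

lemma rescaleA_apply (t : K) (f : MvPowerSeries (Fin n) K) :
    rescaleA n t f = MvPowerSeries.rescale (fun _ => t) f := rfl

omit [Algebra ℝ K] in
lemma coeff_rescale_const (t : K) (f : MvPowerSeries (Fin n) K) (α : Fin n →₀ ℕ) :
    MvPowerSeries.coeff α (MvPowerSeries.rescale (fun _ => t) f) =
      t ^ α.degree * MvPowerSeries.coeff α f := by
  rw [MvPowerSeries.coeff_rescale]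
  congr 1
  rw [Finsupp.prod, Finset.prod_pow_eq_pow_sum]
  rfl

omit [Algebra ℝ K] in
lemma pdv_rescale (t : K) (f : MvPowerSeries (Fin n) K) (i : Fin n) :
    pdv n K i (MvPowerSeries.rescale (fun _ => t) f) =
      MvPowerSeries.C t * MvPowerSeries.rescale (fun _ => t) (pdv n K i f) := by
  ext α
  rw [pdv, pdv, MvPowerSeries.coeff_pderiv, MvPowerSeries.coeff_C_mul, coeff_rescale_const,
    coeff_rescale_const, MvPowerSeries.coeff_pderiv, map_add, Finsupp.degree_single]
  ring

theorem J_rescale (hw : HasWeight n c) (t : K) {g : Fld n K} (hg : IsUnit (Matrix.of g).det) :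
    J c (fun i j => MvPowerSeries.rescale (fun _ => t) (g i j)) = t ^ n * J c g := by
  have h1 := isInv_invM hg
  have h2 : IsInv (fun i j => rescaleA n t (g i j)) (fun i j => rescaleA n t (invM g i j)) :=
    h1.map (rescaleA n t).toRingHom
  have hC : ∀ i, pdv n K i (MvPowerSeries.C t) = 0 := by
    intro i
    simp [pdv]
  have h3 := linComb_map (rescaleA n t) (dA := fun i a => MvPowerSeries.C t * pdv n K i a)
    (dB := pdv n K) (fun i a => by
      rw [map_mul, rescaleA_apply, rescaleA_apply, rescaleA_apply, pdv_rescale]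
      congr 1
      ext α
      rw [coeff_rescale_const, MvPowerSeries.coeff_C]
      split_ifs with h
      · subst h; simp
      · simp) c g (invM g)
  have h4 := J_eq (c := c) h2
  rw [← h3, linComb_scale hw isDer_pdv hC] at h4
  have h5 : J c (fun i j => rescaleA n t (g i j)) =
    J c (fun i j => MvPowerSeries.rescale (fun _ => t) (g i j)) := rfl
  rw [← h5, h4, rescaleA_apply, ← MvPowerSeries.coeff_zero_eq_constantCoeff_apply,
    coeff_rescale_const, MvPowerSeries.coeff_zero_eq_constantCoeff_apply, map_mul, map_pow,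
    MvPowerSeries.constantCoeff_C, J]
  simp

/-- homogeneity -/
theorem F_rescale (hw : HasWeight n c) {ι : Type} [Fintype ι] (t : K) (H : ι → Fld n K) :
    F c (fun i a b => MvPowerSeries.rescale (fun _ => t) (H i a b)) = t ^ n * F c H := by
  classical
  have h1 := J_rescale (c := c) hw (algebraMap K (Sq ι K) t)
    (isUnit_det_fam (n := n) (fun i => (nu i : Sq ι K)) nu_mul_self H)
  have h2 : (fun i j => MvPowerSeries.rescale (fun _ => algebraMap K (Sq ι K) t)
      (fam (fun i => (nu i : Sq ι K)) H i j)) =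
      fam (fun i => (nu i : Sq ι K))
        (fun i a b => MvPowerSeries.rescale (fun _ => t) (H i a b)) := by
    funext a b
    ext α
    rw [coeff_rescale_const]
    simp only [fam, map_add, map_sum, MvPowerSeries.coeff_smul, MvPowerSeries.coeff_map,
      coeff_rescale_const, mul_add, Finset.mul_sum, map_mul, map_pow]
    congr 1
    · simp only [dl]
      split_ifs
      · rw [MvPowerSeries.coeff_one]
        split_ifs with h
        · subst h; simp
        · simp
      · simp
    · refine Finset.sum_congr rfl fun i _ => ?_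
      ring
  rw [h2] at h1
  rw [F, h1, F, ← map_pow, ← Algebra.smul_def, map_smul, smul_eq_mul]

end Rescale

/-! ## Locality -/

section Local

variable {n : ℕ} {K : Type} [CommRing K]

/-- the ideal of the power series without terms of degree `< N` -/
def ordI (n : ℕ) (K : Type) [CommRing K] (N : ℕ) : Ideal (MvPowerSeries (Fin n) K) where
  carrier := {f | ∀ α : Fin n →₀ ℕ, α.degree < N → MvPowerSeries.coeff α f = 0}
  zero_mem' := fun α _ => by simp
  add_mem' := fun {f g} hf hg α hα => by rw [map_add, hf α hα, hg α hα, add_zero]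
  smul_mem' := fun r f hf α hα => by
    classical
    rw [smul_eq_mul, MvPowerSeries.coeff_mul]
    refine Finset.sum_eq_zero fun p hp => ?_
    have h1 : p.1 + p.2 = α := Finset.HasAntidiagonal.mem_antidiagonal.1 hp
    rw [hf p.2 ?_, mul_zero]
    refine lt_of_le_of_lt ?_ hα
    rw [← h1, map_add]
    exact Nat.le_add_left _ _

lemma mem_ordI {N : ℕ} {f : MvPowerSeries (Fin n) K} :
    f ∈ ordI n K N ↔ ∀ α : Fin n →₀ ℕ, α.degree < N → MvPowerSeries.coeff α f = 0 := Iff.rfl

/-- equality modulo terms of degree `≥ N` -/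
def EqU (N : ℕ) (f f' : MvPowerSeries (Fin n) K) : Prop :=
  Ideal.Quotient.mk (ordI n K N) f = Ideal.Quotient.mk (ordI n K N) f'

lemma eqU_iff {N : ℕ} {f f' : MvPowerSeries (Fin n) K} : EqU N f f' ↔
    ∀ α : Fin n →₀ ℕ, α.degree < N → MvPowerSeries.coeff α f = MvPowerSeries.coeff α f' := by
  rw [EqU, Ideal.Quotient.eq, mem_ordI]
  simp only [map_sub, sub_eq_zero]

lemma EqU.rfl' {N : ℕ} (f : MvPowerSeries (Fin n) K) : EqU N f f := rfl

lemma EqU.mono {N N' : ℕ} {f f' : MvPowerSeries (Fin n) K} (h : EqU N f f') (hN : N' ≤ N) :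
    EqU N' f f' := by
  rw [eqU_iff] at h ⊢
  exact fun α hα => h α (lt_of_lt_of_le hα hN)

lemma EqU.add {N : ℕ} {f f' g g' : MvPowerSeries (Fin n) K} (h : EqU N f f') (h' : EqU N g g') :
    EqU N (f + g) (f' + g') := by
  rw [EqU, map_add, map_add, h, h']

lemma EqU.sub {N : ℕ} {f f' g g' : MvPowerSeries (Fin n) K} (h : EqU N f f') (h' : EqU N g g') :
    EqU N (f - g) (f' - g') := by
  rw [EqU, map_sub, map_sub, h, h']

lemma EqU.mul {N : ℕ} {f f' g g' : MvPowerSeries (Fin n) K} (h : EqU N f f') (h' : EqU N g g') :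
    EqU N (f * g) (f' * g') := by
  rw [EqU, map_mul, map_mul, h, h']

lemma EqU.sum {N : ℕ} {ι : Type*} (s : Finset ι) {f f' : ι → MvPowerSeries (Fin n) K}
    (h : ∀ i ∈ s, EqU N (f i) (f' i)) : EqU N (∑ i ∈ s, f i) (∑ i ∈ s, f' i) := by
  rw [EqU, map_sum, map_sum]
  exact Finset.sum_congr rfl h

lemma EqU.prod {N : ℕ} {ι : Type*} (s : Finset ι) {f f' : ι → MvPowerSeries (Fin n) K}
    (h : ∀ i ∈ s, EqU N (f i) (f' i)) : EqU N (∏ i ∈ s, f i) (∏ i ∈ s, f' i) := by
  rw [EqU, map_prod, map_prod]
  exact Finset.prod_congr rfl h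

lemma EqU.pdv {N : ℕ} {f f' : MvPowerSeries (Fin n) K} (h : EqU (N + 1) f f') (i : Fin n) :
    EqU N (pdv n K i f) (pdv n K i f') := by
  rw [eqU_iff] at h ⊢
  intro α hα
  simp only [CI.pdv, MvPowerSeries.coeff_pderiv]
  rw [h]
  rw [map_add, Finsupp.degree_single]
  omega

variable [Algebra ℝ K]

lemma EqU.smul {N : ℕ} {f f' : MvPowerSeries (Fin n) K} (h : EqU N f f') (r : ℝ) :
    EqU N (r • f) (r • f') := by
  rw [Algebra.smul_def, Algebra.smul_def]
  exact (EqU.rfl' _).mul h

variable {g G g' G' : Fld n K}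

lemma christoffel_eqU {M : ℕ} (hg : ∀ i j, EqU (M + 1) (g i j) (g' i j))
    (hG : ∀ i j, EqU (M + 1) (G i j) (G' i j)) (k i j : Fin n) :
    EqU M (christoffel (pdv n K) g G k i j) (christoffel (pdv n K) g' G' k i j) := by
  refine EqU.smul (EqU.sum _ fun l _ => ?_) _
  exact ((hG k l).mono (Nat.le_succ _)).mul
    ((((hg j l).pdv i).add ((hg i l).pdv j)).sub ((hg i j).pdv l))

lemma ricci_eqU {M : ℕ} (hg : ∀ i j, EqU (M + 2) (g i j) (g' i j))
    (hG : ∀ i j, EqU (M + 2) (G i j) (G' i j)) (i j : Fin n) :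
    EqU M (ricci (pdv n K) g G i j) (ricci (pdv n K) g' G' i j) := by
  have h1 : ∀ k i j, EqU (M + 1) (christoffel (pdv n K) g G k i j)
      (christoffel (pdv n K) g' G' k i j) := christoffel_eqU hg hG
  have h2 : ∀ k i j, EqU M (christoffel (pdv n K) g G k i j)
      (christoffel (pdv n K) g' G' k i j) := fun k i j => (h1 k i j).mono (Nat.le_succ _)
  refine EqU.add (EqU.sum _ fun k _ => ?_) (EqU.sum _ fun k _ => EqU.sum _ fun l _ => ?_)
  · exact ((h1 k i j).pdv k).sub ((h1 k i k).pdv j)
  · exact ((h2 k k l).mul (h2 l i j)).sub ((h2 k j l).mul (h2 l i k))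

lemma schouten_eqU {M : ℕ} (hg : ∀ i j, EqU (M + 2) (g i j) (g' i j))
    (hG : ∀ i j, EqU (M + 2) (G i j) (G' i j)) (i j : Fin n) :
    EqU M (schouten (pdv n K) g G i j) (schouten (pdv n K) g' G' i j) := by
  have h1 := ricci_eqU hg hG
  refine EqU.smul ((h1 i j).sub (EqU.smul (EqU.mul (EqU.sum _ fun k _ => EqU.sum _ fun l _ => ?_)
    ((hg i j).mono (by omega))) _)) _
  exact ((hG k l).mono (by omega)).mul (h1 k l)

lemma covDerivP_eqU (l : ℕ) : ∀ {M : ℕ}, (∀ i j, EqU (M + (l + 2)) (g i j) (g' i j)) →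
    (∀ i j, EqU (M + (l + 2)) (G i j) (G' i j)) → ∀ i : Fin (l + 2) → Fin n,
    EqU M (covDerivP (pdv n K) g G l i) (covDerivP (pdv n K) g' G' l i) := by
  induction l with
  | zero => exact fun hg hG i => schouten_eqU hg hG _ _
  | succ l ih =>
    intro M hg hG i
    have h1 : ∀ i j, EqU (M + 1 + (l + 2)) (g i j) (g' i j) :=
      fun i j => (hg i j).mono (by omega)
    have h2 : ∀ i j, EqU (M + 1 + (l + 2)) (G i j) (G' i j) :=
      fun i j => (hG i j).mono (by omega)
    have h3 := ih h1 h2
    have h4 : ∀ k i j, EqU M (christoffel (pdv n K) g G k i j)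
        (christoffel (pdv n K) g' G' k i j) :=
      christoffel_eqU (fun i j => (hg i j).mono (by omega)) (fun i j => (hG i j).mono (by omega))
    simp only [covDerivP, covDeriv]
    refine ((h3 _).pdv _).sub (EqU.sum _ fun s _ => EqU.sum _ fun k _ => ?_)
    exact (h4 _ _ _).mul ((h3 _).mono (Nat.le_succ _))

lemma eval_eqU {N : ℕ} (hg : ∀ i j, EqU (N + 1) (g i j) (g' i j))
    (hG : ∀ i j, EqU (N + 1) (G i j) (G' i j)) (C : Contraction) (hC : ∀ a, C.l a + 2 ≤ N) :
    EqU 1 (C.eval (pdv n K) g G) (C.eval (pdv n K) g' G') := by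
  refine EqU.sum _ fun i _ => EqU.mul (EqU.prod _ fun s _ => ?_) (EqU.prod _ fun a _ => ?_)
  · exact (hG _ _).mono (by omega)
  · have := hC a
    exact covDerivP_eqU _ (fun i j => (hg i j).mono (by omega))
      (fun i j => (hG i j).mono (by omega)) _

theorem J_congr {c : Contraction →₀ ℝ} (hw : HasWeight n c) (hg : IsUnit (Matrix.of g).det)
    (hg' : IsUnit (Matrix.of g').det) (h : ∀ i j, EqU (n + 1) (g i j) (g' i j)) :
    J c g = J c g' := by
  have h1 := isInv_invM hg
  have h2 := isInv_invM hg'
  have hG : ∀ i j, EqU (n + 1) (invM g i j) (invM g' i j) := by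
    intro i j
    have h3 := (h1.map (Ideal.Quotient.mk (ordI n K (n + 1)))).eq_invM
    have h4 := (h2.map (Ideal.Quotient.mk (ordI n K (n + 1)))).eq_invM
    have h5 : (fun i j => Ideal.Quotient.mk (ordI n K (n + 1)) (g i j)) =
      (fun i j => Ideal.Quotient.mk (ordI n K (n + 1)) (g' i j)) := by
      funext i j
      exact h i j
    rw [h5, h4] at h3
    exact (congrFun (congrFun h3 i) j).symm
  have h3 : EqU 1 (linComb c (pdv n K) g (invM g)) (linComb c (pdv n K) g' (invM g')) := by
    refine EqU.sum _ fun C hC => EqU.smul (eval_eqU h hG C fun a => ?_) _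
    have h4 := hw C hC
    calc C.l a + 2 ≤ ∑ a, (C.l a + 2) :=
          Finset.single_le_sum (f := fun a => C.l a + 2) (fun _ _ => Nat.zero_le _)
            (Finset.mem_univ a)
      _ = n := h4
  rw [eqU_iff] at h3
  have h4 := h3 0 (by simp)
  rwa [MvPowerSeries.coeff_zero_eq_constantCoeff_apply,
    MvPowerSeries.coeff_zero_eq_constantCoeff_apply] at h4

/-- locality: only the terms of degree at most `n` matter -/
theorem F_congr {c : Contraction →₀ ℝ} (hw : HasWeight n c) {ι : Type} [Fintype ι]
    (H H' : ι → Fld n K)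
    (h : ∀ i a b, ∀ α : Fin n →₀ ℕ, α.degree ≤ n →
      MvPowerSeries.coeff α (H i a b) = MvPowerSeries.coeff α (H' i a b)) :
    F c H = F c H' := by
  have key : J c (fam (fun i => (nu i : Sq ι K)) H) = J c (fam (fun i => (nu i : Sq ι K)) H') := ?_
  · rw [F, F, key]
  refine J_congr hw (isUnit_det_fam (n := n) (fun i => (nu i : Sq ι K)) nu_mul_self H)
    (isUnit_det_fam (n := n) (fun i => (nu i : Sq ι K)) nu_mul_self H') fun a b => ?_
  rw [eqU_iff]
  intro α hα
  simp only [fam, map_add, map_sum, MvPowerSeries.coeff_smul, MvPowerSeries.coeff_map]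
  congr 1
  refine Finset.sum_congr rfl fun i _ => ?_
  rw [h i a b α (by omega)]

end Local

/-! ## The vanishing of `J` -/

section Zero

variable {n : ℕ}

lemma coef_sum_nu_pow {ι : Type} [Fintype ι] {K : Type} [CommRing K] (m : ℕ) :
    coef Finset.univ ((∑ i, (nu i : Sq ι K)) ^ m) =
      if m = Fintype.card ι then ((Fintype.card ι).factorial : K) else 0 := by
  classical
  have h1 : (∑ i, (nu i : Sq ι K)) ^ m =
      Ideal.Quotient.mk _ ((∑ i, (MvPolynomial.X i : MvPolynomial ι K)) ^ m) := by
    rw [map_pow, map_sum]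
    rfl
  have h2 : ∀ k : ι → ℕ, ∏ i, (MvPolynomial.X i : MvPolynomial ι K) ^ k i =
      MvPolynomial.monomial (Finsupp.equivFunOnFinite.symm k) 1 := by
    intro k
    rw [MvPolynomial.monomial_eq, MvPolynomial.C_1, one_mul, Finsupp.prod_fintype]
    · rfl
    · intro i; simp
  have h3 : indic (Finset.univ : Finset ι) = Finsupp.equivFunOnFinite.symm (fun _ => 1) := by
    ext i
    simp [indic_apply]
  rw [h1, coef_mk, Finset.sum_pow_eq_sum_piAntidiag, MvPolynomial.coeff_sum]
  simp only [h2, h3]
  have h4 : ∀ k : ι → ℕ, MvPolynomial.coeff (Finsupp.equivFunOnFinite.symm (fun _ => 1))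
      ((Nat.multinomial Finset.univ k : MvPolynomial ι K) *
        MvPolynomial.monomial (Finsupp.equivFunOnFinite.symm k) 1) =
      if k = (fun _ => 1) then ((Fintype.card ι).factorial : K) else 0 := by
    intro k
    rw [← map_natCast (MvPolynomial.C : K →+* MvPolynomial ι K), MvPolynomial.C_mul_monomial,
      mul_one, MvPolynomial.coeff_monomial]
    by_cases hk : k = fun _ => 1
    · subst hk
      rw [if_pos rfl, if_pos rfl]
      congr 1
      simp [Nat.multinomial]
    · rw [if_neg hk, if_neg]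
      intro h
      exact hk (Finsupp.equivFunOnFinite.symm.injective h)
  simp only [h4]
  rw [Finset.sum_ite_eq']
  congr 1
  simp [Finset.mem_piAntidiag, eq_comm]

lemma coef_aeval_sum_nu {ι : Type} [Fintype ι] (q : Polynomial ℝ) :
    coef Finset.univ (Polynomial.aeval (∑ i, (nu i : Sq ι ℝ)) q) =
      q.coeff (Fintype.card ι) * (Fintype.card ι).factorial := by
  rw [Polynomial.aeval_eq_sum_range, map_sum]
  simp only [map_smul, coef_sum_nu_pow, smul_eq_mul, mul_ite, mul_zero]
  rw [Finset.sum_ite_eq']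
  split_ifs with h
  · rfl
  · rw [Finset.mem_range, not_lt] at h
    rw [Polynomial.coeff_eq_zero_of_natDegree_lt (by omega), zero_mul]

/-- the leading parts determine `J` -/
theorem J_eq_zero {c : Contraction →₀ ℝ} (hv : ∀ j, Vanish n c j) (g : Fld n ℝ) (hg : SymM g)
    (h0 : ∀ i j, constantCoeff (g i j) = dl i j) : J c g = 0 := by
  classical
  let h : Fld n ℝ := fun i j => g i j - dl i j
  have hh : SymM h := by
    intro i j
    simp only [h, dl, hg i j, eq_comm (a := i) (b := j)]
  let gt : Fld n (Polynomial ℝ) := fun i j =>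
    dl i j + MvPowerSeries.C Polynomial.X * MvPowerSeries.map Polynomial.C (h i j)
  have hgt : IsUnit (Matrix.of gt).det := by
    rw [MvPowerSeries.isUnit_iff_constantCoeff]
    have h1 : constantCoeff (Matrix.of gt).det = 1 := by
      rw [RingHom.map_det]
      have : (constantCoeff (σ := Fin n) (R := Polynomial ℝ)).mapMatrix (Matrix.of gt) = 1 := by
        ext1 i j
        rw [RingHom.mapMatrix_apply, Matrix.map_apply, Matrix.of_apply, Matrix.one_apply]
        have h2 : constantCoeff (h i j) = 0 := by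
          simp only [h, map_sub, h0, dl]
          split_ifs <;> simp
        simp only [gt, map_add, map_mul, MvPowerSeries.constantCoeff_map, h2, map_zero, mul_zero,
          add_zero, dl]
        split_ifs <;> simp
      rw [this, Matrix.det_one]
    rw [h1]
    exact isUnit_one
  have hq : ∀ k, (J c gt).coeff k = 0 := by
    intro k
    let θ : Polynomial ℝ →ₐ[ℝ] Sq (Fin k) ℝ := Polynomial.aeval (∑ i, nu i)
    have h1 := J_map (c := c) θ hgt
    have h2 : mapF θ.toRingHom gt = fam (fun i => (nu i : Sq (Fin k) ℝ)) (fun _ => h) := by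
      funext a b
      ext α
      simp only [mapF, fam, gt, map_add, map_mul, MvPowerSeries.coeff_map, map_sum,
        MvPowerSeries.coeff_smul, MvPowerSeries.map_C, MvPowerSeries.coeff_C_mul]
      congr 1
      · simp only [dl]
        split_ifs
        · rw [MvPowerSeries.coeff_one, MvPowerSeries.coeff_one, apply_ite (θ.toRingHom), map_one,
            map_zero]
        · simp
      · rw [← Finset.sum_mul]
        congr 1
        · exact Polynomial.aeval_X _
        · exact Polynomial.aeval_C _ _
    have h3 : J c (fam (fun i => (nu i : Sq (Fin k) ℝ)) (fun _ => h)) = 0 := by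
      rw [J_fam _ nu_mul_self]
      refine Finset.sum_eq_zero fun S _ => ?_
      rw [hv _ {i // i ∈ S} rfl ℝ (fun _ => h) (fun _ => hh), map_zero, mul_zero]
    rw [h2, h3] at h1
    have h4 := coef_aeval_sum_nu (ι := Fin k) (J c gt)
    rw [Fintype.card_fin] at h4
    have h5 : Polynomial.aeval (∑ i, (nu i : Sq (Fin k) ℝ)) (J c gt) = 0 := h1.symm
    rw [h5, map_zero] at h4
    rcases mul_eq_zero.1 h4.symm with h6 | h6
    · exact h6
    · exact absurd h6 (Nat.cast_ne_zero.2 (Nat.factorial_ne_zero k))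
  have hq0 : J c gt = 0 := Polynomial.ext fun k => by rw [hq k, Polynomial.coeff_zero]
  let θ : Polynomial ℝ →ₐ[ℝ] ℝ := Polynomial.aeval 1
  have h1 := J_map (c := c) θ hgt
  rw [hq0, map_zero] at h1
  have h2 : mapF θ.toRingHom gt = g := by
    funext a b
    ext α
    simp only [mapF, gt, h, map_add, map_mul, MvPowerSeries.coeff_map, map_sub,
      MvPowerSeries.map_C, MvPowerSeries.coeff_C_mul]
    have e1 : θ.toRingHom Polynomial.X = 1 := Polynomial.aeval_X _
    have e2 : ∀ x, θ.toRingHom (Polynomial.C x) = x := fun x => Polynomial.aeval_C _ _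
    rw [e1, e2, e2, one_mul]
    have e3 : θ.toRingHom (MvPowerSeries.coeff α (dl a b : MvPowerSeries (Fin n) (Polynomial ℝ))) =
        MvPowerSeries.coeff α (dl a b : MvPowerSeries (Fin n) ℝ) := by
      simp only [dl]
      split_ifs
      · rw [MvPowerSeries.coeff_one, MvPowerSeries.coeff_one, apply_ite (θ.toRingHom), map_one,
          map_zero]
      · simp
    rw [e3]
    ring
  rw [h2] at h1
  exact h1

end Zero

end Pool.Agent.Helper44.CI
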