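import Pool.Agent.Helper44.CI.Func2

/-!
# Plane waves
-/

open scoped BigOperators
open MvPowerSeries (constantCoeff pderiv)

namespace Pool.Agent.Helper44.CI

variable {n : ℕ} {c : Contraction →₀ ℝ} {K : Type} [CommRing K] [Algebra ℝ K]

/-! ### Exponential series -/

lemma coeff_ex (a : Fin n → K) (α : Fin n →₀ ℕ) : MvPowerSeries.coeff α (ex a) =
    algebraMap ℝ K (∏ i, ((Nat.factorial (α i) : ℝ))⁻¹) * ∏ i, a i ^ α i := rfl

theorem pderiv_ex (a : Fin n → K) (i : Fin n) :
    MvPowerSeries.pderiv K i (ex a) = MvPowerSeries.C (a i) * ex a := by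
  ext α
  rw [MvPowerSeries.coeff_pderiv, MvPowerSeries.coeff_C_mul, coeff_ex, coeff_ex]
  have h1 : (∏ j, ((Nat.factorial ((α + Finsupp.single i 1 : Fin n →₀ ℕ) j) : ℝ))⁻¹) *
      ((α i : ℝ) + 1) =
      ∏ j, ((Nat.factorial (α j) : ℝ))⁻¹ := by
    rw [← Finset.mul_prod_erase Finset.univ _ (Finset.mem_univ i),
      ← Finset.mul_prod_erase Finset.univ (fun j => ((Nat.factorial (α j) : ℝ))⁻¹)
        (Finset.mem_univ i)]
    have h2 : ∏ j ∈ Finset.univ.erase i,
        ((Nat.factorial ((α + Finsupp.single i 1 : Fin n →₀ ℕ) j) : ℝ))⁻¹ =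
        ∏ j ∈ Finset.univ.erase i, ((Nat.factorial (α j) : ℝ))⁻¹ := by
      refine Finset.prod_congr rfl fun j hj => ?_
      rw [Finsupp.add_apply, Finsupp.single_eq_of_ne (Finset.ne_of_mem_erase hj), add_zero]
    rw [h2, Finsupp.add_apply, Finsupp.single_eq_same, Nat.factorial_succ]
    push_cast
    have h3 : ((α i : ℝ) + 1) ≠ 0 := by positivity
    have h4 : ((Nat.factorial (α i) : ℝ)) ≠ 0 := Nat.cast_ne_zero.2 (Nat.factorial_ne_zero _)
    field_simp
  have h5 : ∏ j, a j ^ (α + Finsupp.single i 1 : Fin n →₀ ℕ) j = a i * ∏ j, a j ^ α j := by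
    rw [← Finset.mul_prod_erase Finset.univ _ (Finset.mem_univ i),
      ← Finset.mul_prod_erase Finset.univ (fun j => a j ^ α j) (Finset.mem_univ i)]
    have h2 : ∏ j ∈ Finset.univ.erase i, a j ^ (α + Finsupp.single i 1 : Fin n →₀ ℕ) j =
        ∏ j ∈ Finset.univ.erase i, a j ^ α j := by
      refine Finset.prod_congr rfl fun j hj => ?_
      rw [Finsupp.add_apply, Finsupp.single_eq_of_ne (Finset.ne_of_mem_erase hj), add_zero]
    rw [h2, Finsupp.add_apply, Finsupp.single_eq_same]
    ring
  rw [h5]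
  have h6 := congrArg (algebraMap ℝ K) h1
  rw [map_mul, map_add, map_natCast, map_one] at h6
  rw [← h6]
  ring

theorem constantCoeff_ex (a : Fin n → K) : constantCoeff (ex a) = 1 := by
  rw [← MvPowerSeries.coeff_zero_eq_constantCoeff_apply, coeff_ex]
  simp

lemma w5_isUnit_succ (m : ℕ) : IsUnit ((m : K) + 1) := by
  have h : IsUnit (algebraMap ℝ K ((m : ℝ) + 1)) :=
    (IsUnit.mk0 _ (by positivity)).map (algebraMap ℝ K)
  rwa [map_add, map_natCast, map_one] at h

/-- the exponential series is characterised by its derivatives -/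
theorem eq_ex {a : Fin n → K} {f : MvPowerSeries (Fin n) K}
    (h : ∀ i, MvPowerSeries.pderiv K i f = MvPowerSeries.C (a i) * f)
    (h0 : constantCoeff f = 1) : f = ex a := by
  have key : ∀ N : ℕ, ∀ α : Fin n →₀ ℕ, α.degree = N →
      MvPowerSeries.coeff α f = MvPowerSeries.coeff α (ex a) := by
    intro N
    induction N with
    | zero =>
      intro α hα
      rw [Finsupp.degree_eq_zero_iff] at hα
      rw [hα, MvPowerSeries.coeff_zero_eq_constantCoeff_apply, h0,
        MvPowerSeries.coeff_zero_eq_constantCoeff_apply, constantCoeff_ex]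
    | succ N ih =>
      intro α hα
      have h1 : α ≠ 0 := by
        rintro rfl
        simp at hα
      obtain ⟨i, hi⟩ := Finsupp.ne_iff.1 h1
      have hi' : α i ≠ 0 := by simpa using hi
      have h2 : α - Finsupp.single i 1 + Finsupp.single i 1 = α := by
        refine tsub_add_cancel_of_le ?_
        intro j
        by_cases hj : j = i
        · subst hj
          rw [Finsupp.single_eq_same]
          omega
        · rw [Finsupp.single_eq_of_ne hj]
          exact Nat.zero_le _
      have h3 : (α - Finsupp.single i 1).degree = N := by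
        have := congrArg Finsupp.degree h2
        rw [map_add, Finsupp.degree_single] at this
        omega
      have h4 := congrArg (MvPowerSeries.coeff (α - Finsupp.single i 1)) (h i)
      have h5 := congrArg (MvPowerSeries.coeff (α - Finsupp.single i 1)) (pderiv_ex a i)
      rw [MvPowerSeries.coeff_pderiv, MvPowerSeries.coeff_C_mul, h2] at h4 h5
      rw [ih _ h3, ← h5] at h4
      exact (w5_isUnit_succ (K := K) ((α - Finsupp.single i 1 : Fin n →₀ ℕ) i)).mul_right_cancel h4
  ext α
  exact key _ α rfl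

theorem ex_add (a b : Fin n → K) : ex (a + b) = ex a * ex b := by
  symm
  refine eq_ex (fun i => ?_) ?_
  · rw [Derivation.leibniz, pderiv_ex, pderiv_ex, Pi.add_apply, map_add, smul_eq_mul, smul_eq_mul]
    ring
  · rw [map_mul, constantCoeff_ex, constantCoeff_ex, one_mul]

theorem ex_zero : ex (0 : Fin n → K) = 1 := by
  symm
  refine eq_ex (fun i => ?_) (map_one _)
  rw [Pi.zero_apply, map_zero, zero_mul]
  exact Derivation.map_one_eq_zero _

theorem ex_sum {ι : Type} (S : Finset ι) (a : ι → Fin n → K) :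
    ex (∑ j ∈ S, a j) = ∏ j ∈ S, ex (a j) := by
  classical
  induction S using Finset.induction_on with
  | empty => rw [Finset.sum_empty, Finset.prod_empty, ex_zero]
  | insert j S hj ih => rw [Finset.sum_insert hj, Finset.prod_insert hj, ex_add, ih]

theorem ex_map {K' : Type} [CommRing K'] [Algebra ℝ K'] (θ : K →ₐ[ℝ] K') (a : Fin n → K) :
    MvPowerSeries.map θ.toRingHom (ex a) = ex (fun i => θ (a i)) := by
  ext α
  rw [MvPowerSeries.coeff_map, coeff_ex, coeff_ex, map_mul]
  congr 1
  · exact θ.commutes _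
  · rw [map_prod]
    refine Finset.prod_congr rfl fun i _ => ?_
    rw [map_pow]
    rfl

theorem mapF_wave {K' : Type} [CommRing K'] [Algebra ℝ K'] (θ : K →ₐ[ℝ] K') (a : Fin n → K)
    (A : Fin n → Fin n → K) :
    mapF θ.toRingHom (wave a A) = wave (fun i => θ (a i)) (fun i j => θ (A i j)) := by
  funext i j
  rw [mapF, wave, wave, map_mul, MvPowerSeries.map_C, ex_map]
  rfl

/-! ### The derivations `D_a` of `Sq ι K`, `D_{a,i} ν_S = (∑_{j ∈ S} a_{j,i}) ν_S` -/

/-- the derivations `D_{a,i}` of `Sq ι K` with `D_{a,i} ν_j = a_{j,i} ν_j` -/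
noncomputable def dsq {ι : Type} [Fintype ι] (a : ι → Fin n → K) (i : Fin n) (q : Sq ι K) :
    Sq ι K :=
  ∑ S : Finset ι, algebraMap K (Sq ι K) ((∑ j ∈ S, a j i) * coef S q) * ∏ j ∈ S, nu j

omit [Algebra ℝ K] in
lemma w5_coef_dsq {ι : Type} [Fintype ι] (a : ι → Fin n → K) (i : Fin n) (q : Sq ι K)
    (S : Finset ι) : coef S (dsq a i q) = (∑ j ∈ S, a j i) * coef S q := by
  classical
  rw [dsq, map_sum]
  simp only [coef_smul_prod_nu]
  rw [Finset.sum_ite_eq, if_pos (Finset.mem_univ S)]

lemma w5_coef_rsmul {ι : Type} (S : Finset ι) (r : ℝ) (q : Sq ι K) :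
    coef S (r • q) = r • coef S q := by
  rw [← algebraMap_smul K r q, map_smul, algebraMap_smul]

omit [Algebra ℝ K] in
lemma w5_coef_mul {ι : Type} [Fintype ι] [DecidableEq ι] (p q : Sq ι K) (S : Finset ι) :
    coef S (p * q) = ∑ T ∈ S.powerset, coef T p * coef (S \ T) q := by
  conv_lhs => rw [sq_expand p, sq_expand q]
  rw [Finset.sum_mul_sum, map_sum]
  have h1 : ∀ T U : Finset ι, coef S (algebraMap K (Sq ι K) (coef T p) * (∏ i ∈ T, nu i) *
      (algebraMap K (Sq ι K) (coef U q) * ∏ i ∈ U, nu i)) =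
      if Disjoint T U ∧ S = T ∪ U then coef T p * coef U q else 0 := by
    intro T U
    have h2 : algebraMap K (Sq ι K) (coef T p) * (∏ i ∈ T, nu i) *
      (algebraMap K (Sq ι K) (coef U q) * ∏ i ∈ U, nu i) =
      algebraMap K (Sq ι K) (coef T p * coef U q) * ((nuP T : Sq ι K) * nuP U) := by
      rw [map_mul, nuP, nuP]
      ring
    rw [h2]
    by_cases hd : Disjoint T U
    · have h3 : (nuP T : Sq ι K) * nuP U = ∏ i ∈ T ∪ U, nu i := by
        rw [Finset.prod_union hd]
        rfl
      rw [h3, coef_smul_prod_nu]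
      simp only [hd, true_and]
    · rw [nuP_mul_of_not_disjoint hd, mul_zero, map_zero, if_neg (fun h => hd h.1)]
  simp only [map_sum, h1]
  rw [← Finset.sum_subset (Finset.subset_univ S.powerset)]
  · refine Finset.sum_congr rfl fun T hT => ?_
    rw [Finset.mem_powerset] at hT
    rw [Finset.sum_eq_single (S \ T)]
    · rw [if_pos]
      exact ⟨Finset.disjoint_sdiff, (Finset.union_sdiff_of_subset hT).symm⟩
    · intro U _ hU
      rw [if_neg]
      rintro ⟨hd, rfl⟩
      apply hU
      rw [Finset.union_sdiff_cancel_left hd]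
    · intro h
      exact absurd (Finset.mem_univ _) h
  · intro T _ hT
    refine Finset.sum_eq_zero fun U _ => ?_
    rw [if_neg]
    rintro ⟨-, rfl⟩
    exact hT (Finset.mem_powerset.2 Finset.subset_union_left)

theorem isDer_dsq {ι : Type} [Fintype ι] (a : ι → Fin n → K) : IsDer (dsq a) where
  add i p q := by
    refine sq_ext fun S => ?_
    rw [map_add, w5_coef_dsq, w5_coef_dsq, w5_coef_dsq, map_add, mul_add]
  mul i p q := by
    classical
    refine sq_ext fun S => ?_
    rw [map_add, w5_coef_dsq, w5_coef_mul, w5_coef_mul, w5_coef_mul, Finset.mul_sum,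
      ← Finset.sum_add_distrib]
    refine Finset.sum_congr rfl fun T hT => ?_
    rw [Finset.mem_powerset] at hT
    rw [w5_coef_dsq, w5_coef_dsq, ← Finset.sum_sdiff hT]
    ring
  smul i r p := by
    refine sq_ext fun S => ?_
    rw [w5_coef_rsmul, w5_coef_dsq, w5_coef_dsq, w5_coef_rsmul, mul_smul_comm]
  comm i j p := by
    refine sq_ext fun S => ?_
    rw [w5_coef_dsq, w5_coef_dsq, w5_coef_dsq, w5_coef_dsq]
    ring

/-! ### The homomorphism `Ψ : Sq ι K → (Sq ι K)[[X]]`, `ν_j ↦ ν_j exp(a_j X)` -/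

/-- the images of the generators -/
noncomputable def psiR {ι : Type} (a : ι → Fin n → K) (j : ι) : MvPowerSeries (Fin n) (Sq ι K) :=
  MvPowerSeries.C (nu j) * MvPowerSeries.map (algebraMap K (Sq ι K)) (ex (a j))

lemma psiR_mul_self {ι : Type} (a : ι → Fin n → K) (j : ι) : psiR a j * psiR a j = 0 := by
  have h : (MvPowerSeries.C (nu j) : MvPowerSeries (Fin n) (Sq ι K)) * MvPowerSeries.C (nu j) =
      0 := by
    rw [← map_mul, nu_mul_self, map_zero]
  rw [psiR]
  linear_combination (MvPowerSeries.map (algebraMap K (Sq ι K)) (ex (a j))) ^ 2 * h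

/-- `Ψ` -/
noncomputable def psi {ι : Type} (a : ι → Fin n → K) :
    Sq ι K →ₐ[K] MvPowerSeries (Fin n) (Sq ι K) :=
  sqLift (psiR a) (psiR_mul_self a)

lemma psi_prod_nu {ι : Type} (a : ι → Fin n → K) (S : Finset ι) :
    psi a (∏ j ∈ S, nu j) = MvPowerSeries.C (nuP S : Sq ι K) *
      MvPowerSeries.map (algebraMap K (Sq ι K)) (ex (∑ j ∈ S, a j)) := by
  rw [map_prod, ex_sum, map_prod, nuP, map_prod, ← Finset.prod_mul_distrib]
  refine Finset.prod_congr rfl fun j _ => ?_
  rw [psi, sqLift_nu, psiR]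

omit [Algebra ℝ K] in
lemma w5_algebraMap_eq {ι : Type} (x : K) :
    algebraMap K (MvPowerSeries (Fin n) (Sq ι K)) x =
      MvPowerSeries.C (algebraMap K (Sq ι K) x) := by
  rw [MvPowerSeries.algebraMap_apply]

lemma psi_apply {ι : Type} [Fintype ι] (a : ι → Fin n → K) (q : Sq ι K) :
    psi a q = ∑ S : Finset ι, MvPowerSeries.C (algebraMap K (Sq ι K) (coef S q) * nuP S) *
      MvPowerSeries.map (algebraMap K (Sq ι K)) (ex (∑ j ∈ S, a j)) := by
  conv_lhs => rw [sq_expand q]
  rw [map_sum]
  refine Finset.sum_congr rfl fun S _ => ?_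
  rw [map_mul, AlgHom.commutes, psi_prod_nu, w5_algebraMap_eq, map_mul, mul_assoc]

lemma constantCoeff_psi {ι : Type} [Fintype ι] (a : ι → Fin n → K) (q : Sq ι K) :
    constantCoeff (psi a q) = q := by
  rw [psi_apply, map_sum]
  conv_rhs => rw [sq_expand q]
  refine Finset.sum_congr rfl fun S _ => ?_
  rw [map_mul, MvPowerSeries.constantCoeff_C, MvPowerSeries.constantCoeff_map, constantCoeff_ex,
    map_one, mul_one]
  rfl

lemma psi_dsq {ι : Type} [Fintype ι] (a : ι → Fin n → K) (i : Fin n) (q : Sq ι K) :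
    psi a (dsq a i q) = pdv n (Sq ι K) i (psi a q) := by
  rw [psi_apply, psi_apply, pdv, map_sum]
  refine Finset.sum_congr rfl fun S _ => ?_
  rw [w5_coef_dsq, Derivation.leibniz]
  have h1 : pderiv (Sq ι K) i (MvPowerSeries.map (algebraMap K (Sq ι K)) (ex (∑ j ∈ S, a j))) =
      MvPowerSeries.C (algebraMap K (Sq ι K) (∑ j ∈ S, a j i)) *
        MvPowerSeries.map (algebraMap K (Sq ι K)) (ex (∑ j ∈ S, a j)) := by
    have h2 := pdv_map (algebraMap K (Sq ι K)) i (ex (∑ j ∈ S, a j))
    rw [pdv, pdv, pderiv_ex, map_mul, MvPowerSeries.map_C, Finset.sum_apply] at h2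
    exact h2
  rw [h1, MvPowerSeries.pderiv_C, smul_zero, add_zero, smul_eq_mul, map_mul, map_mul, map_mul,
    map_mul]
  ring

/-- `J` of the metric `Ψ g` -/
theorem J_psi {ι : Type} [Fintype ι] (a : ι → Fin n → K) {g G : Fin n → Fin n → Sq ι K}
    (hG : IsInv g G) :
    J c (fun x y => psi a (g x y)) = linComb c (dsq a) g G := by
  let φ : Sq ι K →ₐ[ℝ] MvPowerSeries (Fin n) (Sq ι K) := (psi a).restrictScalars ℝ
  have h1 : IsInv (fun x y => psi a (g x y)) (fun x y => psi a (G x y)) :=
    hG.map (psi a).toRingHom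
  have h2 := linComb_map φ (dA := dsq a) (dB := pdv n (Sq ι K)) (fun i q => psi_dsq a i q) c g G
  have h3 := J_eq (c := c) h1
  have h4 : linComb c (pdv n (Sq ι K)) (fun x y => psi a (g x y)) (fun x y => psi a (G x y)) =
      psi a (linComb c (dsq a) g G) := h2.symm
  rw [h4, constantCoeff_psi] at h3
  exact h3

omit [Algebra ℝ K] in
lemma w5_map_C_mul {ι : Type} (q : Sq ι K) (x : K) (f : MvPowerSeries (Fin n) K) :
    MvPowerSeries.C (algebraMap K (Sq ι K) x * q) * MvPowerSeries.map (algebraMap K (Sq ι K)) f =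
      q • MvPowerSeries.map (algebraMap K (Sq ι K)) (MvPowerSeries.C x * f) := by
  ext α
  rw [MvPowerSeries.coeff_C_mul, MvPowerSeries.coeff_smul, MvPowerSeries.coeff_map,
    MvPowerSeries.coeff_map, MvPowerSeries.coeff_C_mul, map_mul]
  ring

lemma card_lt_of_partition {ι : Type} [Fintype ι] [DecidableEq ι]
    (T : Finset {S : Finset ι // S.Nonempty})
    (hd : ∀ x ∈ T, ∀ y ∈ T, x ≠ y → Disjoint x.1 y.1) (hu : Finset.univ = T.biUnion Subtype.val)
    (hT : T ≠ Finset.univ.map ⟨fun j : ι => (⟨{j}, Finset.singleton_nonempty j⟩ :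
      {S : Finset ι // S.Nonempty}), fun i j h => by
        simpa using congrArg Subtype.val h⟩) : T.card < Fintype.card ι := by
  have h1 : Fintype.card ι = ∑ S ∈ T, S.1.card := by
    rw [← Finset.card_univ, hu, Finset.card_biUnion]
    intro x hx y hy hxy
    exact hd x hx y hy hxy
  have h2 : T.card = ∑ S ∈ T, 1 := by simp
  have h3 : ∀ S ∈ T, 1 ≤ S.1.card := fun S _ => Finset.card_pos.2 S.2
  rw [h1, h2]
  refine lt_of_le_of_ne (Finset.sum_le_sum h3) fun h4 => hT ?_
  rw [Finset.sum_eq_sum_iff_of_le h3] at h4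
  ext ⟨S, hS⟩
  constructor
  · intro h
    obtain ⟨j, hj⟩ := Finset.card_eq_one.1 (h4 _ h).symm
    rw [Finset.mem_map]
    refine ⟨j, Finset.mem_univ _, ?_⟩
    apply Subtype.ext
    exact hj.symm
  · intro h
    rw [Finset.mem_map] at h
    obtain ⟨j, -, hj⟩ := h
    have h5 : j ∈ T.biUnion Subtype.val := by rw [← hu]; exact Finset.mem_univ j
    rw [Finset.mem_biUnion] at h5
    obtain ⟨⟨S', hS'⟩, h6, h7⟩ := h5
    obtain ⟨k, hk⟩ := Finset.card_eq_one.1 (h4 _ h6).symm
    simp only at hk h7
    rw [hk, Finset.mem_singleton] at h7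
    have h8 : S = {j} := (congrArg Subtype.val hj).symm
    have h9 : (⟨S, hS⟩ : {S : Finset ι // S.Nonempty}) = ⟨S', hS'⟩ := by
      apply Subtype.ext
      simp only
      rw [h8, hk, h7]
    rw [h9]
    exact h6

/-- If `g` is a metric over `Sq ι K` which is `δ + ∑ⱼ νⱼ Aⱼ` modulo products of two `ν`'s, then the
coefficient of `∏ νⱼ` of the scalar of `g`, computed with the derivations `D_a`, is the value of `F`
on the plane waves `exp(aⱼ · X) Aⱼ`. -/
theorem F_wave {ι : Type} [Fintype ι] [DecidableEq ι]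
    (hv : ∀ j, j < Fintype.card ι → Vanish n c j)
    (a : ι → Fin n → K) (g G : Fin n → Fin n → Sq ι K) (hg : SymM g) (hG : IsInv g G)
    (A : ι → Fin n → Fin n → K) (h0 : ∀ x y, coef ∅ (g x y) = dl x y)
    (h1 : ∀ j x y, coef {j} (g x y) = A j x y) :
    F c (fun j => wave (a j) (A j)) = coef Finset.univ (linComb c (dsq a) g G) := by
  classical
  let H : {S : Finset ι // S.Nonempty} → Fld n K := fun S =>
    wave (∑ j ∈ S.1, a j) (fun x y => coef S.1 (g x y))
  have hH : ∀ S, SymM (H S) := by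
    intro S x y
    simp only [H, wave]
    rw [hg x y]
  have h2 : (fun x y => psi a (g x y)) =
      fam (fun S : {S : Finset ι // S.Nonempty} => (nuP S.1 : Sq ι K)) H := by
    funext x y
    rw [psi_apply]
    simp only [fam, H, wave]
    rw [← Finset.add_sum_erase _ _ (Finset.mem_univ (∅ : Finset ι))]
    congr 1
    · rw [Finset.sum_empty, ex_zero, map_one, mul_one, h0, nuP, Finset.prod_empty, mul_one]
      simp only [dl]
      split_ifs <;> simp
    · rw [← Finset.sum_subtype (p := fun S : Finset ι => S.Nonempty) (Finset.univ.erase ∅)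
        (by intro S; simp [Finset.nonempty_iff_ne_empty])
        (fun S => (nuP S : Sq ι K) • MvPowerSeries.map (algebraMap K (Sq ι K))
          (MvPowerSeries.C (coef S (g x y)) * ex (∑ j ∈ S, a j)))]
      refine Finset.sum_congr rfl fun S _ => ?_
      exact w5_map_C_mul _ _ _
  rw [← J_psi a hG, h2, coef_J_fam_nuP (fun S : {S : Finset ι // S.Nonempty} => S.1)
    (fun S => S.2) H]
  let T₀ : Finset {S : Finset ι // S.Nonempty} := Finset.univ.map
    ⟨fun j : ι => (⟨{j}, Finset.singleton_nonempty j⟩ : {S : Finset ι // S.Nonempty}),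
      fun i j h => by simpa using congrArg Subtype.val h⟩
  rw [Finset.sum_eq_single T₀]
  · rw [if_pos]
    · rw [F_subtype T₀ (fun j : ι => (⟨{j}, Finset.singleton_nonempty j⟩ :
        {S : Finset ι // S.Nonempty}))]
      · congr 1
        funext j
        simp only [H, Finset.sum_singleton, h1]
      · intro i j h
        simpa using congrArg Subtype.val h
      · intro x
        simp [T₀]
    · constructor
      · intro x hx y hy hxy
        simp only [T₀, Finset.mem_map, Finset.mem_univ, Function.Embedding.coeFn_mk,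
          true_and] at hx hy
        obtain ⟨i, rfl⟩ := hx
        obtain ⟨j, rfl⟩ := hy
        rw [Finset.disjoint_singleton]
        rintro rfl
        exact hxy rfl
      · symm
        rw [Finset.eq_univ_iff_forall]
        intro j
        rw [Finset.mem_biUnion]
        exact ⟨⟨{j}, Finset.singleton_nonempty j⟩, by simp [T₀], by simp⟩
  · intro T _ hT
    split_ifs with h
    · have h3 := card_lt_of_partition T h.1 h.2 hT
      refine hv _ h3 {i // i ∈ T} (by simp) K _ (fun i => hH i)
    · rfl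
  · intro h
    exact absurd (Finset.mem_univ _) h

/-- the same, for the metric `δ + ∑ⱼ νⱼ Aⱼ`, without vanishing hypothesis -/
theorem F_wave' {ι : Type} [Fintype ι] [DecidableEq ι]
    (a : ι → Fin n → K) (A : ι → Fin n → Fin n → K) (G : Fin n → Fin n → Sq ι K)
    (hG : IsInv (fun x y => dl x y + ∑ j, nu j * algebraMap K (Sq ι K) (A j x y)) G) :
    F c (fun j => wave (a j) (A j)) = coef Finset.univ (linComb c (dsq a)
      (fun x y => dl x y + ∑ j, nu j * algebraMap K (Sq ι K) (A j x y)) G) := by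
  rw [← J_psi a hG, F]
  have h2 : (fun x y => psi a (dl x y + ∑ j, nu j * algebraMap K (Sq ι K) (A j x y))) =
      fam (fun j => (nu j : Sq ι K)) (fun j => wave (a j) (A j)) := by
    funext x y
    rw [map_add, map_sum]
    simp only [fam, wave]
    congr 1
    · simp only [dl]
      split_ifs <;> simp
    · refine Finset.sum_congr rfl fun j _ => ?_
      rw [map_mul, AlgHom.commutes, psi, sqLift_nu, w5_algebraMap_eq, psiR, ← w5_map_C_mul,
        map_mul]
      ring
  rw [h2]

end Pool.Agent.Helper44.CI
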