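import Pool.Agent.Helper44.CI.Func3
import Pool.Agent.Helper44.CI.Func4
import Pool.Agent.Helper44.CI.Func5

/-!
# The functionals `J` and `F`: all the properties
-/
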