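import Pool.Agent.Helper44.CI.Nat

/-!
# The functionals `J` and `F`: functoriality and expansion
-/

open scoped BigOperators
open MvPowerSeries (constantCoeff)

namespace Pool.Agent.Helper44.CI

variable {n : ℕ} {c : Contraction →₀ ℝ} {K : Type} [CommRing K]

section
variable [Algebra ℝ K]

theorem isDer_pdv : IsDer (pdv n K) where
  add i a b := by simp [pdv]
  mul i a b := by
    simp only [pdv, Derivation.leibniz, smul_eq_mul]
    ring
  smul i r a := by
    simp only [pdv]
    rw [← algebraMap_smul K r a, Derivation.map_smul, algebraMap_smul]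
  comm i j a := by
    ext α
    simp only [pdv, MvPowerSeries.coeff_pderiv]
    by_cases h : i = j
    · subst h; rfl
    · rw [add_right_comm α (Finsupp.single i 1) (Finsupp.single j 1)]
      simp only [Finsupp.add_apply, Finsupp.single_apply, if_neg h, if_neg (Ne.symm h), add_zero]
      ring

theorem J_eq {g G : Fld n K} (h : IsInv g G) : J c g = constantCoeff (linComb c (pdv n K) g G) := by
  rw [J, h.eq_invM]

/-- base change of power series as an algebra hom -/
noncomputable def mapAlg {K' : Type} [CommRing K'] [Algebra ℝ K'] (θ : K →ₐ[ℝ] K') :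
    MvPowerSeries (Fin n) K →ₐ[ℝ] MvPowerSeries (Fin n) K' :=
  { MvPowerSeries.map (σ := Fin n) θ.toRingHom with
    commutes' := fun r => by
      change MvPowerSeries.map (σ := Fin n) θ.toRingHom (algebraMap ℝ _ r) = _
      rw [MvPowerSeries.algebraMap_apply, MvPowerSeries.algebraMap_apply, MvPowerSeries.map_C]
      congr 1
      exact θ.commutes r }

@[simp] lemma mapAlg_apply {K' : Type} [CommRing K'] [Algebra ℝ K'] (θ : K →ₐ[ℝ] K')
    (f : MvPowerSeries (Fin n) K) : mapAlg θ f = MvPowerSeries.map (σ := Fin n) θ.toRingHom f := rfl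

omit [Algebra ℝ K] in
lemma pdv_map {K' : Type} [CommRing K'] (θ : K →+* K') (i : Fin n)
    (f : MvPowerSeries (Fin n) K) :
    pdv n K' i (MvPowerSeries.map θ f) = MvPowerSeries.map θ (pdv n K i f) := by
  ext α
  simp [pdv, MvPowerSeries.coeff_pderiv]

lemma IsInv.map {A B : Type*} [CommRing A] [CommRing B] (φ : A →+* B) {g G : Fin n → Fin n → A}
    (h : IsInv g G) : IsInv (fun i j => φ (g i j)) (fun i j => φ (G i j)) := by
  intro i j
  have := congrArg φ (h i j)
  rw [map_sum] at this
  simp only [map_mul] at this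
  rw [this, dl, dl]
  split_ifs <;> simp

theorem J_map {K' : Type} [CommRing K'] [Algebra ℝ K'] (θ : K →ₐ[ℝ] K') {g : Fld n K}
    (hg : IsUnit (Matrix.of g).det) : J c (mapF θ.toRingHom g) = θ (J c g) := by
  have h1 := isInv_invM hg
  have h2 : IsInv (mapF θ.toRingHom g) (mapF θ.toRingHom (invM g)) :=
    h1.map (MvPowerSeries.map (σ := Fin n) θ.toRingHom)
  rw [J_eq h2, J_eq h1]
  have h3 := linComb_map (mapAlg (n := n) θ) (dA := pdv n K) (dB := pdv n K')
    (fun i a => (pdv_map θ.toRingHom i a).symm) c g (invM g)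
  have h4 : linComb c (pdv n K') (mapF θ.toRingHom g) (mapF θ.toRingHom (invM g)) =
      MvPowerSeries.map (σ := Fin n) θ.toRingHom (linComb c (pdv n K) g (invM g)) := h3.symm
  rw [h4]
  simp

end

lemma isUnit_det_of_nilpotent {A : Type*} [CommRing A] {g : Fin n → Fin n → A}
    (h : ∀ i j, IsNilpotent (g i j - dl i j)) : IsUnit (Matrix.of g).det := by
  let π := Ideal.Quotient.mk (nilradical A)
  have h1 : π (Matrix.of g).det = 1 := by
    rw [RingHom.map_det]
    have : π.mapMatrix (Matrix.of g) = 1 := by
      ext i j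
      have h2 : π (g i j) = π (dl i j) := by
        rw [Ideal.Quotient.eq]
        exact h i j
      rw [RingHom.mapMatrix_apply, Matrix.map_apply, Matrix.of_apply, h2, dl, Matrix.one_apply]
      split_ifs <;> simp
    rw [this, Matrix.det_one]
  have h2 : IsNilpotent ((Matrix.of g).det - 1) := by
    have : (Matrix.of g).det - 1 ∈ nilradical A := by
      rw [← Ideal.Quotient.eq, map_one]
      exact h1
    exact this
  have := h2.isUnit_one_add
  simpa using this

theorem isUnit_det_fam {ι : Type} [Fintype ι] {R : Type} [CommRing R] [Algebra K R] (r : ι → R)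
    (hr : ∀ i, r i * r i = 0) (H : ι → Fld n K) : IsUnit (Matrix.of (fam r H)).det := by
  refine isUnit_det_of_nilpotent fun a b => ?_
  have : fam r H a b - dl a b = ∑ i, r i • MvPowerSeries.map (algebraMap K R) (H i a b) := by
    simp [fam]
  rw [this]
  refine isNilpotent_sum fun i _ => ⟨2, ?_⟩
  rw [sq, smul_mul_smul_comm, hr, zero_smul]

lemma coef_sqLift {ι ι' : Type} [Fintype ι] (r : ι → Sq ι' K) (hr : ∀ i, r i * r i = 0)
    (q : Sq ι K) (T : Finset ι') :
    coef T (sqLift (K := K) r hr q) = ∑ S : Finset ι, coef S q * coef T (∏ i ∈ S, r i) := by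
  conv_lhs => rw [sq_expand q]
  rw [map_sum, map_sum]
  refine Finset.sum_congr rfl fun S _ => ?_
  rw [map_mul, AlgHom.commutes, map_prod, ← Algebra.smul_def, map_smul, smul_eq_mul]
  simp only [sqLift_nu]

section
variable [Algebra ℝ K]

theorem J_fam_lift {ι : Type} [Fintype ι] {R : Type} [CommRing R] [Algebra ℝ R]
    [Algebra K R] [IsScalarTower ℝ K R] (r : ι → R) (hr : ∀ i, r i * r i = 0) (H : ι → Fld n K) :
    J c (fam r H) = sqLift (K := K) r hr (J c (fam (fun i => (nu i : Sq ι K)) H)) := by
  let θ : Sq ι K →ₐ[ℝ] R := (sqLift (K := K) r hr).restrictScalars ℝ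
  have h1 := J_map (c := c) θ (isUnit_det_fam (n := n) (fun i => (nu i : Sq ι K)) nu_mul_self H)
  have h2 : mapF θ.toRingHom (fam (fun i => (nu i : Sq ι K)) H) = fam r H := by
    funext a b
    simp only [mapF, fam]
    ext α
    simp only [MvPowerSeries.coeff_map, map_add, map_sum, MvPowerSeries.coeff_smul]
    congr 1
    · simp only [dl]
      split_ifs
      · rw [MvPowerSeries.coeff_one, MvPowerSeries.coeff_one, apply_ite (θ.toRingHom), map_one,
          map_zero]
      · simp
    · refine Finset.sum_congr rfl fun i _ => ?_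
      rw [map_mul]
      congr 1
      · exact sqLift_nu r hr i
      · exact (sqLift (K := K) r hr).commutes _
  rw [h2] at h1
  exact h1

lemma coef_J_fam {ι : Type} [Fintype ι] [DecidableEq ι] (H : ι → Fld n K) (S : Finset ι) :
    coef S (J c (fam (fun i => (nu i : Sq ι K)) H)) = F c (fun i : {i // i ∈ S} => H i) := by
  let r : ι → Sq {i // i ∈ S} K := fun i => if h : i ∈ S then nu ⟨i, h⟩ else 0
  have hr : ∀ i, r i * r i = 0 := by
    intro i
    simp only [r]
    split_ifs
    · exact nu_mul_self _
    · simp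
  have h1 : fam r H = fam (fun i => (nu i : Sq {i // i ∈ S} K))
      (fun i : {i // i ∈ S} => H i) := by
    funext a b
    simp only [fam]
    congr 1
    rw [← Finset.sum_subset (Finset.subset_univ S)]
    · rw [← Finset.sum_coe_sort S (fun i => r i • MvPowerSeries.map (algebraMap K _) (H i a b))]
      refine Finset.sum_congr rfl fun i _ => ?_
      congr 1
      simp [r]
    · intro i _ hi
      have h0 : r i = 0 := by simp [r, hi]
      rw [h0]
      exact zero_smul (Sq {i // i ∈ S} K)
        (MvPowerSeries.map (algebraMap K (Sq {i // i ∈ S} K)) (H i a b))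
  rw [F, ← h1, J_fam_lift r hr, coef_sqLift]
  rw [Finset.sum_eq_single S]
  · have h2 : ∏ i ∈ S, r i = ∏ i : {i // i ∈ S}, nu i := by
      rw [← Finset.prod_coe_sort S]
      refine Finset.prod_congr rfl fun i _ => ?_
      simp [r]
    rw [h2, coef_prod_nu, if_pos rfl, mul_one]
  · intro T _ hT
    by_cases h : T ⊆ S
    · have h2 : ∏ i ∈ T, r i = ∏ i ∈ T.subtype (fun i => i ∈ S), nu i := by
        rw [← Finset.prod_subtype_of_mem (f := r) (s := T) (p := fun i => i ∈ S) h]
        refine Finset.prod_congr rfl fun i _ => ?_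
        simp [r]
      rw [h2, coef_prod_nu, if_neg, mul_zero]
      intro h3
      apply hT
      refine Finset.Subset.antisymm h fun i hi => ?_
      have : (⟨i, hi⟩ : {i // i ∈ S}) ∈ T.subtype (fun i => i ∈ S) := by
        rw [← h3]; exact Finset.mem_univ _
      simpa using this
    · obtain ⟨i, hiT, hiS⟩ := Finset.not_subset.1 h
      rw [Finset.prod_eq_zero hiT (by simp [r, hiS]), map_zero, mul_zero]
  · intro h
    exact absurd (Finset.mem_univ _) h

/-- expansion of `J` for square-zero parameters -/
theorem J_fam {ι : Type} [Fintype ι] [DecidableEq ι] {R : Type} [CommRing R] [Algebra ℝ R]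
    [Algebra K R] [IsScalarTower ℝ K R] (r : ι → R) (hr : ∀ i, r i * r i = 0) (H : ι → Fld n K) :
    J c (fam r H) =
      ∑ S : Finset ι, (∏ i ∈ S, r i) * algebraMap K R (F c (fun i : {i // i ∈ S} => H i)) := by
  rw [J_fam_lift r hr]
  conv_lhs => rw [sq_expand (J c (fam (fun i => (nu i : Sq ι K)) H))]
  rw [map_sum]
  refine Finset.sum_congr rfl fun S _ => ?_
  rw [map_mul, AlgHom.commutes, map_prod, coef_J_fam, mul_comm]
  simp only [sqLift_nu]

theorem F_reindex {ι ι' : Type} [Fintype ι] [Fintype ι'] (e : ι ≃ ι') (H : ι' → Fld n K) :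
    F c (fun i => H (e i)) = F c H := by
  classical
  have h1 : fam (fun i => (nu (e i) : Sq ι' K)) (fun i => H (e i)) =
      fam (fun i => (nu i : Sq ι' K)) H := by
    funext a b
    simp only [fam]
    congr 1
    exact Equiv.sum_comp e (fun i => (nu i : Sq ι' K) • MvPowerSeries.map (algebraMap K _) (H i a b))
  rw [F, F, ← h1, J_fam_lift (fun i => (nu (e i) : Sq ι' K)) (fun i => nu_mul_self _), coef_sqLift]
  rw [Finset.sum_eq_single Finset.univ]
  · have h2 : ∏ i : ι, (nu (e i) : Sq ι' K) = ∏ i : ι', nu i :=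
      Equiv.prod_comp e (fun i => (nu i : Sq ι' K))
    rw [h2, coef_prod_nu, if_pos rfl, mul_one]
  · intro S _ hS
    have h2 : ∏ i ∈ S, (nu (e i) : Sq ι' K) = ∏ i ∈ S.map e.toEmbedding, nu i := by
      rw [Finset.prod_map]
      rfl
    rw [h2, coef_prod_nu, if_neg, mul_zero]
    intro h3
    apply hS
    rw [← Finset.map_univ_equiv e] at h3
    exact (Finset.map_injective _ h3).symm
  · intro h
    exact absurd (Finset.mem_univ _) h

lemma F_univ {ι : Type} [Fintype ι] (H : ι → Fld n K) :
    F c (fun i : {i // i ∈ (Finset.univ : Finset ι)} => H i) = F c H := by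
  have := F_reindex (c := c) (Equiv.subtypeUnivEquiv (p := fun i => i ∈ (Finset.univ : Finset ι))
    (fun i => Finset.mem_univ i)) H
  exact this

theorem F_map {K' : Type} [CommRing K'] [Algebra ℝ K'] (θ : K →ₐ[ℝ] K') {ι : Type} [Fintype ι]
    (H : ι → Fld n K) : F c (fun i => mapF θ.toRingHom (H i)) = θ (F c H) := by
  classical
  let _ : Algebra K K' := θ.toRingHom.toAlgebra
  have _ : IsScalarTower ℝ K K' := IsScalarTower.of_algebraMap_eq (fun r => (θ.commutes r).symm)
  have key : ∀ (T : Finset ι) (x : K),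
      coef Finset.univ ((∏ i ∈ T, (nu i : Sq ι K')) * algebraMap K (Sq ι K') x) =
        if Finset.univ = T then θ x else 0 := by
    intro T x
    have h3 : algebraMap K (Sq ι K') x = algebraMap K' (Sq ι K') (θ x) :=
      IsScalarTower.algebraMap_apply K K' (Sq ι K') x
    rw [h3, mul_comm, coef_smul_prod_nu]
  have h1 : fam (fun i => (nu i : Sq ι K')) (fun i => mapF θ.toRingHom (H i)) =
      fam (fun i => (nu i : Sq ι K')) H := by
    funext a b
    have h6 : ∀ f : MvPowerSeries (Fin n) K,
        MvPowerSeries.map (algebraMap K' (Sq ι K')) (MvPowerSeries.map θ.toRingHom f) =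
          MvPowerSeries.map (algebraMap K (Sq ι K')) f := by
      intro f
      ext α
      rw [MvPowerSeries.coeff_map, MvPowerSeries.coeff_map, MvPowerSeries.coeff_map]
      exact (IsScalarTower.algebraMap_apply K K' (Sq ι K') _).symm
    simp only [fam, mapF, h6]
  have h4 := J_fam (c := c) (fun i => (nu i : Sq ι K')) nu_mul_self H
  have h2 : F c (fun i : {i // i ∈ (Finset.univ : Finset ι)} => H i) = F c H := F_univ H
  have h5 := congrArg (coef (K := K') (Finset.univ : Finset ι)) h4
  rw [map_sum] at h5
  simp only [key] at h5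
  rw [Finset.sum_ite_eq, if_pos (Finset.mem_univ _), h2] at h5
  rw [F, h1]
  exact h5

end

end Pool.Agent.Helper44.CI
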