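import Pool.Agent.Helper44.CI.Func1

/-!
# Multilinearity of `F`
-/

open scoped BigOperators
open MvPowerSeries (constantCoeff)

namespace Pool.Agent.Helper44.CI

variable {n : ℕ} {c : Contraction →₀ ℝ} {K : Type} [CommRing K]

/-- products of generators -/
noncomputable def nuP {ι : Type} (S : Finset ι) : Sq ι K := ∏ j ∈ S, nu j

lemma nuP_mul_self {ι : Type} [DecidableEq ι] {S : Finset ι} (h : S.Nonempty) :
    (nuP S : Sq ι K) * nuP S = 0 := by
  obtain ⟨j, hj⟩ := h
  rw [nuP, ← Finset.mul_prod_erase S _ hj]
  have := nu_mul_self (K := K) j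
  linear_combination (∏ x ∈ S.erase j, nu x) ^ 2 * this

lemma nuP_mul_of_not_disjoint {ι : Type} [DecidableEq ι] {S T : Finset ι} (h : ¬ Disjoint S T) :
    (nuP S : Sq ι K) * nuP T = 0 := by
  rw [Finset.not_disjoint_iff] at h
  obtain ⟨j, hS, hT⟩ := h
  rw [nuP, nuP, ← Finset.mul_prod_erase S _ hS, ← Finset.mul_prod_erase T _ hT]
  have := nu_mul_self (K := K) j
  linear_combination (∏ x ∈ S.erase j, nu x) * (∏ x ∈ T.erase j, nu x) * this

/-- `∏_{x ∈ T} ν_{P x}` has top coefficient `1` if the `P x` form a partition, and `0` otherwise -/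
lemma coef_prod_nuP {ι ι' : Type} [DecidableEq ι] [DecidableEq ι'] (P : ι' → Finset ι)
    (T : Finset ι') (U : Finset ι) :
    coef U (∏ x ∈ T, (nuP (P x) : Sq ι K)) =
      if (∀ x ∈ T, ∀ y ∈ T, x ≠ y → Disjoint (P x) (P y)) ∧ U = T.biUnion P then 1 else 0 := by
  by_cases h : ∀ x ∈ T, ∀ y ∈ T, x ≠ y → Disjoint (P x) (P y)
  · have h1 : ∏ x ∈ T, (nuP (P x) : Sq ι K) = ∏ j ∈ T.biUnion P, nu j := by
      rw [Finset.prod_biUnion]
      · rfl
      · intro x hx y hy hxy
        exact h x hx y hy hxy
    rw [h1, coef_prod_nu]
    by_cases hU : U = T.biUnion P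
    · rw [if_pos hU, if_pos ⟨h, hU⟩]
    · rw [if_neg hU, if_neg (fun h' => hU h'.2)]
  · have h1 : ∏ x ∈ T, (nuP (P x) : Sq ι K) = 0 := by
      push Not at h
      obtain ⟨x, hx, y, hy, hxy, hd⟩ := h
      rw [← Finset.mul_prod_erase T _ hx,
        ← Finset.mul_prod_erase (T.erase x) _ (Finset.mem_erase.2 ⟨Ne.symm hxy, hy⟩), ← mul_assoc,
        nuP_mul_of_not_disjoint hd, zero_mul]
    rw [h1, map_zero, if_neg]
    rintro ⟨h2, -⟩
    exact h h2

section
variable [Algebra ℝ K]

/-- expansion of the coefficients of `J` for parameters which are products of generators -/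
theorem coef_J_fam_nuP {ι ι' : Type} [DecidableEq ι] [Fintype ι'] [DecidableEq ι']
    (P : ι' → Finset ι) (hP : ∀ x, (P x).Nonempty) (H : ι' → Fld n K) (U : Finset ι) :
    coef U (J c (fam (fun x => (nuP (P x) : Sq ι K)) H)) =
      ∑ T : Finset ι', if (∀ x ∈ T, ∀ y ∈ T, x ≠ y → Disjoint (P x) (P y)) ∧ U = T.biUnion P
        then F c (fun i : {i // i ∈ T} => H i) else 0 := by
  rw [J_fam _ (fun x => nuP_mul_self (hP x)), map_sum]
  refine Finset.sum_congr rfl fun T _ => ?_
  rw [mul_comm, ← Algebra.smul_def, map_smul, coef_prod_nuP]
  split_ifs <;> simp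

/-- `F` of a family indexed by a finset, through a bijection -/
lemma F_subtype {ι ι' : Type} [Fintype ι] [DecidableEq ι'] (T : Finset ι') (f : ι → ι')
    (hf : Function.Injective f) (hT : ∀ x, x ∈ T ↔ ∃ i, f i = x) (H : ι' → Fld n K) :
    F c (fun i : {i // i ∈ T} => H i) = F c (fun i => H (f i)) := by
  let e : ι ≃ {i // i ∈ T} := Equiv.ofBijective (fun i => ⟨f i, (hT _).2 ⟨i, rfl⟩⟩) (by
    constructor
    · intro i j hij
      exact hf (congrArg Subtype.val hij)
    · rintro ⟨x, hx⟩
      obtain ⟨i, hi⟩ := (hT x).1 hx
      exact ⟨i, Subtype.ext hi⟩)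
  have := F_reindex (c := c) e (fun i : {i // i ∈ T} => H i)
  rw [← this]
  rfl

theorem F_add {ι : Type} [Fintype ι] [DecidableEq ι] (H : ι → Fld n K) (i : ι) (Y Z : Fld n K) :
    F c (Function.update H i (Y + Z)) =
      F c (Function.update H i Y) + F c (Function.update H i Z) := by
  classical
  let P : Option ι → Finset ι := fun o => o.elim {i} (fun j => {j})
  let H' : Option ι → Fld n K := fun o => o.elim Z (Function.update H i Y)
  have h1 : fam (fun x => (nuP (P x) : Sq ι K)) H' =
      fam (fun j => (nu j : Sq ι K)) (Function.update H i (Y + Z)) := by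
    funext a b
    simp only [fam]
    congr 1
    rw [Fintype.sum_option]
    simp only [P, H', Option.elim, nuP, Finset.prod_singleton]
    rw [← Finset.add_sum_erase _ _ (Finset.mem_univ i),
      ← Finset.add_sum_erase (Finset.univ) (fun j => (nu j : Sq ι K) •
        MvPowerSeries.map (algebraMap K _) (Function.update H i (Y + Z) j a b)) (Finset.mem_univ i)]
    rw [← add_assoc]
    congr 1
    · simp only [Function.update_self]
      rw [← smul_add, ← map_add, add_comm]
      rfl
    · refine Finset.sum_congr rfl fun j hj => ?_
      rw [Function.update_of_ne (Finset.ne_of_mem_erase hj),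
        Function.update_of_ne (Finset.ne_of_mem_erase hj)]
  rw [F, ← h1, coef_J_fam_nuP P (by rintro (_ | j) <;> simp [P])]
  let T₁ : Finset (Option ι) := Finset.univ.erase none
  let T₂ : Finset (Option ι) := Finset.univ.erase (some i)
  have hT : T₁ ≠ T₂ := by
    intro h
    have : (none : Option ι) ∈ T₁ := by
      rw [h]
      simp [T₂]
    simp [T₁] at this
  rw [← Finset.sum_subset (Finset.subset_univ {T₁, T₂})]
  · rw [Finset.sum_pair hT, if_pos, if_pos]
    · congr 1
      · rw [F_subtype T₁ (fun j => some j) (Option.some_injective ι)]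
        · rfl
        · rintro (_ | j) <;> simp [T₁]
      · rw [F_subtype T₂ (fun j => if j = i then none else some j)]
        · congr 1
          funext j
          simp only [H']
          by_cases hj : j = i
          · subst hj; simp
          · simp [hj]
        · intro j k hjk
          simp only at hjk
          split_ifs at hjk with h1 h2 h2 <;> simp_all
        · rintro (_ | j)
          · simp only [T₂, Finset.mem_erase, ne_eq, reduceCtorEq, not_false_eq_true,
              Finset.mem_univ, and_self, true_iff]
            exact ⟨i, by simp⟩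
          · simp only [T₂, Finset.mem_erase, ne_eq, Option.some.injEq, Finset.mem_univ, and_true]
            constructor
            · intro hj
              exact ⟨j, by simp [hj]⟩
            · rintro ⟨k, hk⟩
              split_ifs at hk with h1
              cases hk
              exact h1
    · constructor
      · rintro (_ | x) hx (_ | y) hy hxy
        · exact absurd rfl hxy
        · simp only [T₂, Finset.mem_erase, ne_eq, Option.some.injEq, Finset.mem_univ,
            and_true] at hy
          simpa [P] using (Ne.symm hy : i ≠ y)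
        · simp only [T₂, Finset.mem_erase, ne_eq, Option.some.injEq, Finset.mem_univ,
            and_true] at hx
          simpa [P] using hx
        · simpa [P] using hxy
      · symm
        rw [Finset.eq_univ_iff_forall]
        intro j
        rw [Finset.mem_biUnion]
        by_cases hj : j = i
        · exact ⟨none, by simp [T₂], by simp [P, hj]⟩
        · exact ⟨some j, by simp [T₂, hj], by simp [P]⟩
    · constructor
      · rintro (_ | x) hx (_ | y) hy hxy
        · exact absurd rfl hxy
        · simp [T₁] at hx
        · simp [T₁] at hy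
        · simpa [P] using hxy
      · symm
        rw [Finset.eq_univ_iff_forall]
        intro j
        rw [Finset.mem_biUnion]
        exact ⟨some j, by simp [T₁], by simp [P]⟩
  · intro T _ hTT
    rw [if_neg]
    rintro ⟨hd, hu⟩
    apply hTT
    rw [Finset.mem_insert, Finset.mem_singleton]
    have hmem : ∀ j, j ≠ i → some j ∈ T := by
      intro j hj
      have : j ∈ T.biUnion P := by rw [← hu]; exact Finset.mem_univ _
      rw [Finset.mem_biUnion] at this
      obtain ⟨(_ | x), hx, hjx⟩ := this
      · simp [P, hj] at hjx
      · simp only [P, Option.elim, Finset.mem_singleton] at hjx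
        rwa [hjx]
    by_cases hn : (none : Option ι) ∈ T
    · right
      have hi : some i ∉ T := by
        intro hi
        have := hd none hn (some i) hi (by simp)
        simp [P] at this
      ext (_ | j)
      · simp [T₂, hn]
      · by_cases hj : j = i
        · subst hj; simp [T₂, hi]
        · simp [T₂, hmem j hj, hj]
    · left
      have hi : some i ∈ T := by
        have : i ∈ T.biUnion P := by rw [← hu]; exact Finset.mem_univ _
        rw [Finset.mem_biUnion] at this
        obtain ⟨(_ | x), hx, hjx⟩ := this
        · exact absurd hx hn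
        · simp only [P, Option.elim, Finset.mem_singleton] at hjx
          rwa [hjx]
      ext (_ | j)
      · simp [T₁, hn]
      · by_cases hj : j = i
        · subst hj; simp [T₁, hi]
        · simp [T₁, hmem j hj]

theorem F_smul {ι : Type} [Fintype ι] [DecidableEq ι] (H : ι → Fld n K) (i : ι) (r : K)
    (Y : Fld n K) :
    F c (Function.update H i (fun a b => MvPowerSeries.C r * Y a b)) =
      r * F c (Function.update H i Y) := by
  let R := Sq ι K
  let r' : ι → R := fun j => if j = i then algebraMap K R r * nu j else nu j
  have hr' : ∀ j, r' j * r' j = 0 := by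
    intro j
    have := nu_mul_self (K := K) j
    simp only [r']
    split_ifs
    · linear_combination (algebraMap K R r) ^ 2 * this
    · exact this
  have h1 : fam r' (Function.update H i Y) =
      fam (fun j => (nu j : Sq ι K)) (Function.update H i (fun a b => MvPowerSeries.C r * Y a b)) := by
    funext a b
    simp only [fam]
    congr 1
    refine Finset.sum_congr rfl fun j _ => ?_
    by_cases hj : j = i
    · subst hj
      simp only [r', if_pos, Function.update_self, map_mul, MvPowerSeries.map_C]
      ext α
      rw [MvPowerSeries.coeff_smul, MvPowerSeries.coeff_smul, MvPowerSeries.coeff_C_mul]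
      ring
    · simp only [r', if_neg hj, Function.update_of_ne hj]
      rfl
  rw [F, ← h1, J_fam_lift r' hr', coef_sqLift]
  rw [Finset.sum_eq_single Finset.univ]
  · have h2 : ∏ j, r' j = algebraMap K R r * ∏ j, nu j := by
      rw [← Finset.mul_prod_erase Finset.univ _ (Finset.mem_univ i),
        ← Finset.mul_prod_erase Finset.univ (fun j => (nu j : R)) (Finset.mem_univ i)]
      simp only [r', if_pos]
      rw [mul_assoc]
      congr 2
      refine Finset.prod_congr rfl fun j hj => ?_
      rw [if_neg (Finset.ne_of_mem_erase hj)]
    rw [h2, coef_smul_prod_nu, if_pos rfl, mul_comm]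
    rfl
  · intro S _ hS
    have h2 : ∃ s : K, ∏ j ∈ S, r' j = algebraMap K R s * ∏ j ∈ S, nu j := by
      by_cases hi : i ∈ S
      · refine ⟨r, ?_⟩
        rw [← Finset.mul_prod_erase S _ hi, ← Finset.mul_prod_erase S (fun j => (nu j : R)) hi]
        simp only [r', if_pos]
        rw [mul_assoc]
        congr 2
        refine Finset.prod_congr rfl fun j hj => ?_
        rw [if_neg (Finset.ne_of_mem_erase hj)]
      · refine ⟨1, ?_⟩
        rw [map_one, one_mul]
        refine Finset.prod_congr rfl fun j hj => ?_
        simp only [r']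
        rw [if_neg]
        rintro rfl
        exact hi hj
    obtain ⟨s, hs⟩ := h2
    rw [hs, coef_smul_prod_nu, if_neg (Ne.symm hS), mul_zero]
  · intro h
    exact absurd (Finset.mem_univ _) h

end

end Pool.Agent.Helper44.CI
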