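import Pool.Agent.Helper44.CI.Func3b

/-!
# Invariance of `F` under infinitesimal coordinate changes and conformal changes
-/

open scoped BigOperators
open MvPowerSeries (constantCoeff pderiv)

namespace Pool.Agent.Helper44.CI

variable {n : ℕ} {c : Contraction →₀ ℝ} {K : Type} [CommRing K]

lemma lieD_smul_map {R : Type} [CommRing R] [Algebra K R] (v : Fin n → MvPowerSeries (Fin n) K)
    (r : R) (g : Fld n K) (i j : Fin n) :
    lieD (fun k => MvPowerSeries.map (algebraMap K R) (v k))
      (fun a b => r • MvPowerSeries.map (algebraMap K R) (g a b)) i j =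
      r • MvPowerSeries.map (algebraMap K R) (lieD v g i j) := by
  have h : ∀ f : MvPowerSeries (Fin n) K, r • MvPowerSeries.map (algebraMap K R) f =
      MvPowerSeries.C r * MvPowerSeries.map (algebraMap K R) f := by
    intro f
    rw [MvPowerSeries.smul_eq_C_mul]
  have hp : ∀ (k : Fin n) (f : MvPowerSeries (Fin n) K),
      pderiv R k (MvPowerSeries.C r * MvPowerSeries.map (algebraMap K R) f) =
      MvPowerSeries.C r * MvPowerSeries.map (algebraMap K R) (pderiv K k f) := by
    intro k f
    rw [Derivation.leibniz, MvPowerSeries.pderiv_C, smul_zero, add_zero, pderiv_map, smul_eq_mul]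
  rw [h (lieD v g i j)]
  simp only [lieD, h, hp, pderiv_map, map_add, map_sum, map_mul, mul_add, Finset.mul_sum]
  congr 1
  · refine Finset.sum_congr rfl fun k _ => ?_
    ring
  · refine Finset.sum_congr rfl fun k _ => ?_
    ring

lemma lieD_add (v : Fin n → MvPowerSeries (Fin n) K) (g h : Fld n K) (i j : Fin n) :
    lieD v (fun a b => g a b + h a b) i j = lieD v g i j + lieD v h i j := by
  simp only [lieD, map_add, mul_add, add_mul, Finset.sum_add_distrib]
  ring

lemma lieD_sum {ι : Type} (s : Finset ι) (v : Fin n → MvPowerSeries (Fin n) K)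
    (g : ι → Fld n K) (i j : Fin n) :
    lieD v (fun a b => ∑ x ∈ s, g x a b) i j = ∑ x ∈ s, lieD v (g x) i j := by
  classical
  induction s using Finset.induction_on with
  | empty => simp [lieD]
  | insert x s hx ih =>
    simp only [Finset.sum_insert hx]
    rw [lieD_add, ih]

section
variable [Algebra ℝ K]

/-- exact first order effect of a vector field -/
theorem F_lieDl_eq {ι : Type} [Fintype ι] [DecidableEq ι]
    (xi : Fin n → MvPowerSeries (Fin n) K) (hxi : ∀ k, constantCoeff (xi k) = 0)
    (H : ι → Fld n K) (hH : ∀ i, SymM (H i)) :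
    F c (fun o : Option ι => o.elim (lieDl xi) H) +
      ∑ i, F c (Function.update H i (lieD xi (H i))) = 0 := by
  rw [← coef_J_deform (c := c) (lieDl xi) H (fun i => lieD xi (H i))]
  let R := Sq (Option ι) K
  let g : Fld n R := fam (fun i => (nu (some i) : R)) H
  have hg : SymM g := by
    intro a b
    simp only [g, fam]
    congr 1
    · simp only [dl, eq_comm]
    · refine Finset.sum_congr rfl fun i _ => ?_
      rw [hH i a b]
  have h1 := J_lie (c := c) (nu none : R) (nu_mul_self none)
    (fun k => MvPowerSeries.map (algebraMap K R) (xi k)) (by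
      intro k
      rw [MvPowerSeries.constantCoeff_map, hxi, map_zero]) hg
    (isUnit_det_fam _ (fun i => nu_mul_self _) H)
  have h2 : (fun i j => g i j + MvPowerSeries.C (nu none : R) *
      lieD (fun k => MvPowerSeries.map (algebraMap K R) (xi k)) g i j) =
      fun a b => dl a b +
      (nu none : R) • MvPowerSeries.map (algebraMap K R) (lieDl xi a b) +
      ∑ i, (nu (some i) : R) • MvPowerSeries.map (algebraMap K R) (H i a b) +
      ∑ i, (nu none * nu (some i) : R) • MvPowerSeries.map (algebraMap K R)
        (lieD xi (H i) a b) := by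
    funext a b
    have h3 : lieD (fun k => MvPowerSeries.map (algebraMap K R) (xi k)) g a b =
        MvPowerSeries.map (algebraMap K R) (lieDl xi a b) +
        ∑ i, (nu (some i) : R) • MvPowerSeries.map (algebraMap K R) (lieD xi (H i) a b) := by
      have h4 : g = fun a b => (fun a b => (dl a b : MvPowerSeries (Fin n) R)) a b +
          (fun a b => ∑ i, (fun (i : ι) (a b : Fin n) =>
            (nu (some i) : R) • MvPowerSeries.map (algebraMap K R) (H i a b)) i a b) a b := rfl
      rw [h4, lieD_add, lieD_dl, lieD_sum]
      congr 1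
      · simp only [lieDl, pderiv_map, map_add]
      · exact Finset.sum_congr rfl fun i _ => lieD_smul_map xi _ (H i) a b
    rw [h3]
    simp only [g, fam]
    rw [mul_add, ← MvPowerSeries.smul_eq_C_mul, ← MvPowerSeries.smul_eq_C_mul, Finset.smul_sum]
    simp only [smul_smul]
    abel
  rw [← h2, h1]
  exact coef_J_some H

omit [CommRing K] [Algebra ℝ K] in
lemma symM_update {ι : Type} [DecidableEq ι] {H : ι → Fld n K} (hH : ∀ i, SymM (H i)) (i : ι)
    {Y : Fld n K} (hY : SymM Y) : ∀ j, SymM (Function.update H i Y j) := by
  intro j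
  by_cases hj : j = i
  · subst hj
    rw [Function.update_self]
    exact hY
  · rw [Function.update_of_ne hj]
    exact hH j

/-- infinitesimal coordinate changes fixing the origin -/
theorem F_gauge {ι : Type} [Fintype ι] (hv : Vanish n c (Fintype.card ι))
    (xi : Fin n → MvPowerSeries (Fin n) K) (hxi : ∀ k, constantCoeff (xi k) = 0)
    (H : ι → Fld n K) (hH : ∀ i, SymM (H i)) :
    F c (fun o : Option ι => o.elim (lieDl xi) H) = 0 := by
  classical
  have h := F_lieDl_eq (c := c) xi hxi H hH
  rw [Finset.sum_eq_zero, add_zero] at h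
  · exact h
  · intro i _
    exact hv ι rfl K _ (symM_update hH i (symM_lieD xi (hH i)))

/-- a leg which is a Lie derivative of `δ` -/
theorem F_update_gauge {ι : Type} [Fintype ι] [DecidableEq ι]
    (hv : ∀ j, j < Fintype.card ι → Vanish n c j)
    (xi : Fin n → MvPowerSeries (Fin n) K) (hxi : ∀ k, constantCoeff (xi k) = 0)
    (H : ι → Fld n K) (hH : ∀ i, SymM (H i)) (i : ι) :
    F c (Function.update H i (lieDl xi)) = 0 := by
  let e : Option {j // j ≠ i} ≃ ι := (Equiv.optionSubtypeNe i)
  have h1 := F_reindex (c := c) e (Function.update H i (lieDl xi))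
  rw [← h1]
  have h2 : (fun o => Function.update H i (lieDl xi) (e o)) =
      fun o : Option {j // j ≠ i} => o.elim (lieDl xi) (fun j => H j) := by
    funext o
    rcases o with _ | ⟨j, hj⟩
    · simp [e]
    · simp [e, hj]
  rw [h2]
  refine F_gauge (hv _ ?_) xi hxi _ (fun j => hH j)
  exact Fintype.card_subtype_lt (p := fun j => j ≠ i) (x := i) (by simp)

/-- fields which differ by Lie derivatives of `δ` -/
theorem F_modify {ι : Type} [Fintype ι] [DecidableEq ι]
    (hv : ∀ j, j < Fintype.card ι → Vanish n c j) (H H' : ι → Fld n K)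
    (hH : ∀ i, SymM (H i)) (hH' : ∀ i, SymM (H' i))
    (h : ∀ i, ∃ xi : Fin n → MvPowerSeries (Fin n) K, (∀ k, constantCoeff (xi k) = 0) ∧
      H i = H' i + lieDl xi) : F c H = F c H' := by
  have key : ∀ S : Finset ι, F c H = F c (fun i => if i ∈ S then H' i else H i) := by
    intro S
    induction S using Finset.induction_on with
    | empty => simp
    | insert i S hi ih =>
      rw [ih]
      obtain ⟨xi, hxi, he⟩ := h i
      let G : ι → Fld n K := fun j => if j ∈ S then H' j else H j
      have hG : ∀ j, SymM (G j) := by
        intro j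
        simp only [G]
        split_ifs
        · exact hH' j
        · exact hH j
      have h1 : (fun j => if j ∈ S then H' j else H j) =
          Function.update G i (H' i + lieDl xi) := by
        funext j
        by_cases hj : j = i
        · subst hj
          rw [Function.update_self, if_neg hi, he]
        · rw [Function.update_of_ne hj]
      have h2 : (fun j => if j ∈ insert i S then H' j else H j) =
          Function.update G i (H' i) := by
        funext j
        by_cases hj : j = i
        · subst hj
          rw [Function.update_self, if_pos (Finset.mem_insert_self _ _)]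
        · rw [Function.update_of_ne hj]
          simp [G, Finset.mem_insert, hj]
      rw [h1, h2, F_add, F_update_gauge hv xi hxi G hG i, add_zero]
  rw [key Finset.univ]
  simp

/-- constant fields are Lie derivatives of `δ` -/
lemma exists_lieDl_const (A : Fin n → Fin n → K) (hA : SymM A) :
    ∃ xi : Fin n → MvPowerSeries (Fin n) K, (∀ k, constantCoeff (xi k) = 0) ∧
      (fun i j => (MvPowerSeries.C (A i j) : MvPowerSeries (Fin n) K)) = lieDl xi := by
  refine ⟨fun i => ∑ j, MvPowerSeries.C (algebraMap ℝ K (1 / 2) * A i j) * MvPowerSeries.X j,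
    fun k => ?_, ?_⟩
  · rw [map_sum]
    exact Finset.sum_eq_zero fun j _ => by simp
  · funext i j
    have h2 : algebraMap ℝ K (1 / 2) + algebraMap ℝ K (1 / 2) = 1 := by
      rw [← map_add]
      norm_num
    have hd : ∀ (p q : Fin n), pderiv K p (∑ j, MvPowerSeries.C (algebraMap ℝ K (1 / 2) * A q j) *
        MvPowerSeries.X j) = MvPowerSeries.C (algebraMap ℝ K (1 / 2) * A q p) := by
      intro p q
      rw [map_sum, Finset.sum_eq_single p]
      · rw [Derivation.leibniz, MvPowerSeries.pderiv_C, MvPowerSeries.pderiv_X_self]
        simp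
      · intro r _ hr
        rw [Derivation.leibniz, MvPowerSeries.pderiv_C, MvPowerSeries.pderiv_X_of_ne hr]
        simp
      · intro h
        exact absurd (Finset.mem_univ _) h
    simp only [lieDl, hd]
    rw [hA j i, ← map_add]
    congr 1
    linear_combination (-A i j) * h2

/-- linear fields are Lie derivatives of `δ` -/
lemma exists_lieDl_linear (L : Fin n → Fin n → Fin n → K) (hL : ∀ i j k, L i j k = L j i k) :
    ∃ xi : Fin n → MvPowerSeries (Fin n) K, (∀ k, constantCoeff (xi k) = 0) ∧
      (fun i j => (∑ k, MvPowerSeries.C (L i j k) * MvPowerSeries.X k :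
        MvPowerSeries (Fin n) K)) = lieDl xi := by
  let q : K := algebraMap ℝ K (1 / 4)
  have hq : q + q + q + q = 1 := by
    simp only [q]
    rw [← map_add, ← map_add, ← map_add]
    norm_num
  refine ⟨fun i => ∑ j, ∑ k, MvPowerSeries.C (q * (L i j k + L i k j - L j k i)) *
    (MvPowerSeries.X j * MvPowerSeries.X k), fun k => ?_, ?_⟩
  · rw [map_sum]
    refine Finset.sum_eq_zero fun j _ => ?_
    rw [map_sum]
    exact Finset.sum_eq_zero fun l _ => by simp
  · funext i j
    have hd : ∀ (p q' : Fin n) (M : Fin n → Fin n → K), pderiv K p (∑ j, ∑ k,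
        MvPowerSeries.C (M j k) * (MvPowerSeries.X j * MvPowerSeries.X k)) =
        ∑ k, MvPowerSeries.C (M p k + M k p) * MvPowerSeries.X k := by
      intro p q' M
      rw [map_sum]
      have h1 : ∀ r s : Fin n, pderiv K p (MvPowerSeries.C (M r s) *
          (MvPowerSeries.X r * MvPowerSeries.X s)) =
          (if r = p then MvPowerSeries.C (M r s) * MvPowerSeries.X s else 0) +
          (if s = p then MvPowerSeries.C (M r s) * MvPowerSeries.X r else 0) := by
        intro r s
        have hX : ∀ t : Fin n, pderiv K p (MvPowerSeries.X t : MvPowerSeries (Fin n) K) =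
            if t = p then 1 else 0 := by
          intro t
          split_ifs with h
          · rw [h, MvPowerSeries.pderiv_X_self]
          · rw [MvPowerSeries.pderiv_X_of_ne h]
        rw [Derivation.leibniz, MvPowerSeries.pderiv_C, Derivation.leibniz, hX, hX]
        simp only [smul_eq_mul, mul_ite, mul_one, mul_zero, add_zero, mul_add]
        rw [add_comm]
      simp only [map_sum, h1, Finset.sum_add_distrib, Finset.sum_ite_eq', Finset.mem_univ, if_true,
        Finset.sum_ite_irrel, Finset.sum_const_zero]
      rw [← Finset.sum_add_distrib]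
      refine Finset.sum_congr rfl fun k _ => ?_
      rw [map_add, add_mul]
    simp only [lieDl, hd _ i]
    rw [← Finset.sum_add_distrib]
    refine Finset.sum_congr rfl fun k _ => ?_
    rw [← add_mul, ← map_add]
    congr 2
    have e1 := hL i j k
    have e2 := hL i k j
    have e3 := hL j k i
    have e4 := hL k i j
    have e5 := hL k j i
    linear_combination (-L i j k) * hq + q * 2 * e1 + q * e4 + q * e5

/-- a leg which is zero -/
lemma F_update_zero {ι : Type} [Fintype ι] [DecidableEq ι] (H : ι → Fld n K) (i : ι) :
    F c (Function.update H i (fun _ _ => 0)) = 0 := by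
  have := F_smul (c := c) H i (0 : K) (fun _ _ => 0)
  simpa using this

lemma option_elim_eq_update {ι : Type} [DecidableEq ι] {β : Type} (L L' : β) (H : ι → β) :
    (fun o : Option ι => o.elim L H) =
      Function.update (fun o : Option ι => o.elim L' H) none L := by
  funext o
  rcases o with _ | i
  · rw [Function.update_self]; rfl
  · rw [Function.update_of_ne (by simp)]; rfl

/-- the part of a field without constant term -/
noncomputable def noConst (H : Fld n K) : Fld n K :=
  fun i j => H i j - MvPowerSeries.C (constantCoeff (H i j))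

omit [Algebra ℝ K] in
lemma symM_noConst {H : Fld n K} (hH : SymM H) : SymM (noConst H) := by
  intro i j
  simp only [noConst, hH i j]

omit [Algebra ℝ K] in
lemma constantCoeff_noConst (H : Fld n K) (i j : Fin n) : constantCoeff (noConst H i j) = 0 := by
  simp [noConst]

lemma exists_noConst {H : Fld n K} (hH : SymM H) :
    ∃ xi : Fin n → MvPowerSeries (Fin n) K, (∀ k, constantCoeff (xi k) = 0) ∧
      H = noConst H + lieDl xi := by
  obtain ⟨xi, hxi, h⟩ := exists_lieDl_const (fun i j => constantCoeff (H i j))
    (fun i j => by simp only [hH i j])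
  refine ⟨xi, hxi, ?_⟩
  rw [← h]
  funext i j
  simp [noConst]

/-- infinitesimal conformal changes -/
theorem F_conf (hc : FConf n c) {ι : Type} [Fintype ι] (hv : ∀ j, j ≤ Fintype.card ι → Vanish n c j)
    (w : MvPowerSeries (Fin n) K) (H : ι → Fld n K) (hH : ∀ i, SymM (H i)) :
    F c (fun o : Option ι => o.elim (fun i j => w * dl i j) H) = 0 := by
  classical
  let w' := w - MvPowerSeries.C (constantCoeff w)
  have hw' : constantCoeff w' = 0 := by simp [w']
  have hsd : ∀ u : MvPowerSeries (Fin n) K, SymM (fun i j : Fin n => u * dl i j) := by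
    intro u i j
    simp only [dl, eq_comm]
  have h1 : F c (fun o : Option ι => o.elim (fun i j => w * dl i j) H) =
      F c (fun o : Option ι => o.elim (fun i j => w' * dl i j) (fun i => noConst (H i))) := by
    refine F_modify (fun j hj => hv j ?_) _ _ ?_ ?_ ?_
    · rw [Fintype.card_option] at hj
      omega
    · rintro (_ | i)
      · exact hsd w
      · exact hH i
    · rintro (_ | i)
      · exact hsd w'
      · exact symM_noConst (hH i)
    · rintro (_ | i)
      · obtain ⟨xi, hxi, h⟩ := exists_lieDl_const (n := n) (K := K)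
          (fun i j => constantCoeff w * dl i j) (fun i j => by simp only [dl, eq_comm])
        refine ⟨xi, hxi, ?_⟩
        rw [← h]
        funext i j
        simp only [Option.elim, Pi.add_apply, w', dl]
        split_ifs <;> simp
      · exact exists_noConst (hH i)
  rw [h1]
  have h2 := coef_J_deform (c := c) (fun i j => w' * dl i j) (fun i => noConst (H i))
    (fun i a b => w' * noConst (H i) a b)
  have h3 : ∑ i, F c (Function.update (fun i => noConst (H i)) i
      (fun a b => w' * noConst (H i) a b)) = 0 := by
    refine Finset.sum_eq_zero fun i _ => ?_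
    refine hv _ le_rfl ι rfl K _ (symM_update (fun i => symM_noConst (hH i)) i ?_)
    intro a b
    simp only [symM_noConst (hH i) a b]
  rw [h3, add_zero] at h2
  rw [← h2]
  let R := Sq (Option ι) K
  let g : Fld n R := fam (fun i => (nu (some i) : R)) (fun i => noConst (H i))
  have hg : SymM g := by
    intro a b
    simp only [g, fam]
    congr 1
    · simp only [dl, eq_comm]
    · refine Finset.sum_congr rfl fun i _ => ?_
      rw [symM_noConst (hH i) a b]
  have hg0 : ∀ i j, constantCoeff (g i j) = dl i j := by
    intro i j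
    simp only [g, fam, map_add, map_sum]
    rw [Finset.sum_eq_zero, add_zero]
    · simp only [dl]
      split_ifs <;> simp
    · intro x _
      rw [MvPowerSeries.smul_eq_C_mul, map_mul, MvPowerSeries.constantCoeff_map,
        constantCoeff_noConst, map_zero, mul_zero]
  let f : MvPowerSeries (Fin n) R := 1 + MvPowerSeries.C (nu none : R) *
    MvPowerSeries.map (algebraMap K R) w'
  have hf : constantCoeff f = 1 := by
    simp only [f, map_add, map_mul, MvPowerSeries.constantCoeff_map, hw', map_zero, mul_zero,
      add_zero, map_one]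
  have h4 := hc R g f hg hg0 hf
  have h5 : (fun i j => f * g i j) = fun a b => dl a b +
      (nu none : R) • MvPowerSeries.map (algebraMap K R) (w' * dl a b) +
      ∑ i, (nu (some i) : R) • MvPowerSeries.map (algebraMap K R) (noConst (H i) a b) +
      ∑ i, (nu none * nu (some i) : R) • MvPowerSeries.map (algebraMap K R)
        (w' * noConst (H i) a b) := by
    funext a b
    simp only [f, g, fam]
    have e1 : MvPowerSeries.map (algebraMap K R) (w' * dl a b) =
        MvPowerSeries.map (algebraMap K R) w' * dl a b := by
      simp only [dl]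
      split_ifs <;> simp
    have e2 : ∑ i, (nu none * nu (some i) : R) • MvPowerSeries.map (algebraMap K R)
        (w' * noConst (H i) a b) = MvPowerSeries.C (nu none : R) *
        MvPowerSeries.map (algebraMap K R) w' *
        ∑ i, (nu (some i) : R) • MvPowerSeries.map (algebraMap K R) (noConst (H i) a b) := by
      rw [Finset.mul_sum]
      refine Finset.sum_congr rfl fun i _ => ?_
      rw [MvPowerSeries.smul_eq_C_mul, MvPowerSeries.smul_eq_C_mul, map_mul, map_mul]
      ring
    rw [e1, e2, MvPowerSeries.smul_eq_C_mul]
    ring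
  rw [← h5, h4]
  exact coef_J_some _

omit [Algebra ℝ K] in
lemma pderiv_X_eq (p t : Fin n) : pderiv K p (MvPowerSeries.X t : MvPowerSeries (Fin n) K) =
    dl p t := by
  rw [dl]
  split_ifs with h
  · rw [h, MvPowerSeries.pderiv_X_self]
  · rw [MvPowerSeries.pderiv_X_of_ne (Ne.symm h)]

omit [Algebra ℝ K] in
lemma pderiv_spv (b : Fin n → K) (i k : Fin n) : pderiv K i (spv b k) =
    2 * MvPowerSeries.X i * MvPowerSeries.C (b k) - 2 * MvPowerSeries.C (b i) * MvPowerSeries.X k -
      2 * (∑ l, MvPowerSeries.C (b l) * MvPowerSeries.X l) * dl i k := by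
  have h2 : pderiv K i (2 : MvPowerSeries (Fin n) K) = 0 := by
    have : (2 : MvPowerSeries (Fin n) K) = MvPowerSeries.C 2 := (map_ofNat _ 2).symm
    rw [this, MvPowerSeries.pderiv_C]
  have h3 : pderiv K i (∑ l, (MvPowerSeries.X l : MvPowerSeries (Fin n) K) ^ 2) =
      2 * MvPowerSeries.X i := by
    rw [map_sum]
    have : ∀ l, pderiv K i ((MvPowerSeries.X l : MvPowerSeries (Fin n) K) ^ 2) =
        2 * MvPowerSeries.X l * dl i l := by
      intro l
      rw [sq, Derivation.leibniz, pderiv_X_eq, smul_eq_mul]
      ring
    simp only [this, dl, mul_ite, mul_one, mul_zero, Finset.sum_ite_eq, Finset.mem_univ, if_true]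
  have h4 : pderiv K i (∑ l, MvPowerSeries.C (b l) * (MvPowerSeries.X l : MvPowerSeries (Fin n) K)) =
      MvPowerSeries.C (b i) := by
    rw [map_sum]
    have : ∀ l, pderiv K i (MvPowerSeries.C (b l) * (MvPowerSeries.X l : MvPowerSeries (Fin n) K)) =
        MvPowerSeries.C (b l) * dl i l := by
      intro l
      rw [Derivation.leibniz, pderiv_X_eq, MvPowerSeries.pderiv_C, smul_zero, add_zero, smul_eq_mul]
    simp only [this, dl, mul_ite, mul_one, mul_zero, Finset.sum_ite_eq, Finset.mem_univ, if_true]
  simp only [spv, map_sub, Derivation.leibniz, h2, h3, h4, pderiv_X_eq, MvPowerSeries.pderiv_C,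
    smul_eq_mul]
  ring

omit [Algebra ℝ K] in
lemma constantCoeff_spv (b : Fin n → K) (k : Fin n) : constantCoeff (spv b k) = 0 := by
  simp [spv]

omit [Algebra ℝ K] in
lemma lieDl_spv (b : Fin n → K) (i j : Fin n) : lieDl (spv b) i j =
    -(4 * (∑ l, MvPowerSeries.C (b l) * MvPowerSeries.X l) * dl i j) := by
  rw [lieDl, pderiv_spv, pderiv_spv]
  have : (dl j i : MvPowerSeries (Fin n) K) = dl i j := by simp only [dl, eq_comm]
  rw [this]
  ring

omit [Algebra ℝ K] in
lemma spH_eq (b : Fin n → K) (H : Fld n K) (i j : Fin n) : spH b H i j =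
    lieD (spv b) H i j + 4 * (∑ l, MvPowerSeries.C (b l) * MvPowerSeries.X l) * H i j := rfl

omit [Algebra ℝ K] in
lemma symM_spH (b : Fin n → K) {H : Fld n K} (hH : SymM H) : SymM (spH b H) := by
  intro i j
  rw [spH_eq, spH_eq, symM_lieD (spv b) hH i j, hH i j]

omit [Algebra ℝ K] in
lemma spH_add (b : Fin n → K) (H H' : Fld n K) : spH b (H + H') = spH b H + spH b H' := by
  funext i j
  have : (H + H') = fun a b => H a b + H' a b := rfl
  simp only [Pi.add_apply, spH_eq]
  rw [this, lieD_add]
  ring

lemma exists_spH_const (b : Fin n → K) (A : Fin n → Fin n → K) (hA : SymM A) :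
    ∃ xi : Fin n → MvPowerSeries (Fin n) K, (∀ k, constantCoeff (xi k) = 0) ∧
      spH b (fun i j => (MvPowerSeries.C (A i j) : MvPowerSeries (Fin n) K)) = lieDl xi := by
  obtain ⟨xi, hxi, h⟩ := exists_lieDl_linear (n := n) (K := K)
    (fun i j m => 2 * (∑ k, A k j * b k) * dl i m + 2 * (∑ k, A i k * b k) * dl j m -
      2 * b i * A m j - 2 * b j * A i m) (by
    intro i j m
    have e1 : ∑ k, A k j * b k = ∑ k, A j k * b k :=
      Finset.sum_congr rfl fun k _ => by rw [hA k j]
    have e2 : ∑ k, A k i * b k = ∑ k, A i k * b k :=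
      Finset.sum_congr rfl fun k _ => by rw [hA k i]
    simp only [e1, e2, hA m j, hA m i]
    ring)
  refine ⟨xi, hxi, ?_⟩
  rw [← h]
  funext i j
  have h0 : ∑ k, spv b k * pderiv K k (MvPowerSeries.C (A i j)) = 0 :=
    Finset.sum_eq_zero fun k _ => by rw [MvPowerSeries.pderiv_C, mul_zero]
  simp only [spH, h0, pderiv_spv]
  have e1 : ∑ k, (MvPowerSeries.C (A k j) * (2 * MvPowerSeries.X i * MvPowerSeries.C (b k) -
      2 * MvPowerSeries.C (b i) * MvPowerSeries.X k -
        2 * (∑ l, MvPowerSeries.C (b l) * MvPowerSeries.X l) * dl i k)) =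
      2 * MvPowerSeries.C (∑ k, A k j * b k) * MvPowerSeries.X i -
        2 * MvPowerSeries.C (b i) * (∑ k, MvPowerSeries.C (A k j) * MvPowerSeries.X k) -
        2 * (∑ l, MvPowerSeries.C (b l) * MvPowerSeries.X l) *
          (MvPowerSeries.C (A i j) : MvPowerSeries (Fin n) K) := by
    simp only [mul_sub, Finset.sum_sub_distrib]
    congr 1
    · congr 1
      · rw [map_sum, Finset.mul_sum, Finset.sum_mul]
        refine Finset.sum_congr rfl fun k _ => ?_
        rw [map_mul]
        ring
      · rw [Finset.mul_sum]
        refine Finset.sum_congr rfl fun k _ => ?_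
        ring
    · simp only [dl, mul_ite, mul_one, mul_zero, Finset.sum_ite_eq, Finset.mem_univ, if_true]
      ring
  have e2 : ∑ k, (MvPowerSeries.C (A i k) * (2 * MvPowerSeries.X j * MvPowerSeries.C (b k) -
      2 * MvPowerSeries.C (b j) * MvPowerSeries.X k -
        2 * (∑ l, MvPowerSeries.C (b l) * MvPowerSeries.X l) * dl j k)) =
      2 * MvPowerSeries.C (∑ k, A i k * b k) * MvPowerSeries.X j -
        2 * MvPowerSeries.C (b j) * (∑ k, MvPowerSeries.C (A i k) * MvPowerSeries.X k) -
        2 * (∑ l, MvPowerSeries.C (b l) * MvPowerSeries.X l) *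
          (MvPowerSeries.C (A i j) : MvPowerSeries (Fin n) K) := by
    simp only [mul_sub, Finset.sum_sub_distrib]
    congr 1
    · congr 1
      · rw [map_sum, Finset.mul_sum, Finset.sum_mul]
        refine Finset.sum_congr rfl fun k _ => ?_
        rw [map_mul]
        ring
      · rw [Finset.mul_sum]
        refine Finset.sum_congr rfl fun k _ => ?_
        ring
    · simp only [dl, mul_ite, mul_one, mul_zero, Finset.sum_ite_eq, Finset.mem_univ, if_true]
      ring
  have e3 : (∑ m, MvPowerSeries.C (2 * (∑ k, A k j * b k) * dl i m +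
      2 * (∑ k, A i k * b k) * dl j m - 2 * b i * A m j - 2 * b j * A i m) * MvPowerSeries.X m :
        MvPowerSeries (Fin n) K) =
      2 * MvPowerSeries.C (∑ k, A k j * b k) * MvPowerSeries.X i +
      2 * MvPowerSeries.C (∑ k, A i k * b k) * MvPowerSeries.X j -
        2 * MvPowerSeries.C (b i) * (∑ k, MvPowerSeries.C (A k j) * MvPowerSeries.X k) -
        2 * MvPowerSeries.C (b j) * (∑ k, MvPowerSeries.C (A i k) * MvPowerSeries.X k) := by
    have hdC : ∀ p q : Fin n, (MvPowerSeries.C (dl p q : K) : MvPowerSeries (Fin n) K) =
        dl p q := by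
      intro p q
      simp only [dl]
      split_ifs <;> simp
    have h2C : (MvPowerSeries.C (2 : K) : MvPowerSeries (Fin n) K) = 2 := map_ofNat _ 2
    simp only [map_add, map_sub, map_mul, hdC, h2C, add_mul, sub_mul, Finset.sum_add_distrib,
      Finset.sum_sub_distrib]
    congr 1
    · congr 1
      · congr 1
        · simp only [dl, mul_ite, mul_one, mul_zero, ite_mul, zero_mul, Finset.sum_ite_eq,
            Finset.mem_univ, if_true]
        · simp only [dl, mul_ite, mul_one, mul_zero, ite_mul, zero_mul, Finset.sum_ite_eq,
            Finset.mem_univ, if_true]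
      · rw [Finset.mul_sum]
        refine Finset.sum_congr rfl fun k _ => ?_
        ring
    · rw [Finset.mul_sum]
      refine Finset.sum_congr rfl fun k _ => ?_
      ring
  rw [Finset.sum_add_distrib, e1, e2, e3]
  ring

/-- special conformal transformations, for fields without constant terms -/
theorem F_spec_aux (hc : FConf n c) {ι : Type} [Fintype ι] [DecidableEq ι]
    (b : Fin n → K) (H : ι → Fld n K) (hH : ∀ i, SymM (H i))
    (h0 : ∀ i a b, constantCoeff (H i a b) = 0) :
    ∑ i, F c (Function.update H i (spH b (H i))) = 0 := by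
  have h2 := coef_J_deform (c := c) (fun _ _ => 0) H (fun i => spH b (H i))
  have h3 : F c (fun o : Option ι => o.elim (fun _ _ => (0 : MvPowerSeries (Fin n) K)) H) = 0 := by
    rw [option_elim_eq_update (fun _ _ => (0 : MvPowerSeries (Fin n) K)) (fun _ _ => 0) H]
    exact F_update_zero _ _
  rw [h3, zero_add] at h2
  rw [← h2]
  let R := Sq (Option ι) K
  let g : Fld n R := fam (fun i => (nu (some i) : R)) H
  let v : Fin n → MvPowerSeries (Fin n) R := fun k => MvPowerSeries.map (algebraMap K R) (spv b k)
  let u : MvPowerSeries (Fin n) K := 4 * ∑ l, MvPowerSeries.C (b l) * MvPowerSeries.X l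
  have hg : SymM g := by
    intro a b
    simp only [g, fam]
    congr 1
    · simp only [dl, eq_comm]
    · refine Finset.sum_congr rfl fun i _ => ?_
      rw [hH i a b]
  have hg0 : ∀ i j, constantCoeff (g i j) = dl i j := by
    intro i j
    simp only [g, fam, map_add, map_sum]
    rw [Finset.sum_eq_zero, add_zero]
    · simp only [dl]
      split_ifs <;> simp
    · intro x _
      rw [MvPowerSeries.smul_eq_C_mul, map_mul, MvPowerSeries.constantCoeff_map, h0, map_zero,
        mul_zero]
  have h1 := J_lie (c := c) (nu none : R) (nu_mul_self none) v (by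
      intro k
      rw [MvPowerSeries.constantCoeff_map, constantCoeff_spv, map_zero]) hg
    (isUnit_det_fam _ (fun i => nu_mul_self _) H)
  let f : MvPowerSeries (Fin n) R := 1 + MvPowerSeries.C (nu none : R) *
    MvPowerSeries.map (algebraMap K R) u
  have hf : constantCoeff f = 1 := by
    have : constantCoeff u = 0 := by simp [u]
    simp only [f, map_add, map_mul, MvPowerSeries.constantCoeff_map, this, map_zero, mul_zero,
      add_zero, map_one]
  have hpv : ∀ i k, constantCoeff (pderiv R i (v k)) = 0 := by
    intro i k
    rw [pderiv_map, MvPowerSeries.constantCoeff_map, pderiv_spv]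
    simp
  have h4 := hc R (fun i j => g i j + MvPowerSeries.C (nu none : R) * lieD v g i j) f (by
      intro i j
      simp only
      rw [hg i j, symM_lieD v hg i j]) (by
      intro i j
      have hv0 : ∀ k, constantCoeff (v k) = 0 := by
        intro k
        rw [MvPowerSeries.constantCoeff_map, constantCoeff_spv, map_zero]
      simp [lieD, hg0, hpv, hv0]) hf
  rw [h1] at h4
  have hdec : ∀ i j, lieD v g i j = MvPowerSeries.map (algebraMap K R) (lieDl (spv b) i j) +
      ∑ x, (nu (some x) : R) • MvPowerSeries.map (algebraMap K R) (lieD (spv b) (H x) i j) := by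
    intro i j
    have h4 : g = fun a b => (fun a b => (dl a b : MvPowerSeries (Fin n) R)) a b +
        (fun a b => ∑ i, (fun (i : ι) (a b : Fin n) =>
          (nu (some i) : R) • MvPowerSeries.map (algebraMap K R) (H i a b)) i a b) a b := rfl
    rw [h4, lieD_add, lieD_dl, lieD_sum]
    congr 1
    · simp only [lieDl, v, pderiv_map, map_add]
    · exact Finset.sum_congr rfl fun x _ => lieD_smul_map (spv b) _ (H x) i j
  have h5 : (fun i j => f * (g i j + MvPowerSeries.C (nu none : R) * lieD v g i j)) =
      fun a b' => dl a b' +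
      (nu none : R) • MvPowerSeries.map (algebraMap K R) (0 : MvPowerSeries (Fin n) K) +
      ∑ i, (nu (some i) : R) • MvPowerSeries.map (algebraMap K R) (H i a b') +
      ∑ i, (nu none * nu (some i) : R) • MvPowerSeries.map (algebraMap K R)
        (spH b (H i) a b') := by
    funext a b'
    have hS : (MvPowerSeries.C (nu none : R) : MvPowerSeries (Fin n) R) *
        MvPowerSeries.C (nu none) = 0 := by
      rw [← map_mul, nu_mul_self, map_zero]
    have e0 : MvPowerSeries.map (algebraMap K R) (lieDl (spv b) a b') =
        -(MvPowerSeries.map (algebraMap K R) u * dl a b') := by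
      have : lieDl (spv b) a b' = -(u * dl a b') := by rw [lieDl_spv]
      rw [this, map_neg, map_mul]
      congr 2
      simp only [dl]
      split_ifs <;> simp
    have e2 : ∑ i, (nu none * nu (some i) : R) • MvPowerSeries.map (algebraMap K R)
        (spH b (H i) a b') = MvPowerSeries.C (nu none : R) *
        (∑ i, (nu (some i) : R) • MvPowerSeries.map (algebraMap K R) (lieD (spv b) (H i) a b') +
        MvPowerSeries.map (algebraMap K R) u *
        ∑ i, (nu (some i) : R) • MvPowerSeries.map (algebraMap K R) (H i a b')) := by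
      rw [Finset.mul_sum, ← Finset.sum_add_distrib, Finset.mul_sum]
      refine Finset.sum_congr rfl fun i _ => ?_
      have : spH b (H i) a b' = lieD (spv b) (H i) a b' + u * H i a b' := rfl
      rw [this, MvPowerSeries.smul_eq_C_mul, MvPowerSeries.smul_eq_C_mul,
        MvPowerSeries.smul_eq_C_mul, map_mul, map_add, map_mul]
      ring
    rw [e2, hdec, e0, map_zero, smul_zero]
    simp only [f, g, fam]
    linear_combination (MvPowerSeries.map (algebraMap K R) u *
      (-(MvPowerSeries.map (algebraMap K R) u * dl a b') + ∑ x, (nu (some x) : R) •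
        MvPowerSeries.map (algebraMap K R) (lieD (spv b) (H x) a b'))) * hS
  rw [← h5, h4]
  exact coef_J_some _

/-- special conformal transformations -/
theorem F_spec (hc : FConf n c) {ι : Type} [Fintype ι] [DecidableEq ι]
    (hv : ∀ j, j < Fintype.card ι → Vanish n c j) (b : Fin n → K) (H : ι → Fld n K)
    (hH : ∀ i, SymM (H i)) : ∑ i, F c (Function.update H i (spH b (H i))) = 0 := by
  have h1 : ∀ i, F c (Function.update H i (spH b (H i))) =
      F c (Function.update (fun j => noConst (H j)) i (spH b (noConst (H i)))) := by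
    intro i
    refine F_modify hv _ _ (symM_update hH i (symM_spH b (hH i)))
      (symM_update (fun j => symM_noConst (hH j)) i (symM_spH b (symM_noConst (hH i)))) ?_
    intro j
    by_cases hj : j = i
    · subst hj
      rw [Function.update_self, Function.update_self]
      obtain ⟨xi, hxi, h⟩ := exists_spH_const b (fun p q => constantCoeff (H j p q))
        (fun p q => by simp only [hH j p q])
      refine ⟨xi, hxi, ?_⟩
      rw [← h, ← spH_add]
      congr 1
      funext p q
      simp [noConst]
    · rw [Function.update_of_ne hj, Function.update_of_ne hj]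
      exact exists_noConst (hH j)
  rw [Finset.sum_congr rfl fun i _ => h1 i]
  exact F_spec_aux hc b (fun j => noConst (H j)) (fun j => symM_noConst (hH j))
    (fun i a b => constantCoeff_noConst (H i) a b)

end

end Pool.Agent.Helper44.CI
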