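import Pool.Agent.Helper44.CI.Func2

/-!
# Infinitesimal coordinate changes
-/

open scoped BigOperators
open MvPowerSeries (constantCoeff pderiv)

namespace Pool.Agent.Helper44.CI

variable {n : ℕ} {c : Contraction →₀ ℝ} {K : Type} [CommRing K]

/-- the Lie derivative `L_v g` -/
noncomputable def lieD (v : Fin n → MvPowerSeries (Fin n) K) (g : Fld n K) : Fld n K :=
  fun i j => ∑ k, v k * pderiv K k (g i j) +
    ∑ k, (g k j * pderiv K i (v k) + g i k * pderiv K j (v k))

lemma lieD_dl (v : Fin n → MvPowerSeries (Fin n) K) :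
    lieD v (fun i j => dl i j) = lieDl v := by
  funext i j
  have h1 : ∀ k, pderiv K k (dl i j : MvPowerSeries (Fin n) K) = 0 := by
    intro k
    rw [dl]
    split_ifs
    · exact MvPowerSeries.pderiv_one
    · exact map_zero _
  simp only [lieD, lieDl, h1, mul_zero, Finset.sum_const_zero, zero_add]
  simp only [dl, ite_mul, one_mul,
    zero_mul, Finset.sum_add_distrib, Finset.sum_ite_eq, Finset.sum_ite_eq', Finset.mem_univ,
    if_true]

lemma symM_lieDl (v : Fin n → MvPowerSeries (Fin n) K) : SymM (lieDl v) := by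
  intro i j
  simp only [lieDl]
  ring

lemma symM_lieD (v : Fin n → MvPowerSeries (Fin n) K) {g : Fld n K} (hg : SymM g) :
    SymM (lieD v g) := by
  intro i j
  simp only [lieD, hg i j]
  congr 1
  refine Finset.sum_congr rfl fun k _ => ?_
  rw [hg k j, hg i k]
  ring

lemma pderiv_map {K' : Type} [CommRing K'] (θ : K →+* K') (i : Fin n)
    (f : MvPowerSeries (Fin n) K) :
    pderiv K' i (MvPowerSeries.map θ f) = MvPowerSeries.map θ (pderiv K i f) :=
  pdv_map θ i f

lemma lieD_map {K' : Type} [CommRing K'] (θ : K →+* K') (v : Fin n → MvPowerSeries (Fin n) K)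
    (g : Fld n K) (i j : Fin n) :
    lieD (fun k => MvPowerSeries.map θ (v k)) (mapF θ g) i j =
      MvPowerSeries.map θ (lieD v g i j) := by
  simp only [lieD, mapF, pderiv_map, map_add, map_sum, map_mul]

section
variable [Algebra ℝ K]

/-- the endomorphism `f ↦ f + s v(f)`, for `s² = 0` -/
noncomputable def flow (s : K) (hs : s * s = 0) (v : Fin n → MvPowerSeries (Fin n) K) :
    MvPowerSeries (Fin n) K →ₐ[ℝ] MvPowerSeries (Fin n) K where
  toFun f := f + MvPowerSeries.C s * ∑ k, v k * pdv n K k f
  map_one' := by simp [pdv]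
  map_zero' := by simp [pdv]
  map_add' f g := by
    simp only [isDer_pdv.add, mul_add, Finset.sum_add_distrib]
    ring
  map_mul' f g := by
    have hS : (MvPowerSeries.C s : MvPowerSeries (Fin n) K) * MvPowerSeries.C s = 0 := by
      rw [← map_mul, hs, map_zero]
    have h1 : ∑ k, v k * pdv n K k (f * g) =
        (∑ k, v k * pdv n K k f) * g + f * ∑ k, v k * pdv n K k g := by
      rw [Finset.sum_mul, Finset.mul_sum, ← Finset.sum_add_distrib]
      refine Finset.sum_congr rfl fun k _ => ?_
      rw [isDer_pdv.mul]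
      ring
    rw [h1]
    linear_combination (-(∑ k, v k * pdv n K k f) * (∑ k, v k * pdv n K k g)) * hS
  commutes' r := by
    have : ∀ k, pdv n K k (algebraMap ℝ (MvPowerSeries (Fin n) K) r) = 0 := by
      intro k
      rw [Algebra.algebraMap_eq_smul_one, isDer_pdv.smul]
      simp [pdv]
    simp [this]

lemma flow_apply (s : K) (hs : s * s = 0) (v : Fin n → MvPowerSeries (Fin n) K)
    (f : MvPowerSeries (Fin n) K) :
    flow s hs v f = f + MvPowerSeries.C s * ∑ k, v k * pdv n K k f := rfl

omit [Algebra ℝ K] in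
lemma isInv_transform {A : Type*} [CommRing A] {Jm Ji g G : Fin n → Fin n → A} (hJ : IsInv Jm Ji)
    (hG : IsInv g G) :
    IsInv (fun i j => ∑ k, ∑ l, Jm k i * Jm l j * g k l)
      (fun i j => ∑ k, ∑ l, Ji i k * Ji j l * G k l) := by
  have e : ∀ {P Q : Fin n → Fin n → A}, IsInv P Q ↔ Matrix.of P * Matrix.of Q = 1 := by
    intro P Q
    constructor
    · intro h
      ext i j
      rw [Matrix.mul_apply]
      have := h i j
      simp only [dl] at this
      simpa [Matrix.one_apply] using this
    · intro h i j
      have := congrFun (congrFun h i) j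
      rw [Matrix.mul_apply] at this
      simpa [Matrix.one_apply, dl] using this
  rw [e] at hJ hG ⊢
  have h1 : Matrix.of (fun i j => ∑ k, ∑ l, Jm k i * Jm l j * g k l) =
      (Matrix.of Jm).transpose * Matrix.of g * Matrix.of Jm := by
    ext i j
    simp only [Matrix.mul_apply, Matrix.of_apply, Matrix.transpose_apply, Finset.sum_mul]
    rw [Finset.sum_comm]
    refine Finset.sum_congr rfl fun l _ => Finset.sum_congr rfl fun k _ => ?_
    ring
  have h2 : Matrix.of (fun i j => ∑ k, ∑ l, Ji i k * Ji j l * G k l) =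
      Matrix.of Ji * Matrix.of G * (Matrix.of Ji).transpose := by
    ext i j
    simp only [Matrix.mul_apply, Matrix.of_apply, Matrix.transpose_apply, Finset.sum_mul]
    rw [Finset.sum_comm]
    refine Finset.sum_congr rfl fun l _ => Finset.sum_congr rfl fun k _ => ?_
    ring
  rw [h1, h2]
  have h3 := mul_eq_one_comm.1 hJ
  calc (Matrix.of Jm).transpose * Matrix.of g * Matrix.of Jm *
        (Matrix.of Ji * Matrix.of G * (Matrix.of Ji).transpose)
      = (Matrix.of Jm).transpose * (Matrix.of g * (Matrix.of Jm * Matrix.of Ji) * Matrix.of G) *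
        (Matrix.of Ji).transpose := by simp only [Matrix.mul_assoc]
    _ = 1 := by
        rw [hJ, Matrix.mul_one, hG, Matrix.mul_one, ← Matrix.transpose_mul, h3,
          Matrix.transpose_one]

/-- invariance of `J` under an infinitesimal coordinate change fixing the origin -/
theorem J_lie (s : K) (hs : s * s = 0) (v : Fin n → MvPowerSeries (Fin n) K)
    (hv : ∀ k, constantCoeff (v k) = 0) {g : Fld n K} (hg : SymM g)
    (hu : IsUnit (Matrix.of g).det) :
    J c (fun i j => g i j + MvPowerSeries.C s * lieD v g i j) = J c g := by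
  have hS : (MvPowerSeries.C s : MvPowerSeries (Fin n) K) * MvPowerSeries.C s = 0 := by
    rw [← map_mul, hs, map_zero]
  have hD := isDer_pdv (n := n) (K := K)
  have hinv := isInv_invM hu
  let Jm : Fin n → Fin n → MvPowerSeries (Fin n) K :=
    fun k i => dl k i + MvPowerSeries.C s * pdv n K i (v k)
  let Ji : Fin n → Fin n → MvPowerSeries (Fin n) K :=
    fun k i => dl k i - MvPowerSeries.C s * pdv n K i (v k)
  have hdlp : ∀ i j k : Fin n, pdv n K k (dl i j : MvPowerSeries (Fin n) K) = 0 := by
    intro i j k
    rw [dl]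
    split_ifs
    · exact MvPowerSeries.pderiv_one
    · exact map_zero _
  have hCp : ∀ k, pdv n K k (MvPowerSeries.C s) = 0 := fun k => MvPowerSeries.pderiv_C
  have hJ : IsInv Jm Ji := by
    intro i j
    simp only [Jm, Ji]
    have : ∀ k : Fin n, (dl i k + MvPowerSeries.C s * pdv n K k (v i)) *
        (dl k j - MvPowerSeries.C s * pdv n K j (v k)) =
        dl i k * dl k j + (MvPowerSeries.C s * pdv n K k (v i)) * dl k j -
          dl i k * (MvPowerSeries.C s * pdv n K j (v k)) := by
      intro k
      linear_combination (-(pdv n K k (v i)) * pdv n K j (v k)) * hS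
    simp only [this, Finset.sum_sub_distrib, Finset.sum_add_distrib]
    simp [dl]
  have chain : ∀ i a, pdv n K i (flow s hs v a) = ∑ k, Jm k i * flow s hs v (pdv n K k a) := by
    intro i a
    have h1 : ∀ k : Fin n, Jm k i * flow s hs v (pdv n K k a) =
        dl k i * pdv n K k a + dl k i * (MvPowerSeries.C s * ∑ l, v l * pdv n K l (pdv n K k a)) +
          MvPowerSeries.C s * (pdv n K i (v k) * pdv n K k a) := by
      intro k
      simp only [Jm, flow_apply]
      linear_combination (pdv n K i (v k) * ∑ l, v l * pdv n K l (pdv n K k a)) * hS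
    simp only [h1, Finset.sum_add_distrib]
    rw [flow_apply, hD.add, hD.mul, hCp, zero_mul, zero_add]
    have h2 : pdv n K i (∑ k, v k * pdv n K k a) =
        ∑ k, (pdv n K i (v k) * pdv n K k a) + ∑ k, v k * pdv n K k (pdv n K i a) := by
      have : pdv n K i (∑ k, v k * pdv n K k a) = ∑ k, pdv n K i (v k * pdv n K k a) := by
        simp only [pdv, map_sum]
      rw [this, ← Finset.sum_add_distrib]
      refine Finset.sum_congr rfl fun k _ => ?_
      rw [hD.mul, hD.comm]
    rw [h2]
    simp only [dl, ite_mul, one_mul, zero_mul, Finset.sum_ite_eq', Finset.mem_univ, if_true,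
      ← Finset.mul_sum]
    ring
  have integ : ∀ i j k, pdv n K i (Jm k j) = pdv n K j (Jm k i) := by
    intro i j k
    simp only [Jm, hD.add, hD.mul, hdlp, hCp, zero_mul, zero_add]
    rw [hD.comm]
  have h1 := naturality hD hD (flow s hs v) Jm Ji hJ chain integ g (invM g) hg hinv c
  have h2 : (fun i j => ∑ k, ∑ l, Jm k i * Jm l j * flow s hs v (g k l)) =
      (fun i j => g i j + MvPowerSeries.C s * lieD v g i j) := by
    funext i j
    have h3 : ∀ k l : Fin n, Jm k i * Jm l j * flow s hs v (g k l) =
        dl k i * dl l j * (g k l + MvPowerSeries.C s * ∑ m, v m * pdv n K m (g k l)) +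
        dl k i * (MvPowerSeries.C s * (g k l * pdv n K j (v l))) +
        dl l j * (MvPowerSeries.C s * (g k l * pdv n K i (v k))) := by
      intro k l
      simp only [Jm, flow_apply]
      linear_combination (g k l * pdv n K i (v k) * pdv n K j (v l) +
        (MvPowerSeries.C s * pdv n K i (v k) * pdv n K j (v l) + dl k i * pdv n K j (v l) +
          dl l j * pdv n K i (v k)) * ∑ m, v m * pdv n K m (g k l)) * hS
    simp only [h3, Finset.sum_add_distrib]
    simp only [dl, ite_mul, one_mul, zero_mul, mul_ite, mul_one, mul_zero, Finset.sum_ite_eq',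
      Finset.mem_univ, if_true, Finset.sum_ite_irrel, Finset.sum_const_zero]
    simp only [lieD, pdv, Finset.sum_add_distrib, mul_add, Finset.mul_sum]
    ring
  have h4 : IsInv (fun i j => g i j + MvPowerSeries.C s * lieD v g i j)
      (fun i j => ∑ k, ∑ l, Ji i k * Ji j l * flow s hs v (invM g k l)) := by
    rw [← h2]
    exact isInv_transform hJ (hinv.map (flow s hs v).toRingHom)
  rw [J_eq h4, ← h2, h1, J_eq hinv, flow_apply]
  simp [hv]

end

end Pool.Agent.Helper44.CI
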