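import Pool.Agent.Helper44.CI.Func3a

/-!
# The deformation lemma
-/

open scoped BigOperators
open MvPowerSeries (constantCoeff pderiv)

namespace Pool.Agent.Helper44.CI

variable {n : ℕ} {c : Contraction →₀ ℝ} {K : Type} [CommRing K] [Algebra ℝ K]

/-- the finite sets which contribute -/
def defT {ι : Type} [Fintype ι] [DecidableEq ι] : Option ι → Finset (Option ι ⊕ ι)
  | none => Finset.univ.map ⟨Sum.inl, Sum.inl_injective⟩
  | some i => insert (Sum.inr i)
      ((Finset.univ.erase i).map ⟨fun j => Sum.inl (some j), fun _ _ h => by simpa using h⟩)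

/-- the exponents -/
def defP {ι : Type} [DecidableEq ι] : Option ι ⊕ ι → Finset (Option ι)
  | Sum.inl o => {o}
  | Sum.inr i => {none, some i}

lemma mem_defT_none_inl {ι : Type} [Fintype ι] [DecidableEq ι] (o : Option ι) :
    (Sum.inl o : Option ι ⊕ ι) ∈ defT (none : Option ι) := by simp [defT]

lemma mem_defT_none_inr {ι : Type} [Fintype ι] [DecidableEq ι] (i : ι) :
    (Sum.inr i : Option ι ⊕ ι) ∉ defT (none : Option ι) := by simp [defT]

lemma mem_defT_some_inr {ι : Type} [Fintype ι] [DecidableEq ι] (i j : ι) :
    (Sum.inr j : Option ι ⊕ ι) ∈ defT (some i) ↔ j = i := by simp [defT]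

lemma mem_defT_some_inl_none {ι : Type} [Fintype ι] [DecidableEq ι] (i : ι) :
    (Sum.inl none : Option ι ⊕ ι) ∉ defT (some i) := by simp [defT]

lemma mem_defT_some_inl_some {ι : Type} [Fintype ι] [DecidableEq ι] (i j : ι) :
    (Sum.inl (some j) : Option ι ⊕ ι) ∈ defT (some i) ↔ j ≠ i := by simp [defT]

lemma defT_injective {ι : Type} [Fintype ι] [DecidableEq ι] :
    Function.Injective (defT : Option ι → Finset (Option ι ⊕ ι)) := by
  rintro (_ | i) (_ | j) h
  · rfl
  · exact absurd (h ▸ (mem_defT_some_inr j j).2 rfl) (mem_defT_none_inr j)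
  · exact absurd (h ▸ (mem_defT_some_inr i i).2 rfl) (mem_defT_none_inr i)
  · have := h ▸ (mem_defT_some_inr i i).2 rfl
    rw [mem_defT_some_inr] at this
    rw [this]

lemma defT_cond {ι : Type} [Fintype ι] [DecidableEq ι] (o : Option ι) :
    (∀ x ∈ defT o, ∀ y ∈ defT o, x ≠ y → Disjoint (defP x) (defP y)) ∧
      Finset.univ = (defT o).biUnion defP := by
  constructor
  · rcases o with _ | i
    · rintro (x | x) hx (y | y) hy hxy
      · simpa [defP] using hxy
      · exact absurd hy (mem_defT_none_inr y)
      · exact absurd hx (mem_defT_none_inr x)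
      · exact absurd hx (mem_defT_none_inr x)
    · rintro (x | x) hx (y | y) hy hxy
      · simpa [defP] using hxy
      · rw [mem_defT_some_inr] at hy
        subst hy
        rcases x with _ | x
        · exact absurd hx (mem_defT_some_inl_none y)
        · rw [mem_defT_some_inl_some] at hx
          simpa [defP] using hx
      · rw [mem_defT_some_inr] at hx
        subst hx
        rcases y with _ | y
        · exact absurd hy (mem_defT_some_inl_none x)
        · rw [mem_defT_some_inl_some] at hy
          simpa [defP] using hy
      · rw [mem_defT_some_inr] at hx hy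
        exact absurd (by rw [hx, hy]) hxy
  · symm
    rw [Finset.eq_univ_iff_forall]
    intro p
    rw [Finset.mem_biUnion]
    rcases o with _ | i
    · exact ⟨Sum.inl p, mem_defT_none_inl p, by simp [defP]⟩
    · rcases p with _ | j
      · exact ⟨Sum.inr i, (mem_defT_some_inr i i).2 rfl, by simp [defP]⟩
      · by_cases hj : j = i
        · subst hj
          exact ⟨Sum.inr j, (mem_defT_some_inr j j).2 rfl, by simp [defP]⟩
        · exact ⟨Sum.inl (some j), (mem_defT_some_inl_some i j).2 hj, by simp [defP]⟩

lemma defT_unique {ι : Type} [Fintype ι] [DecidableEq ι] (T : Finset (Option ι ⊕ ι))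
    (hd : ∀ x ∈ T, ∀ y ∈ T, x ≠ y → Disjoint (defP x) (defP y))
    (hu : Finset.univ = T.biUnion defP) : ∃ o, T = defT o := by
  have hcov : ∀ p : Option ι, ∃ x ∈ T, p ∈ defP x := by
    intro p
    have : p ∈ T.biUnion defP := by rw [← hu]; exact Finset.mem_univ _
    exact Finset.mem_biUnion.1 this
  obtain ⟨x, hx, hxn⟩ := hcov none
  rcases x with x | i
  · simp only [defP, Finset.mem_singleton] at hxn
    subst hxn
    refine ⟨none, ?_⟩
    have hno : ∀ j, (Sum.inr j : Option ι ⊕ ι) ∉ T := by
      intro j hj
      have := hd _ hx _ hj (by simp)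
      simp [defP] at this
    ext (p | j)
    · refine ⟨fun _ => mem_defT_none_inl p, fun _ => ?_⟩
      obtain ⟨y, hy, hyp⟩ := hcov p
      rcases y with y | j
      · simp only [defP, Finset.mem_singleton] at hyp
        rwa [hyp]
      · exact absurd hy (hno j)
    · exact ⟨fun h => absurd h (hno j), fun h => absurd h (mem_defT_none_inr j)⟩
  · refine ⟨some i, ?_⟩
    have hno : ∀ j, (Sum.inr j : Option ι ⊕ ι) ∈ T → j = i := by
      intro j hj
      by_contra hne
      have := hd _ hx _ hj (by simpa using Ne.symm hne)
      simp [defP] at this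
    have hno2 : (Sum.inl none : Option ι ⊕ ι) ∉ T := by
      intro h
      have := hd _ hx _ h (by simp)
      simp [defP] at this
    have hno3 : (Sum.inl (some i) : Option ι ⊕ ι) ∉ T := by
      intro h
      have := hd _ hx _ h (by simp)
      simp [defP] at this
    ext (p | j)
    · rcases p with _ | j
      · exact ⟨fun h => absurd h hno2, fun h => absurd h (mem_defT_some_inl_none i)⟩
      · rw [mem_defT_some_inl_some]
        constructor
        · rintro h rfl
          exact hno3 h
        · intro hji
          obtain ⟨y, hy, hyp⟩ := hcov (some j)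
          rcases y with y | k
          · simp only [defP, Finset.mem_singleton] at hyp
            rwa [hyp]
          · have := hno k hy
            subst this
            simp only [defP, Finset.mem_insert, reduceCtorEq, Finset.mem_singleton,
              Option.some.injEq, false_or] at hyp
            exact absurd hyp hji
    · rw [mem_defT_some_inr]
      exact ⟨hno j, fun h => h ▸ hx⟩

/-- the top coefficient of `J` for the metric `δ + ν₀ L + ∑ᵢ νᵢ Hᵢ + ∑ᵢ ν₀ νᵢ Mᵢ` -/
theorem coef_J_deform {ι : Type} [Fintype ι] [DecidableEq ι] (L : Fld n K) (H M : ι → Fld n K) :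
    coef Finset.univ (J c (fun a b => dl a b +
      (nu none : Sq (Option ι) K) • MvPowerSeries.map (algebraMap K (Sq (Option ι) K)) (L a b) +
      ∑ i, (nu (some i) : Sq (Option ι) K) •
        MvPowerSeries.map (algebraMap K (Sq (Option ι) K)) (H i a b) +
      ∑ i, (nu none * nu (some i) : Sq (Option ι) K) •
        MvPowerSeries.map (algebraMap K (Sq (Option ι) K)) (M i a b))) =
    F c (fun o : Option ι => o.elim L H) + ∑ i, F c (Function.update H i (M i)) := by
  let H' : Option ι ⊕ ι → Fld n K := Sum.elim (fun o => o.elim L H) M
  have h1 : (fun a b => dl a b +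
      (nu none : Sq (Option ι) K) • MvPowerSeries.map (algebraMap K (Sq (Option ι) K)) (L a b) +
      ∑ i, (nu (some i) : Sq (Option ι) K) •
        MvPowerSeries.map (algebraMap K (Sq (Option ι) K)) (H i a b) +
      ∑ i, (nu none * nu (some i) : Sq (Option ι) K) •
        MvPowerSeries.map (algebraMap K (Sq (Option ι) K)) (M i a b)) =
      fam (fun x => (nuP (defP x) : Sq (Option ι) K)) H' := by
    funext a b
    simp only [fam]
    rw [Fintype.sum_sum_type, Fintype.sum_option]
    have e1 : ∀ o : Option ι, (nuP (defP (Sum.inl o)) : Sq (Option ι) K) = nu o := by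
      intro o
      simp [nuP, defP]
    have e2 : ∀ i : ι, (nuP (defP (Sum.inr i)) : Sq (Option ι) K) = nu none * nu (some i) := by
      intro i
      rw [nuP, defP, Finset.prod_pair (by simp)]
    simp only [e1, e2, H', Sum.elim_inl, Sum.elim_inr, Option.elim]
    rw [add_assoc (dl a b + _) _ _, add_assoc, add_assoc]
  rw [h1, coef_J_fam_nuP defP (by rintro (x | x) <;> simp [defP])]
  rw [← Finset.sum_subset (Finset.subset_univ (Finset.univ.map ⟨defT, defT_injective⟩))]
  · rw [Finset.sum_map, Fintype.sum_option]
    simp only [Function.Embedding.coeFn_mk]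
    congr 1
    · rw [if_pos (defT_cond none)]
      rw [F_subtype _ (fun o => Sum.inl o) Sum.inl_injective]
      · rfl
      · rintro (x | x)
        · simp [mem_defT_none_inl]
        · simp [mem_defT_none_inr]
    · refine Finset.sum_congr rfl fun i _ => ?_
      rw [if_pos (defT_cond (some i))]
      rw [F_subtype _ (fun j => if j = i then Sum.inr i else Sum.inl (some j))]
      · congr 1
        funext j
        by_cases hj : j = i
        · subst hj; simp [H']
        · simp [hj, H']
      · intro j k hjk
        simp only at hjk
        split_ifs at hjk with h1 h2 h2 <;> simp_all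
      · rintro ((_ | j) | j)
        · simp only [mem_defT_some_inl_none, false_iff, not_exists]
          intro k
          split_ifs <;> simp
        · rw [mem_defT_some_inl_some]
          constructor
          · intro hj
            exact ⟨j, by simp [hj]⟩
          · rintro ⟨k, hk⟩
            split_ifs at hk with h1
            cases hk
            exact h1
        · rw [mem_defT_some_inr]
          constructor
          · rintro rfl
            exact ⟨j, by simp⟩
          · rintro ⟨k, hk⟩
            split_ifs at hk with h1
            cases hk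
            rfl
  · intro T _ hT
    rw [if_neg]
    rintro ⟨hd, hu⟩
    obtain ⟨o, ho⟩ := defT_unique T hd hu
    apply hT
    rw [Finset.mem_map]
    exact ⟨o, Finset.mem_univ _, ho.symm⟩

/-- `J` of a metric which does not involve `ν₀` has no top coefficient -/
theorem coef_J_some {ι : Type} [Fintype ι] [DecidableEq ι] (H : ι → Fld n K) :
    coef Finset.univ (J c (fam (fun i => (nu (some i) : Sq (Option ι) K)) H)) = 0 := by
  have h1 : fam (fun i => (nu (some i) : Sq (Option ι) K)) H =
      fam (fun i => (nuP ({some i} : Finset (Option ι)) : Sq (Option ι) K)) H := by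
    simp only [nuP, Finset.prod_singleton]
  rw [h1, coef_J_fam_nuP _ (by simp)]
  refine Finset.sum_eq_zero fun T _ => ?_
  rw [if_neg]
  rintro ⟨-, hu⟩
  have : (none : Option ι) ∈ T.biUnion (fun i => ({some i} : Finset (Option ι))) := by
    rw [← hu]; exact Finset.mem_univ _
  simp at this

end Pool.Agent.Helper44.CI
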