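import Pool.Agent.Helper44.CI.GramAux2

/-!
# Complete contractions in abstract index notation
-/

open scoped BigOperators
open Function (update)

namespace Pool.Agent.Helper44.CI

variable {n : ℕ} {A : Type*} [CommRing A] [Algebra ℝ A]
variable {A0 : Subalgebra ℝ A} {V : Type*} {v : V → Fin n → A} {d : Fin n → A → A}
  {g G : Fin n → Fin n → A}

/-- the assignment `2 a ↦ κ a`, `2 a + 1 ↦ κ a` -/
def extN {m : ℕ} (κ : Fin m → Fin n) (i : ℕ → Fin n) : ℕ → Fin n :=
  fun x => if h : x / 2 < m then κ ⟨x / 2, h⟩ else i x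

lemma extN_snoc {m : ℕ} (κ : Fin m → Fin n) (k : Fin n) (i : ℕ → Fin n) :
    extN (Fin.snoc (α := fun _ => Fin n) κ k : Fin (m + 1) → Fin n) i =
      update (update (extN κ i) (2 * m) k) (2 * m + 1) k := by
  funext x
  by_cases h1 : x = 2 * m + 1
  · subst h1
    rw [Function.update_self]
    have h2 : (2 * m + 1) / 2 = m := by omega
    simp only [extN, h2]
    rw [dif_pos (by omega)]
    exact Fin.snoc_last (α := fun _ => Fin n) k κ
  · rw [Function.update_of_ne h1]
    by_cases h2 : x = 2 * m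
    · subst h2
      rw [Function.update_self]
      have h2 : (2 * m) / 2 = m := by omega
      simp only [extN, h2]
      rw [dif_pos (by omega)]
      exact Fin.snoc_last (α := fun _ => Fin n) k κ
    · rw [Function.update_of_ne h2]
      simp only [extN]
      by_cases h3 : x / 2 < m
      · rw [dif_pos h3, dif_pos (by omega)]
        exact Fin.snoc_castSucc (α := fun _ => Fin n) k κ ⟨x / 2, h3⟩
      · rw [dif_neg h3, dif_neg (by omega)]

lemma Gr.total (hv : ∀ s t, ∑ k, v s k * v t k ∈ A0) : ∀ (m : ℕ) (W : (ℕ → Fin n) → A),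
    Gr A0 v (Finset.range (2 * m)) W → ∀ i : ℕ → Fin n,
      ∑ κ : Fin m → Fin n, W (extN κ i) ∈ A0 := by
  intro m
  induction m with
  | zero =>
    intro W hW i
    exact sum_mem fun κ _ => hW.const_mem (by simp) _
  | succ m ih =>
    intro W hW i
    have h1 : Gr A0 v (Finset.range (2 * m))
        (fun i => ∑ k, W (update (update i (2 * m) k) (2 * m + 1) k)) := by
      refine hW.contr' hv (2 * m) (2 * m + 1) (by simp) (by simp; omega) (by omega) ?_
        fun i => rfl
      ext a; simp; omega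
    have h2 := ih _ h1 i
    rw [← Equiv.sum_comp (Fin.snocEquiv (fun _ : Fin (m + 1) => Fin n)), Fintype.sum_prod_type,
      Finset.sum_comm]
    convert h2 using 5 with κ _ k _
    exact extN_snoc κ k i

namespace GrData

lemma eval_mem_zero {A : Type*} [CommRing A] [Algebra ℝ A] (A0 : Subalgebra ℝ A)
    (C : Contraction) (d : Fin 0 → A → A) (g G : Fin 0 → Fin 0 → A) : C.eval d g G ∈ A0 := by
  by_cases hk : C.k = 0
  · have h1 : IsEmpty (Fin C.k) := by rw [hk]; infer_instance
    have h2 : IsEmpty (Σ a : Fin C.k, Fin (C.l a + 2)) := ⟨fun x => h1.elim x.1⟩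
    have h3 : IsEmpty (Fin C.m) := ⟨fun s => h2.elim (C.e (s, 0))⟩
    rw [Contraction.eval]
    refine sum_mem fun i _ => ?_
    rw [Finset.univ_eq_empty (α := Fin C.m), Finset.univ_eq_empty (α := Fin C.k)]
    simp
  · have : IsEmpty ((Σ a : Fin C.k, Fin (C.l a + 2)) → Fin 0) :=
      ⟨fun i => (i ⟨⟨0, Nat.pos_of_ne_zero hk⟩, 0⟩).elim0⟩
    rw [Contraction.eval, Finset.univ_eq_empty (α := (Σ a : Fin C.k, Fin (C.l a + 2)) → Fin 0)]
    simp

lemma eval_mem (h : GrData A0 v d g G) (C : Contraction) : C.eval d g G ∈ A0 := by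
  rcases Nat.eq_zero_or_pos n with hn | hn
  · subst hn
    exact eval_mem_zero A0 C d g G
  let N := Σ a : Fin C.k, Fin (C.l a + 2)
  let f : N ≃ Fin (Fintype.card N) := Fintype.equivFin N
  let W : (ℕ → Fin n) → A := fun i =>
    (∏ s : Fin C.m, G (i (2 * (f (C.e (s, 0)) : ℕ))) (i (2 * (f (C.e (s, 1)) : ℕ)))) *
      ∏ a : Fin C.k, CI.covDerivP d g G (C.l a) (fun p => i (2 * (f ⟨a, p⟩ : ℕ) + 1))
  have hf : ∀ x y : N, (f x : ℕ) = f y → x = y := fun x y hxy => f.injective (Fin.ext hxy)
  have h1 := Gr.prod (A0 := A0) (v := v) (Finset.univ : Finset (Fin C.m))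
    (fun s => {2 * (f (C.e (s, 0)) : ℕ), 2 * (f (C.e (s, 1)) : ℕ)})
    (fun s i => G (i (2 * (f (C.e (s, 0)) : ℕ))) (i (2 * (f (C.e (s, 1)) : ℕ))))
    (fun s _ => h.hG _ _ (by
      intro he
      have := C.e.injective (hf _ _ (by omega : (f (C.e (s, 0)) : ℕ) = f (C.e (s, 1))))
      simp at this))
    (by
      intro s _ t _ hst
      have key : ∀ a b : Fin 2, 2 * (f (C.e (s, a)) : ℕ) ≠ 2 * (f (C.e (t, b)) : ℕ) := by
        intro a b he
        have := C.e.injective (hf _ _ (by omega : (f (C.e (s, a)) : ℕ) = f (C.e (t, b))))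
        exact hst (Prod.ext_iff.1 this).1
      rw [Finset.disjoint_left]
      intro x hx hx'
      simp only [Finset.mem_insert, Finset.mem_singleton] at hx hx'
      rcases hx with rfl | rfl <;> rcases hx' with hx' | hx' <;> exact key _ _ hx')
  have h2 := Gr.prod (A0 := A0) (v := v) (Finset.univ : Finset (Fin C.k))
    (fun a => Finset.univ.image fun p : Fin (C.l a + 2) => 2 * (f ⟨a, p⟩ : ℕ) + 1)
    (fun a i => CI.covDerivP d g G (C.l a) (fun p => i (2 * (f ⟨a, p⟩ : ℕ) + 1)))
    (fun a _ => h.covDerivP (C.l a) _ (by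
      intro p q hpq
      simp only at hpq
      have := hf _ _ (by omega : (f ⟨a, p⟩ : ℕ) = f ⟨a, q⟩)
      exact eq_of_heq (Sigma.mk.inj_iff.1 this).2))
    (by
      intro a _ b _ hab
      rw [Finset.disjoint_left]
      intro x hx hx'
      simp only [Finset.mem_image, Finset.mem_univ, true_and] at hx hx'
      obtain ⟨p, rfl⟩ := hx
      obtain ⟨q, hq⟩ := hx'
      have := hf _ _ (by omega : (f ⟨b, q⟩ : ℕ) = f ⟨a, p⟩)
      exact hab (congrArg Sigma.fst this).symm)
  have h3 := h1.mul h2 (by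
    rw [Finset.disjoint_left]
    intro x hx hx'
    simp only [Finset.mem_biUnion, Finset.mem_univ, true_and, Finset.mem_insert,
      Finset.mem_singleton, Finset.mem_image] at hx hx'
    obtain ⟨s, hs⟩ := hx
    obtain ⟨a, p, hp⟩ := hx'
    omega)
  have h4 : Gr A0 v (Finset.range (2 * Fintype.card N)) W := by
    refine h3.congr ?_ fun i => rfl
    ext x
    simp only [Finset.mem_union, Finset.mem_biUnion, Finset.mem_univ, true_and, Finset.mem_insert,
      Finset.mem_singleton, Finset.mem_image, Finset.mem_range]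
    constructor
    · rintro (⟨s, h | h⟩ | ⟨a, p, h⟩)
      · have := (f (C.e (s, 0))).2
        omega
      · have := (f (C.e (s, 1))).2
        omega
      · have := (f ⟨a, p⟩).2
        omega
    · intro hx
      have hx2 : x / 2 < Fintype.card N := by omega
      obtain ⟨y, hy⟩ : ∃ y : N, (f y : ℕ) = x / 2 := ⟨f.symm ⟨x / 2, hx2⟩, by simp⟩
      rcases Nat.even_or_odd' x with ⟨c, hc | hc⟩
      · left
        obtain ⟨⟨s, b⟩, rfl⟩ := C.e.surjective y
        refine ⟨s, ?_⟩
        fin_cases b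
        · left
          simp only [Fin.zero_eta, Fin.isValue] at hy
          omega
        · right
          simp only [Fin.mk_one, Fin.isValue] at hy
          omega
      · right
        obtain ⟨a, p⟩ := y
        exact ⟨a, p, by omega⟩
  have h5 := Gr.total h.hv _ W h4 (fun _ => ⟨0, hn⟩)
  have h6 : C.eval d g G = ∑ κ : Fin (Fintype.card N) → Fin n, W (extN κ fun _ => ⟨0, hn⟩) := by
    rw [Contraction.eval, ← Equiv.sum_comp (Equiv.arrowCongr f (Equiv.refl (Fin n)))]
    refine Finset.sum_congr rfl fun i _ => ?_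
    have key : ∀ x : N, extN (Equiv.arrowCongr f (Equiv.refl (Fin n)) i) (fun _ => ⟨0, hn⟩)
        (2 * (f x : ℕ)) = i x := by
      intro x
      have h1 : 2 * (f x : ℕ) / 2 = f x := by omega
      simp [extN, h1]
    have key' : ∀ x : N, extN (Equiv.arrowCongr f (Equiv.refl (Fin n)) i) (fun _ => ⟨0, hn⟩)
        (2 * (f x : ℕ) + 1) = i x := by
      intro x
      have h1 : (2 * (f x : ℕ) + 1) / 2 = f x := by omega
      simp [extN, h1]
    simp only [W, key, key']
  rw [h6]
  exact h5

lemma linComb_mem (h : GrData A0 v d g G) (c : Contraction →₀ ℝ) : linComb c d g G ∈ A0 := by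
  rw [linComb, Finsupp.sum]
  exact sum_mem fun C _ => A0.smul_mem (h.eval_mem C) _

end GrData

end Pool.Agent.Helper44.CI
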