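import Pool.Agent.Helper44.CI.Func
import Pool.Agent.Helper44.CI.GramAux3

/-!
# `F` of plane waves is a polynomial in the Gram matrix
-/

open scoped BigOperators
open MvPolynomial

namespace Pool.Agent.Helper44.CI

variable {n : ℕ}

section Coefficients

variable {ι : Type} [DecidableEq ι] {K : Type} [CommRing K]

lemma nuP_mul_nuP (S T : Finset ι) :
    (nuP S : Sq ι K) * nuP T = if Disjoint S T then nuP (S ∪ T) else 0 := by
  by_cases h : Disjoint S T
  · rw [if_pos h, nuP, nuP, nuP, Finset.prod_union h]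
  · rw [if_neg h, nuP_mul_of_not_disjoint h]

/-- the elements of `Sq ι K` all whose coefficients lie in a given subalgebra of `K` -/
def coefSub [Fintype ι] [Algebra ℝ K] (K0 : Subalgebra ℝ K) : Subalgebra ℝ (Sq ι K) where
  carrier := {q | ∀ S, coef S q ∈ K0}
  mul_mem' := by
    intro q r hq hr S
    rw [sq_expand q, sq_expand r, Finset.sum_mul_sum, map_sum]
    refine sum_mem fun T _ => ?_
    rw [map_sum]
    refine sum_mem fun T' _ => ?_
    have h1 : algebraMap K (Sq ι K) (coef T q) * (∏ i ∈ T, nu i) *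
        (algebraMap K (Sq ι K) (coef T' r) * ∏ i ∈ T', nu i) =
          algebraMap K (Sq ι K) (coef T q * coef T' r) * (nuP T * nuP T') := by
      rw [map_mul, nuP, nuP]
      ring
    rw [h1, nuP_mul_nuP]
    split_ifs
    · rw [nuP, coef_smul_prod_nu]
      split_ifs
      · exact mul_mem (hq T) (hr T')
      · exact zero_mem _
    · rw [mul_zero, map_zero]
      exact zero_mem _
  one_mem' := by
    intro S
    have := coef_algebraMap (ι := ι) (K := K) S 1
    rw [map_one] at this
    rw [this]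
    split_ifs
    · exact one_mem _
    · exact zero_mem _
  add_mem' := by
    intro q r hq hr S
    rw [map_add]
    exact add_mem (hq S) (hr S)
  zero_mem' := by
    intro S
    rw [map_zero]
    exact zero_mem _
  algebraMap_mem' := by
    intro r S
    rw [IsScalarTower.algebraMap_apply ℝ K (Sq ι K), coef_algebraMap]
    split_ifs
    · exact K0.algebraMap_mem r
    · exact zero_mem _

variable [Fintype ι] [Algebra ℝ K] {K0 : Subalgebra ℝ K}

lemma mem_coefSub {q : Sq ι K} : q ∈ coefSub K0 ↔ ∀ S, coef S q ∈ K0 := Iff.rfl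

lemma algebraMap_mem_coefSub {a : K} (ha : a ∈ K0) :
    algebraMap K (Sq ι K) a ∈ coefSub (ι := ι) K0 := by
  intro S
  rw [coef_algebraMap]
  split_ifs
  · exact ha
  · exact zero_mem _

lemma nuP_mem_coefSub (T : Finset ι) : (nuP T : Sq ι K) ∈ coefSub (ι := ι) K0 := by
  intro S
  rw [nuP, coef_prod_nu]
  split_ifs
  · exact one_mem _
  · exact zero_mem _

lemma nu_mem_coefSub (j : ι) : (nu j : Sq ι K) ∈ coefSub (ι := ι) K0 := by
  have := nuP_mem_coefSub (K0 := K0) ({j} : Finset ι)
  simpa [nuP] using this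

omit [DecidableEq ι] [Algebra ℝ K] in
lemma dsq_algebraMap (a : ι → Fin n → K) (i : Fin n) (x : K) :
    dsq a i (algebraMap K (Sq ι K) x) = 0 := by
  classical
  rw [dsq]
  refine Finset.sum_eq_zero fun S _ => ?_
  rw [coef_algebraMap]
  split_ifs with h
  · subst h
    simp
  · simp

end Coefficients

section Neumann

variable {ι : Type} [Fintype ι] {K : Type} [CommRing K]

/-- the matrix `∑ⱼ νⱼ Aⱼ` -/
noncomputable def nuMat (B : ι → Fin n → Fin n → K) : Matrix (Fin n) (Fin n) (Sq ι K) :=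
  Matrix.of fun x y => ∑ j, nu j * algebraMap K (Sq ι K) (B j x y)

lemma isNilpotent_nuMat (B : ι → Fin n → Fin n → K) : IsNilpotent (nuMat B) := by
  let I : Ideal (Sq ι K) := Ideal.span (Set.range nu)
  have hI : IsNilpotent I := by
    have hfg : I.FG := Submodule.fg_span (Set.finite_range _)
    rw [hfg.isNilpotent_iff_le_nilradical, Ideal.span_le]
    rintro _ ⟨j, rfl⟩
    exact ⟨2, nu_sq j⟩
  obtain ⟨M, hM⟩ := hI
  have key : ∀ m x y, (nuMat B ^ m) x y ∈ I ^ m := by
    intro m
    induction m with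
    | zero => intro x y; simp
    | succ m ih =>
      intro x y
      rw [pow_succ, pow_succ, Matrix.mul_apply]
      refine sum_mem fun k _ => Ideal.mul_mem_mul (ih x k) ?_
      rw [nuMat, Matrix.of_apply]
      exact sum_mem fun j _ => Ideal.mul_mem_right _ _ (Ideal.subset_span ⟨j, rfl⟩)
  refine ⟨M, ?_⟩
  ext x y
  have := key M x y
  rw [hM] at this
  simpa using this

end Neumann

section

variable {ι : Type} [Fintype ι] [DecidableEq ι] {K : Type} [CommRing K] [Algebra ℝ K]

/-- the vectors, as vectors over `Sq ι K` -/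
noncomputable def liftV (v : ι ⊕ ι → Fin n → K) (s : ι ⊕ ι) (i : Fin n) : Sq ι K :=
  algebraMap K (Sq ι K) (v s i)

lemma gr_nuMat (K0 : Subalgebra ℝ K) (v : ι ⊕ ι → Fin n → K) {x y : ℕ} (hxy : x ≠ y) :
    Gr (coefSub (ι := ι) K0) (liftV v) {x, y}
      (fun i => nuMat (fun j => sqM (v (Sum.inr j))) (i x) (i y)) := by
  have h1 : ∀ j : ι, Gr (coefSub (ι := ι) K0) (liftV v) {x, y}
      (fun i => liftV v (Sum.inr j) (i x) * (liftV v (Sum.inr j) (i y) * nu j)) := by
    intro j
    exact (Gr.vec _ _ x (Sum.inr j) (Gr.vec _ _ y (Sum.inr j)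
      (Gr.const _ (nu_mem_coefSub (K0 := K0) j)) (by simp)) (by simpa using hxy)).congr rfl
        fun _ => rfl
  refine (Gr.sum Finset.univ _ fun j _ => h1 j).congr rfl fun i => ?_
  rw [nuMat, Matrix.of_apply]
  refine Finset.sum_congr rfl fun j _ => ?_
  rw [liftV, liftV, sqM, map_mul]
  ring

lemma gr_one (K0 : Subalgebra ℝ K) (v : ι ⊕ ι → Fin n → K) {x y : ℕ} (hxy : x ≠ y) :
    Gr (coefSub (ι := ι) K0) (liftV v) {x, y} (fun i => dl (i x) (i y)) := by
  refine (Gr.delta _ _ x y (Gr.const _ (one_mem _)) (by simp) (by simp) hxy).congr rfl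
    fun i => ?_
  rw [mul_one]

lemma gr_pow (K0 : Subalgebra ℝ K) (v : ι ⊕ ι → Fin n → K)
    (hv : ∀ s t, ∑ k, liftV v s k * liftV v t k ∈ coefSub (ι := ι) K0) (m : ℕ) :
    ∀ {x y : ℕ}, x ≠ y → Gr (coefSub (ι := ι) K0) (liftV v) {x, y}
      (fun i => ((- nuMat (fun j => sqM (v (Sum.inr j)))) ^ m) (i x) (i y)) := by
  induction m with
  | zero =>
    intro x y hxy
    refine (gr_one K0 v hxy).congr rfl fun i => ?_
    rw [pow_zero, Matrix.one_apply, dl]
  | succ m ih =>
    intro x y hxy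
    obtain ⟨p, hp⟩ : ∃ p, p = x + y + 1 := ⟨_, rfl⟩
    obtain ⟨q, hq⟩ : ∃ q, q = x + y + 2 := ⟨_, rfl⟩
    have h1 := (ih (x := x) (y := p) (by omega)).mul
      (gr_nuMat K0 v (x := q) (y := y) (by omega)).neg (by
        rw [Finset.disjoint_left]; intro a; simp; omega)
    refine h1.contr' hv p q (by simp) (by simp) (by omega) ?_ fun i => ?_
    · ext a; simp; omega
    · rw [pow_succ, Matrix.mul_apply]
      refine Finset.sum_congr rfl fun k _ => ?_
      simp (disch := omega) only [Function.update_of_ne, Function.update_self, Matrix.neg_apply]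

/-- `F` of the plane waves `exp(aⱼ · X) ζⱼ ζⱼᵀ` lies in every subalgebra which contains the Gram
matrix. -/
lemma F_mem (c : Contraction →₀ ℝ) (K0 : Subalgebra ℝ K) (v : ι ⊕ ι → Fin n → K)
    (hK : ∀ s t, ∑ i, v s i * v t i ∈ K0) :
    F c (fun j => wave (v (Sum.inl j)) (sqM (v (Sum.inr j)))) ∈ K0 := by
  have hv : ∀ s t, ∑ k, liftV v s k * liftV v t k ∈ coefSub (ι := ι) K0 := by
    intro s t
    have : ∑ k, liftV v s k * liftV v t k = algebraMap K (Sq ι K) (∑ i, v s i * v t i) := by
      rw [map_sum]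
      refine Finset.sum_congr rfl fun k _ => ?_
      rw [liftV, liftV, map_mul]
    rw [this]
    exact algebraMap_mem_coefSub (hK s t)
  let B : ι → Fin n → Fin n → K := fun j => sqM (v (Sum.inr j))
  obtain ⟨M, hM⟩ := (isNilpotent_nuMat B).neg
  let G : Fin n → Fin n → Sq ι K := fun x y => (∑ m ∈ Finset.range M, (- nuMat B) ^ m) x y
  have hG : IsInv (fun x y => dl x y + ∑ j, nu j * algebraMap K (Sq ι K) (B j x y)) G := by
    intro x y
    have h1 : (1 + nuMat B) * ∑ m ∈ Finset.range M, (- nuMat B) ^ m = 1 := by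
      have := mul_neg_geom_sum (- nuMat B) M
      rwa [hM, sub_zero, sub_neg_eq_add] at this
    have h2 := congrFun (congrFun h1 x) y
    rw [Matrix.mul_apply, Matrix.one_apply] at h2
    change _ = ite (x = y) 1 0
    rw [← h2]
    refine Finset.sum_congr rfl fun k _ => ?_
    rw [Matrix.add_apply, Matrix.one_apply, nuMat, Matrix.of_apply]
    rfl
  have hdata : GrData (coefSub (ι := ι) K0) (liftV v) (dsq fun j => v (Sum.inl j))
      (fun x y => dl x y + ∑ j, nu j * algebraMap K (Sq ι K) (B j x y)) G := by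
    refine ⟨hv, isDer_dsq _, fun s i j => dsq_algebraMap _ _ _, ?_, ?_, ?_⟩
    · intro q hq x
      have h1 : ∀ (S : Finset ι) (j : ι), Gr (coefSub (ι := ι) K0) (liftV v) {x}
          (fun i => liftV v (Sum.inl j) (i x) *
            (algebraMap K (Sq ι K) (coef S q) * nuP S)) := by
        intro S j
        exact (Gr.vec _ _ x (Sum.inl j) (Gr.const _ (mul_mem (algebraMap_mem_coefSub (hq S))
          (nuP_mem_coefSub S))) (by simp)).congr rfl fun _ => rfl
      refine (Gr.sum Finset.univ _ fun S _ => Gr.sum S _ fun j _ => h1 S j).congr rfl fun i => ?_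
      rw [dsq]
      refine Finset.sum_congr rfl fun S _ => ?_
      rw [← Finset.sum_mul, map_mul, map_sum, mul_assoc]
      rfl
    · intro x y hxy
      refine (Gr.add _ _ _ (gr_one K0 v hxy) (gr_nuMat K0 v hxy)).congr rfl fun i => ?_
      rw [nuMat, Matrix.of_apply]
    · intro x y hxy
      refine (Gr.sum (Finset.range M) _ fun m _ => gr_pow K0 v hv m hxy).congr rfl fun i => ?_
      simp only [G, Matrix.sum_apply]
      rfl
  rw [F_wave' (fun j => v (Sum.inl j)) B G hG]
  exact hdata.linComb_mem c Finset.univ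

end

/-- `F` of the plane waves `exp(aⱼ · X) ζⱼ ζⱼᵀ` is a universal polynomial in the scalar products of
the vectors `aⱼ` (`v (inl j)`) and `ζⱼ` (`v (inr j)`). -/
theorem exists_gram (c : Contraction →₀ ℝ) (ι : Type) [Fintype ι] [DecidableEq ι] :
    ∃ Φ : MvPolynomial (Sym2 (ι ⊕ ι)) ℝ, ∀ (K : Type) [CommRing K] [Algebra ℝ K]
      (v : ι ⊕ ι → Fin n → K),
        F c (fun j => wave (v (Sum.inl j)) (sqM (v (Sum.inr j)))) = aeval (gram v) Φ := by
  let P : Type := MvPolynomial ((ι ⊕ ι) × Fin n) ℝ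
  let w : ι ⊕ ι → Fin n → P := fun s i => X (s, i)
  have h1 := F_mem c (aeval (R := ℝ) (gram w)).range w (fun s t =>
    ⟨X s(s, t), by simp⟩)
  obtain ⟨Φ, hΦ⟩ := h1
  refine ⟨Φ, fun K _ _ v => ?_⟩
  let θ : P →ₐ[ℝ] K := aeval (fun p : (ι ⊕ ι) × Fin n => v p.1 p.2)
  have hw : ∀ s i, θ (w s i) = v s i := fun s i => aeval_X _ _
  have h2 := F_map (c := c) θ (fun j => wave (w (Sum.inl j)) (sqM (w (Sum.inr j))))
  have h3 : (fun j : ι => mapF θ.toRingHom (wave (w (Sum.inl j)) (sqM (w (Sum.inr j))))) =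
      fun j => wave (v (Sum.inl j)) (sqM (v (Sum.inr j))) := by
    funext j
    rw [mapF_wave]
    congr 1
    · funext i
      exact hw _ _
    · funext i i'
      rw [sqM, map_mul, hw, hw, sqM]
  rw [h3] at h2
  rw [h2, ← hΦ]
  change θ (aeval (gram w) Φ) = _
  rw [← AlgHom.comp_apply, comp_aeval]
  congr 2
  funext e
  induction e using Sym2.inductionOn with
  | hf s t =>
    simp only [gram_mk, map_sum, map_mul, hw]

end Pool.Agent.Helper44.CI
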