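import Pool.Agent.Helper44.CI.Basic

/-!
# Abstract index notation: tensors generated by given vectors and the Kronecker symbol

A tensor is a function `T : (ℕ → Fin n) → A` of an assignment of values to the index names (which
are natural numbers); `Gr A0 v I T` says that `T` is a combination, with coefficients in the subring
`A0`, of products of vectors `v s (i x)` and Kronecker symbols, the names being exactly those in
`I`.
-/

open scoped BigOperators
open Function (update)

namespace Pool.Agent.Helper44.CI

variable {n : ℕ} {A : Type*} [CommRing A] [Algebra ℝ A]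

/-- tensors generated by the vectors `v s` and the Kronecker symbol, over the ring `A0` -/
inductive Gr (A0 : Subalgebra ℝ A) {V : Type*} (v : V → Fin n → A) :
    Finset ℕ → ((ℕ → Fin n) → A) → Prop
  | zero (I : Finset ℕ) : Gr A0 v I (fun _ => 0)
  | const (c : A) (hc : c ∈ A0) : Gr A0 v ∅ (fun _ => c)
  | vec (I : Finset ℕ) (T : (ℕ → Fin n) → A) (x : ℕ) (s : V) (hT : Gr A0 v I T) (hx : x ∉ I) :
      Gr A0 v (insert x I) (fun i => v s (i x) * T i)
  | delta (I : Finset ℕ) (T : (ℕ → Fin n) → A) (x y : ℕ) (hT : Gr A0 v I T) (hx : x ∉ I)
      (hy : y ∉ I) (hxy : x ≠ y) :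
      Gr A0 v (insert x (insert y I)) (fun i => dl (i x) (i y) * T i)
  | add (I : Finset ℕ) (T T' : (ℕ → Fin n) → A) (hT : Gr A0 v I T) (hT' : Gr A0 v I T') :
      Gr A0 v I (fun i => T i + T' i)

namespace Gr

variable {A0 : Subalgebra ℝ A} {V : Type*} {v : V → Fin n → A}

lemma congr {I J : Finset ℕ} {T T' : (ℕ → Fin n) → A} (h : Gr A0 v I T) (hI : I = J)
    (hT : ∀ i, T i = T' i) : Gr A0 v J T' := by
  have : T = T' := funext hT
  subst this
  subst hI
  exact h

lemma congr_of_mem {I : Finset ℕ} {T : (ℕ → Fin n) → A} (h : Gr A0 v I T) :
    ∀ {i i' : ℕ → Fin n}, (∀ x ∈ I, i x = i' x) → T i = T i' := by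
  induction h with
  | zero I => intros; rfl
  | const c hc => intros; rfl
  | vec I T x s hT hx ih =>
    intro i i' h
    simp only
    rw [h x (Finset.mem_insert_self _ _), ih (fun y hy => h y (Finset.mem_insert_of_mem hy))]
  | delta I T x y hT hx hy hxy ih =>
    intro i i' h
    simp only
    rw [h x (by simp), h y (by simp), ih (fun z hz => h z (by simp [hz]))]
  | add I T T' hT hT' ih ih' =>
    intro i i' h
    simp only
    rw [ih h, ih' h]

lemma update_of_notMem {I : Finset ℕ} {T : (ℕ → Fin n) → A} (h : Gr A0 v I T) {x : ℕ}
    (hx : x ∉ I) (i : ℕ → Fin n) (k : Fin n) : T (update i x k) = T i := by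
  refine h.congr_of_mem fun y hy => ?_
  rw [Function.update_of_ne]
  rintro rfl
  exact hx hy

lemma smul {I : Finset ℕ} {T : (ℕ → Fin n) → A} (h : Gr A0 v I T) {c : A} (hc : c ∈ A0) :
    Gr A0 v I (fun i => c * T i) := by
  induction h with
  | zero I => exact (Gr.zero I).congr rfl fun i => by simp
  | const a ha => exact Gr.const _ (mul_mem hc ha)
  | vec I T x s hT hx ih => exact (Gr.vec I _ x s ih hx).congr rfl fun i => by ring
  | delta I T x y hT hx hy hxy ih =>
    exact (Gr.delta I _ x y ih hx hy hxy).congr rfl fun i => by ring
  | add I T T' hT hT' ih ih' => exact (Gr.add I _ _ ih ih').congr rfl fun i => by ring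

lemma const_mem {I : Finset ℕ} {T : (ℕ → Fin n) → A} (h : Gr A0 v I T) (hI : I = ∅)
    (i : ℕ → Fin n) : T i ∈ A0 := by
  induction h with
  | zero I => exact zero_mem _
  | const c hc => exact hc
  | vec I T x s hT hx ih => simp at hI
  | delta I T x y hT hx hy hxy ih => simp at hI
  | add I T T' hT hT' ih ih' => exact add_mem (ih hI) (ih' hI)

lemma neg {I : Finset ℕ} {T : (ℕ → Fin n) → A} (h : Gr A0 v I T) :
    Gr A0 v I (fun i => - T i) :=
  (h.smul (neg_mem (one_mem A0))).congr rfl fun i => by ring

lemma sub {I : Finset ℕ} {T T' : (ℕ → Fin n) → A} (h : Gr A0 v I T) (h' : Gr A0 v I T') :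
    Gr A0 v I (fun i => T i - T' i) :=
  (Gr.add I _ _ h h'.neg).congr rfl fun i => by ring

lemma rsmul {I : Finset ℕ} {T : (ℕ → Fin n) → A} (h : Gr A0 v I T) (r : ℝ) :
    Gr A0 v I (fun i => r • T i) :=
  (h.smul (Subalgebra.algebraMap_mem A0 r)).congr rfl fun i => by rw [Algebra.smul_def]

lemma sum {I : Finset ℕ} {κ : Type*} (S : Finset κ) (T : κ → (ℕ → Fin n) → A)
    (h : ∀ a ∈ S, Gr A0 v I (T a)) : Gr A0 v I (fun i => ∑ a ∈ S, T a i) := by
  classical
  induction S using Finset.induction_on with
  | empty => exact (Gr.zero I).congr rfl fun i => by simp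
  | insert a S ha ih =>
    refine (Gr.add I _ _ (h a (Finset.mem_insert_self _ _))
      (ih fun b hb => h b (Finset.mem_insert_of_mem hb))).congr rfl fun i => ?_
    rw [Finset.sum_insert ha]

lemma mul {I J : Finset ℕ} {T T' : (ℕ → Fin n) → A} (h : Gr A0 v I T) (h' : Gr A0 v J T')
    (hIJ : Disjoint I J) : Gr A0 v (I ∪ J) (fun i => T i * T' i) := by
  induction h with
  | zero I => exact (Gr.zero (I ∪ J)).congr rfl fun i => by simp
  | const c hc => exact (h'.smul hc).congr (by simp) fun i => rfl
  | vec I T x s hT hx ih =>
    rw [Finset.disjoint_insert_left] at hIJ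
    refine (Gr.vec (I ∪ J) _ x s (ih hIJ.2) ?_).congr (by rw [Finset.insert_union]) fun i => by ring
    simp [hx, hIJ.1]
  | delta I T x y hT hx hy hxy ih =>
    rw [Finset.disjoint_insert_left, Finset.disjoint_insert_left] at hIJ
    refine (Gr.delta (I ∪ J) _ x y (ih hIJ.2.2) ?_ ?_ hxy).congr
      (by rw [Finset.insert_union, Finset.insert_union]) fun i => by ring
    · simp [hx, hIJ.1]
    · simp [hy, hIJ.2.1]
  | add I T₁ T₂ hT hT' ih ih' =>
    exact (Gr.add _ _ _ (ih hIJ) (ih' hIJ)).congr rfl fun i => by ring

lemma prod {κ : Type*} (S : Finset κ) (I : κ → Finset ℕ)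
    (T : κ → (ℕ → Fin n) → A) (h : ∀ a ∈ S, Gr A0 v (I a) (T a))
    (hd : ∀ a ∈ S, ∀ b ∈ S, a ≠ b → Disjoint (I a) (I b)) :
    Gr A0 v (S.biUnion I) (fun i => ∏ a ∈ S, T a i) := by
  classical
  induction S using Finset.induction_on with
  | empty => exact (Gr.const 1 (one_mem A0)).congr (by simp) fun i => by simp
  | insert a S ha ih =>
    refine ((h a (Finset.mem_insert_self _ _)).mul
      (ih (fun b hb => h b (Finset.mem_insert_of_mem hb))
        (fun b hb b' hb' => hd b (Finset.mem_insert_of_mem hb) b' (Finset.mem_insert_of_mem hb')))
        ?_).congr (by rw [Finset.biUnion_insert]) fun i => by rw [Finset.prod_insert ha]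
    rw [Finset.disjoint_biUnion_right]
    intro b hb
    refine hd a (Finset.mem_insert_self _ _) b (Finset.mem_insert_of_mem hb) ?_
    rintro rfl
    exact ha hb

/-- renaming -/
lemma rename {I : Finset ℕ} {T : (ℕ → Fin n) → A} (h : Gr A0 v I T) {x y : ℕ} (hx : x ∈ I)
    (hy : y ∉ I) : Gr A0 v (insert y (I.erase x)) (fun i => T (update i x (i y))) := by
  induction h with
  | zero I => exact Gr.zero _
  | const c hc => simp at hx
  | vec I T z s hT hz ih =>
    rw [Finset.mem_insert, not_or] at hy
    by_cases hxz : x = z
    · subst hxz
      refine (Gr.vec I T y s hT hy.2).congr (by rw [Finset.erase_insert hz]) fun i => ?_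
      dsimp only
      rw [hT.update_of_notMem hz, Function.update_self]
    · have hxI : x ∈ I := (Finset.mem_insert.1 hx).resolve_left hxz
      refine (Gr.vec _ _ z s (ih hxI hy.2) ?_).congr ?_ fun i => ?_
      · simp [Ne.symm hy.1, hz]
      · rw [Finset.erase_insert_of_ne (Ne.symm hxz), Finset.insert_comm]
      · dsimp only
        rw [Function.update_of_ne (Ne.symm hxz)]
  | delta I T z w hT hz hw hzw ih =>
    rw [Finset.mem_insert, not_or, Finset.mem_insert, not_or] at hy
    by_cases hxz : x = z
    · subst hxz
      refine (Gr.delta I T y w hT hy.2.2 hw hy.2.1).congr ?_ fun i => ?_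
      · rw [Finset.erase_insert]
        simp [hzw, hz]
      · dsimp only
        rw [hT.update_of_notMem hz, Function.update_self, Function.update_of_ne (Ne.symm hzw)]
    · by_cases hxw : x = w
      · subst hxw
        refine (Gr.delta I T z y hT hz hy.2.2 (Ne.symm hy.1)).congr ?_ fun i => ?_
        · ext a
          simp only [Finset.mem_insert, Finset.mem_erase]
          have : a ∈ I → a ≠ x := by rintro h rfl; exact hw h
          have : a = z → a ≠ x := by rintro rfl; exact hzw
          tauto
        · dsimp only
          rw [hT.update_of_notMem hw, Function.update_self, Function.update_of_ne hzw]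
      · have hxI : x ∈ I := by
          rw [Finset.mem_insert, Finset.mem_insert] at hx
          tauto
        refine (Gr.delta _ _ z w (ih hxI hy.2.2) ?_ ?_ hzw).congr ?_ fun i => ?_
        · simp [Ne.symm hy.1, hz]
        · simp [Ne.symm hy.2.1, hw]
        · ext a
          simp only [Finset.mem_insert, Finset.mem_erase]
          have : a = z → a ≠ x := by rintro rfl; exact Ne.symm hxz
          have : a = w → a ≠ x := by rintro rfl; exact Ne.symm hxw
          tauto
        · dsimp only
          rw [Function.update_of_ne (Ne.symm hxz), Function.update_of_ne (Ne.symm hxw)]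
  | add I T T' hT hT' ih ih' => exact Gr.add _ _ _ (ih hx hy) (ih' hx hy)

/-- contraction with one of the vectors -/
lemma contrVec (hv : ∀ s t, ∑ k, v s k * v t k ∈ A0) {I : Finset ℕ} {T : (ℕ → Fin n) → A}
    (h : Gr A0 v I T) {x : ℕ} (hx : x ∈ I) (s : V) :
    Gr A0 v (I.erase x) (fun i => ∑ k, v s k * T (update i x k)) := by
  induction h with
  | zero I => exact (Gr.zero _).congr rfl fun i => by simp
  | const c hc => simp at hx
  | vec I T z t hT hz ih =>
    by_cases hxz : x = z
    · subst hxz
      refine (hT.smul (hv s t)).congr (by rw [Finset.erase_insert hz]) fun i => ?_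
      rw [Finset.sum_mul]
      refine Finset.sum_congr rfl fun k _ => ?_
      dsimp only
      rw [hT.update_of_notMem hz, Function.update_self, mul_assoc]
    · have hxI : x ∈ I := (Finset.mem_insert.1 hx).resolve_left hxz
      refine (Gr.vec _ _ z t (ih hxI) ?_).congr ?_ fun i => ?_
      · simp [hz]
      · rw [Finset.erase_insert_of_ne (Ne.symm hxz)]
      · rw [Finset.mul_sum]
        refine Finset.sum_congr rfl fun k _ => ?_
        dsimp only
        rw [Function.update_of_ne (Ne.symm hxz)]
        ring
  | delta I T z w hT hz hw hzw ih =>
    by_cases hxz : x = z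
    · subst hxz
      refine (Gr.vec I T w s hT hw).congr ?_ fun i => ?_
      · rw [Finset.erase_insert]
        simp [hzw, hz]
      · dsimp only
        rw [Finset.sum_eq_single (i w)]
        · rw [hT.update_of_notMem hz, Function.update_self, Function.update_of_ne (Ne.symm hzw)]
          simp [dl]
        · intro k _ hk
          rw [Function.update_self, Function.update_of_ne (Ne.symm hzw)]
          simp [dl, hk]
        · simp
    · by_cases hxw : x = w
      · subst hxw
        refine (Gr.vec I T z s hT hz).congr ?_ fun i => ?_
        · ext a
          simp only [Finset.mem_insert, Finset.mem_erase]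
          have : a ∈ I → a ≠ x := by rintro h rfl; exact hw h
          have : a = z → a ≠ x := by rintro rfl; exact hzw
          tauto
        · dsimp only
          rw [Finset.sum_eq_single (i z)]
          · rw [hT.update_of_notMem hw, Function.update_self, Function.update_of_ne hzw]
            simp [dl]
          · intro k _ hk
            rw [Function.update_self, Function.update_of_ne hzw]
            simp [dl, Ne.symm hk]
          · simp
      · have hxI : x ∈ I := by
          rw [Finset.mem_insert, Finset.mem_insert] at hx
          tauto
        refine (Gr.delta _ _ z w (ih hxI) ?_ ?_ hzw).congr ?_ fun i => ?_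
        · simp [hz]
        · simp [hw]
        · ext a
          simp only [Finset.mem_insert, Finset.mem_erase]
          have : a = z → a ≠ x := by rintro rfl; exact Ne.symm hxz
          have : a = w → a ≠ x := by rintro rfl; exact Ne.symm hxw
          tauto
        · rw [Finset.mul_sum]
          refine Finset.sum_congr rfl fun k _ => ?_
          dsimp only
          rw [Function.update_of_ne (Ne.symm hxz), Function.update_of_ne (Ne.symm hxw)]
          ring
  | add I T T' hT hT' ih ih' =>
    refine (Gr.add _ _ _ (ih hx) (ih' hx)).congr rfl fun i => ?_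
    rw [← Finset.sum_add_distrib]
    exact Finset.sum_congr rfl fun k _ => by ring

/-- contraction of two names -/
lemma contr (hv : ∀ s t, ∑ k, v s k * v t k ∈ A0) {I : Finset ℕ} {T : (ℕ → Fin n) → A}
    (h : Gr A0 v I T) : ∀ {x y : ℕ}, x ∈ I → y ∈ I → x ≠ y →
    Gr A0 v ((I.erase x).erase y) (fun i => ∑ k, T (update (update i x k) y k)) := by
  induction h with
  | zero I => intro x y _ _ _; exact (Gr.zero _).congr rfl fun i => by simp
  | const c hc => intro x y hx; simp at hx
  | vec I T z t hT hz ih =>
    intro x y hx hy hxy
    by_cases hxz : x = z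
    · subst hxz
      have hyI : y ∈ I := (Finset.mem_insert.1 hy).resolve_left (Ne.symm hxy)
      refine (hT.contrVec hv hyI t).congr (by rw [Finset.erase_insert hz]) fun i => ?_
      refine Finset.sum_congr rfl fun k _ => ?_
      dsimp only
      rw [Function.update_of_ne hxy, Function.update_self, Function.update_comm hxy,
        hT.update_of_notMem hz]
    · have hxI : x ∈ I := (Finset.mem_insert.1 hx).resolve_left hxz
      by_cases hyz : y = z
      · subst hyz
        refine (hT.contrVec hv hxI t).congr ?_ fun i => ?_
        · rw [Finset.erase_right_comm, Finset.erase_insert hz]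
        · refine Finset.sum_congr rfl fun k _ => ?_
          dsimp only
          rw [Function.update_self, hT.update_of_notMem hz]
      · have hyI : y ∈ I := (Finset.mem_insert.1 hy).resolve_left hyz
        refine (Gr.vec _ _ z t (ih hxI hyI hxy) ?_).congr ?_ fun i => ?_
        · simp [hz]
        · rw [Finset.erase_insert_of_ne (Ne.symm hxz), Finset.erase_insert_of_ne (Ne.symm hyz)]
        · rw [Finset.mul_sum]
          refine Finset.sum_congr rfl fun k _ => ?_
          dsimp only
          rw [Function.update_of_ne (Ne.symm hyz), Function.update_of_ne (Ne.symm hxz)]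
  | delta I T z w hT hz hw hzw ih =>
    -- the case where the first name is `z` or `w` and the second one is not
    have key : ∀ (I : Finset ℕ) (T : (ℕ → Fin n) → A) (z w x : ℕ), Gr A0 v I T → z ∉ I → w ∉ I →
        z ≠ w → x ∈ I → Gr A0 v (insert w (I.erase x))
          (fun i => ∑ k, dl k (i w) * T (update i x k)) := by
      intro I T z w x hT hz hw hzw hx
      refine (hT.rename hx hw).congr rfl fun i => ?_
      rw [Finset.sum_eq_single (i w)]
      · simp [dl]
      · intro k _ hk
        simp [dl, hk]
      · simp
    have hdl : ∀ k l : Fin n, (dl k l : A) = dl l k := by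
      intro k l
      simp only [dl, eq_comm]
    intro x y hx hy hxy
    rw [Finset.mem_insert, Finset.mem_insert] at hx hy
    by_cases hxz : x = z
    · subst hxz
      by_cases hyw : y = w
      · subst hyw
        refine (hT.smul (natCast_mem A0 n)).congr ?_ fun i => ?_
        · ext a
          simp only [Finset.mem_insert, Finset.mem_erase]
          have : a ∈ I → a ≠ x := by rintro h rfl; exact hz h
          have : a ∈ I → a ≠ y := by rintro h rfl; exact hw h
          tauto
        · dsimp only
          have : ∀ k : Fin n, dl (update (update i x k) y k x) (update (update i x k) y k y) *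
              T (update (update i x k) y k) = T i := by
            intro k
            rw [hT.update_of_notMem hw, hT.update_of_notMem hz, Function.update_of_ne hxy,
              Function.update_self, Function.update_self]
            simp [dl]
          rw [Finset.sum_congr rfl fun k _ => this k]
          simp
      · have hyI : y ∈ I := by
          rcases hy with h | h | h
          · exact absurd h (Ne.symm hxy)
          · exact absurd h hyw
          · exact h
        refine (key I T x w y hT hz hw hzw hyI).congr ?_ fun i => ?_
        · ext a
          simp only [Finset.mem_insert, Finset.mem_erase]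
          have : a ∈ I → a ≠ x := by rintro h rfl; exact hz h
          have : a = w → a ≠ x := by rintro rfl; exact Ne.symm hzw
          have : a = w → a ≠ y := by rintro rfl; exact Ne.symm hyw
          tauto
        · refine Finset.sum_congr rfl fun k _ => ?_
          dsimp only
          rw [Function.update_of_ne hxy, Function.update_self, Function.update_of_ne (Ne.symm hyw),
            Function.update_of_ne (Ne.symm hzw), Function.update_comm hxy,
            hT.update_of_notMem hz]
    · by_cases hxw : x = w
      · subst hxw
        by_cases hyz : y = z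
        · subst hyz
          refine (hT.smul (natCast_mem A0 n)).congr ?_ fun i => ?_
          · ext a
            simp only [Finset.mem_insert, Finset.mem_erase]
            have : a ∈ I → a ≠ y := by rintro h rfl; exact hz h
            have : a ∈ I → a ≠ x := by rintro h rfl; exact hw h
            tauto
          · dsimp only
            have : ∀ k : Fin n, dl (update (update i x k) y k y) (update (update i x k) y k x) *
                T (update (update i x k) y k) = T i := by
              intro k
              rw [hT.update_of_notMem hz, hT.update_of_notMem hw, Function.update_of_ne hxy,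
                Function.update_self, Function.update_self]
              simp [dl]
            rw [Finset.sum_congr rfl fun k _ => this k]
            simp
        · have hyI : y ∈ I := by
            rcases hy with h | h | h
            · exact absurd h hyz
            · exact absurd h (Ne.symm hxy)
            · exact h
          refine (key I T x z y hT hw hz (Ne.symm hzw) hyI).congr ?_ fun i => ?_
          · ext a
            simp only [Finset.mem_insert, Finset.mem_erase]
            have : a ∈ I → a ≠ x := by rintro h rfl; exact hw h
            have : a = z → a ≠ x := by rintro rfl; exact hzw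
            have : a = z → a ≠ y := by rintro rfl; exact Ne.symm hyz
            tauto
          · refine Finset.sum_congr rfl fun k _ => ?_
            dsimp only
            rw [Function.update_of_ne (Ne.symm hyz), Function.update_of_ne hzw,
              Function.update_of_ne hxy, Function.update_self, Function.update_comm hxy,
              hT.update_of_notMem hw, hdl]
      · have hxI : x ∈ I := by tauto
        by_cases hyz : y = z
        · subst hyz
          refine (key I T y w x hT hz hw hzw hxI).congr ?_ fun i => ?_
          · ext a
            simp only [Finset.mem_insert, Finset.mem_erase]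
            have : a ∈ I → a ≠ y := by rintro h rfl; exact hz h
            have : a = w → a ≠ x := by rintro rfl; exact Ne.symm hxw
            have : a = w → a ≠ y := by rintro rfl; exact Ne.symm hzw
            tauto
          · refine Finset.sum_congr rfl fun k _ => ?_
            dsimp only
            rw [Function.update_self, Function.update_of_ne (Ne.symm hzw),
              Function.update_of_ne (Ne.symm hxw), hT.update_of_notMem hz]
        · by_cases hyw : y = w
          · subst hyw
            refine (key I T y z x hT hw hz (Ne.symm hzw) hxI).congr ?_ fun i => ?_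
            · ext a
              simp only [Finset.mem_insert, Finset.mem_erase]
              have : a ∈ I → a ≠ y := by rintro h rfl; exact hw h
              have : a = z → a ≠ x := by rintro rfl; exact Ne.symm hxz
              have : a = z → a ≠ y := by rintro rfl; exact hzw
              tauto
            · refine Finset.sum_congr rfl fun k _ => ?_
              dsimp only
              rw [Function.update_self, Function.update_of_ne hzw,
                Function.update_of_ne (Ne.symm hxz), hT.update_of_notMem hw, hdl]
          · have hyI : y ∈ I := by tauto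
            refine (Gr.delta _ _ z w (ih hxI hyI hxy) ?_ ?_ hzw).congr ?_ fun i => ?_
            · simp [hz]
            · simp [hw]
            · ext a
              simp only [Finset.mem_insert, Finset.mem_erase]
              have : a = z → a ≠ x := by rintro rfl; exact Ne.symm hxz
              have : a = w → a ≠ x := by rintro rfl; exact Ne.symm hxw
              have : a = z → a ≠ y := by rintro rfl; exact Ne.symm hyz
              have : a = w → a ≠ y := by rintro rfl; exact Ne.symm hyw
              tauto
            · rw [Finset.mul_sum]
              refine Finset.sum_congr rfl fun k _ => ?_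
              dsimp only
              rw [Function.update_of_ne (Ne.symm hyz), Function.update_of_ne (Ne.symm hxz),
                Function.update_of_ne (Ne.symm hyw), Function.update_of_ne (Ne.symm hxw)]
  | add I T T' hT hT' ih ih' =>
    intro x y hx hy hxy
    refine (Gr.add _ _ _ (ih hx hy hxy) (ih' hx hy hxy)).congr rfl fun i => ?_
    rw [← Finset.sum_add_distrib]

lemma contr' (hv : ∀ s t, ∑ k, v s k * v t k ∈ A0) {I J : Finset ℕ} {T T' : (ℕ → Fin n) → A}
    (h : Gr A0 v I T) (x y : ℕ) (hx : x ∈ I) (hy : y ∈ I) (hxy : x ≠ y)
    (hJ : (I.erase x).erase y = J) (hT' : ∀ i, ∑ k, T (update (update i x k) y k) = T' i) :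
    Gr A0 v J T' :=
  (h.contr hv hx hy hxy).congr hJ hT'

/-- derivative -/
lemma deriv {d : Fin n → A → A} (hd : IsDer d) (hdv : ∀ s i j, d i (v s j) = 0)
    (hd0 : ∀ c ∈ A0, ∀ x, Gr A0 v {x} (fun i => d (i x) c)) {I : Finset ℕ}
    {T : (ℕ → Fin n) → A} (h : Gr A0 v I T) {x : ℕ} (hx : x ∉ I) :
    Gr A0 v (insert x I) (fun i => d (i x) (T i)) := by
  have hdz : ∀ i, d i 0 = 0 := by
    intro i
    have := hd.smul i 0 0
    simpa using this
  have hd1 : ∀ i, d i 1 = 0 := by
    intro i
    have := hd.mul i 1 1
    simpa using this
  induction h with
  | zero I => exact (Gr.zero _).congr rfl fun i => by rw [hdz]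
  | const c hc => exact (hd0 c hc x).congr (by simp) fun i => rfl
  | vec I T z s hT hz ih =>
    rw [Finset.mem_insert, not_or] at hx
    refine (Gr.vec _ _ z s (ih hx.2) ?_).congr (by rw [Finset.insert_comm]) fun i => ?_
    · simp [Ne.symm hx.1, hz]
    · rw [hd.mul, hdv, zero_mul, zero_add]
  | delta I T z w hT hz hw hzw ih =>
    rw [Finset.mem_insert, not_or, Finset.mem_insert, not_or] at hx
    refine (Gr.delta _ _ z w (ih hx.2.2) ?_ ?_ hzw).congr ?_ fun i => ?_
    · simp [Ne.symm hx.1, hz]
    · simp [Ne.symm hx.2.1, hw]
    · rw [Finset.insert_comm x z, Finset.insert_comm x w]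
    · have : d (i x) (dl (i z) (i w)) = 0 := by
        rw [dl]
        split_ifs
        · exact hd1 _
        · exact hdz _
      rw [hd.mul, this, zero_mul, zero_add]
  | add I T T' hT hT' ih ih' =>
    exact (Gr.add _ _ _ (ih hx) (ih' hx)).congr rfl fun i => by rw [hd.add]

end Gr

end Pool.Agent.Helper44.CI
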