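import Pool.Agent.Helper44.CI.GramAux

/-!
# The curvature tensors in abstract index notation
-/

open scoped BigOperators
open Function (update)

namespace Pool.Agent.Helper44.CI

variable {n : ℕ} {A : Type*} [CommRing A] [Algebra ℝ A]

/-- the hypotheses on the vectors, the derivations and the metric -/
structure GrData (A0 : Subalgebra ℝ A) {V : Type*} (v : V → Fin n → A) (d : Fin n → A → A)
    (g G : Fin n → Fin n → A) : Prop where
  hv : ∀ s t, ∑ k, v s k * v t k ∈ A0
  hd : IsDer d
  hdv : ∀ s i j, d i (v s j) = 0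
  hd0 : ∀ c ∈ A0, ∀ x, Gr A0 v {x} (fun i => d (i x) c)
  hg : ∀ x y, x ≠ y → Gr A0 v {x, y} (fun i => g (i x) (i y))
  hG : ∀ x y, x ≠ y → Gr A0 v {x, y} (fun i => G (i x) (i y))

variable {A0 : Subalgebra ℝ A} {V : Type*} {v : V → Fin n → A} {d : Fin n → A → A}
  {g G : Fin n → Fin n → A}

namespace GrData

lemma deriv (h : GrData A0 v d g G) {I : Finset ℕ} {T : (ℕ → Fin n) → A} (hT : Gr A0 v I T)
    (x : ℕ) (hx : x ∉ I) {J : Finset ℕ} (hJ : insert x I = J) :
    Gr A0 v J (fun i => d (i x) (T i)) :=
  (hT.deriv h.hd h.hdv h.hd0 hx).congr hJ fun _ => rfl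

lemma christoffel (h : GrData A0 v d g G) {x y z : ℕ} (hxy : x ≠ y) (hxz : x ≠ z) (hyz : y ≠ z) :
    Gr A0 v {x, y, z} (fun i => CI.christoffel d g G (i x) (i y) (i z)) := by
  obtain ⟨p, hp⟩ : ∃ p, p = x + y + z + 1 := ⟨_, rfl⟩
  obtain ⟨q, hq⟩ : ∃ q, q = x + y + z + 2 := ⟨_, rfl⟩
  have h1 : Gr A0 v {x, p} (fun i => G (i x) (i p)) := h.hG x p (by omega)
  have h2 : Gr A0 v {y, z, q} (fun i => d (i y) (g (i z) (i q))) :=
    h.deriv (h.hg z q (by omega)) y (by simp; omega) rfl
  have h3 : Gr A0 v {y, z, q} (fun i => d (i z) (g (i y) (i q))) :=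
    h.deriv (h.hg y q (by omega)) z (by simp; omega) (by ext; simp; omega)
  have h4 : Gr A0 v {y, z, q} (fun i => d (i q) (g (i y) (i z))) :=
    h.deriv (h.hg y z (by omega)) q (by simp; omega) (by ext; simp; omega)
  have h5 := h1.mul ((Gr.add _ _ _ h2 h3).sub h4) (by
    rw [Finset.disjoint_left]; intro a; simp; omega)
  refine (h5.contr' h.hv p q (by simp) (by simp) (by omega) ?_ fun i => ?_).rsmul (1 / 2)
  · ext a; simp; omega
  · refine Finset.sum_congr rfl fun k _ => ?_
    simp (disch := omega) only [Function.update_of_ne, Function.update_self]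

lemma ricci (h : GrData A0 v d g G) {x y : ℕ} (hxy : x ≠ y) :
    Gr A0 v {x, y} (fun i => CI.ricci d g G (i x) (i y)) := by
  obtain ⟨p, hp⟩ : ∃ p, p = x + y + 1 := ⟨_, rfl⟩
  obtain ⟨q, hq⟩ : ∃ q, q = x + y + 2 := ⟨_, rfl⟩
  obtain ⟨r, hr⟩ : ∃ r, r = x + y + 3 := ⟨_, rfl⟩
  obtain ⟨s, hs⟩ : ∃ s, s = x + y + 4 := ⟨_, rfl⟩
  have h1 : Gr A0 v {x, y} (fun i => ∑ k, d k (CI.christoffel d g G k (i x) (i y))) := by
    have h1 : Gr A0 v {p, q, x, y} (fun i => d (i p) (CI.christoffel d g G (i q) (i x) (i y))) :=
      h.deriv (h.christoffel (by omega) (by omega) hxy) p (by simp; omega) rfl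
    refine h1.contr' h.hv p q (by simp) (by simp) (by omega) ?_ fun i => ?_
    · ext a; simp; omega
    · refine Finset.sum_congr rfl fun k _ => ?_
      simp (disch := omega) only [Function.update_of_ne, Function.update_self]
  have h2 : Gr A0 v {x, y} (fun i => ∑ k, d (i y) (CI.christoffel d g G k (i x) k)) := by
    have h1 : Gr A0 v {y, p, x, q} (fun i => d (i y) (CI.christoffel d g G (i p) (i x) (i q))) :=
      h.deriv (h.christoffel (by omega) (by omega) (by omega)) y (by simp; omega) rfl
    refine h1.contr' h.hv p q (by simp) (by simp) (by omega) ?_ fun i => ?_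
    · ext a; simp; omega
    · refine Finset.sum_congr rfl fun k _ => ?_
      simp (disch := omega) only [Function.update_of_ne, Function.update_self]
  have h3 : Gr A0 v {x, y} (fun i => ∑ k, ∑ l, CI.christoffel d g G k k l *
      CI.christoffel d g G l (i x) (i y)) := by
    have h1 : Gr A0 v ({p, q, r} ∪ {s, x, y}) (fun i => CI.christoffel d g G (i p) (i q) (i r) *
        CI.christoffel d g G (i s) (i x) (i y)) :=
      (h.christoffel (by omega) (by omega) (by omega)).mul
        (h.christoffel (by omega) (by omega) (by omega)) (by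
          rw [Finset.disjoint_left]; intro a; simp; omega)
    have h2 := h1.contr h.hv (x := r) (y := s) (by simp) (by simp) (by omega)
    refine h2.contr' h.hv p q (by simp; omega) (by simp; omega) (by omega) ?_ fun i => ?_
    · ext a; simp; omega
    · refine Finset.sum_congr rfl fun k _ => Finset.sum_congr rfl fun l _ => ?_
      simp (disch := omega) only [Function.update_of_ne, Function.update_self]
  have h4 : Gr A0 v {x, y} (fun i => ∑ k, ∑ l, CI.christoffel d g G k (i y) l *
      CI.christoffel d g G l (i x) k) := by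
    have h1 : Gr A0 v ({p, y, r} ∪ {s, x, q}) (fun i => CI.christoffel d g G (i p) (i y) (i r) *
        CI.christoffel d g G (i s) (i x) (i q)) :=
      (h.christoffel (by omega) (by omega) (by omega)).mul
        (h.christoffel (by omega) (by omega) (by omega)) (by
          rw [Finset.disjoint_left]; intro a; simp; omega)
    have h2 := h1.contr h.hv (x := r) (y := s) (by simp) (by simp) (by omega)
    refine h2.contr' h.hv p q (by simp; omega) (by simp; omega) (by omega) ?_ fun i => ?_
    · ext a; simp; omega
    · refine Finset.sum_congr rfl fun k _ => Finset.sum_congr rfl fun l _ => ?_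
      simp (disch := omega) only [Function.update_of_ne, Function.update_self]
  refine (Gr.add _ _ _ (h1.sub h2) (h3.sub h4)).congr rfl fun i => ?_
  simp only [CI.ricci, Finset.sum_sub_distrib]

lemma scalarCurv (h : GrData A0 v d g G) :
    Gr A0 v ∅ (fun _ : ℕ → Fin n => CI.scalarCurv d g G) := by
  have h1 : Gr A0 v ({0, 1} ∪ {2, 3}) (fun i => G (i 0) (i 1) * CI.ricci d g G (i 2) (i 3)) :=
    (h.hG 0 1 (by omega)).mul (h.ricci (by omega)) (by
      rw [Finset.disjoint_left]; intro a; simp; omega)
  have h2 := h1.contr h.hv (x := 1) (y := 3) (by simp) (by simp) (by omega)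
  refine h2.contr' h.hv 0 2 (by simp) (by simp) (by omega) ?_ fun i => ?_
  · ext a; simp; omega
  · refine Finset.sum_congr rfl fun k _ => Finset.sum_congr rfl fun l _ => ?_
    simp (disch := omega) only [Function.update_of_ne, Function.update_self]

lemma schouten (h : GrData A0 v d g G) {x y : ℕ} (hxy : x ≠ y) :
    Gr A0 v {x, y} (fun i => CI.schouten d g G (i x) (i y)) := by
  have h1 : Gr A0 v {x, y} (fun i => CI.scalarCurv d g G * g (i x) (i y)) :=
    (h.scalarCurv.mul (h.hg x y hxy) (Finset.disjoint_empty_left _)).congr (by simp) fun _ => rfl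
  exact ((h.ricci hxy).sub (h1.rsmul _)).rsmul _

end GrData

/-- covariant tensors which are `Gr`, for all injective choices of the names -/
def GrT (A0 : Subalgebra ℝ A) {V : Type*} (v : V → Fin n → A) {κ : Type*} [Fintype κ]
    (T : (κ → Fin n) → A) : Prop :=
  ∀ σ : κ → ℕ, Function.Injective σ →
    Gr A0 v (Finset.univ.image σ) (fun i => T (fun s => i (σ s)))

namespace GrData

lemma covDeriv (h : GrData A0 v d g G) {r : ℕ} {T : (Fin r → Fin n) → A} (hT : GrT A0 v T) :
    GrT A0 v (CI.covDeriv d g G T) := by
  intro σ hσ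
  obtain ⟨M, hM⟩ : ∃ M, ∀ s, σ s < M := by
    refine ⟨(∑ s, σ s) + 1, fun s => Nat.lt_succ_of_le ?_⟩
    exact Finset.single_le_sum (f := σ) (fun _ _ => Nat.zero_le _) (Finset.mem_univ s)
  have hσ' : Function.Injective (fun s : Fin r => σ s.succ) :=
    fun s t hst => Fin.succ_injective _ (hσ hst)
  have h0 : σ 0 ∉ Finset.univ.image (fun s : Fin r => σ s.succ) := by
    intro h
    obtain ⟨s, -, hs⟩ := Finset.mem_image.1 h
    exact Fin.succ_ne_zero s (hσ hs)
  have himg : Finset.univ.image σ = insert (σ 0) (Finset.univ.image (fun s : Fin r => σ s.succ)) := by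
    ext a
    simp only [Finset.mem_image, Finset.mem_univ, true_and, Finset.mem_insert, Fin.exists_fin_succ]
    tauto
  have h1 : Gr A0 v (Finset.univ.image σ) (fun i => d (i (σ 0)) (T (fun s => i (σ s.succ)))) :=
    h.deriv (hT _ hσ') (σ 0) h0 himg.symm
  have h2 : ∀ s : Fin r, Gr A0 v (Finset.univ.image σ) (fun i => ∑ k,
      CI.christoffel d g G k (i (σ 0)) (i (σ s.succ)) *
        T (Function.update (Fin.tail fun t => i (σ t)) s k)) := by
    intro s
    let τ : Fin r → ℕ := fun t => if t = s then M + 1 else σ t.succ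
    have hτ : Function.Injective τ := by
      intro t u htu
      have ht := hM t.succ
      have hu := hM u.succ
      simp only [τ] at htu
      split_ifs at htu with h1 h2 h2
      · rw [h1, h2]
      · omega
      · omega
      · exact hσ' htu
    have hmem : ∀ a, a ∈ Finset.univ.image τ ↔ a = M + 1 ∨ ∃ t, t ≠ s ∧ σ t.succ = a := by
      intro a
      simp only [Finset.mem_image, Finset.mem_univ, true_and, τ]
      constructor
      · rintro ⟨t, ht⟩
        split_ifs at ht with h
        · exact Or.inl ht.symm
        · exact Or.inr ⟨t, h, ht⟩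
      · rintro (rfl | ⟨t, h, ht⟩)
        · exact ⟨s, if_pos rfl⟩
        · exact ⟨t, by rw [if_neg h, ht]⟩
    have hs := hM s.succ
    have h0' := hM 0
    have hs0 : σ 0 ≠ σ s.succ := fun h => Fin.succ_ne_zero s (hσ h).symm
    have h1 := (h.christoffel (x := M) (y := σ 0) (z := σ s.succ) (by omega) (by omega) hs0).mul
      (hT τ hτ) (by
        rw [Finset.disjoint_left]
        intro a ha ha'
        rw [hmem] at ha'
        simp only [Finset.mem_insert, Finset.mem_singleton] at ha
        rcases ha' with rfl | ⟨t, ht, rfl⟩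
        · omega
        · have := hM t.succ
          rcases ha with ha | ha | ha
          · omega
          · exact Fin.succ_ne_zero t (hσ ha)
          · exact ht (hσ' ha))
    refine h1.contr' h.hv M (M + 1) (by simp) ?_ (by omega) ?_ fun i => ?_
    · rw [Finset.mem_union, hmem]
      tauto
    · ext a
      simp only [Finset.mem_erase, Finset.mem_union, Finset.mem_insert, Finset.mem_singleton]
      rw [hmem]
      simp only [Finset.mem_image, Finset.mem_univ, true_and, Fin.exists_fin_succ]
      constructor
      · rintro ⟨h1, h2, (h3 | h3 | h3) | h3 | ⟨t, ht, h3⟩⟩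
        · exact absurd h3 h2
        · exact Or.inl h3.symm
        · exact Or.inr ⟨s, h3.symm⟩
        · exact absurd h3 h1
        · exact Or.inr ⟨t, h3⟩
      · rintro (rfl | ⟨t, rfl⟩)
        · exact ⟨by omega, by omega, Or.inl (Or.inr (Or.inl rfl))⟩
        · have := hM t.succ
          refine ⟨by omega, by omega, ?_⟩
          by_cases hts : t = s
          · subst hts
            exact Or.inl (Or.inr (Or.inr rfl))
          · exact Or.inr (Or.inr ⟨t, hts, rfl⟩)
    · refine Finset.sum_congr rfl fun k _ => ?_
      simp (disch := omega) only [Function.update_of_ne, Function.update_self]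
      congr 2
      funext t
      by_cases hts : t = s
      · subst hts
        simp only [τ, if_true, Function.update_self]
      · have := hM t.succ
        simp only [τ, if_neg hts, Function.update_of_ne hts]
        simp (disch := omega) only [Function.update_of_ne]
        rfl
  refine (h1.sub (Gr.sum Finset.univ _ fun s _ => h2 s)).congr rfl fun i => ?_
  rfl

lemma covDerivP (h : GrData A0 v d g G) (l : ℕ) : GrT A0 v (CI.covDerivP d g G l) := by
  induction l with
  | zero =>
    intro σ hσ
    refine (h.schouten (x := σ 0) (y := σ 1) ?_).congr ?_ fun i => rfl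
    · intro h
      exact absurd (hσ h) (by decide)
    · ext a
      simp only [Finset.mem_image, Finset.mem_univ, true_and, Finset.mem_insert,
        Finset.mem_singleton]
      constructor
      · rintro (rfl | rfl)
        · exact ⟨0, rfl⟩
        · exact ⟨1, rfl⟩
      · rintro ⟨s, rfl⟩
        fin_cases s
        · exact Or.inl rfl
        · exact Or.inr rfl
  | succ l ih => exact h.covDeriv ih

end GrData

end Pool.Agent.Helper44.CI
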