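import Pool.Agent.Helper44.CI.Bianchi

/-!
# Functoriality and naturality under changes of coordinates
-/

open scoped BigOperators

namespace Pool.Agent.Helper44.CI

variable {n : ℕ} {A B : Type*} [CommRing A] [Algebra ℝ A] [CommRing B] [Algebra ℝ B]

theorem christoffel_map {dA : Fin n → A → A} {dB : Fin n → B → B} (φ : A →ₐ[ℝ] B)
    (h : ∀ i a, φ (dA i a) = dB i (φ a)) (g G : Fin n → Fin n → A) (k i j : Fin n) :
    φ (christoffel dA g G k i j) =
      christoffel dB (fun i j => φ (g i j)) (fun i j => φ (G i j)) k i j := by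
  unfold christoffel
  simp only [map_smul, map_sum, map_mul, map_sub, map_add, h]

theorem ricci_map {dA : Fin n → A → A} {dB : Fin n → B → B} (φ : A →ₐ[ℝ] B)
    (h : ∀ i a, φ (dA i a) = dB i (φ a)) (g G : Fin n → Fin n → A) (i j : Fin n) :
    φ (ricci dA g G i j) = ricci dB (fun i j => φ (g i j)) (fun i j => φ (G i j)) i j := by
  unfold ricci
  simp only [map_sum, map_mul, map_sub, map_add, h, christoffel_map φ h]

theorem linComb_map {dA : Fin n → A → A} {dB : Fin n → B → B} (φ : A →ₐ[ℝ] B)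
    (h : ∀ i a, φ (dA i a) = dB i (φ a)) (c : Contraction →₀ ℝ) (g G : Fin n → Fin n → A) :
    φ (linComb c dA g G) = linComb c dB (fun i j => φ (g i j)) (fun i j => φ (G i j)) := by
  have hs : φ (scalarCurv dA g G) = scalarCurv dB (fun i j => φ (g i j)) (fun i j => φ (G i j)) := by
    unfold scalarCurv
    simp only [map_sum, map_mul, ricci_map φ h]
  have hP : ∀ (l : ℕ) (i : Fin (l + 2) → Fin n), φ (covDerivP dA g G l i) =
      covDerivP dB (fun i j => φ (g i j)) (fun i j => φ (G i j)) l i := by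
    intro l
    induction l with
    | zero =>
      intro i
      simp only [covDerivP, schouten, map_smul, map_sub, map_mul, ricci_map φ h, hs]
    | succ l ih =>
      intro i
      simp only [covDerivP, covDeriv, map_sub, map_sum, map_mul, h, ih, christoffel_map φ h]
  unfold linComb Finsupp.sum Contraction.eval
  simp only [map_sum, map_smul, map_mul, map_prod, hP]

namespace NatAux

open Bia
open scoped Matrix

/-- uniqueness of the Levi-Civita connection -/
lemma christoffel_unique {d : Fin n → B → B} {g G : Fin n → Fin n → B} (hg : SymM g)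
    (hG : IsInv g G) (X : Fin n → Matrix (Fin n) (Fin n) B)
    (hX : ∀ i j k, X i k j = X j k i)
    (hc : ∀ i, dM d i (Matrix.of g) = (X i)ᵀ * Matrix.of g + Matrix.of g * X i) (i : Fin n) :
    Gam d g G i = X i := by
  -- lowered symbols
  have h0 : ∀ i l j, (Matrix.of g * X i) l j = (Matrix.of g * X j) l i := by
    intro i l j
    simp only [Matrix.mul_apply]
    exact Finset.sum_congr rfl fun k _ => by rw [hX]
  have h1 : ∀ i j l, d i (g j l) = (Matrix.of g * X i) l j + (Matrix.of g * X i) j l := by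
    intro i j l
    have := congrFun (congrFun (hc i) j) l
    rw [Matrix.add_apply] at this
    rw [show d i (g j l) = dM d i (Matrix.of g) j l from rfl, this]
    congr 1
    have h2 : (X i)ᵀ * Matrix.of g = (Matrix.of g * X i)ᵀ := by
      rw [Matrix.transpose_mul, g_T hg]
    rw [h2]
    rfl
  have h2 : ∀ i j l, d i (g j l) + d j (g i l) - d l (g i j) =
      (2 : ℝ) • (Matrix.of g * X i) l j := by
    intro i j l
    rw [h1, h1, h1, h0 j l i, h0 j i l, h0 l j i, h0 l i j, two_smul]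
    ring
  have h3 : Gam d g G i = Matrix.of G * (Matrix.of g * X i) := by
    ext k j
    rw [Matrix.mul_apply]
    simp only [Gam, Matrix.of_apply, christoffel]
    simp only [h2, mul_smul_comm, ← Finset.smul_sum, smul_smul]
    norm_num
  rw [h3, ← Matrix.mul_assoc, mul_Gg hG, Matrix.one_mul]

section

variable {dA : Fin n → A → A} {dB : Fin n → B → B} (hA : IsDer dA) (hB : IsDer dB)
    (φ : A →ₐ[ℝ] B) (Jm Ji : Fin n → Fin n → B) (hJ : IsInv Jm Ji)
    (chain : ∀ i a, dB i (φ a) = ∑ k, Jm k i * φ (dA k a))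
    (integ : ∀ i j k, dB i (Jm k j) = dB j (Jm k i))
    (g G : Fin n → Fin n → A) (hg : SymM g) (hG : IsInv g G)

/-- the image of a matrix -/
def mP (X : Matrix (Fin n) (Fin n) A) : Matrix (Fin n) (Fin n) B := X.map φ

/-- the pulled back connection matrices -/
noncomputable def Th (i : Fin n) : Matrix (Fin n) (Fin n) B :=
  ∑ a, Jm a i • mP φ (Gam dA g G a)

/-- the transformed metric -/
noncomputable def gt (i j : Fin n) : B := ∑ k, ∑ l, Jm k i * Jm l j * φ (g k l)

/-- the transformed inverse metric -/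
noncomputable def Gt (i j : Fin n) : B := ∑ k, ∑ l, Ji i k * Ji j l * φ (G k l)

lemma gt_eq : Matrix.of (gt φ Jm g) = (Matrix.of Jm)ᵀ * mP φ (Matrix.of g) * Matrix.of Jm := by
  ext i j
  simp only [gt, Matrix.of_apply, Matrix.mul_apply, mP, Matrix.map_apply, Matrix.transpose_apply,
    Finset.sum_mul]
  rw [Finset.sum_comm]
  refine Finset.sum_congr rfl fun k _ => Finset.sum_congr rfl fun l _ => ?_
  ring

lemma Gt_eq : Matrix.of (Gt φ Ji G) = Matrix.of Ji * mP φ (Matrix.of G) * (Matrix.of Ji)ᵀ := by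
  ext i j
  simp only [Gt, Matrix.of_apply, Matrix.mul_apply, mP, Matrix.map_apply, Matrix.transpose_apply,
    Finset.sum_mul]
  rw [Finset.sum_comm]
  refine Finset.sum_congr rfl fun k _ => Finset.sum_congr rfl fun l _ => ?_
  ring

lemma mP_mul (X Y : Matrix (Fin n) (Fin n) A) :
    mP φ (X * Y) = mP φ X * mP φ Y := by
  ext i j
  simp [mP, Matrix.mul_apply]

lemma mP_add (X Y : Matrix (Fin n) (Fin n) A) : mP φ (X + Y) = mP φ X + mP φ Y := by
  ext i j
  simp [mP]

lemma mP_sub (X Y : Matrix (Fin n) (Fin n) A) : mP φ (X - Y) = mP φ X - mP φ Y := by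
  ext i j
  simp [mP]

lemma mP_T (X : Matrix (Fin n) (Fin n) A) : mP φ Xᵀ = (mP φ X)ᵀ := by
  ext i j
  simp [mP]

lemma mP_one : mP φ (1 : Matrix (Fin n) (Fin n) A) = 1 := by
  ext i j
  simp only [mP, Matrix.map_apply, Matrix.one_apply]
  split_ifs <;> simp

include hg in
lemma symm_gt : SymM (gt φ Jm g) := by
  have h : (Matrix.of (gt φ Jm g))ᵀ = Matrix.of (gt φ Jm g) := by
    rw [gt_eq, Matrix.transpose_mul, Matrix.transpose_mul, Matrix.transpose_transpose, ← mP_T,
      g_T hg, Matrix.mul_assoc]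
  intro i j
  exact congrFun (congrFun h j) i

include hJ hG in
lemma isInv_gt : IsInv (gt φ Jm g) (Gt φ Ji G) := by
  have h1 : Matrix.of Jm * Matrix.of Ji = 1 := mul_gG hJ
  have h2 : Matrix.of Ji * Matrix.of Jm = 1 := mul_Gg hJ
  have h3 : mP φ (Matrix.of g) * mP φ (Matrix.of G) = 1 := by
    rw [← mP_mul, mul_gG hG, mP_one]
  have h4 : Matrix.of (gt φ Jm g) * Matrix.of (Gt φ Ji G) = 1 := by
    rw [gt_eq, Gt_eq]
    calc (Matrix.of Jm)ᵀ * mP φ (Matrix.of g) * Matrix.of Jm *
          (Matrix.of Ji * mP φ (Matrix.of G) * (Matrix.of Ji)ᵀ) =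
          (Matrix.of Jm)ᵀ * mP φ (Matrix.of g) * (Matrix.of Jm * Matrix.of Ji) *
            mP φ (Matrix.of G) * (Matrix.of Ji)ᵀ := by simp only [Matrix.mul_assoc]
      _ = (Matrix.of Jm)ᵀ * (mP φ (Matrix.of g) * mP φ (Matrix.of G)) * (Matrix.of Ji)ᵀ := by
          rw [h1]; simp only [Matrix.mul_assoc, Matrix.one_mul]
      _ = (Matrix.of Ji * Matrix.of Jm)ᵀ := by
          rw [h3, Matrix.mul_one, Matrix.transpose_mul]
      _ = 1 := by rw [h2, Matrix.transpose_one]
  intro i j
  have := congrFun (congrFun h4 i) j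
  rw [Matrix.mul_apply, Matrix.one_apply] at this
  exact this

include chain in
lemma dM_mP (i : Fin n) (X : Matrix (Fin n) (Fin n) A) :
    dM dB i (mP φ X) = ∑ a, Jm a i • mP φ (dM dA a X) := by
  ext k l
  rw [Matrix.sum_apply]
  simp only [dM, mP, Matrix.map_apply, Matrix.smul_apply, smul_eq_mul]
  exact chain i _

include hB hJ chain integ hg hG in
/-- the transformation of the connection -/
lemma Gam_gt (i : Fin n) : Matrix.of Jm * Gam dB (gt φ Jm g) (Gt φ Ji G) i =
    Th (dA := dA) φ Jm g G i * Matrix.of Jm + dM dB i (Matrix.of Jm) := by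
  have h1 : Matrix.of Jm * Matrix.of Ji = 1 := mul_gG hJ
  have h2 : Matrix.of Ji * Matrix.of Jm = 1 := mul_Gg hJ
  have hT1 : (Matrix.of Ji)ᵀ * (Matrix.of Jm)ᵀ = 1 := by
    rw [← Matrix.transpose_mul, h1, Matrix.transpose_one]
  rw [christoffel_unique (symm_gt φ Jm g hg) (isInv_gt φ Jm Ji hJ g G hG)
    (fun i => Matrix.of Ji * (Th (dA := dA) φ Jm g G i * Matrix.of Jm + dM dB i (Matrix.of Jm)))]
  · rw [← Matrix.mul_assoc, h1, Matrix.one_mul]
  · -- symmetry
    intro i j k
    rw [Matrix.mul_apply, Matrix.mul_apply]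
    refine Finset.sum_congr rfl fun m _ => ?_
    congr 1
    rw [Matrix.add_apply, Matrix.add_apply]
    congr 1
    · rw [Matrix.mul_apply, Matrix.mul_apply]
      simp only [Th, Matrix.sum_apply, Matrix.smul_apply, mP, Matrix.map_apply, Gam,
        Matrix.of_apply, smul_eq_mul, Finset.sum_mul]
      rw [Finset.sum_comm]
      refine Finset.sum_congr rfl fun a _ => Finset.sum_congr rfl fun b _ => ?_
      rw [chr_symm hg]
      ring
    · exact integ i j m
  · -- compatibility
    intro i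
    rw [gt_eq, dM_mul hB, dM_mul hB, dM_transpose, dM_mP φ Jm chain]
    have h3 : ∑ a, Jm a i • mP φ (dM dA a (Matrix.of g)) =
        (Th (dA := dA) φ Jm g G i)ᵀ * mP φ (Matrix.of g) +
          mP φ (Matrix.of g) * Th (dA := dA) φ Jm g G i := by
      rw [Th, Matrix.transpose_sum, Finset.sum_mul, Finset.mul_sum, ← Finset.sum_add_distrib]
      refine Finset.sum_congr rfl fun a _ => ?_
      rw [compat hg hG, mP_add, mP_mul, mP_mul, mP_T, smul_add, Matrix.transpose_smul,
        Matrix.smul_mul, Matrix.mul_smul]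
    rw [h3]
    simp only [Matrix.transpose_mul, Matrix.transpose_add]
    have h4 : ∀ X Y : Matrix (Fin n) (Fin n) B, X * (Matrix.of Ji)ᵀ *
        ((Matrix.of Jm)ᵀ * Y) = X * Y := by
      intro X Y
      rw [Matrix.mul_assoc, ← Matrix.mul_assoc (Matrix.of Ji)ᵀ, hT1, Matrix.one_mul]
    have h5 : ∀ X Y : Matrix (Fin n) (Fin n) B, X * Matrix.of Jm * (Matrix.of Ji * Y) = X * Y := by
      intro X Y
      rw [Matrix.mul_assoc, ← Matrix.mul_assoc (Matrix.of Jm), h1, Matrix.one_mul]
    rw [h5, Matrix.mul_assoc (Matrix.of Jm)ᵀ (mP φ (Matrix.of g)) (Matrix.of Jm), h4]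
    simp only [Matrix.mul_add, Matrix.add_mul, Matrix.mul_assoc]
    abel

include hB in
/-- the commutator of covariant derivatives -/
lemma comm_cov (Y1 Y2 : Fin n → Matrix (Fin n) (Fin n) B) (i j : Fin n)
    (Z : Matrix (Fin n) (Fin n) B) (hY1 : ∀ i, Y1 i = dM dB i Z + Y2 i * Z) :
    (dM dB i (Y1 j) + Y2 i * Y1 j) - (dM dB j (Y1 i) + Y2 j * Y1 i) =
      (dM dB i (Y2 j) - dM dB j (Y2 i) + Y2 i * Y2 j - Y2 j * Y2 i) * Z := by
  rw [hY1, hY1, dM_add hB, dM_add hB, dM_mul hB, dM_mul hB, dM_comm hB i j]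
  simp only [Matrix.mul_add, Matrix.add_mul, Matrix.sub_mul, Matrix.mul_assoc]
  abel

include hB hJ chain integ hg hG in
/-- the transformation of the curvature -/
lemma Rm_gt (i j : Fin n) : Matrix.of Jm * Rm dB (gt φ Jm g) (Gt φ Ji G) i j =
    (∑ a, ∑ b, (Jm a i * Jm b j) • mP φ (Rm dA g G a b)) * Matrix.of Jm := by
  have hGam := Gam_gt hB φ Jm Ji hJ chain integ g G hg hG
  set Γ' := Gam dB (gt φ Jm g) (Gt φ Ji G) with hΓ'
  set Θ := Th (dA := dA) φ Jm g G with hΘ
  set M : Matrix (Fin n) (Fin n) B := Matrix.of Jm with hM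
  -- the curvature of the pulled back connection
  have h1 : dM dB i (Θ j) - dM dB j (Θ i) + Θ i * Θ j - Θ j * Θ i =
      ∑ a, ∑ b, (Jm a i * Jm b j) • mP φ (Rm dA g G a b) := by
    have h2 : ∀ i j, dM dB i (Θ j) = ∑ b, dB i (Jm b j) • mP φ (Gam dA g G b) +
        ∑ a, ∑ b, (Jm a i * Jm b j) • mP φ (dM dA a (Gam dA g G b)) := by
      intro i j
      have h3 : dM dB i (Θ j) = ∑ b, dM dB i (Jm b j • mP φ (Gam dA g G b)) := by
        ext x y
        rw [Matrix.sum_apply]
        simp only [hΘ, Th, dM, Matrix.map_apply]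
        rw [Matrix.sum_apply, d_sum hB]
      rw [h3, Finset.sum_comm (f := fun a b => (Jm a i * Jm b j) • mP φ (dM dA a (Gam dA g G b))),
        ← Finset.sum_add_distrib]
      refine Finset.sum_congr rfl fun b _ => ?_
      have h4 : dM dB i (Jm b j • mP φ (Gam dA g G b)) = dB i (Jm b j) • mP φ (Gam dA g G b) +
          Jm b j • dM dB i (mP φ (Gam dA g G b)) := by
        ext x y
        simp only [dM, Matrix.map_apply, Matrix.smul_apply, smul_eq_mul, Matrix.add_apply]
        exact hB.mul _ _ _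
      rw [h4, dM_mP φ Jm chain, Finset.smul_sum]
      congr 1
      refine Finset.sum_congr rfl fun a _ => ?_
      rw [smul_smul, mul_comm]
    have h5 : Θ i * Θ j = ∑ a, ∑ b, (Jm a i * Jm b j) • mP φ (Gam dA g G a * Gam dA g G b) := by
      simp only [hΘ, Th]
      rw [Finset.sum_mul_sum]
      refine Finset.sum_congr rfl fun a _ => Finset.sum_congr rfl fun b _ => ?_
      rw [mP_mul, Matrix.smul_mul, Matrix.mul_smul, smul_smul]
    have h6 : Θ j * Θ i = ∑ a, ∑ b, (Jm a i * Jm b j) • mP φ (Gam dA g G b * Gam dA g G a) := by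
      simp only [hΘ, Th]
      rw [Finset.sum_mul_sum, Finset.sum_comm]
      refine Finset.sum_congr rfl fun a _ => Finset.sum_congr rfl fun b _ => ?_
      rw [mP_mul, Matrix.smul_mul, Matrix.mul_smul, smul_smul, mul_comm (Jm b j)]
    have h7 : ∑ a, ∑ b, (Jm a j * Jm b i) • mP φ (dM dA a (Gam dA g G b)) =
        ∑ a, ∑ b, (Jm a i * Jm b j) • mP φ (dM dA b (Gam dA g G a)) := by
      rw [Finset.sum_comm]
      refine Finset.sum_congr rfl fun a _ => Finset.sum_congr rfl fun b _ => ?_
      rw [mul_comm (Jm b j)]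
    have h8 : ∀ b, dB j (Jm b i) = dB i (Jm b j) := fun b => integ j i b
    rw [h2 i j, h2 j i, h5, h6, h7]
    simp only [h8]
    have h9 : ∀ a b, (Jm a i * Jm b j) • mP φ (Rm dA g G a b) =
        (Jm a i * Jm b j) • mP φ (dM dA a (Gam dA g G b)) -
        (Jm a i * Jm b j) • mP φ (dM dA b (Gam dA g G a)) +
        (Jm a i * Jm b j) • mP φ (Gam dA g G a * Gam dA g G b) -
        (Jm a i * Jm b j) • mP φ (Gam dA g G b * Gam dA g G a) := by
      intro a b
      rw [Rm, mP_sub, mP_add, mP_sub, smul_sub, smul_add, smul_sub]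
    simp only [h9, Finset.sum_add_distrib, Finset.sum_sub_distrib]
    abel
  -- gauge transformation
  have h10 := comm_cov hB (fun i => M * Γ' i) Θ i j M (fun i => by rw [hGam]; abel)
  rw [← h1, ← h10]
  simp only [dM_mul hB]
  rw [Rm, ← hΓ']
  have h11 : ∀ i j, dM dB i M * Γ' j + Θ i * (M * Γ' j) = M * (Γ' i * Γ' j) := by
    intro i j
    rw [← Matrix.mul_assoc M, hGam i, Matrix.add_mul, Matrix.mul_assoc (Θ i)]
    abel
  have h12 : ∀ i j, dM dB i M * Γ' j + M * dM dB i (Γ' j) + Θ i * (M * Γ' j) =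
      M * dM dB i (Γ' j) + M * (Γ' i * Γ' j) := by
    intro i j
    rw [← h11 i j]
    abel
  rw [h12, h12]
  simp only [Matrix.mul_add, Matrix.mul_sub]
  abel

include hB hJ chain integ hg hG in
/-- the transformation of the Ricci tensor -/
lemma ricci_gt (i j : Fin n) : ricci dB (gt φ Jm g) (Gt φ Ji G) i j =
    ∑ a, ∑ b, Jm a i * Jm b j * φ (ricci dA g G a b) := by
  have h1 : Matrix.of Jm * Matrix.of Ji = 1 := mul_gG hJ
  have h2 : Matrix.of Ji * Matrix.of Jm = 1 := mul_Gg hJ
  have hR : ∀ i j, Rm dB (gt φ Jm g) (Gt φ Ji G) i j = Matrix.of Ji *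
      ((∑ a, ∑ b, (Jm a i * Jm b j) • mP φ (Rm dA g G a b)) * Matrix.of Jm) := by
    intro i j
    rw [← Rm_gt hB φ Jm Ji hJ chain integ g G hg hG, ← Matrix.mul_assoc, h2, Matrix.one_mul]
  rw [ricci_eq (symm_gt φ Jm g hg)]
  simp only [hR, ricci_eq hg, map_sum]
  simp only [Matrix.mul_apply, Matrix.sum_apply, Matrix.smul_apply, smul_eq_mul, mP,
    Matrix.map_apply, Matrix.of_apply]
  -- `∑ k, Ji k p * Jm a k = δ`
  have h3 : ∀ a p, ∑ k, Jm a k * Ji k p = dl a p := hJ
  set E : Fin n → Fin n → B := fun a p =>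
    ∑ b, ∑ q, Jm b j * Jm q i * φ (Rm dA g G a b p q) with hE
  have h4 : ∀ k p, ∑ q, (∑ a, ∑ b, Jm a k * Jm b j * φ (Rm dA g G a b p q)) * Jm q i =
      ∑ a, Jm a k * E a p := by
    intro k p
    simp only [hE, Finset.sum_mul, Finset.mul_sum]
    rw [Finset.sum_comm]
    refine Finset.sum_congr rfl fun a _ => ?_
    rw [Finset.sum_comm]
    refine Finset.sum_congr rfl fun b _ => Finset.sum_congr rfl fun q _ => ?_
    ring
  have h5 : ∀ a, ∑ k, ∑ p, Jm a k * Ji k p * E a p = E a a := by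
    intro a
    rw [Finset.sum_comm]
    simp only [← Finset.sum_mul, h3]
    simp [dl]
  calc ∑ k, ∑ p, Ji k p * ∑ q, (∑ a, ∑ b, Jm a k * Jm b j * φ (Rm dA g G a b p q)) * Jm q i
      = ∑ k, ∑ p, ∑ a, Jm a k * Ji k p * E a p := by
        refine Finset.sum_congr rfl fun k _ => Finset.sum_congr rfl fun p _ => ?_
        rw [h4, Finset.mul_sum]
        refine Finset.sum_congr rfl fun a _ => ?_
        ring
    _ = ∑ a, ∑ k, ∑ p, Jm a k * Ji k p * E a p := by
        rw [Finset.sum_comm (f := fun a k => ∑ p, Jm a k * Ji k p * E a p)]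
        refine Finset.sum_congr rfl fun k _ => ?_
        rw [Finset.sum_comm]
    _ = ∑ a, E a a := Finset.sum_congr rfl fun a _ => h5 a
    _ = ∑ a, ∑ b, Jm a i * Jm b j * ∑ k, φ (Rm dA g G k b k a) := by
        simp only [hE, Finset.mul_sum]
        rw [Finset.sum_comm]
        rw [Finset.sum_comm (f := fun a b => ∑ k, Jm a i * Jm b j * φ (Rm dA g G k b k a))]
        refine Finset.sum_congr rfl fun b _ => ?_
        rw [Finset.sum_comm]
        refine Finset.sum_congr rfl fun q _ => Finset.sum_congr rfl fun a _ => ?_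
        ring

include hJ in
/-- the inverse metric, transformed back -/
lemma Gt_back (a b : Fin n) : ∑ k, ∑ l, Gt φ Ji G k l * (Jm a k * Jm b l) = φ (G a b) := by
  have h1 : Matrix.of Jm * Matrix.of Ji = 1 := mul_gG hJ
  have h2 : Matrix.of Jm * Matrix.of (Gt φ Ji G) * (Matrix.of Jm)ᵀ = mP φ (Matrix.of G) := by
    rw [Gt_eq]
    have h3 : (Matrix.of Ji)ᵀ * (Matrix.of Jm)ᵀ = 1 := by
      rw [← Matrix.transpose_mul, h1, Matrix.transpose_one]
    calc Matrix.of Jm * (Matrix.of Ji * mP φ (Matrix.of G) * (Matrix.of Ji)ᵀ) * (Matrix.of Jm)ᵀ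
        = (Matrix.of Jm * Matrix.of Ji) * mP φ (Matrix.of G) *
            ((Matrix.of Ji)ᵀ * (Matrix.of Jm)ᵀ) := by simp only [Matrix.mul_assoc]
      _ = mP φ (Matrix.of G) := by rw [h1, h3, Matrix.one_mul, Matrix.mul_one]
  have h4 := congrFun (congrFun h2 a) b
  simp only [Matrix.mul_apply, Matrix.of_apply, Matrix.transpose_apply, mP, Matrix.map_apply] at h4
  rw [← h4, Finset.sum_comm]
  refine Finset.sum_congr rfl fun l _ => ?_
  rw [Finset.sum_mul]
  refine Finset.sum_congr rfl fun k _ => ?_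
  ring

include hB hJ chain integ hg hG in
/-- the scalar curvature is invariant -/
lemma scalarCurv_gt : scalarCurv dB (gt φ Jm g) (Gt φ Ji G) = φ (scalarCurv dA g G) := by
  unfold scalarCurv
  simp only [ricci_gt hB φ Jm Ji hJ chain integ g G hg hG, map_sum, map_mul,
    ← Gt_back φ Jm Ji hJ G]
  have h1 : ∀ i j, Gt φ Ji G i j * ∑ a, ∑ b, Jm a i * Jm b j * φ (ricci dA g G a b) =
      ∑ a, ∑ b, Gt φ Ji G i j * (Jm a i * Jm b j) * φ (ricci dA g G a b) := by
    intro i j
    simp only [Finset.mul_sum, mul_assoc]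
  simp only [h1, Finset.sum_mul]
  calc ∑ i, ∑ j, ∑ a, ∑ b, Gt φ Ji G i j * (Jm a i * Jm b j) * φ (ricci dA g G a b)
      = ∑ i, ∑ a, ∑ b, ∑ j, Gt φ Ji G i j * (Jm a i * Jm b j) * φ (ricci dA g G a b) := by
        refine Finset.sum_congr rfl fun i _ => ?_
        rw [Finset.sum_comm]
        refine Finset.sum_congr rfl fun a _ => ?_
        rw [Finset.sum_comm]
    _ = ∑ a, ∑ b, ∑ i, ∑ j, Gt φ Ji G i j * (Jm a i * Jm b j) * φ (ricci dA g G a b) := by
        rw [Finset.sum_comm]
        refine Finset.sum_congr rfl fun a _ => ?_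
        rw [Finset.sum_comm]

include hB hJ chain integ hg hG in
/-- the transformation of the Schouten tensor -/
lemma schouten_gt (i j : Fin n) : schouten dB (gt φ Jm g) (Gt φ Ji G) i j =
    ∑ a, ∑ b, Jm a i * Jm b j * φ (schouten dA g G a b) := by
  unfold schouten
  rw [ricci_gt hB φ Jm Ji hJ chain integ g G hg hG,
    scalarCurv_gt hB φ Jm Ji hJ chain integ g G hg hG]
  simp only [map_smul, map_sub, map_mul, mul_smul_comm, ← Finset.smul_sum]
  congr 1
  simp only [mul_sub, Finset.sum_sub_distrib, mul_smul_comm, ← Finset.smul_sum]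
  congr 2
  simp only [gt, Finset.mul_sum]
  refine Finset.sum_congr rfl fun a _ => Finset.sum_congr rfl fun b _ => ?_
  ring

/-- the pull-back of a tensor -/
noncomputable def pull {I : Type} [Fintype I] [DecidableEq I] (T : (I → Fin n) → A)
    (i : I → Fin n) : B :=
  ∑ a : I → Fin n, (∏ s, Jm (a s) (i s)) * φ (T a)

omit [Algebra ℝ B] in
lemma sum_swap {I : Type} [Fintype I] [DecidableEq I] (s : I) (f : (I → Fin n) → Fin n → B) :
    ∑ a, ∑ k, f (Function.update a s k) (a s) = ∑ a, ∑ k, f a k := by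
  let e : (I → Fin n) × Fin n ≃ (I → Fin n) × Fin n :=
    { toFun := fun p => (Function.update p.1 s p.2, p.1 s)
      invFun := fun p => (Function.update p.1 s p.2, p.1 s)
      left_inv := by
        rintro ⟨i, k⟩
        simp
      right_inv := by
        rintro ⟨i, k⟩
        simp }
  have h2 : ∑ p : (I → Fin n) × Fin n, f (Function.update p.1 s p.2) (p.1 s) =
      ∑ p : (I → Fin n) × Fin n, f p.1 p.2 :=
    Equiv.sum_comp e (fun p => f p.1 p.2)
  rw [Fintype.sum_prod_type, Fintype.sum_prod_type] at h2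
  exact h2

include hB in
lemma d_prod {I : Type} [DecidableEq I] (S : Finset I) (i : Fin n) (f : I → B) :
    dB i (∏ s ∈ S, f s) = ∑ s ∈ S, dB i (f s) * ∏ t ∈ S.erase s, f t := by
  induction S using Finset.induction_on with
  | empty => simp [d_one hB]
  | insert x S hx ih =>
    rw [Finset.prod_insert hx, hB.mul, ih, Finset.sum_insert hx, Finset.erase_insert hx,
      Finset.mul_sum]
    congr 1
    refine Finset.sum_congr rfl fun s hs => ?_
    have hxs : x ≠ s := fun h => hx (h ▸ hs)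
    rw [Finset.erase_insert_of_ne hxs, Finset.prod_insert (by simp [hx])]
    ring

include hB hJ chain integ hg hG in
/-- the covariant derivative commutes with the pull-back -/
lemma covDeriv_gt {r : ℕ} (T : (Fin r → Fin n) → A) (i : Fin (r + 1) → Fin n) :
    covDeriv dB (gt φ Jm g) (Gt φ Ji G) (pull φ Jm T) i =
      pull φ Jm (covDeriv dA g G T) i := by
  -- the transformation of the Christoffel symbols
  have hΓ : ∀ p m j, ∑ k, Jm p k * christoffel dB (gt φ Jm g) (Gt φ Ji G) k m j =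
      ∑ a, ∑ q, Jm a m * Jm q j * φ (christoffel dA g G p a q) + dB m (Jm p j) := by
    intro p m j
    have h := congrFun (congrFun (Gam_gt hB φ Jm Ji hJ chain integ g G hg hG m) p) j
    rw [Matrix.add_apply, Matrix.mul_apply, Matrix.mul_apply] at h
    simp only [Th, Matrix.sum_apply, Matrix.smul_apply, smul_eq_mul, mP, Matrix.map_apply, Gam,
      Matrix.of_apply, dM, Finset.sum_mul] at h
    rw [h, Finset.sum_comm]
    congr 1
    refine Finset.sum_congr rfl fun a _ => Finset.sum_congr rfl fun q _ => ?_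
    ring
  unfold covDeriv
  set m := i 0 with hm
  set t : Fin r → Fin n := Fin.tail i with ht
  have hts : ∀ s : Fin r, i s.succ = t s := fun s => rfl
  -- left hand side
  have hL : dB m (pull φ Jm T t) = ∑ a : Fin r → Fin n, (∑ s, dB m (Jm (a s) (t s)) *
      ∏ s' ∈ Finset.univ.erase s, Jm (a s') (t s')) * φ (T a) +
      ∑ a : Fin r → Fin n, (∏ s, Jm (a s) (t s)) * ∑ b, Jm b m * φ (dA b (T a)) := by
    unfold pull
    rw [d_sum hB, ← Finset.sum_add_distrib]
    refine Finset.sum_congr rfl fun a _ => ?_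
    rw [hB.mul, d_prod hB, chain]
  have hup : ∀ (s : Fin r) (k : Fin n) (a : Fin r → Fin n),
      ∏ s', Jm (a s') (Function.update t s k s') =
        Jm (a s) k * ∏ s' ∈ Finset.univ.erase s, Jm (a s') (t s') := by
    intro s k a
    rw [← Finset.mul_prod_erase _ _ (Finset.mem_univ s), Function.update_self]
    congr 1
    refine Finset.prod_congr rfl fun s' hs' => ?_
    rw [Function.update_of_ne (Finset.ne_of_mem_erase hs')]
  have hS : ∀ s : Fin r, ∑ k, christoffel dB (gt φ Jm g) (Gt φ Ji G) k m (t s) *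
      pull φ Jm T (Function.update t s k) =
      ∑ a : Fin r → Fin n, (∑ b, ∑ q, Jm b m * Jm q (t s) * φ (christoffel dA g G (a s) b q)) *
        (∏ s' ∈ Finset.univ.erase s, Jm (a s') (t s')) * φ (T a) +
      ∑ a : Fin r → Fin n, dB m (Jm (a s) (t s)) *
        (∏ s' ∈ Finset.univ.erase s, Jm (a s') (t s')) * φ (T a) := by
    intro s
    unfold pull
    simp only [hup, Finset.mul_sum]
    rw [Finset.sum_comm, ← Finset.sum_add_distrib]
    refine Finset.sum_congr rfl fun a _ => ?_
    rw [← add_mul, ← add_mul, ← hΓ, Finset.sum_mul, Finset.sum_mul]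
    refine Finset.sum_congr rfl fun k _ => ?_
    ring
  -- right hand side
  have hR : pull φ Jm (covDeriv dA g G T) i = ∑ b, ∑ a : Fin r → Fin n,
      (Jm b m * ∏ s, Jm (a s) (t s)) * φ (covDeriv dA g G T (Fin.cons b a)) := by
    unfold pull
    rw [← (Fin.consEquiv (fun _ : Fin (r + 1) => Fin n)).sum_comp, Fintype.sum_prod_type]
    refine Finset.sum_congr rfl fun b _ => Finset.sum_congr rfl fun a _ => ?_
    congr 1
    rw [Fin.prod_univ_succ]
    rfl
  have hC : ∀ b (a : Fin r → Fin n), covDeriv dA g G T (Fin.cons b a) =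
      dA b (T a) - ∑ s, ∑ k, christoffel dA g G k b (a s) * T (Function.update a s k) := by
    intro b a
    rfl
  have hR2 : pull φ Jm (covDeriv dA g G T) i =
      ∑ a : Fin r → Fin n, (∏ s, Jm (a s) (t s)) * ∑ b, Jm b m * φ (dA b (T a)) -
      ∑ s, ∑ a : Fin r → Fin n, (∑ b, ∑ q, Jm b m * Jm q (t s) *
        φ (christoffel dA g G (a s) b q)) *
        (∏ s' ∈ Finset.univ.erase s, Jm (a s') (t s')) * φ (T a) := by
    rw [hR]
    simp only [hC, map_sub, mul_sub, Finset.sum_sub_distrib]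
    congr 1
    · rw [Finset.sum_comm]
      refine Finset.sum_congr rfl fun a _ => ?_
      rw [Finset.mul_sum]
      refine Finset.sum_congr rfl fun b _ => ?_
      ring
    · simp only [map_sum, map_mul, Finset.mul_sum]
      -- `∑ b, ∑ a, ∑ s, ∑ k`
      have h1 : ∀ (s : Fin r) (b : Fin n), ∑ a : Fin r → Fin n, ∑ k,
          Jm b m * (∏ s, Jm (a s) (t s)) * (φ (christoffel dA g G k b (a s)) *
            φ (T (Function.update a s k))) =
          ∑ a : Fin r → Fin n, ∑ q, Jm b m * Jm q (t s) * φ (christoffel dA g G (a s) b q) *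
            (∏ s' ∈ Finset.univ.erase s, Jm (a s') (t s')) * φ (T a) := by
        intro s b
        rw [← sum_swap s (fun a q => Jm b m * Jm q (t s) * φ (christoffel dA g G (a s) b q) *
            (∏ s' ∈ Finset.univ.erase s, Jm (a s') (t s')) * φ (T a))]
        refine Finset.sum_congr rfl fun a _ => Finset.sum_congr rfl fun k _ => ?_
        rw [← Finset.mul_prod_erase _ _ (Finset.mem_univ s), Function.update_self]
        have h2 : ∏ s' ∈ Finset.univ.erase s, Jm (Function.update a s k s') (t s') =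
            ∏ s' ∈ Finset.univ.erase s, Jm (a s') (t s') := by
          refine Finset.prod_congr rfl fun s' hs' => ?_
          rw [Function.update_of_ne (Finset.ne_of_mem_erase hs')]
        rw [h2]
        ring
      calc ∑ b, ∑ a : Fin r → Fin n, ∑ s, ∑ k, Jm b m * (∏ s, Jm (a s) (t s)) *
            (φ (christoffel dA g G k b (a s)) * φ (T (Function.update a s k)))
          = ∑ b, ∑ s, ∑ a : Fin r → Fin n, ∑ k, Jm b m * (∏ s, Jm (a s) (t s)) *
            (φ (christoffel dA g G k b (a s)) * φ (T (Function.update a s k))) := by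
            refine Finset.sum_congr rfl fun b _ => ?_
            rw [Finset.sum_comm]
        _ = ∑ s, ∑ b, ∑ a : Fin r → Fin n, ∑ q, Jm b m * Jm q (t s) *
            φ (christoffel dA g G (a s) b q) *
            (∏ s' ∈ Finset.univ.erase s, Jm (a s') (t s')) * φ (T a) := by
            rw [Finset.sum_comm]
            refine Finset.sum_congr rfl fun s _ => Finset.sum_congr rfl fun b _ => h1 s b
        _ = _ := by
            refine Finset.sum_congr rfl fun s _ => ?_
            rw [Finset.sum_comm]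
            refine Finset.sum_congr rfl fun a _ => ?_
            simp only [Finset.sum_mul]
  have hx : pull φ Jm (covDeriv dA g G T) i = pull φ Jm (fun i => dA (i 0) (T (Fin.tail i)) -
      ∑ s, ∑ k, christoffel dA g G k (i 0) (i s.succ) *
        T (Function.update (Fin.tail i) s k)) i := rfl
  rw [hL]
  simp only [hts, hS, Finset.sum_add_distrib]
  change _ = pull φ Jm (covDeriv dA g G T) i
  rw [hR2]
  have h5 : ∑ a : Fin r → Fin n, (∑ s, dB m (Jm (a s) (t s)) *
      ∏ s' ∈ Finset.univ.erase s, Jm (a s') (t s')) * φ (T a) =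
      ∑ s, ∑ a : Fin r → Fin n, dB m (Jm (a s) (t s)) *
        (∏ s' ∈ Finset.univ.erase s, Jm (a s') (t s')) * φ (T a) := by
    simp only [Finset.sum_mul]
    rw [Finset.sum_comm]
  rw [h5]
  abel

include hB hJ chain integ hg hG in
lemma covDerivP_gt (l : ℕ) : covDerivP dB (gt φ Jm g) (Gt φ Ji G) l =
    pull φ Jm (covDerivP dA g G l) := by
  induction l with
  | zero =>
    funext i
    change schouten dB (gt φ Jm g) (Gt φ Ji G) (i 0) (i 1) =
      ∑ a : Fin 2 → Fin n, (∏ s, Jm (a s) (i s)) * φ (schouten dA g G (a 0) (a 1))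
    rw [schouten_gt hB φ Jm Ji hJ chain integ g G hg hG,
      ← (finTwoArrowEquiv (Fin n)).symm.sum_comp, Fintype.sum_prod_type]
    refine Finset.sum_congr rfl fun a _ => Finset.sum_congr rfl fun b _ => ?_
    rw [Fin.prod_univ_two]
    simp
  | succ l ih =>
    funext i
    change covDeriv dB (gt φ Jm g) (Gt φ Ji G) (covDerivP dB (gt φ Jm g) (Gt φ Ji G) l) i = _
    rw [ih, covDeriv_gt hB φ Jm Ji hJ chain integ g G hg hG]
    rfl

/-- the pull-back of a tensor product -/
lemma prod_pull {k : ℕ} {r : Fin k → ℕ} (T : (a : Fin k) → (Fin (r a) → Fin n) → A)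
    (i : (Σ a : Fin k, Fin (r a)) → Fin n) :
    ∏ a, pull φ Jm (T a) (fun p => i ⟨a, p⟩) =
      pull φ Jm (fun i : (Σ a : Fin k, Fin (r a)) → Fin n => ∏ a, T a (fun p => i ⟨a, p⟩)) i := by
  unfold pull
  rw [Finset.prod_univ_sum, Fintype.piFinset_univ,
    ← (Equiv.piCurry (fun (a : Fin k) (_ : Fin (r a)) => Fin n)).sum_comp]
  refine Finset.sum_congr rfl fun a _ => ?_
  rw [map_prod, Fintype.prod_sigma, ← Finset.prod_mul_distrib]
  rfl

include hJ in
/-- complete contractions commute with the pull-back -/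
lemma contract_pull {I : Type} [Fintype I] [DecidableEq I] {m : ℕ} (e : Fin m × Fin 2 ≃ I)
    (T : (I → Fin n) → A) :
    ∑ i : I → Fin n, (∏ s, Gt φ Ji G (i (e (s, 0))) (i (e (s, 1)))) * pull φ Jm T i =
      φ (∑ i : I → Fin n, (∏ s, G (i (e (s, 0))) (i (e (s, 1)))) * T i) := by
  have h1 : ∀ a : I → Fin n, ∑ i : I → Fin n, (∏ s, Gt φ Ji G (i (e (s, 0))) (i (e (s, 1)))) *
      ∏ x, Jm (a x) (i x) = φ (∏ s, G (a (e (s, 0))) (a (e (s, 1)))) := by
    intro a
    have h2 : ∀ i : I → Fin n, ∏ x, Jm (a x) (i x) =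
        ∏ s, Jm (a (e (s, 0))) (i (e (s, 0))) * Jm (a (e (s, 1))) (i (e (s, 1))) := by
      intro i
      rw [← e.prod_comp, Fintype.prod_prod_type]
      refine Finset.prod_congr rfl fun s _ => ?_
      rw [Fin.prod_univ_two]
    simp only [h2, ← Finset.prod_mul_distrib]
    let E : (I → Fin n) ≃ (Fin m → Fin n × Fin n) :=
      (Equiv.arrowCongr e.symm (Equiv.refl (Fin n))).trans
        ((Equiv.curry (Fin m) (Fin 2) (Fin n)).trans
          (Equiv.arrowCongr (Equiv.refl (Fin m)) (finTwoArrowEquiv (Fin n))))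
    have hE : ∀ (i : I → Fin n) (s : Fin m), E i s = (i (e (s, 0)), i (e (s, 1))) := fun i s => rfl
    have h3 : ∑ i : I → Fin n, ∏ s, (Gt φ Ji G (i (e (s, 0))) (i (e (s, 1))) *
        (Jm (a (e (s, 0))) (i (e (s, 0))) * Jm (a (e (s, 1))) (i (e (s, 1))))) =
        ∑ u : Fin m → Fin n × Fin n, ∏ s, (Gt φ Ji G (u s).1 (u s).2 *
          (Jm (a (e (s, 0))) (u s).1 * Jm (a (e (s, 1))) (u s).2)) := by
      rw [← E.sum_comp]
      simp only [hE]
    rw [h3, map_prod, ← Fintype.piFinset_univ, ← Finset.prod_univ_sum (fun _ => Finset.univ)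
      (fun s (u : Fin n × Fin n) => Gt φ Ji G u.1 u.2 *
          (Jm (a (e (s, 0))) u.1 * Jm (a (e (s, 1))) u.2))]
    refine Finset.prod_congr rfl fun s _ => ?_
    rw [Fintype.sum_prod_type, Gt_back φ Jm Ji hJ]
  unfold pull
  simp only [Finset.mul_sum]
  rw [Finset.sum_comm, map_sum]
  refine Finset.sum_congr rfl fun a _ => ?_
  rw [map_mul, ← h1, Finset.sum_mul]
  refine Finset.sum_congr rfl fun i _ => ?_
  ring

end

end NatAux

/-- Naturality: `Jm k i = ∂ᵢ φᵏ` is the Jacobian matrix of the map `φ` and `Ji` its inverse. -/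
theorem naturality {dA : Fin n → A → A} {dB : Fin n → B → B} (hA : IsDer dA) (hB : IsDer dB)
    (φ : A →ₐ[ℝ] B) (Jm Ji : Fin n → Fin n → B) (hJ : IsInv Jm Ji)
    (chain : ∀ i a, dB i (φ a) = ∑ k, Jm k i * φ (dA k a))
    (integ : ∀ i j k, dB i (Jm k j) = dB j (Jm k i))
    (g G : Fin n → Fin n → A) (hg : SymM g) (hG : IsInv g G) (c : Contraction →₀ ℝ) :
    linComb c dB (fun i j => ∑ k, ∑ l, Jm k i * Jm l j * φ (g k l))
      (fun i j => ∑ k, ∑ l, Ji i k * Ji j l * φ (G k l)) = φ (linComb c dA g G) := by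
  change linComb c dB (NatAux.gt φ Jm g) (NatAux.Gt φ Ji G) = φ (linComb c dA g G)
  unfold linComb Finsupp.sum
  rw [map_sum]
  refine Finset.sum_congr rfl fun C _ => ?_
  rw [map_smul]
  beta_reduce
  congr 1
  unfold Contraction.eval
  have h1 := NatAux.contract_pull φ Jm Ji hJ G C.e
    (fun i => ∏ a, covDerivP dA g G (C.l a) (fun p => i ⟨a, p⟩))
  rw [← h1]
  refine Finset.sum_congr rfl fun (i : (Σ a : Fin C.k, Fin (C.l a + 2)) → Fin n) _ => ?_
  congr 1
  rw [← NatAux.prod_pull φ Jm (fun a => covDerivP dA g G (C.l a))]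
  refine Finset.prod_congr rfl fun a _ => ?_
  rw [NatAux.covDerivP_gt hB φ Jm Ji hJ chain integ g G hg hG]

end Pool.Agent.Helper44.CI
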