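import Pool.Agent.Helper44.CI.Basic

/-!
# The polynomial argument
-/

open scoped BigOperators
open MvPolynomial

namespace Pool.Agent.Helper44.CI

section Kill

variable {σ : Type} [DecidableEq σ]

/-- set the variables in `T` to zero -/
noncomputable def kill (T : Finset σ) : MvPolynomial σ ℂ →ₐ[ℂ] MvPolynomial σ ℂ :=
  aeval (fun q => if q ∈ T then 0 else X q)

lemma kill_X_mem {T : Finset σ} {q : σ} (h : q ∈ T) : kill T (X q) = 0 := by
  simp [kill, h]

lemma kill_X_not_mem {T : Finset σ} {q : σ} (h : q ∉ T) : kill T (X q) = X q := by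
  simp [kill, h]

lemma eval_kill (T : Finset σ) (x : σ → ℂ) (p : MvPolynomial σ ℂ) :
    eval x (kill T p) = eval (fun q => if q ∈ T then 0 else x q) p := by
  have : (aeval x : MvPolynomial σ ℂ →ₐ[ℂ] ℂ).comp (kill T) =
      aeval (fun q => if q ∈ T then 0 else x q) := by
    ext q
    by_cases h : q ∈ T
    · simp [kill, h]
    · simp [kill, h]
  have h2 := DFunLike.congr_fun this p
  simpa [aeval_eq_eval] using h2

lemma kill_kill (S T : Finset σ) (p : MvPolynomial σ ℂ) :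
    kill S (kill T p) = kill (S ∪ T) p := by
  have : (kill S).comp (kill T) = kill (S ∪ T) := by
    ext q
    by_cases hT : q ∈ T
    · simp [kill, hT]
    · by_cases hS : q ∈ S
      · simp [kill, hT, hS]
      · simp [kill, hT, hS]
  exact DFunLike.congr_fun this p

lemma pderiv_kill {T : Finset σ} {q : σ} (h : q ∉ T) (p : MvPolynomial σ ℂ) :
    pderiv q (kill T p) = kill T (pderiv q p) := by
  induction p using MvPolynomial.induction_on with
  | C a => simp [kill]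
  | add p r hp hr => simp only [map_add, hp, hr]
  | mul_X p r hp =>
    rw [map_mul, pderiv_mul, pderiv_mul, map_add, map_mul, map_mul, hp]
    congr 2
    by_cases hr : r ∈ T
    · have hqr : r ≠ q := fun e => h (e ▸ hr)
      rw [kill_X_mem hr, map_zero, pderiv_X_of_ne hqr, map_zero]
    · rw [kill_X_not_mem hr]
      by_cases hqr : r = q
      · subst hqr
        rw [pderiv_X_self, map_one]
      · rw [pderiv_X_of_ne hqr, map_zero]

omit [DecidableEq σ] in
lemma dvd_pderiv {q r : σ} (h : r ≠ q) {e : ℕ} {p : MvPolynomial σ ℂ} (hp : X r ^ e ∣ p) :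
    X r ^ e ∣ pderiv q p := by
  obtain ⟨s, rfl⟩ := hp
  rw [pderiv_mul, pderiv_pow, pderiv_X_of_ne h, mul_zero, zero_mul, zero_add]
  exact Dvd.intro _ rfl

omit [DecidableEq σ] in
lemma pderiv_X_pow_mul (q : σ) (f : ℕ) (ψ : MvPolynomial σ ℂ) :
    pderiv q (X q ^ (f + 1) * ψ) = C ((f : ℂ) + 1) * (X q ^ f * ψ) + X q ^ (f + 1) * pderiv q ψ := by
  rw [pderiv_mul, pderiv_pow, pderiv_X_self]
  simp only [Nat.add_sub_cancel, map_add, map_natCast, map_one, Nat.cast_add, Nat.cast_one]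
  ring

omit [DecidableEq σ] in
lemma X_mul_pderiv (q : σ) (f : ℕ) (ψ : MvPolynomial σ ℂ) :
    X q * pderiv q (X q ^ f * ψ) = C (f : ℂ) * (X q ^ f * ψ) + X q ^ (f + 1) * pderiv q ψ := by
  rcases f with _ | f
  · simp
  · rw [pderiv_X_pow_mul]
    simp only [map_add, map_natCast, map_one, Nat.cast_add, Nat.cast_one]
    ring

omit [DecidableEq σ] in
/-- the main step -/
lemma dvd_step {q : σ} {e n : ℕ} (he : 1 ≤ e) (hn : n ≠ 2 * e) {φ : MvPolynomial σ ℂ}
    (h1 : X q ^ e ∣ φ)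
    (h2 : X q ^ e ∣ C (2 * (n : ℂ) - 4) * pderiv q φ - 4 * X q * pderiv q (pderiv q φ)) :
    X q ^ (e + 1) ∣ φ := by
  obtain ⟨ψ, rfl⟩ := h1
  obtain ⟨f, rfl⟩ : ∃ f, e = f + 1 := ⟨e - 1, by omega⟩
  have h3 : X q ^ (f + 1) ∣ X q ^ f * (C (2 * ((f : ℂ) + 1) * (n - 2 * ((f : ℂ) + 1))) * ψ) := by
    have e1 : C (2 * (n : ℂ) - 4) * pderiv q (X q ^ (f + 1) * ψ) -
        4 * X q * pderiv q (pderiv q (X q ^ (f + 1) * ψ)) =
        X q ^ f * (C (2 * ((f : ℂ) + 1) * (n - 2 * ((f : ℂ) + 1))) * ψ) +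
        X q ^ (f + 1) * (C (2 * (n : ℂ) - 4) * pderiv q ψ - 4 * (2 * ((f : MvPolynomial σ ℂ) + 1)) *
          pderiv q ψ - 4 * X q * pderiv q (pderiv q ψ)) := by
      have e0 : pderiv q (pderiv q (X q ^ (f + 1) * ψ)) =
          C ((f : ℂ) + 1) * pderiv q (X q ^ f * ψ) +
            (C ((f : ℂ) + 1) * (X q ^ f * pderiv q ψ) + X q ^ (f + 1) * pderiv q (pderiv q ψ)) := by
        rw [pderiv_X_pow_mul, Derivation.map_add, pderiv_C_mul, pderiv_X_pow_mul]
      rw [e0, pderiv_X_pow_mul]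
      have e2 := X_mul_pderiv q f ψ
      have e3 : (C (f : ℂ) : MvPolynomial σ ℂ) = (f : MvPolynomial σ ℂ) := map_natCast C f
      have e4 : (C (n : ℂ) : MvPolynomial σ ℂ) = (n : MvPolynomial σ ℂ) := map_natCast C n
      simp only [map_sub, map_add, map_mul, map_ofNat, map_one, e3, e4] at e2 ⊢
      linear_combination (-4) * ((f : MvPolynomial σ ℂ) + 1) * e2
    rw [e1] at h2
    exact (dvd_add_left (Dvd.intro _ rfl)).1 h2
  rw [pow_succ] at h3
  have h4 := (mul_dvd_mul_iff_left (pow_ne_zero f (X_ne_zero q))).1 h3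
  have h5 : X q ∣ ψ := by
    have hc : 2 * ((f : ℂ) + 1) * (n - 2 * ((f : ℂ) + 1)) ≠ 0 := by
      refine mul_ne_zero (mul_ne_zero two_ne_zero (by exact_mod_cast Nat.succ_ne_zero f)) ?_
      intro h
      apply hn
      have : (n : ℂ) = ((2 * (f + 1) : ℕ) : ℂ) := by
        push_cast
        linear_combination h
      exact_mod_cast this
    have : ψ = C ((2 * ((f : ℂ) + 1) * (n - 2 * ((f : ℂ) + 1)))⁻¹) *
        (C (2 * ((f : ℂ) + 1) * (n - 2 * ((f : ℂ) + 1))) * ψ) := by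
      rw [← mul_assoc, ← map_mul, inv_mul_cancel₀ hc, map_one, one_mul]
    rw [this]
    exact Dvd.dvd.mul_left h4 _
  rw [pow_succ]
  exact mul_dvd_mul_left _ h5

omit [DecidableEq σ] in
lemma pderiv_comm' (q r : σ) (p : MvPolynomial σ ℂ) :
    pderiv q (pderiv r p) = pderiv r (pderiv q p) := by
  have h : (⁅(pderiv q : Derivation ℂ (MvPolynomial σ ℂ) (MvPolynomial σ ℂ)), pderiv r⁆ :
      Derivation ℂ (MvPolynomial σ ℂ) (MvPolynomial σ ℂ)) = 0 := by
    refine MvPolynomial.derivation_ext fun s => ?_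
    classical
    rw [Derivation.commutator_apply, pderiv_X, pderiv_X]
    by_cases h1 : s = r <;> by_cases h2 : s = q <;> simp [Pi.single_apply, h1, h2] <;>
      split_ifs <;> simp
  have h2 := DFunLike.congr_fun h p
  rw [Derivation.commutator_apply] at h2
  exact sub_eq_zero.1 h2

end Kill

section Op

open Sum

variable {ι : Type} [Fintype ι] [DecidableEq ι]

/-- the weights -/
noncomputable def wt (s t : ι ⊕ ι) : MvPolynomial (Sym2 (ι ⊕ ι)) ℂ := if t = s then 2 else 1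

/-- the differential operator -/
noncomputable def opE (n : ℕ) (c : ι) (Φ : MvPolynomial (Sym2 (ι ⊕ ι)) ℂ) :
    MvPolynomial (Sym2 (ι ⊕ ι)) ℂ :=
  C (2 * (n : ℂ) - 4) * pderiv s(inl c, inl c) Φ +
    ∑ t, ∑ t', wt (inl c) t * wt (inl c) t' * X s(t, t') *
      pderiv s(inl c, t) (pderiv s(inl c, t') Φ) -
    2 * ∑ d, wt (inl c) (inl d) * ∑ t, wt (inl d) t * X s(inl d, t) *
      pderiv s(inl d, inl c) (pderiv s(inl d, t) Φ) -
    2 * ∑ d, ∑ t, wt (inl d) t * X s(inr d, t) *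
      pderiv s(inl d, t) (pderiv s(inr d, inl c) Φ)

/-- the variables which are set to zero -/
def kT (S : Finset ι) : Finset (Sym2 (ι ⊕ ι)) :=
  Finset.univ.image (fun d => s(inl d, inr d)) ∪ Finset.univ.image (fun d => s(inr d, inr d)) ∪
    (Finset.univ \ S).image (fun d => s(inl d, inl d))

lemma mem_kT (S : Finset ι) (q : Sym2 (ι ⊕ ι)) : q ∈ kT S ↔
    (∃ d, s(inl d, inr d) = q) ∨ (∃ d, s(inr d, inr d) = q) ∨ ∃ d, d ∉ S ∧ s(inl d, inl d) = q := by
  simp [kT]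

lemma sum_split (c : ι) {M : Type*} [AddCommMonoid M] (f : ι ⊕ ι → M) :
    ∑ t, f t = f (inl c) + f (inr c) +
      ∑ t ∈ Finset.univ.filter (fun t => t ≠ inl c ∧ t ≠ inr c), f t := by
  rw [← Finset.add_sum_erase _ _ (Finset.mem_univ (inl c)),
    ← Finset.add_sum_erase _ _ (Finset.mem_erase.2 ⟨by simp, Finset.mem_univ (inr c)⟩), ← add_assoc]
  congr 2
  ext t
  simp [and_comm]

theorem restricted_dvd {n : ℕ} {c : ι} {S : Finset ι} (hc : c ∈ S)
    {Φ : MvPolynomial (Sym2 (ι ⊕ ι)) ℂ} (hE : opE n c Φ = 0) {e : ℕ}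
    (h : X s(inl c, inl c) ^ e ∣ kill (kT S) Φ) :
    X s(inl c, inl c) ^ e ∣ C (2 * (n : ℂ) - 4) * pderiv s(inl c, inl c) (kill (kT S) Φ) -
      4 * X s(inl c, inl c) * pderiv s(inl c, inl c) (pderiv s(inl c, inl c) (kill (kT S) Φ)) := by
  set q0 : Sym2 (ι ⊕ ι) := s(inl c, inl c) with hq0
  have hcc : q0 ∉ kT S := by
    rw [mem_kT]
    rintro (⟨d, hd⟩ | ⟨d, hd⟩ | ⟨d, hd, hd'⟩)
    · simp [hq0] at hd
    · simp [hq0] at hd
    · simp [hq0] at hd'
      exact hd (hd' ▸ hc)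
  -- the values of the second derivatives
  let D : Sym2 (ι ⊕ ι) → Sym2 (ι ⊕ ι) → MvPolynomial (Sym2 (ι ⊕ ι)) ℂ :=
    fun q r => kill (kT S) (pderiv q (pderiv r Φ))
  have hD : ∀ q r, D q r = D r q := fun q r => by simp only [D]; rw [pderiv_comm']
  have hD1 : ∀ q r, q ∉ kT S → r ∉ kT S → q ≠ q0 → r ≠ q0 → X q0 ^ e ∣ D q r := by
    intro q r hq hr hq' hr'
    simp only [D]
    rw [← pderiv_kill hq, ← pderiv_kill hr]
    exact dvd_pderiv (Ne.symm hq') (dvd_pderiv (Ne.symm hr') h)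
  let Y : ι ⊕ ι → ι ⊕ ι → MvPolynomial (Sym2 (ι ⊕ ι)) ℂ := fun s t => kill (kT S) (X s(s, t))
  have hY : ∀ s t, Y s t = Y t s := fun s t => by simp only [Y]; rw [Sym2.eq_swap]
  have hY1 : ∀ d, Y (inl d) (inr d) = 0 := fun d =>
    kill_X_mem ((mem_kT S _).2 (Or.inl ⟨d, rfl⟩))
  have hY2 : ∀ d, Y (inr d) (inr d) = 0 := fun d =>
    kill_X_mem ((mem_kT S _).2 (Or.inr (Or.inl ⟨d, rfl⟩)))
  have hY3 : ∀ d, d ∉ S → Y (inl d) (inl d) = 0 := fun d hd =>
    kill_X_mem ((mem_kT S _).2 (Or.inr (Or.inr ⟨d, hd, rfl⟩)))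
  let W : Finset (ι ⊕ ι) := Finset.univ.filter (fun t => t ≠ inl c ∧ t ≠ inr c)
  have hW : ∀ t ∈ W, t ≠ inl c ∧ t ≠ inr c := fun t ht => (Finset.mem_filter.1 ht).2
  have hkw : ∀ s t : ι ⊕ ι, kill (kT S) (wt s t) = wt s t := by
    intro s t
    unfold wt
    split_ifs
    · exact map_ofNat _ 2
    · exact map_one _
  -- apply `kill` to the equation
  have h0 : C (2 * (n : ℂ) - 4) * pderiv q0 (kill (kT S) Φ) +
      ∑ t, ∑ t', wt (inl c) t * wt (inl c) t' * Y t t' * D s(inl c, t) s(inl c, t') -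
      2 * ∑ d, wt (inl c) (inl d) * ∑ t, wt (inl d) t * Y (inl d) t *
        D s(inl d, inl c) s(inl d, t) -
      2 * ∑ d, ∑ t, wt (inl d) t * Y (inr d) t * D s(inl d, t) s(inr d, inl c) = 0 := by
    have h1 := congrArg (kill (kT S)) hE
    have h2 : ∀ a : ℂ, kill (kT S) (C a) = C a := fun a => by simp [kill]
    obtain ⟨κ, hκ⟩ : ∃ κ : MvPolynomial (Sym2 (ι ⊕ ι)) ℂ, κ = C (2 * (n : ℂ) - 4) := ⟨_, rfl⟩
    have hκ2 : kill (kT S) κ = κ := by rw [hκ, h2]
    rw [pderiv_kill hcc, ← hκ]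
    rw [opE, ← hκ] at h1
    simp only [map_add, map_sub, map_mul, map_sum, hkw, map_zero, map_ofNat, hκ2] at h1
    exact h1
  have hmem1 : ∀ t, t ≠ inr c → t ≠ inl c → s(inl c, t) ∉ kT S := by
    intro t ht ht'
    rw [mem_kT]
    rintro (⟨d, hd⟩ | ⟨d, hd⟩ | ⟨d, hd, hd'⟩)
    · rcases Sym2.eq_iff.1 hd with ⟨h1, h2⟩ | ⟨h1, h2⟩
      · cases h1
        exact ht h2.symm
      · simp at h2
    · rcases Sym2.eq_iff.1 hd with ⟨h1, h2⟩ | ⟨h1, h2⟩
      · simp at h1
      · simp at h2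
    · rcases Sym2.eq_iff.1 hd' with ⟨h1, h2⟩ | ⟨h1, h2⟩
      · cases h1
        exact ht' h2.symm
      · cases h2
        exact ht' h1.symm
  have hne1 : ∀ t, t ≠ inl c → s(inl c, t) ≠ q0 := by
    intro t ht h1
    rcases Sym2.eq_iff.1 h1 with ⟨h2, h3⟩ | ⟨h2, h3⟩
    · exact ht h3
    · exact ht h3
  have hw1 : ∀ s : ι ⊕ ι, wt s s = 2 := fun s => by simp [wt]
  have hw2 : ∀ s t : ι ⊕ ι, t ≠ s → wt s t = 1 := fun s t h => by simp [wt, h]
  -- first sum
  obtain ⟨R1, hR1, hS1⟩ : ∃ R1, X q0 ^ e ∣ R1 ∧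
      ∑ t, ∑ t', wt (inl c) t * wt (inl c) t' * Y t t' * D s(inl c, t) s(inl c, t') =
      4 * X q0 * D q0 q0 + 4 * ∑ t ∈ W, Y (inl c) t * D q0 s(inl c, t) +
        2 * ∑ t ∈ W, Y (inr c) t * D s(inl c, t) s(inr c, inl c) + R1 := by
    refine ⟨∑ t ∈ W, ∑ t' ∈ W, Y t t' * D s(inl c, t) s(inl c, t'), ?_, ?_⟩
    · refine Finset.dvd_sum fun t ht => Finset.dvd_sum fun t' ht' => Dvd.dvd.mul_left ?_ _
      exact hD1 _ _ (hmem1 _ (hW t ht).2 (hW t ht).1) (hmem1 _ (hW t' ht').2 (hW t' ht').1)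
        (hne1 _ (hW t ht).1) (hne1 _ (hW t' ht').1)
    · rw [sum_split c, sum_split c, sum_split c]
      have e1 : ∑ t' ∈ W, wt (inl c) (inl c) * wt (inl c) t' * Y (inl c) t' *
          D s(inl c, inl c) s(inl c, t') = 2 * ∑ t ∈ W, Y (inl c) t * D q0 s(inl c, t) := by
        rw [Finset.mul_sum]
        refine Finset.sum_congr rfl fun t ht => ?_
        rw [hw1, hw2 _ _ (hW t ht).1]
        ring
      have e2 : ∑ t' ∈ W, wt (inl c) (inr c) * wt (inl c) t' * Y (inr c) t' *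
          D s(inl c, inr c) s(inl c, t') =
          ∑ t ∈ W, Y (inr c) t * D s(inl c, t) s(inr c, inl c) := by
        refine Finset.sum_congr rfl fun t ht => ?_
        rw [hw2 _ _ (hW t ht).1, hw2 (inl c) (inr c) (by simp), hD,
          Sym2.eq_swap (a := inl c) (b := inr c)]
        ring
      have e3 : ∑ t ∈ W, ∑ t', wt (inl c) t * wt (inl c) t' * Y t t' *
          D s(inl c, t) s(inl c, t') =
          2 * ∑ t ∈ W, Y (inl c) t * D q0 s(inl c, t) +
          ∑ t ∈ W, Y (inr c) t * D s(inl c, t) s(inr c, inl c) +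
          ∑ t ∈ W, ∑ t' ∈ W, Y t t' * D s(inl c, t) s(inl c, t') := by
        rw [Finset.mul_sum, ← Finset.sum_add_distrib, ← Finset.sum_add_distrib]
        refine Finset.sum_congr rfl fun t ht => ?_
        rw [sum_split c]
        have e4 : ∑ t' ∈ W, wt (inl c) t * wt (inl c) t' * Y t t' * D s(inl c, t) s(inl c, t') =
            ∑ t' ∈ W, Y t t' * D s(inl c, t) s(inl c, t') := by
          refine Finset.sum_congr rfl fun t' ht' => ?_
          rw [hw2 _ _ (hW t ht).1, hw2 _ _ (hW t' ht').1]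
          ring
        rw [e4, hw2 _ _ (hW t ht).1, hw1, hw2 (inl c) (inr c) (by simp), hY t (inl c),
          hY t (inr c), hD s(inl c, t) s(inl c, inl c), Sym2.eq_swap (a := inl c) (b := inr c)]
        ring
      rw [e1, e2, e3, hw1, hw2 (inl c) (inr c) (by simp), hY1, hY2, hY (inr c) (inl c), hY1]
      have e5 : Y (inl c) (inl c) = X q0 := kill_X_not_mem hcc
      rw [e5]
      ring
  -- second sum
  obtain ⟨R2, hR2, hS2⟩ : ∃ R2, X q0 ^ e ∣ R2 ∧
      ∑ d, wt (inl c) (inl d) * ∑ t, wt (inl d) t * Y (inl d) t *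
        D s(inl d, inl c) s(inl d, t) =
      4 * X q0 * D q0 q0 + 2 * ∑ t ∈ W, Y (inl c) t * D q0 s(inl c, t) + R2 := by
    refine ⟨∑ d ∈ Finset.univ.erase c, wt (inl c) (inl d) * ∑ t, wt (inl d) t * Y (inl d) t *
        D s(inl d, inl c) s(inl d, t), ?_, ?_⟩
    · refine Finset.dvd_sum fun d hd => Dvd.dvd.mul_left (Finset.dvd_sum fun t _ => ?_) _
      have hdc := Finset.ne_of_mem_erase hd
      by_cases ht : s(inl d, t) ∈ kT S
      · have : Y (inl d) t = 0 := kill_X_mem ht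
        rw [this, mul_zero, zero_mul]
        exact dvd_zero _
      · refine Dvd.dvd.mul_left (hD1 _ _ ?_ ht ?_ ?_) _
        · rw [Sym2.eq_swap]
          exact hmem1 _ (by simp) (by simpa using hdc)
        · rw [Sym2.eq_swap]
          exact hne1 _ (by simpa using hdc)
        · intro h1
          rcases Sym2.eq_iff.1 h1 with ⟨h2, -⟩ | ⟨h2, -⟩
          · exact hdc (Sum.inl_injective h2)
          · exact hdc (Sum.inl_injective h2)
    · rw [← Finset.add_sum_erase _ _ (Finset.mem_univ c), sum_split c]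
      have e1 : ∑ t ∈ W, wt (inl c) t * Y (inl c) t * D s(inl c, inl c) s(inl c, t) =
          ∑ t ∈ W, Y (inl c) t * D q0 s(inl c, t) := by
        refine Finset.sum_congr rfl fun t ht => ?_
        rw [hw2 _ _ (hW t ht).1]
        ring
      have e5 : Y (inl c) (inl c) = X q0 := kill_X_not_mem hcc
      rw [e1, hw1, hY1, e5]
      ring
  -- third sum
  obtain ⟨R3, hR3, hS3⟩ : ∃ R3, X q0 ^ e ∣ R3 ∧
      ∑ d, ∑ t, wt (inl d) t * Y (inr d) t * D s(inl d, t) s(inr d, inl c) =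
      ∑ t ∈ W, Y (inr c) t * D s(inl c, t) s(inr c, inl c) + R3 := by
    refine ⟨∑ d ∈ Finset.univ.erase c, ∑ t, wt (inl d) t * Y (inr d) t *
      D s(inl d, t) s(inr d, inl c), ?_, ?_⟩
    · refine Finset.dvd_sum fun d hd => Finset.dvd_sum fun t _ => ?_
      have hdc := Finset.ne_of_mem_erase hd
      by_cases ht1 : t = inl d
      · rw [ht1, hY, hY1, mul_zero, zero_mul]
        exact dvd_zero _
      by_cases ht2 : t = inr d
      · rw [ht2, hY2, mul_zero, zero_mul]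
        exact dvd_zero _
      refine Dvd.dvd.mul_left (hD1 _ _ ?_ ?_ ?_ ?_) _
      · rw [mem_kT]
        rintro (⟨x, hx⟩ | ⟨x, hx⟩ | ⟨x, hx, hx'⟩)
        · rcases Sym2.eq_iff.1 hx with ⟨h1, h2⟩ | ⟨h1, h2⟩
          · cases h1
            exact ht2 h2.symm
          · simp at h2
        · rcases Sym2.eq_iff.1 hx with ⟨h1, h2⟩ | ⟨h1, h2⟩
          · simp at h1
          · simp at h2
        · rcases Sym2.eq_iff.1 hx' with ⟨h1, h2⟩ | ⟨h1, h2⟩
          · cases h1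
            exact ht1 h2.symm
          · cases h2
            exact ht1 h1.symm
      · rw [Sym2.eq_swap]
        refine hmem1 _ ?_ (by simp)
        intro h1
        exact hdc (Sum.inr_injective h1)
      · intro h1
        rcases Sym2.eq_iff.1 h1 with ⟨h2, -⟩ | ⟨h2, -⟩
        · exact hdc (Sum.inl_injective h2)
        · exact hdc (Sum.inl_injective h2)
      · rw [Sym2.eq_swap]
        exact hne1 _ (by simp)
    · rw [← Finset.add_sum_erase _ _ (Finset.mem_univ c), sum_split c]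
      have e1 : ∑ t ∈ W, wt (inl c) t * Y (inr c) t * D s(inl c, t) s(inr c, inl c) =
          ∑ t ∈ W, Y (inr c) t * D s(inl c, t) s(inr c, inl c) := by
        refine Finset.sum_congr rfl fun t ht => ?_
        rw [hw2 _ _ (hW t ht).1]
        ring
      rw [e1, hY (inr c) (inl c), hY1, hY2]
      ring
  have hfin : C (2 * (n : ℂ) - 4) * pderiv q0 (kill (kT S) Φ) -
      4 * X q0 * pderiv q0 (pderiv q0 (kill (kT S) Φ)) = -(R1 - 2 * R2 - 2 * R3) := by
    have e1 : pderiv q0 (pderiv q0 (kill (kT S) Φ)) = D q0 q0 := by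
      rw [pderiv_kill hcc, pderiv_kill hcc]
    rw [hS1, hS2, hS3] at h0
    rw [e1]
    linear_combination h0
  rw [hfin]
  refine (Dvd.dvd.neg_right ?_)
  exact dvd_sub (dvd_sub hR1 (Dvd.dvd.mul_left hR2 _)) (Dvd.dvd.mul_left hR3 _)


end Op

end Pool.Agent.Helper44.CI
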