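import Pool.Agent.Helper44.CI.Pde1

/-!
# The polynomial argument: conclusion
-/

open scoped BigOperators
open MvPolynomial Sum

namespace Pool.Agent.Helper44.CI

section Kill

variable {σ : Type} [DecidableEq σ]

lemma coeff_kill (T : Finset σ) (p : MvPolynomial σ ℂ) (μ : σ →₀ ℕ) :
    coeff μ (kill T p) = if ∀ q ∈ T, μ q = 0 then coeff μ p else 0 := by
  induction p using MvPolynomial.induction_on' with
  | monomial m a =>
    by_cases h : ∀ q ∈ T, m q = 0
    · have h1 : kill T (monomial m a) = monomial m a := by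
        rw [kill, aeval_monomial, monomial_eq]
        congr 1
        refine Finset.prod_congr rfl fun q hq => ?_
        have hq' : q ∉ T := fun h' => (Finsupp.mem_support_iff.1 hq) (h q h')
        simp only [if_neg hq']
      rw [h1, coeff_monomial]
      by_cases hm : m = μ
      · subst hm
        rw [if_pos rfl, if_pos h]
      · rw [if_neg hm]
        simp
    · have h1 : kill T (monomial m a) = 0 := by
        push Not at h
        obtain ⟨q, hq, hmq⟩ := h
        rw [kill, aeval_monomial]
        have : (m.prod fun i k => ((if i ∈ T then (0 : MvPolynomial σ ℂ) else X i) ^ k)) = 0 := by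
          rw [Finsupp.prod, Finset.prod_eq_zero (Finsupp.mem_support_iff.2 hmq)]
          rw [if_pos hq, zero_pow hmq]
        rw [this, mul_zero]
      rw [h1, coeff_zero, coeff_monomial]
      by_cases hm : m = μ
      · subst hm
        rw [if_neg h]
      · rw [if_neg hm]
        simp
  | add p r hp hr =>
    rw [map_add, coeff_add, coeff_add, hp, hr]
    split_ifs
    · rfl
    · rw [add_zero]

lemma X_dvd_of_kill {q : σ} {p : MvPolynomial σ ℂ} (h : kill {q} p = 0) : X q ∣ p := by
  have key : X q ∣ p - kill {q} p := by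
    clear h
    induction p using MvPolynomial.induction_on with
    | C a => simp [kill]
    | add p r hp hr =>
      rw [map_add, add_sub_add_comm]
      exact dvd_add hp hr
    | mul_X p r hp =>
      rw [map_mul]
      by_cases hr : r = q
      · subst hr
        rw [kill_X_mem (Finset.mem_singleton_self r), mul_zero, sub_zero]
        exact Dvd.intro_left _ rfl
      · rw [kill_X_not_mem (by simpa using hr), ← sub_mul]
        exact Dvd.dvd.mul_right hp _
  rwa [h, sub_zero] at key

omit [DecidableEq σ] in
lemma le_of_dvd {q : σ} {e : ℕ} {p : MvPolynomial σ ℂ} (h : X q ^ e ∣ p) {μ : σ →₀ ℕ}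
    (hμ : μ ∈ p.support) : e ≤ μ q := by
  classical
  obtain ⟨r, rfl⟩ := h
  rw [mem_support_iff, X_pow_eq_monomial, mul_comm, coeff_mul_monomial'] at hμ
  by_cases h : Finsupp.single q e ≤ μ
  · have := h q
    simpa using this
  · rw [if_neg h] at hμ
    exact absurd rfl hμ

end Kill

section Op

variable {ι : Type} [Fintype ι] [DecidableEq ι]

/-- the degree in the vectors `a` -/
def adeg : Sym2 (ι ⊕ ι) → ℕ :=
  Sym2.lift ⟨fun s t => (if s.isLeft then 1 else 0) + (if t.isLeft then 1 else 0),
    fun _ _ => add_comm _ _⟩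

omit [Fintype ι] [DecidableEq ι] in
lemma adeg_pos {q : Sym2 (ι ⊕ ι)} {j : ι} (h : inl j ∈ q) : 1 ≤ adeg q := by
  obtain ⟨t, rfl⟩ := Sym2.mem_iff_exists.1 h
  simp [adeg]

theorem poly_vanish {n : ℕ} (hn : Even n) (hn4 : 4 ≤ n) {Φ : MvPolynomial (Sym2 (ι ⊕ ι)) ℂ}
    (hE : ∀ c, opE n c Φ = 0) (h0 : kill (kT (∅ : Finset ι)) Φ = 0)
    (hdeg : ∀ μ ∈ Φ.support, ∑ q, μ q * adeg q = n)
    (ha : ∀ μ ∈ Φ.support, ∀ j : ι, ∃ q, inl j ∈ q ∧ μ q ≠ 0)
    (hz : ∀ μ ∈ Φ.support, ∀ j : ι, ∃ q, inr j ∈ q ∧ μ q ≠ 0) (S : Finset ι) :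
    kill (kT S) Φ = 0 := by
  induction S using Finset.induction_on with
  | empty => exact h0
  | insert c S hc ih =>
    set φ := kill (kT (insert c S)) Φ with hφ
    have h1 : kill {s(inl c, inl c)} φ = 0 := by
      rw [hφ, kill_kill, ← ih]
      congr 2
      ext q
      rw [Finset.mem_union, Finset.mem_singleton, mem_kT, mem_kT]
      constructor
      · rintro (h | h | h | ⟨d, hd, h⟩)
        · exact Or.inr (Or.inr ⟨c, hc, h.symm⟩)
        · exact Or.inl h
        · exact Or.inr (Or.inl h)
        · exact Or.inr (Or.inr ⟨d, fun h' => hd (Finset.mem_insert_of_mem h'), h⟩)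
      · rintro (h | h | ⟨d, hd, h⟩)
        · exact Or.inr (Or.inl h)
        · exact Or.inr (Or.inr (Or.inl h))
        · by_cases hdc : d = c
          · subst hdc
            exact Or.inl h.symm
          · refine Or.inr (Or.inr (Or.inr ⟨d, ?_, h⟩))
            rw [Finset.mem_insert]
            rintro (h' | h')
            · exact hdc h'
            · exact hd h'
    have h2 : ∀ e, 1 ≤ e → 2 * e ≤ n → X s(inl c, inl c) ^ e ∣ φ := by
      intro e he
      induction e, he using Nat.le_induction with
      | base =>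
        intro _
        rw [pow_one]
        exact X_dvd_of_kill h1
      | succ e he ihe =>
        intro hen
        have h3 := ihe (by omega)
        exact dvd_step he (by omega) h3
          (restricted_dvd (Finset.mem_insert_self c S) (hE c) h3)
    obtain ⟨m, hm⟩ := hn
    have h3 := h2 m (by omega) (by omega)
    by_contra hne
    obtain ⟨μ, hμ⟩ := support_nonempty.2 hne
    have h4 := le_of_dvd h3 hμ
    rw [mem_support_iff, hφ, coeff_kill] at hμ
    have h5 : ∀ q ∈ kT (insert c S), μ q = 0 := by
      by_contra h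
      rw [if_neg h] at hμ
      exact hμ rfl
    rw [if_pos h5] at hμ
    have hμ' := mem_support_iff.2 hμ
    have h6 := hdeg μ hμ'
    rw [← Finset.add_sum_erase _ _ (Finset.mem_univ s(inl c, inl c))] at h6
    have h7 : adeg s((inl c : ι ⊕ ι), inl c) = 2 := by simp [adeg]
    rw [h7] at h6
    have h8 : ∑ x ∈ Finset.univ.erase s(inl c, inl c), μ x * adeg x = 0 := by omega
    rw [Finset.sum_eq_zero_iff] at h8
    by_cases hex : ∃ d, d ≠ c
    · obtain ⟨d, hd⟩ := hex
      obtain ⟨q, hq, hμq⟩ := ha μ hμ' d
      have h9 := h8 q (Finset.mem_erase.2 ⟨?_, Finset.mem_univ _⟩)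
      · have h10 := adeg_pos hq
        rcases Nat.mul_eq_zero.1 h9 with h | h
        · exact hμq h
        · omega
      · rintro rfl
        simp at hq
        exact hd hq
    · push Not at hex
      obtain ⟨q, hq, hμq⟩ := hz μ hμ' c
      apply hμq
      apply h5
      obtain ⟨t, rfl⟩ := Sym2.mem_iff_exists.1 hq
      rw [mem_kT]
      rcases t with t | t
      · rw [hex t]
        exact Or.inl ⟨c, Sym2.eq_swap⟩
      · rw [hex t]
        exact Or.inr (Or.inl ⟨c, rfl⟩)

end Op

end Pool.Agent.Helper44.CI
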