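import Pool.Agent.Helper44.CI.Pde2

/-!
# Every function on `Sym2 V` is a Gram function
-/

open scoped BigOperators
open MvPolynomial Sum

namespace Pool.Agent.Helper44.CI

theorem exists_gram_eq {V : Type} [Fintype V] [DecidableEq V] {n : ℕ} (h : Fintype.card V ≤ n)
    (x : Sym2 V → ℂ) : ∃ v : V → Fin n → ℂ, gram v = x := by
  let M : Matrix V V ℂ := Matrix.of fun s t => x s(s, t)
  let B : LinearMap.BilinForm ℂ (V → ℂ) := Matrix.toBilin' M
  have hB : ∀ s t, B (Pi.single s 1) (Pi.single t 1) = x s(s, t) := fun s t => by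
    simp only [B]
    rw [Matrix.toBilin'_single]
    rfl
  have hsymm : LinearMap.IsSymm B := by
    refine ⟨fun u w => ?_⟩
    simp only [B, Matrix.toBilin'_apply, RingHom.id_apply]
    rw [Finset.sum_comm]
    refine Finset.sum_congr rfl fun s _ => Finset.sum_congr rfl fun t _ => ?_
    simp only [M, Matrix.of_apply]
    rw [Sym2.eq_swap]
    ring
  have : Invertible (2 : ℂ) := invertibleOfNonzero two_ne_zero
  obtain ⟨b, hb⟩ := LinearMap.BilinForm.exists_orthogonal_basis hsymm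
  have hN : Module.finrank ℂ (V → ℂ) ≤ n := by
    rw [Module.finrank_fintype_fun_eq_card]
    exact h
  have hr : ∀ i, ∃ r : ℂ, r ^ 2 = B (b i) (b i) := fun i =>
    IsAlgClosed.exists_pow_nat_eq _ (by norm_num)
  choose r hr using hr
  let f : V → Fin (Module.finrank ℂ (V → ℂ)) → ℂ := fun s i => r i * b.repr (Pi.single s 1) i
  refine ⟨fun s => Function.extend (Fin.castLE hN) (f s) 0, ?_⟩
  funext q
  induction q using Sym2.ind with
  | _ s t =>
  rw [gram_mk]
  have h1 : ∑ i, f s i * f t i = ∑ j : Fin n, Function.extend (Fin.castLE hN) (f s) 0 j *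
      Function.extend (Fin.castLE hN) (f t) 0 j := by
    refine Fintype.sum_of_injective (Fin.castLE hN) (Fin.castLE_injective hN) _ _ ?_ ?_
    · intro j hj
      rw [Function.extend_apply' _ _ _ (fun h => hj h)]
      simp
    · intro i
      rw [(Fin.castLE_injective hN).extend_apply, (Fin.castLE_injective hN).extend_apply]
  rw [← h1, ← hB]
  conv_rhs => rw [← b.sum_repr (Pi.single s 1), ← b.sum_repr (Pi.single t 1),
    LinearMap.map_sum₂]
  refine Finset.sum_congr rfl fun i _ => ?_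
  rw [map_sum, Finset.sum_eq_single i]
  · rw [map_smul, map_smul, LinearMap.smul_apply, ← hr]
    simp only [f, smul_eq_mul]
    ring
  · intro j _ hj
    rw [map_smul, map_smul, LinearMap.smul_apply]
    have : B (b i) (b j) = 0 := hb (Ne.symm hj)
    rw [this]
    simp
  · intro hi
    exact absurd (Finset.mem_univ i) hi

section Taylor

variable {σ : Type} [Fintype σ] [DecidableEq σ]

/-- first derivative in the direction `δ` -/
noncomputable def D1 (x δ : σ → ℂ) (p : MvPolynomial σ ℂ) : ℂ :=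
  ∑ q, δ q * eval x (pderiv q p)

/-- second derivative in the directions `δ` and `δ'` -/
noncomputable def D2 (x δ δ' : σ → ℂ) (p : MvPolynomial σ ℂ) : ℂ :=
  ∑ q, ∑ r, δ q * δ' r * eval x (pderiv q (pderiv r p))

omit [DecidableEq σ] in
lemma D1_C (x δ : σ → ℂ) (a : ℂ) : D1 x δ (C a) = 0 := by simp [D1]

omit [DecidableEq σ] in
lemma D2_C (x δ δ' : σ → ℂ) (a : ℂ) : D2 x δ δ' (C a) = 0 := by simp [D2]

omit [DecidableEq σ] in
lemma D1_add (x δ : σ → ℂ) (p r : MvPolynomial σ ℂ) : D1 x δ (p + r) = D1 x δ p + D1 x δ r := by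
  simp only [D1, map_add, mul_add, Finset.sum_add_distrib]

omit [DecidableEq σ] in
lemma D2_add (x δ δ' : σ → ℂ) (p r : MvPolynomial σ ℂ) :
    D2 x δ δ' (p + r) = D2 x δ δ' p + D2 x δ δ' r := by
  simp only [D2, map_add, mul_add, Finset.sum_add_distrib]

omit [Fintype σ] in
lemma eval_pderiv_X (x : σ → ℂ) (q s : σ) :
    eval x (pderiv q (X s : MvPolynomial σ ℂ)) = if q = s then 1 else 0 := by
  by_cases h : s = q
  · subst h
    rw [pderiv_X_self]
    simp
  · rw [pderiv_X_of_ne h, map_zero, if_neg (Ne.symm h)]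

omit [Fintype σ] [DecidableEq σ] in
lemma pderiv_pderiv_X (q r s : σ) : pderiv q (pderiv r (X s : MvPolynomial σ ℂ)) = 0 := by
  by_cases h : s = r
  · subst h
    rw [pderiv_X_self, pderiv_one]
  · rw [pderiv_X_of_ne h, map_zero]

lemma D1_mul_X (x δ : σ → ℂ) (p : MvPolynomial σ ℂ) (s : σ) :
    D1 x δ (p * X s) = D1 x δ p * x s + eval x p * δ s := by
  simp only [D1, pderiv_mul, map_add, map_mul, mul_add, Finset.sum_add_distrib, eval_X,
    eval_pderiv_X, mul_ite, mul_one, mul_zero, Finset.sum_ite_eq', Finset.mem_univ, if_true,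
    Finset.sum_mul]
  congr 1
  · exact Finset.sum_congr rfl fun q _ => by ring
  · ring

lemma D2_mul_X (x δ δ' : σ → ℂ) (p : MvPolynomial σ ℂ) (s : σ) :
    D2 x δ δ' (p * X s) = D2 x δ δ' p * x s + D1 x δ p * δ' s + D1 x δ' p * δ s := by
  have h1 : ∀ q r, eval x (pderiv q (pderiv r (p * X s))) =
      eval x (pderiv q (pderiv r p)) * x s + eval x (pderiv r p) * (if q = s then 1 else 0) +
        eval x (pderiv q p) * (if r = s then 1 else 0) := by
    intro q r
    rw [pderiv_mul, map_add, pderiv_mul, pderiv_mul, pderiv_pderiv_X]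
    simp only [map_add, map_mul, mul_zero, add_zero, eval_X, eval_pderiv_X]
  simp only [D2, h1]
  simp only [mul_add, Finset.sum_add_distrib]
  have e1 : ∑ q, ∑ r, δ q * δ' r * (eval x (pderiv r p) * (if q = s then 1 else 0)) =
      D1 x δ' p * δ s := by
    rw [Finset.sum_comm]
    simp only [mul_ite, mul_one, mul_zero, Finset.sum_ite_eq', Finset.mem_univ, if_true, D1,
      Finset.sum_mul]
    exact Finset.sum_congr rfl fun q _ => by ring
  have e2 : ∑ q, ∑ r, δ q * δ' r * (eval x (pderiv q p) * (if r = s then 1 else 0)) =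
      D1 x δ p * δ' s := by
    simp only [mul_ite, mul_one, mul_zero, Finset.sum_ite_eq', Finset.mem_univ, if_true, D1,
      Finset.sum_mul]
    exact Finset.sum_congr rfl fun q _ => by ring
  have e3 : ∑ q, ∑ r, δ q * δ' r * (eval x (pderiv q (pderiv r p)) * x s) =
      (∑ q, ∑ r, δ q * δ' r * eval x (pderiv q (pderiv r p))) * x s := by
    simp only [Finset.sum_mul]
    exact Finset.sum_congr rfl fun q _ => Finset.sum_congr rfl fun r _ => by ring
  rw [e1, e2, e3]
  ring

/-- second order Taylor expansion -/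
theorem aeval_two (x δ δ' ε : σ → ℂ) (p : MvPolynomial σ ℂ) :
    aeval (fun q => algebraMap ℂ (Sq (Fin 2) ℂ) (x q) + nu 0 * algebraMap ℂ (Sq (Fin 2) ℂ) (δ q) +
      nu 1 * algebraMap ℂ (Sq (Fin 2) ℂ) (δ' q) +
      nu 0 * nu 1 * algebraMap ℂ (Sq (Fin 2) ℂ) (ε q)) p =
    algebraMap ℂ (Sq (Fin 2) ℂ) (eval x p) + nu 0 * algebraMap ℂ (Sq (Fin 2) ℂ) (D1 x δ p) +
      nu 1 * algebraMap ℂ (Sq (Fin 2) ℂ) (D1 x δ' p) +
      nu 0 * nu 1 * algebraMap ℂ (Sq (Fin 2) ℂ) (D2 x δ δ' p + D1 x ε p) := by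
  induction p using MvPolynomial.induction_on with
  | C a => simp [D1_C, D2_C]
  | add p r hp hr =>
    rw [map_add, hp, hr]
    simp only [map_add, D1_add, D2_add]
    ring
  | mul_X p s hp =>
    rw [map_mul, hp, aeval_X]
    simp only [map_mul, map_add, D1_mul_X, D2_mul_X, eval_X]
    have h0 := nu_mul_self (K := ℂ) (0 : Fin 2)
    have h1 := nu_mul_self (K := ℂ) (1 : Fin 2)
    generalize hA : algebraMap ℂ (Sq (Fin 2) ℂ) (eval x p) = A
    generalize hB : algebraMap ℂ (Sq (Fin 2) ℂ) (D1 x δ p) = B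
    generalize hB' : algebraMap ℂ (Sq (Fin 2) ℂ) (D1 x δ' p) = B'
    generalize hE : algebraMap ℂ (Sq (Fin 2) ℂ) (D1 x ε p) = E
    generalize hD : algebraMap ℂ (Sq (Fin 2) ℂ) (D2 x δ δ' p) = D
    generalize algebraMap ℂ (Sq (Fin 2) ℂ) (x s) = a
    generalize algebraMap ℂ (Sq (Fin 2) ℂ) (δ s) = b
    generalize algebraMap ℂ (Sq (Fin 2) ℂ) (δ' s) = b'
    generalize algebraMap ℂ (Sq (Fin 2) ℂ) (ε s) = e
    generalize (nu 0 : Sq (Fin 2) ℂ) = u at h0 ⊢
    generalize (nu 1 : Sq (Fin 2) ℂ) = w at h1 ⊢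
    linear_combination (B * b + w * B * e + w * (D + E) * b + w * w * (D + E) * e) * h0 +
      (B' * b' + u * B' * e + u * (D + E) * b') * h1

lemma coef_two (a b b' e : ℂ) : coef Finset.univ (algebraMap ℂ (Sq (Fin 2) ℂ) a +
    nu 0 * algebraMap ℂ (Sq (Fin 2) ℂ) b + nu 1 * algebraMap ℂ (Sq (Fin 2) ℂ) b' +
      nu 0 * nu 1 * algebraMap ℂ (Sq (Fin 2) ℂ) e) = e := by
  have h1 := coef_smul_prod_nu (K := ℂ) (Finset.univ : Finset (Fin 2)) ∅ a
  have h2 := coef_smul_prod_nu (K := ℂ) (Finset.univ : Finset (Fin 2)) {0} b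
  have h3 := coef_smul_prod_nu (K := ℂ) (Finset.univ : Finset (Fin 2)) {1} b'
  have h4 := coef_smul_prod_nu (K := ℂ) (Finset.univ : Finset (Fin 2)) {0, 1} e
  rw [if_neg (by decide)] at h1 h2 h3
  rw [if_pos (by decide)] at h4
  rw [Finset.prod_empty, mul_one] at h1
  rw [Finset.prod_singleton, mul_comm] at h2 h3
  rw [Finset.prod_pair (by decide), mul_comm] at h4
  rw [map_add, map_add, map_add, h1, h2, h3, h4]
  simp

end Taylor

end Pool.Agent.Helper44.CI
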