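import Pool.Agent.Helper44.CI.Pde3

/-!
# The differential equation in the Gram variables, as a polynomial identity
-/

open scoped BigOperators
open MvPolynomial Sum

namespace Pool.Agent.Helper44.CI

variable {n : ℕ}

/-- The mixed second derivative of `Φ ∘ gram` at the family of vectors `v` in the directions `y` and
`y'`: the coefficient of `ν₀ ν₁` in `Φ(gram(v + ν₀ y + ν₁ y'))`. -/
noncomputable def dd {V : Type} (Φ : MvPolynomial (Sym2 V) ℝ) (v y y' : V → Fin n → ℂ) : ℂ :=
  coef Finset.univ (aeval (gram (fun s x => (algebraMap ℂ (Sq (Fin 2) ℂ) (v s x) +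
    nu 0 * algebraMap ℂ (Sq (Fin 2) ℂ) (y s x) +
    nu 1 * algebraMap ℂ (Sq (Fin 2) ℂ) (y' s x)))) Φ)

/-- The equation which expresses the invariance under special conformal transformations. -/
def SpecialEq {ι : Type} [Fintype ι] [DecidableEq ι] (n : ℕ)
    (Φ : MvPolynomial (Sym2 (ι ⊕ ι)) ℝ) : Prop :=
  ∀ (c : ι) (v : ι ⊕ ι → Fin n → ℂ) (b : Fin n → ℂ),
    (∀ s, ∑ x, b x * v s x = if s = Sum.inl c then 1 else 0) →
    ∑ i : Fin n, dd Φ v (Pi.single (Sum.inl c) (Pi.single i 1)) (Pi.single (Sum.inl c) (Pi.single i 1))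
      - 2 * ∑ d : ι, dd Φ v (Pi.single (Sum.inl d) b) (Pi.single (Sum.inl d) (v (Sum.inl d)))
      - 2 * ∑ d : ι, dd Φ v (Pi.single (Sum.inl d) (v (Sum.inr d))) (Pi.single (Sum.inr d) b) = 0

section

variable {V : Type} [Fintype V] [DecidableEq V]

/-- the first variation of the Gram function -/
def gv (v y : V → Fin n → ℂ) : Sym2 V → ℂ :=
  Sym2.lift ⟨fun s t => ∑ i, (y s i * v t i + v s i * y t i), fun s t =>
    Finset.sum_congr rfl fun i _ => by ring⟩

/-- the second variation of the Gram function -/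
def gvv (y y' : V → Fin n → ℂ) : Sym2 V → ℂ :=
  Sym2.lift ⟨fun s t => ∑ i, (y s i * y' t i + y' s i * y t i), fun s t =>
    Finset.sum_congr rfl fun i _ => by ring⟩

omit [Fintype V] [DecidableEq V] in
lemma gv_mk (v y : V → Fin n → ℂ) (s t : V) :
    gv v y s(s, t) = ∑ i, (y s i * v t i + v s i * y t i) := rfl

omit [Fintype V] [DecidableEq V] in
lemma gvv_mk (y y' : V → Fin n → ℂ) (s t : V) :
    gvv y y' s(s, t) = ∑ i, (y s i * y' t i + y' s i * y t i) := rfl

theorem dd_eq (Φ : MvPolynomial (Sym2 V) ℝ) (v y y' : V → Fin n → ℂ) : dd Φ v y y' =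
    D2 (gram v) (gv v y) (gv v y') (map (algebraMap ℝ ℂ) Φ) +
      D1 (gram v) (gvv y y') (map (algebraMap ℝ ℂ) Φ) := by
  have h1 : gram (fun s x => (algebraMap ℂ (Sq (Fin 2) ℂ) (v s x) +
      nu 0 * algebraMap ℂ (Sq (Fin 2) ℂ) (y s x) +
      nu 1 * algebraMap ℂ (Sq (Fin 2) ℂ) (y' s x))) = fun q =>
      algebraMap ℂ (Sq (Fin 2) ℂ) (gram v q) + nu 0 * algebraMap ℂ (Sq (Fin 2) ℂ) (gv v y q) +
      nu 1 * algebraMap ℂ (Sq (Fin 2) ℂ) (gv v y' q) +
      nu 0 * nu 1 * algebraMap ℂ (Sq (Fin 2) ℂ) (gvv y y' q) := by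
    funext q
    induction q using Sym2.ind with
    | _ s t =>
    rw [gram_mk, gram_mk, gv_mk, gv_mk, gvv_mk]
    simp only [map_sum, Finset.mul_sum]
    rw [← Finset.sum_add_distrib, ← Finset.sum_add_distrib, ← Finset.sum_add_distrib]
    refine Finset.sum_congr rfl fun i _ => ?_
    have h0 := nu_mul_self (K := ℂ) (0 : Fin 2)
    have h1 := nu_mul_self (K := ℂ) (1 : Fin 2)
    simp only [map_add, map_mul]
    linear_combination (algebraMap ℂ (Sq (Fin 2) ℂ) (y s i) *
      algebraMap ℂ (Sq (Fin 2) ℂ) (y t i)) * h0 + (algebraMap ℂ (Sq (Fin 2) ℂ) (y' s i) *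
      algebraMap ℂ (Sq (Fin 2) ℂ) (y' t i)) * h1
  rw [dd, h1, ← aeval_map_algebraMap ℂ, aeval_two, coef_two]

/-- numerical weights -/
noncomputable def wn (s t : V) : ℂ := if t = s then 2 else 1

omit [Fintype V] in
lemma gv_single (v : V → Fin n → ℂ) (p : V) (u : Fin n → ℂ) (t : V) :
    gv v (Pi.single p u) s(p, t) = wn p t * ∑ i, u i * v t i := by
  rw [gv_mk, wn]
  split_ifs with h
  · subst h
    simp only [Pi.single_eq_same]
    rw [Finset.mul_sum]
    exact Finset.sum_congr rfl fun i _ => by ring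
  · simp only [Pi.single_eq_same, Pi.single_eq_of_ne h, Pi.zero_apply, mul_zero, add_zero, one_mul]

omit [Fintype V] in
lemma gv_single_of_not_mem (v : V → Fin n → ℂ) (p : V) (u : Fin n → ℂ) {q : Sym2 V} (h : p ∉ q) :
    gv v (Pi.single p u) q = 0 := by
  induction q using Sym2.ind with
  | _ s t =>
  rw [gv_mk]
  simp only [Sym2.mem_iff, not_or] at h
  simp only [Pi.single_eq_of_ne (Ne.symm h.1), Pi.single_eq_of_ne (Ne.symm h.2), Pi.zero_apply,
    mul_zero, zero_mul, add_zero, Finset.sum_const_zero]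

lemma sum_gv_single (v : V → Fin n → ℂ) (p : V) (u : Fin n → ℂ) (f : Sym2 V → ℂ) :
    ∑ q, gv v (Pi.single p u) q * f q = ∑ t, wn p t * (∑ i, u i * v t i) * f s(p, t) := by
  symm
  refine Fintype.sum_of_injective (fun t => s(p, t)) ?_ _ _ ?_ ?_
  · intro s t h
    exact Sym2.congr_right.1 h
  · intro q hq
    rw [gv_single_of_not_mem, zero_mul]
    intro h
    apply hq
    obtain ⟨t, ht⟩ := Sym2.mem_iff_exists.1 h
    exact ⟨t, ht.symm⟩
  · intro t
    rw [gv_single]

omit [Fintype V] in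
lemma gvv_single (p p' : V) (u u' : Fin n → ℂ) (q : Sym2 V) :
    gvv (Pi.single p u) (Pi.single p' u') q =
      if q = s(p, p') then wn p p' * ∑ i, u i * u' i else 0 := by
  induction q using Sym2.ind with
  | _ s t =>
  rw [gvv_mk]
  by_cases h : p' = p
  · subst h
    have hw : wn p' p' = 2 := by simp [wn]
    rw [hw]
    by_cases hs : s = p'
    · subst hs
      by_cases ht : t = s
      · subst ht
        rw [if_pos rfl]
        simp only [Pi.single_eq_same]
        rw [Finset.mul_sum]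
        exact Finset.sum_congr rfl fun i _ => by ring
      · rw [if_neg]
        · simp [Pi.single_eq_of_ne ht]
        · intro h
          rcases Sym2.eq_iff.1 h with ⟨-, h⟩ | ⟨-, h⟩ <;> exact ht h
    · rw [if_neg]
      · simp [Pi.single_eq_of_ne hs]
      · intro h
        rcases Sym2.eq_iff.1 h with ⟨h, -⟩ | ⟨h, -⟩ <;> exact hs h
  · have hw : wn p p' = 1 := by simp [wn, h]
    rw [hw, one_mul]
    by_cases h1 : s(s, t) = s(p, p')
    · rw [if_pos h1]
      rcases Sym2.eq_iff.1 h1 with ⟨rfl, rfl⟩ | ⟨rfl, rfl⟩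
      · simp [Pi.single_eq_of_ne h, Pi.single_eq_of_ne (Ne.symm h)]
      · simp [Pi.single_eq_of_ne h, Pi.single_eq_of_ne (Ne.symm h), mul_comm]
    · rw [if_neg h1]
      refine Finset.sum_eq_zero fun i _ => ?_
      have h2 : ¬ (s = p ∧ t = p') := fun ⟨a, b⟩ => h1 (by rw [a, b])
      have h3 : ¬ (s = p' ∧ t = p) := fun ⟨a, b⟩ => h1 (by rw [a, b, Sym2.eq_swap])
      by_cases hs : s = p
      · have ht : t ≠ p' := fun e => h2 ⟨hs, e⟩
        subst hs
        simp [Pi.single_eq_of_ne ht, Pi.single_eq_of_ne (Ne.symm h)]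
      · by_cases hs' : s = p'
        · have ht : t ≠ p := fun e => h3 ⟨hs', e⟩
          subst hs'
          simp [Pi.single_eq_of_ne ht, Pi.single_eq_of_ne h]
        · simp [Pi.single_eq_of_ne hs, Pi.single_eq_of_ne hs']

/-- second derivatives in the direction of single vectors -/
theorem dd_single (Φ : MvPolynomial (Sym2 V) ℝ) (v : V → Fin n → ℂ) (p p' : V)
    (u u' : Fin n → ℂ) : dd Φ v (Pi.single p u) (Pi.single p' u') =
    ∑ t, ∑ t', wn p t * (∑ i, u i * v t i) * (wn p' t' * (∑ i, u' i * v t' i)) *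
      eval (gram v) (pderiv s(p, t) (pderiv s(p', t') (map (algebraMap ℝ ℂ) Φ))) +
    wn p p' * (∑ i, u i * u' i) * eval (gram v) (pderiv s(p, p') (map (algebraMap ℝ ℂ) Φ)) := by
  rw [dd_eq, D2, D1]
  congr 1
  · have h1 : ∀ q, ∑ r, gv v (Pi.single p u) q * gv v (Pi.single p' u') r *
        eval (gram v) (pderiv q (pderiv r (map (algebraMap ℝ ℂ) Φ))) =
        gv v (Pi.single p u) q * ∑ r, gv v (Pi.single p' u') r *
        eval (gram v) (pderiv q (pderiv r (map (algebraMap ℝ ℂ) Φ))) := by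
      intro q
      rw [Finset.mul_sum]
      exact Finset.sum_congr rfl fun r _ => by ring
    simp only [h1]
    rw [sum_gv_single]
    refine Finset.sum_congr rfl fun t _ => ?_
    rw [sum_gv_single, Finset.mul_sum]
    refine Finset.sum_congr rfl fun t' _ => ?_
    ring
  · simp only [gvv_single, ite_mul, zero_mul, Finset.sum_ite_eq', Finset.mem_univ, if_true]

end

section

variable {ι : Type} [Fintype ι] [DecidableEq ι]

omit [Fintype ι] in
lemma eval_wt (x : Sym2 (ι ⊕ ι) → ℂ) (s t : ι ⊕ ι) : eval x (wt s t) = wn s t := by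
  unfold wt wn
  split_ifs
  · exact map_ofNat _ 2
  · exact map_one _

/-- the equation at a family of vectors with a dual vector -/
theorem eval_opE {Φ : MvPolynomial (Sym2 (ι ⊕ ι)) ℝ} (hK : SpecialEq n Φ) (c : ι)
    (v : ι ⊕ ι → Fin n → ℂ) (b : Fin n → ℂ)
    (hb : ∀ s, ∑ x, b x * v s x = if s = inl c then 1 else 0) :
    eval (gram v) (opE n c (map (algebraMap ℝ ℂ) Φ)) = 0 := by
  have h := hK c v b hb
  set Ψ := map (algebraMap ℝ ℂ) Φ with hΨ
  set P : Sym2 (ι ⊕ ι) → Sym2 (ι ⊕ ι) → ℂ := fun q r => eval (gram v) (pderiv q (pderiv r Ψ))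
    with hP
  have t1 : ∑ i : Fin n, dd Φ v (Pi.single (inl c) (Pi.single i 1))
      (Pi.single (inl c) (Pi.single i 1)) =
      ∑ t, ∑ t', wn (inl c) t * wn (inl c) t' * gram v s(t, t') * P s(inl c, t) s(inl c, t') +
        2 * n * eval (gram v) (pderiv s(inl c, inl c) Ψ) := by
    simp only [dd_single]
    rw [Finset.sum_add_distrib]
    congr 1
    · rw [Finset.sum_comm]
      refine Finset.sum_congr rfl fun t _ => ?_
      rw [Finset.sum_comm]
      refine Finset.sum_congr rfl fun t' _ => ?_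
      rw [gram_mk, Finset.mul_sum, Finset.sum_mul]
      refine Finset.sum_congr rfl fun i _ => ?_
      simp only [Pi.single_apply, ite_mul, one_mul, zero_mul, Finset.sum_ite_eq', Finset.mem_univ,
        if_true, hP]
      ring
    · have hw : wn (inl c : ι ⊕ ι) (inl c) = 2 := by simp [wn]
      simp only [hw, Pi.single_apply, ite_mul, one_mul, zero_mul, Finset.sum_ite_eq',
        Finset.mem_univ, if_true, Finset.sum_const, Finset.card_univ, Fintype.card_fin,
        nsmul_eq_mul]
      ring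
  have t2 : ∀ d : ι, dd Φ v (Pi.single (inl d) b) (Pi.single (inl d) (v (inl d))) =
      wn (inl d : ι ⊕ ι) (inl c) * ∑ t, wn (inl d) t * gram v s(inl d, t) * P s(inl d, inl c) s(inl d, t) +
        2 * (if (inl d : ι ⊕ ι) = inl c then 1 else 0) *
          eval (gram v) (pderiv s(inl d, inl d) Ψ) := by
    intro d
    rw [dd_single]
    have hw : wn (inl d : ι ⊕ ι) (inl d) = 2 := by simp [wn]
    simp only [hb, hw]
    congr 1
    rw [Finset.sum_eq_single (inl c)]
    · rw [Finset.mul_sum]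
      refine Finset.sum_congr rfl fun t _ => ?_
      rw [if_pos rfl, gram_mk]
      ring
    · intro t _ ht
      refine Finset.sum_eq_zero fun t' _ => ?_
      rw [if_neg ht]
      ring
    · intro h
      exact absurd (Finset.mem_univ _) h
  have t3 : ∀ d : ι, dd Φ v (Pi.single (inl d) (v (inr d))) (Pi.single (inr d) b) =
      ∑ t, wn (inl d) t * gram v s(inr d, t) * P s(inl d, t) s(inr d, inl c) := by
    intro d
    rw [dd_single]
    have e1 : ∑ i, v (inr d) i * b i = 0 := by
      have := hb (inr d)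
      rw [if_neg (by simp)] at this
      rw [← this]
      exact Finset.sum_congr rfl fun i _ => mul_comm _ _
    rw [e1, mul_zero, zero_mul, add_zero]
    refine Finset.sum_congr rfl fun t _ => ?_
    rw [Finset.sum_eq_single (inl c)]
    · have hw : wn (inr d : ι ⊕ ι) (inl c) = 1 := by simp [wn]
      rw [hb, if_pos rfl, gram_mk, hw]
      ring
    · intro t' _ ht
      rw [hb, if_neg ht]
      ring
    · intro h
      exact absurd (Finset.mem_univ _) h
  have s2 : ∑ d : ι, dd Φ v (Pi.single (inl d) b) (Pi.single (inl d) (v (inl d))) =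
      ∑ d, wn (inl c : ι ⊕ ι) (inl d) * ∑ t, wn (inl d) t * gram v s(inl d, t) *
        P s(inl d, inl c) s(inl d, t) + 2 * eval (gram v) (pderiv s(inl c, inl c) Ψ) := by
    simp only [t2]
    rw [Finset.sum_add_distrib]
    congr 1
    · refine Finset.sum_congr rfl fun d _ => ?_
      congr 1
      simp only [wn, eq_comm]
    · rw [Finset.sum_eq_single c]
      · rw [if_pos rfl]
        ring
      · intro d _ hd
        rw [if_neg (by simpa using hd)]
        ring
      · intro h
        exact absurd (Finset.mem_univ _) h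
  rw [t1, s2] at h
  simp only [t3] at h
  rw [opE]
  simp only [map_add, map_sub, map_mul, map_sum, eval_wt, eval_X, eval_C, map_ofNat]
  linear_combination h

/-- the equation as a polynomial identity -/
theorem opE_eq_zero (hιn : 2 * Fintype.card ι ≤ n) {Φ : MvPolynomial (Sym2 (ι ⊕ ι)) ℝ}
    (hK : SpecialEq n Φ) (c : ι) : opE n c (map (algebraMap ℝ ℂ) Φ) = 0 := by
  let M : Matrix (ι ⊕ ι) (ι ⊕ ι) (MvPolynomial (Sym2 (ι ⊕ ι)) ℂ) := Matrix.of fun s t => X s(s, t)
  have hM : ∀ x : Sym2 (ι ⊕ ι) → ℂ, eval x M.det = (Matrix.of fun s t => x s(s, t)).det := by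
    intro x
    rw [RingHom.map_det]
    congr 1
    ext s t
    simp [M]
  have hdet : M.det ≠ 0 := by
    intro h
    have h1 := hM (Sym2.lift ⟨fun s t => if s = t then 1 else 0, fun s t => by
      simp only [eq_comm]⟩)
    rw [h, map_zero] at h1
    have h2 : (Matrix.of fun s t => (Sym2.lift ⟨fun s t : ι ⊕ ι => if s = t then (1 : ℂ) else 0,
        fun s t => by simp only [eq_comm]⟩) s(s, t)) = 1 := by
      ext s t
      simp [Matrix.one_apply]
    rw [h2, Matrix.det_one] at h1
    exact zero_ne_one h1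
  have h1 : M.det * opE n c (map (algebraMap ℝ ℂ) Φ) = 0 := by
    refine MvPolynomial.funext fun x => ?_
    rw [map_zero, map_mul]
    by_cases hx : eval x M.det = 0
    · rw [hx, zero_mul]
    · obtain ⟨v, hv⟩ := exists_gram_eq (n := n) (by
        rw [Fintype.card_sum]; omega) x
      subst hv
      rw [hM] at hx
      set G : Matrix (ι ⊕ ι) (ι ⊕ ι) ℂ := Matrix.of fun s t => gram v s(s, t) with hG
      have hu : IsUnit G.det := isUnit_iff_ne_zero.2 hx
      let a : ι ⊕ ι → ℂ := fun s => G⁻¹ s (inl c)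
      rw [eval_opE hK c v (fun i => ∑ s, a s * v s i), mul_zero]
      intro t
      have h2 : ∑ x, (∑ s, a s * v s x) * v t x = ∑ s, G t s * a s := by
        simp only [Finset.sum_mul]
        rw [Finset.sum_comm]
        refine Finset.sum_congr rfl fun s _ => ?_
        simp only [hG, Matrix.of_apply, gram_mk, Finset.sum_mul]
        exact Finset.sum_congr rfl fun i _ => by ring
      rw [h2]
      have h3 := congrFun (congrFun (Matrix.mul_nonsing_inv G hu) t) (inl c)
      rw [Matrix.mul_apply] at h3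
      simpa [Matrix.one_apply] using h3
  rcases mul_eq_zero.1 h1 with h | h
  · exact absurd h hdet
  · exact h

end

end Pool.Agent.Helper44.CI
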