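import Pool.Agent.Helper44.CI.SmoothWeight

/-!
# Smooth conformal invariance implies formal conformal invariance
-/

open scoped BigOperators ContDiff Topology
open MvPowerSeries (constantCoeff)

namespace Pool.Agent.Helper44.CI

variable {n : ℕ}

/-! ### Smooth invariance implies formal invariance -/

lemma posDef_near_one {M : Matrix (Fin n) (Fin n) ℝ} (hM : ∀ i j, M i j = M j i) {ε : ℝ}
    (hε : n * ε < 1) (hME : ∀ i j, |M i j - (if i = j then 1 else 0)| ≤ ε) : M.PosDef := by
  refine Matrix.PosDef.of_dotProduct_mulVec_pos ?_ fun v hv => ?_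
  · ext i j
    simp [hM i j]
  · have h1 : star v ⬝ᵥ (M.mulVec v) = ∑ i, ∑ j, v i * M i j * v j := by
      simp only [dotProduct, Matrix.mulVec, star_trivial, Finset.mul_sum, mul_assoc]
    have h2 : ∀ i j, (if i = j then v i * v j else 0) - ε * ((v i ^ 2 + v j ^ 2) / 2) ≤
        v i * M i j * v j := by
      intro i j
      have h3 := hME i j
      rw [abs_le] at h3
      have h4 : |v i * (M i j - (if i = j then 1 else 0)) * v j| ≤
          ε * ((v i ^ 2 + v j ^ 2) / 2) := by
        rw [abs_mul, abs_mul]
        have h5 := hME i j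
        have h6 : |v i| * |v j| ≤ (v i ^ 2 + v j ^ 2) / 2 := by
          nlinarith [sq_nonneg (|v i| - |v j|), sq_abs (v i), sq_abs (v j)]
        calc |v i| * |M i j - (if i = j then 1 else 0)| * |v j|
            = |M i j - (if i = j then 1 else 0)| * (|v i| * |v j|) := by ring
          _ ≤ ε * ((v i ^ 2 + v j ^ 2) / 2) :=
            mul_le_mul h5 h6 (by positivity) (le_trans (abs_nonneg _) h5)
      have h7 := (abs_le.1 h4).1
      have h8 : v i * M i j * v j = v i * (M i j - (if i = j then 1 else 0)) * v j +
          (if i = j then v i * v j else 0) := by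
        split_ifs <;> ring
      rw [h8]
      linarith
    have h9 : (1 - n * ε) * ∑ i, v i ^ 2 ≤ star v ⬝ᵥ (M.mulVec v) := by
      rw [h1]
      calc (1 - n * ε) * ∑ i, v i ^ 2
          = ∑ i, ∑ j, ((if i = j then v i * v j else 0) - ε * ((v i ^ 2 + v j ^ 2) / 2)) := by
            simp only [Finset.sum_sub_distrib, Finset.sum_ite_eq, Finset.mem_univ, if_true,
              ← Finset.mul_sum, ← Finset.sum_div, Finset.sum_add_distrib, Finset.sum_const,
              Finset.card_univ, Fintype.card_fin, nsmul_eq_mul]
            have : ∀ i, v i * v i = v i ^ 2 := fun i => (sq (v i)).symm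
            simp only [this]
            ring
        _ ≤ _ := Finset.sum_le_sum fun i _ => Finset.sum_le_sum fun j _ => h2 i j
    have h10 : 0 < ∑ i, v i ^ 2 := by
      obtain ⟨i, hi⟩ : ∃ i, v i ≠ 0 := Function.ne_iff.1 hv
      have : 0 < v i ^ 2 := by positivity
      exact lt_of_lt_of_le this
        (Finset.single_le_sum (f := fun i => v i ^ 2) (fun j _ => sq_nonneg _)
          (Finset.mem_univ i))
    have h11 : 0 < 1 - n * ε := by linarith
    exact lt_of_lt_of_le (mul_pos h11 h10) h9

lemma contDiff_evalPoly (p : MvPolynomial (Fin n) ℝ) :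
    ContDiff ℝ ∞ (fun y : Fin n → ℝ => MvPolynomial.eval y p) := by
  induction p using MvPolynomial.induction_on with
  | C a =>
    simp only [MvPolynomial.eval_C]
    exact contDiff_const
  | add p q hp hq =>
    simp only [map_add]
    exact hp.add hq
  | mul_X p i hp =>
    simp only [map_mul, MvPolynomial.eval_X]
    exact hp.mul (contDiff_apply ℝ ℝ i)

lemma fconf_poly {c : Contraction →₀ ℝ} (h : IsConformalInvariant n (-(n : ℝ)) c)
    (p : Fin n → Fin n → MvPolynomial (Fin n) ℝ) (q : MvPolynomial (Fin n) ℝ)
    (hp : ∀ i j, p i j = p j i) (hp0 : ∀ i j, MvPolynomial.constantCoeff (p i j) = dl i j)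
    (hq0 : MvPolynomial.constantCoeff q = 1) :
    J c (fun i j => (q : MvPowerSeries (Fin n) ℝ) * (p i j : MvPowerSeries (Fin n) ℝ)) =
      J c (fun i j => (p i j : MvPowerSeries (Fin n) ℝ)) := by
  classical
  set g : Fin n → Fin n → (Fin n → ℝ) → ℝ := fun i j y => MvPolynomial.eval y (p i j) with hgdef
  set f : (Fin n → ℝ) → ℝ := fun y => MvPolynomial.eval y q with hfdef
  set ε : ℝ := 1 / (n + 1 : ℝ) with hε
  set V : Set (Fin n → ℝ) :=
    {y | 0 < f y} ∩ ⋂ i, ⋂ j, {y | |g i j y - (if i = j then 1 else 0)| < ε} with hV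
  have hgc : ∀ i j, Continuous (g i j) := fun i j => (contDiff_evalPoly (p i j)).continuous
  have hfc : Continuous f := (contDiff_evalPoly q).continuous
  have hVo : IsOpen V := by
    refine (isOpen_lt continuous_const hfc).inter ?_
    refine isOpen_iInter_of_finite fun i => isOpen_iInter_of_finite fun j => ?_
    exact isOpen_lt ((hgc i j).sub continuous_const).abs continuous_const
  have hf0 : f 0 = 1 := by
    simp only [hfdef]
    rw [← hq0, ← MvPolynomial.eval_zero]
  have hg0 : ∀ i j, g i j 0 = if i = j then 1 else 0 := by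
    intro i j
    have := hp0 i j
    simp only [hgdef]
    rw [dl] at this
    rw [← this, ← MvPolynomial.eval_zero]
  have hV0 : (0 : Fin n → ℝ) ∈ V := by
    refine ⟨?_, ?_⟩
    · change 0 < f 0
      rw [hf0]
      exact one_pos
    · simp only [Set.mem_iInter, Set.mem_ofPred_eq]
      intro i j
      rw [hg0, sub_self, abs_zero]
      positivity
  have hgm : IsMetricOn V g := by
    refine ⟨fun i j => (contDiff_evalPoly (p i j)).contDiffOn, fun y hy => ?_⟩
    refine posDef_near_one (ε := ε) ?_ ?_ ?_
    · intro i j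
      simp only [Matrix.of_apply, hgdef, hp i j]
    · rw [hε, mul_one_div, div_lt_one (by positivity)]
      linarith
    · intro i j
      have := hy.2
      simp only [Set.mem_iInter, Set.mem_ofPred_eq] at this
      exact (this i j).le
  set u : (Fin n → ℝ) → ℝ := fun y => (1 / 2) * Real.log (f y) with hu
  have hus : ContDiffOn ℝ ∞ u V :=
    contDiffOn_const.mul ((contDiff_evalPoly q).contDiffOn.log fun y hy => hy.1.ne')
  have h1 := h V hVo g hgm u hus 0 hV0
  have hu0 : u 0 = 0 := by
    simp only [hu, hf0, Real.log_one, mul_zero]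
  rw [hu0, mul_zero, Real.exp_zero, one_mul, scalar_eq_J hVo hgm hV0,
    scalar_eq_J hVo (isMetricOn_exp hgm hus) hV0] at h1
  have h2 : (fun i j => taylor 0 (g i j)) = fun i j => (p i j : MvPowerSeries (Fin n) ℝ) := by
    funext i j
    exact taylor_eval (p i j)
  have h3 : (fun i j => taylor 0 (fun y => Real.exp (2 * u y) * g i j y)) =
      fun i j => (q : MvPowerSeries (Fin n) ℝ) * (p i j : MvPowerSeries (Fin n) ℝ) := by
    funext i j
    have h4 : (fun y => Real.exp (2 * u y) * g i j y) =ᶠ[𝓝 0]
        fun y => MvPolynomial.eval y (q * p i j) := by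
      filter_upwards [hVo.mem_nhds hV0] with y hy
      have h5 : Real.exp (2 * u y) = f y := by
        rw [hu]
        simp only
        rw [← mul_assoc, mul_one_div_cancel two_ne_zero, one_mul, Real.exp_log hy.1]
      rw [h5, map_mul]
    rw [taylor_congr h4, taylor_eval, MvPolynomial.coe_mul]
  rw [h2, h3] at h1
  exact h1

lemma isUnit_det_of_const {K : Type} [CommRing K] {g : Fld n K}
    (h : ∀ i j, constantCoeff (g i j) = dl i j) : IsUnit (Matrix.of g).det := by
  rw [MvPowerSeries.isUnit_iff_constantCoeff, RingHom.map_det]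
  have h1 : (constantCoeff (σ := Fin n) (R := K)).mapMatrix (Matrix.of g) = 1 := by
    ext i j
    simp [h i j, dl, Matrix.one_apply]
  rw [h1, Matrix.det_one]
  exact isUnit_one

/-- the index type of the coefficients -/
abbrev CIdx (n : ℕ) : Type := (Fin n × Fin n × (Fin n →₀ ℕ)) ⊕ (Fin n →₀ ℕ)

/-- the universal normalized metric -/
noncomputable def gU (n : ℕ) : Fld n (MvPolynomial (CIdx n) ℝ) := fun i j α =>
  if α = 0 then dl i j else MvPolynomial.X (Sum.inl (min i j, max i j, α))

/-- the universal normalized function -/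
noncomputable def fU (n : ℕ) : MvPowerSeries (Fin n) (MvPolynomial (CIdx n) ℝ) := fun α =>
  if α = 0 then 1 else MvPolynomial.X (Sum.inr α)

lemma constantCoeff_gU (i j : Fin n) : constantCoeff (gU n i j) = dl i j := by
  rw [← MvPowerSeries.coeff_zero_eq_constantCoeff_apply]
  change gU n i j 0 = _
  simp [gU]

lemma constantCoeff_fU : constantCoeff (fU n) = 1 := by
  rw [← MvPowerSeries.coeff_zero_eq_constantCoeff_apply]
  change fU n 0 = _
  simp [fU]

lemma constantCoeff_fgU (i j : Fin n) : constantCoeff (fU n * gU n i j) = dl i j := by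
  rw [map_mul, constantCoeff_fU, constantCoeff_gU, one_mul]

/-- specialisation of the universal metric -/
lemma spec_fgU {K : Type} [CommRing K] [Algebra ℝ K] (c : Contraction →₀ ℝ)
    (θ : MvPolynomial (CIdx n) ℝ →ₐ[ℝ] K) :
    θ (J c (fun i j => fU n * gU n i j) - J c (gU n)) =
      J c (fun i j => MvPowerSeries.map (σ := Fin n) θ.toRingHom (fU n) *
        MvPowerSeries.map (σ := Fin n) θ.toRingHom (gU n i j)) -
      J c (fun i j => MvPowerSeries.map (σ := Fin n) θ.toRingHom (gU n i j)) := by
  rw [map_sub, ← J_map θ (isUnit_det_of_const constantCoeff_fgU),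
    ← J_map θ (isUnit_det_of_const constantCoeff_gU)]
  congr 2
  funext i j
  simp only [mapF, map_mul]

/-- Smooth conformal invariance implies formal conformal invariance over all `ℝ`-algebras. -/
theorem fconf_of_isConformalInvariant (_hn : Even n) {c : Contraction →₀ ℝ}
    (h : IsConformalInvariant n (-(n : ℝ)) c) : FConf n c := by
  classical
  -- the universal identity
  set P : MvPolynomial (CIdx n) ℝ := J c (fun i j => fU n * gU n i j) - J c (gU n) with hP
  have hP0 : P = 0 := by
    apply MvPolynomial.funext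
    intro s
    rw [map_zero]
    set s' : CIdx n → ℝ := fun t => if t ∈ P.vars then s t else 0 with hs'
    have h1 : MvPolynomial.eval s P = MvPolynomial.aeval s' P := by
      refine MvPolynomial.hom_congr_vars (f₁ := MvPolynomial.eval s)
        (f₂ := (MvPolynomial.aeval (R := ℝ) s').toRingHom) ?_ ?_ rfl
      · ext r
        simp
      · intro t ht _
        simp [hs', ht]
    rw [h1, hP, spec_fgU]
    set F' := MvPowerSeries.map (σ := Fin n)
      (MvPolynomial.aeval (R := ℝ) s' : MvPolynomial (CIdx n) ℝ →ₐ[ℝ] ℝ).toRingHom (fU n) with hF'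
    set G' : Fld n ℝ := fun i j => MvPowerSeries.map (σ := Fin n)
      (MvPolynomial.aeval (R := ℝ) s' : MvPolynomial (CIdx n) ℝ →ₐ[ℝ] ℝ).toRingHom (gU n i j)
      with hG'
    set T : Finset (Fin n →₀ ℕ) := insert 0 (P.vars.image
      fun t => Sum.elim (fun t => t.2.2) (fun α => α) t) with hT
    let q : MvPolynomial (Fin n) ℝ := ∑ α ∈ T, MvPolynomial.monomial α (MvPowerSeries.coeff α F')
    let p : Fin n → Fin n → MvPolynomial (Fin n) ℝ :=
      fun i j => ∑ α ∈ T, MvPolynomial.monomial α (MvPowerSeries.coeff α (G' i j))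
    have hcoef : ∀ (W : MvPowerSeries (Fin n) ℝ), (∀ α ∉ T, MvPowerSeries.coeff α W = 0) →
        ((∑ α ∈ T, MvPolynomial.monomial α (MvPowerSeries.coeff α W) :
          MvPolynomial (Fin n) ℝ) : MvPowerSeries (Fin n) ℝ) = W := by
      intro W hW
      ext α
      rw [MvPolynomial.coeff_coe, MvPolynomial.coeff_sum]
      simp only [MvPolynomial.coeff_monomial]
      rw [Finset.sum_ite_eq']
      split_ifs with h8
      · rfl
      · exact (hW α h8).symm
    have hqF : (q : MvPowerSeries (Fin n) ℝ) = F' := by
      refine hcoef F' fun α hα => ?_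
      rw [hT, Finset.mem_insert, not_or] at hα
      rw [hF', MvPowerSeries.coeff_map]
      change MvPolynomial.aeval s' (fU n α) = 0
      rw [fU, if_neg hα.1, MvPolynomial.aeval_X, hs']
      refine if_neg fun h9 => hα.2 ?_
      exact Finset.mem_image.2 ⟨_, h9, rfl⟩
    have hpG : ∀ i j, (p i j : MvPowerSeries (Fin n) ℝ) = G' i j := by
      intro i j
      refine hcoef (G' i j) fun α hα => ?_
      rw [hT, Finset.mem_insert, not_or] at hα
      simp only [hG', MvPowerSeries.coeff_map]
      change MvPolynomial.aeval s' (gU n i j α) = 0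
      rw [gU, if_neg hα.1, MvPolynomial.aeval_X, hs']
      refine if_neg fun h9 => hα.2 ?_
      exact Finset.mem_image.2 ⟨_, h9, rfl⟩
    have hGsym : ∀ i j, G' i j = G' j i := by
      intro i j
      simp only [hG']
      congr 1
      funext α
      simp only [gU]
      rw [min_comm, max_comm]
      have : (dl i j : MvPolynomial (CIdx n) ℝ) = dl j i := by
        simp only [dl, eq_comm]
      rw [this]
    have h2 := fconf_poly h p q ?_ ?_ ?_
    · simp only [hqF, hpG] at h2
      rw [h2, sub_self]
    · intro i j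
      simp only [p, hGsym i j]
    · intro i j
      have h10 : MvPolynomial.constantCoeff (p i j) =
          constantCoeff (p i j : MvPowerSeries (Fin n) ℝ) := by
        rw [← MvPowerSeries.coeff_zero_eq_constantCoeff_apply, MvPolynomial.coeff_coe]
        rfl
      rw [h10, hpG]
      simp only [hG', MvPowerSeries.constantCoeff_map, constantCoeff_gU]
      rw [dl, dl]
      split_ifs <;> simp
    · have h10 : MvPolynomial.constantCoeff q =
          constantCoeff (q : MvPowerSeries (Fin n) ℝ) := by
        rw [← MvPowerSeries.coeff_zero_eq_constantCoeff_apply, MvPolynomial.coeff_coe]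
        rfl
      rw [h10, hqF, hF', MvPowerSeries.constantCoeff_map, constantCoeff_fU, map_one]
  intro K _ _ g f hg hg0 hf0
  let θ : MvPolynomial (CIdx n) ℝ →ₐ[ℝ] K := MvPolynomial.aeval
    (Sum.elim (fun t => MvPowerSeries.coeff t.2.2 (g t.1 t.2.1)) fun α => MvPowerSeries.coeff α f)
  have h3 := spec_fgU c θ
  rw [← hP, hP0, map_zero] at h3
  have h4 : ∀ i j, MvPowerSeries.map (σ := Fin n) θ.toRingHom (gU n i j) = g i j := by
    intro i j
    ext α
    rw [MvPowerSeries.coeff_map]
    change θ (gU n i j α) = _
    rw [gU]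
    split_ifs with h5
    · subst h5
      rw [MvPowerSeries.coeff_zero_eq_constantCoeff_apply, hg0, dl, dl]
      split_ifs <;> simp
    · simp only [θ, MvPolynomial.aeval_X, Sum.elim_inl]
      rcases le_total i j with h6 | h6
      · rw [min_eq_left h6, max_eq_right h6]
      · rw [min_eq_right h6, max_eq_left h6, hg]
  have h7 : MvPowerSeries.map (σ := Fin n) θ.toRingHom (fU n) = f := by
    ext α
    rw [MvPowerSeries.coeff_map]
    change θ (fU n α) = _
    rw [fU]
    split_ifs with h5
    · subst h5
      rw [MvPowerSeries.coeff_zero_eq_constantCoeff_apply, hf0, map_one]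
    · simp only [θ, MvPolynomial.aeval_X, Sum.elim_inr]
  simp only [h4, h7] at h3
  exact (sub_eq_zero.1 h3.symm)

end Pool.Agent.Helper44.CI
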