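import Pool.Agent.Helper44.CI.Taylor
import Pool.Agent.Helper44.CI.Func3a

/-!
# Normalization of a smooth metric at a point
-/

open scoped BigOperators
open MvPowerSeries (constantCoeff pderiv)

namespace Pool.Agent.Helper44.CI

variable {n : ℕ}

namespace SN

/-- the chain rule for polynomials -/
lemma chain_poly (a : Fin n → MvPowerSeries (Fin n) ℝ) (i : Fin n)
    (p : MvPolynomial (Fin n) ℝ) :
    pderiv ℝ i (MvPolynomial.aeval a p) =
      ∑ k, pderiv ℝ i (a k) * MvPolynomial.aeval a (MvPolynomial.pderiv k p) := by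
  classical
  induction p using MvPolynomial.induction_on with
  | C r =>
    rw [MvPolynomial.algHom_C]
    simp
  | add p q hp hq =>
    rw [map_add, map_add, hp, hq, ← Finset.sum_add_distrib]
    refine Finset.sum_congr rfl fun k _ => ?_
    rw [map_add, map_add, mul_add]
  | mul_X p j hp =>
    rw [map_mul, MvPolynomial.aeval_X, Derivation.leibniz, hp]
    have h1 : ∀ k, pderiv ℝ i (a k) *
        MvPolynomial.aeval a (MvPolynomial.pderiv k (p * MvPolynomial.X j)) =
        (if k = j then MvPolynomial.aeval a p * pderiv ℝ i (a k) else 0) +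
          a j * (pderiv ℝ i (a k) * MvPolynomial.aeval a (MvPolynomial.pderiv k p)) := by
      intro k
      rw [Derivation.leibniz, smul_eq_mul, smul_eq_mul, MvPolynomial.pderiv_X, map_add, map_mul,
        map_mul, MvPolynomial.aeval_X]
      by_cases hk : k = j
      · subst hk
        simp
        ring
      · rw [Pi.single_eq_of_ne' hk, if_neg hk]
        simp
        ring
    simp only [h1, Finset.sum_add_distrib, Finset.sum_ite_eq', Finset.mem_univ, if_true,
      smul_eq_mul]
    rw [Finset.mul_sum]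

lemma order_subst {a : Fin n → MvPowerSeries (Fin n) ℝ} (ha : MvPowerSeries.HasSubst a)
    (h0 : ∀ k, constantCoeff (a k) = 0) {N : ℕ} {f : MvPowerSeries (Fin n) ℝ}
    (hf : (N : ℕ∞) ≤ f.order) : (N : ℕ∞) ≤ (MvPowerSeries.subst a f).order := by
  refine le_trans ?_ (MvPowerSeries.le_order_subst ha f)
  have h1 : (1 : ℕ∞) ≤ ⨅ i, (a i).order :=
    le_iInf fun i => MvPowerSeries.one_le_order_iff_constCoeff_eq_zero.2 (h0 i)
  calc (N : ℕ∞) ≤ f.order := hf
    _ = 1 * f.order := (one_mul _).symm
    _ ≤ (⨅ i, (a i).order) * f.order := mul_le_mul_left h1 _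

lemma order_pderiv {N : ℕ} {f : MvPowerSeries (Fin n) ℝ} (hf : ((N + 1 : ℕ) : ℕ∞) ≤ f.order)
    (k : Fin n) : (N : ℕ∞) ≤ (pderiv ℝ k f).order := by
  apply MvPowerSeries.nat_le_order
  intro d hd
  rw [MvPowerSeries.coeff_pderiv, MvPowerSeries.coeff_of_lt_order, zero_mul]
  refine lt_of_lt_of_le ?_ hf
  rw [map_add, Finsupp.degree_single]
  exact_mod_cast Nat.succ_lt_succ hd

/-- the chain rule -/
lemma chain {a : Fin n → MvPowerSeries (Fin n) ℝ} (ha : MvPowerSeries.HasSubst a)
    (h0 : ∀ k, constantCoeff (a k) = 0) (i : Fin n) (f : MvPowerSeries (Fin n) ℝ) :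
    pderiv ℝ i (MvPowerSeries.subst a f) =
      ∑ k, pderiv ℝ i (a k) * MvPowerSeries.subst a (pderiv ℝ k f) := by
  ext e
  set N := e.degree with hN
  set p : MvPolynomial (Fin n) ℝ := MvPowerSeries.truncTotal (N + 2) f with hp
  set r : MvPowerSeries (Fin n) ℝ := f - p with hr
  have hf : f = p + r := by rw [hr]; ring
  have hro : ((N + 2 : ℕ) : ℕ∞) ≤ r.order := by
    apply MvPowerSeries.nat_le_order
    intro d hd
    rw [hr, map_sub, MvPolynomial.coeff_coe, hp, MvPowerSeries.coeff_truncTotal _ hd, sub_self]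
  have h1 : pderiv ℝ i (MvPowerSeries.subst a (p : MvPowerSeries (Fin n) ℝ)) =
      ∑ k, pderiv ℝ i (a k) * MvPowerSeries.subst a (pderiv ℝ k (p : MvPowerSeries (Fin n) ℝ)) := by
    rw [MvPowerSeries.subst_coe, chain_poly]
    refine Finset.sum_congr rfl fun k _ => ?_
    rw [MvPowerSeries.pderiv_coe, MvPowerSeries.subst_coe]
  have h2 : MvPowerSeries.coeff e (pderiv ℝ i (MvPowerSeries.subst a r)) = 0 := by
    apply MvPowerSeries.coeff_of_lt_order
    refine lt_of_lt_of_le ?_ (order_pderiv (N := N + 1) (order_subst ha h0 hro) i)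
    exact_mod_cast Nat.lt_succ_self N
  have h3 : ∀ k, MvPowerSeries.coeff e
      (pderiv ℝ i (a k) * MvPowerSeries.subst a (pderiv ℝ k r)) = 0 := by
    intro k
    apply MvPowerSeries.coeff_of_lt_order
    refine lt_of_lt_of_le ?_ MvPowerSeries.le_order_mul
    refine lt_of_lt_of_le ?_ le_add_self
    refine lt_of_lt_of_le ?_ (order_subst ha h0 (order_pderiv (N := N + 1) hro k))
    exact_mod_cast Nat.lt_succ_self N
  have h4 : ∀ k, pderiv ℝ i (a k) * MvPowerSeries.subst a
      (pderiv ℝ k ((p : MvPowerSeries (Fin n) ℝ) + r)) =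
      pderiv ℝ i (a k) * MvPowerSeries.subst a (pderiv ℝ k (p : MvPowerSeries (Fin n) ℝ)) +
        pderiv ℝ i (a k) * MvPowerSeries.subst a (pderiv ℝ k r) := by
    intro k
    rw [map_add, MvPowerSeries.subst_add ha, mul_add]
  rw [hf, MvPowerSeries.subst_add ha, map_add, map_add, h2, add_zero, h1,
    Finset.sum_congr rfl fun k _ => h4 k, Finset.sum_add_distrib, map_add,
    map_sum (MvPowerSeries.coeff e) (fun k => pderiv ℝ i (a k) *
    MvPowerSeries.subst a (pderiv ℝ k r)), Finset.sum_eq_zero fun k _ => h3 k, add_zero]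

lemma constantCoeff_subst' {a : Fin n → MvPowerSeries (Fin n) ℝ} (ha : MvPowerSeries.HasSubst a)
    (h0 : ∀ k, constantCoeff (a k) = 0) (f : MvPowerSeries (Fin n) ℝ) :
    constantCoeff (MvPowerSeries.subst a f) = constantCoeff f := by
  have h1 : f = MvPowerSeries.C (constantCoeff f) + (f - MvPowerSeries.C (constantCoeff f)) := by
    ring
  rw [h1, MvPowerSeries.subst_add ha, map_add, MvPowerSeries.constantCoeff_subst_eq_zero ha h0
    (f := f - MvPowerSeries.C (constantCoeff f)) (by simp), MvPowerSeries.subst_C]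
  simp

open scoped MatrixOrder in
/-- a positive definite matrix is congruent to the identity -/
lemma exists_congr {S : Matrix (Fin n) (Fin n) ℝ} (hS : S.PosDef) :
    ∃ P Q : Matrix (Fin n) (Fin n) ℝ, P * Q = 1 ∧ P.transpose * S * P = 1 := by
  obtain ⟨B, hB⟩ := CStarAlgebra.nonneg_iff_eq_star_mul_self.mp hS.posSemidef.nonneg
  rw [Matrix.star_eq_conjTranspose, Matrix.conjTranspose_eq_transpose_of_trivial] at hB
  have hdet : B.det ≠ 0 := by
    intro h
    have := hS.det_pos
    rw [hB, Matrix.det_mul, Matrix.det_transpose, h, mul_zero] at this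
    exact lt_irrefl _ this
  have h1 : B * B⁻¹ = 1 := Matrix.mul_nonsing_inv B hdet.isUnit
  refine ⟨B⁻¹, B, Matrix.nonsing_inv_mul B hdet.isUnit, ?_⟩
  rw [hB, Matrix.mul_assoc, Matrix.mul_assoc, h1, Matrix.mul_one, ← Matrix.transpose_mul, h1,
    Matrix.transpose_one]

end SN

open SN

/-- The value of the scalar of a smooth metric at a point is the value of `J` on a normalized formal
metric. -/
theorem exists_normalized {U : Set (Fin n → ℝ)} (hU : IsOpen U)
    {g : Fin n → Fin n → (Fin n → ℝ) → ℝ} (hg : IsMetricOn U g) {x : Fin n → ℝ} (hx : x ∈ U) :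
    ∃ g' : Fld n ℝ, SymM g' ∧ (∀ i j, constantCoeff (g' i j) = dl i j) ∧
      ∀ c, scalar c g x = J c g' := by
  set gT : Fld n ℝ := fun i j => taylor x (g i j) with hgT
  have hsymx : ∀ y ∈ U, ∀ i j, g i j y = g j i y := by
    intro y hy i j
    have := congrFun (congrFun (hg.posDef y hy).isHermitian j) i
    simpa using this
  have hsym : SymM gT := by
    intro i j
    apply taylor_congr
    filter_upwards [hU.mem_nhds hx] with y hy
    exact hsymx y hy i j
  obtain ⟨P, Q, hPQ, hPS⟩ := exists_congr (hg.posDef x hx)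
  let a : Fin n → MvPowerSeries (Fin n) ℝ := fun k =>
    ∑ i, MvPowerSeries.C (P k i) * MvPowerSeries.X i
  have h0 : ∀ k, constantCoeff (a k) = 0 := by
    intro k
    simp [a]
  have ha : MvPowerSeries.HasSubst a := MvPowerSeries.hasSubst_of_constantCoeff_zero h0
  let φ : MvPowerSeries (Fin n) ℝ →ₐ[ℝ] MvPowerSeries (Fin n) ℝ := MvPowerSeries.substAlgHom ha
  let Jm : Fin n → Fin n → MvPowerSeries (Fin n) ℝ := fun k i => MvPowerSeries.C (P k i)
  let Ji : Fin n → Fin n → MvPowerSeries (Fin n) ℝ := fun k i => MvPowerSeries.C (Q k i)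
  have hJ : IsInv Jm Ji := by
    intro i j
    have h1 := congrFun (congrFun hPQ i) j
    rw [Matrix.mul_apply] at h1
    simp only [Jm, Ji, ← map_mul]
    rw [← map_sum, h1, dl, Matrix.one_apply]
    split_ifs <;> simp
  have hda : ∀ i k, pderiv ℝ i (a k) = Jm k i := by
    intro i k
    simp only [a, Jm]
    rw [map_sum, Finset.sum_eq_single i]
    · rw [Derivation.leibniz, MvPowerSeries.pderiv_X_self, MvPowerSeries.pderiv_C]
      simp
    · intro l _ hl
      rw [Derivation.leibniz, MvPowerSeries.pderiv_X_of_ne hl, MvPowerSeries.pderiv_C]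
      simp
    · intro h; exact absurd (Finset.mem_univ _) h
  have hchain : ∀ i f, pdv n ℝ i (φ f) = ∑ k, Jm k i * φ (pdv n ℝ k f) := by
    intro i f
    have := chain ha h0 i f
    simp only [hda] at this
    simp only [φ, MvPowerSeries.substAlgHom_apply, pdv]
    exact this
  have hinteg : ∀ i j k, pdv n ℝ i (Jm k j) = pdv n ℝ j (Jm k i) := by
    intro i j k
    simp only [Jm, pdv, MvPowerSeries.pderiv_C]
  have hunit : IsUnit (Matrix.of gT).det := by
    rw [MvPowerSeries.isUnit_iff_constantCoeff, RingHom.map_det]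
    have h1 : (constantCoeff (σ := Fin n) (R := ℝ)).mapMatrix (Matrix.of gT) =
        Matrix.of fun i j => g i j x := by
      ext i j
      simp only [RingHom.mapMatrix_apply, Matrix.map_apply, Matrix.of_apply, hgT]
      exact constantCoeff_taylor x _
    rw [h1]
    exact (hg.posDef x hx).det_pos.ne'.isUnit
  have hG := isInv_invM hunit
  have hnat := naturality isDer_pdv isDer_pdv φ Jm Ji hJ hchain hinteg gT (invM gT) hsym hG
  have hGφ : IsInv (fun i j => φ (gT i j)) (fun i j => φ (invM gT i j)) :=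
    hG.map φ.toRingHom
  have hInv := isInv_transform hJ hGφ
  have hcc : ∀ f, constantCoeff (φ f) = constantCoeff f := by
    intro f
    simp only [φ, MvPowerSeries.substAlgHom_apply]
    exact constantCoeff_subst' ha h0 f
  refine ⟨fun i j => ∑ k, ∑ l, Jm k i * Jm l j * φ (gT k l), ?_, ?_, ?_⟩
  · intro i j
    change ∑ k, ∑ l, Jm k i * Jm l j * φ (gT k l) = ∑ k, ∑ l, Jm k j * Jm l i * φ (gT k l)
    rw [Finset.sum_comm]
    refine Finset.sum_congr rfl fun k _ => Finset.sum_congr rfl fun l _ => ?_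
    rw [hsym l k]
    ring
  · intro i j
    simp only [map_sum, map_mul, hcc]
    have h1 := congrFun (congrFun hPS i) j
    rw [Matrix.mul_apply] at h1
    rw [dl]
    rw [Matrix.one_apply] at h1
    rw [← h1, Finset.sum_comm]
    refine Finset.sum_congr rfl fun l _ => ?_
    rw [Matrix.mul_apply, Finset.sum_mul]
    refine Finset.sum_congr rfl fun k _ => ?_
    have h2 : constantCoeff (gT k l) = g k l x := constantCoeff_taylor x _
    rw [h2]
    simp only [Jm, MvPowerSeries.constantCoeff_C, Matrix.transpose_apply, Matrix.of_apply]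
    ring
  · intro c
    rw [scalar_eq_J hU hg hx c, J_eq hInv, hnat c, hcc]
    rfl

end Pool.Agent.Helper44.CI
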