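import Pool.Agent.Helper44.CI.SmoothWeight
import Pool.Agent.Helper44.CI.SmoothNorm
import Pool.Agent.Helper44.CI.SmoothConf

/-!
# From smooth metrics to formal metrics

The theorems `fconf_of_isConformalInvariant`, `exists_normalized` and `exists_weight` are proved in the
three imported files.
-/
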