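import Pool.Agent.Helper44.CI.TaylorV
import Pool.Agent.Helper44.CI.Func1

open scoped BigOperators ContDiff Topology
open MvPowerSeries (constantCoeff)

namespace Pool.Agent.Helper44.CI

variable {n : ℕ}

section Scale

variable {A : Type*} [CommRing A] [Algebra ℝ A] {d : Fin n → A → A} {l m : ℝ}

lemma christoffel_scaleW (hd : ∀ i a, d i (l • a) = l • d i a) (hlm : l * m = 1)
    (g G : Fin n → Fin n → A) (k i j : Fin n) :
    christoffel d (fun i j => l • g i j) (fun i j => m • G i j) k i j = christoffel d g G k i j := by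
  simp only [christoffel, hd]
  congr 1
  refine Finset.sum_congr rfl fun p _ => ?_
  rw [← smul_add, ← smul_sub, smul_mul_smul_comm, mul_comm m l, hlm, one_smul]

lemma ricci_scaleW (hd : ∀ i a, d i (l • a) = l • d i a) (hlm : l * m = 1)
    (g G : Fin n → Fin n → A) (i j : Fin n) :
    ricci d (fun i j => l • g i j) (fun i j => m • G i j) i j = ricci d g G i j := by
  simp only [ricci, christoffel_scaleW hd hlm]

lemma schouten_scaleW (hd : ∀ i a, d i (l • a) = l • d i a) (hlm : l * m = 1)
    (g G : Fin n → Fin n → A) (i j : Fin n) :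
    schouten d (fun i j => l • g i j) (fun i j => m • G i j) i j = schouten d g G i j := by
  have h : scalarCurv d (fun i j => l • g i j) (fun i j => m • G i j) = m • scalarCurv d g G := by
    simp only [scalarCurv, ricci_scaleW hd hlm, smul_mul_assoc, Finset.smul_sum]
  simp only [schouten, ricci_scaleW hd hlm, h]
  rw [smul_mul_smul_comm, mul_comm m l, hlm, one_smul]

lemma covDerivP_scaleW (hd : ∀ i a, d i (l • a) = l • d i a) (hlm : l * m = 1)
    (g G : Fin n → Fin n → A) (r : ℕ) (i : Fin (r + 2) → Fin n) :
    covDerivP d (fun i j => l • g i j) (fun i j => m • G i j) r i = covDerivP d g G r i := by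
  induction r with
  | zero => exact schouten_scaleW hd hlm g G _ _
  | succ r ih =>
    have h : covDerivP d (fun i j => l • g i j) (fun i j => m • G i j) r = covDerivP d g G r :=
      funext ih
    simp only [covDerivP, covDeriv, h, christoffel_scaleW hd hlm]

lemma eval_scaleW (hd : ∀ i a, d i (l • a) = l • d i a) (hlm : l * m = 1)
    (g G : Fin n → Fin n → A) (C : Contraction) :
    C.eval d (fun i j => l • g i j) (fun i j => m • G i j) = m ^ C.m • C.eval d g G := by
  simp only [Contraction.eval, covDerivP_scaleW hd hlm, Finset.smul_sum]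
  refine Finset.sum_congr rfl fun i _ => ?_
  simp only [Algebra.smul_def, Finset.prod_mul_distrib, Finset.prod_const, Finset.card_univ,
    Fintype.card_fin, map_pow]
  ring

end Scale

lemma Contraction.two_m (C : Contraction) : ∑ a, (C.l a + 2) = C.m * 2 := by
  have h := Fintype.card_congr C.e
  simp only [Fintype.card_prod, Fintype.card_fin, Fintype.card_sigma] at h
  exact h.symm

lemma partialDeriv_smul (l : ℝ) (i : Fin n) (f : (Fin n → ℝ) → ℝ) :
    partialDeriv i (l • f) = l • partialDeriv i f := by
  funext y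
  simp only [partialDeriv, Pi.smul_apply]
  rw [fderiv_const_smul_field]
  rfl

lemma inverseMetric_smul {l : ℝ} (hl : l ≠ 0) (g : Fin n → Fin n → (Fin n → ℝ) → ℝ) :
    inverseMetric (fun i j => l • g i j) = fun i j => l⁻¹ • inverseMetric g i j := by
  funext i j y
  have h0 : (Matrix.of fun i j => (l • g i j) y) = l • (Matrix.of fun i j => g i j y) := by
    ext i j
    simp
  simp only [inverseMetric, Pi.smul_apply] at h0 ⊢
  rw [h0]
  by_cases h : IsUnit (Matrix.of fun i j => g i j y).det
  · have := Matrix.inv_smul' (Matrix.of fun i j => g i j y) (Units.mk0 l hl) h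
    have h2 := congrFun (congrFun this i) j
    simpa [Units.smul_def] using h2
  · have h1 : ¬ IsUnit (l • (Matrix.of fun i j => g i j y)).det := by
      rw [Matrix.det_smul]
      intro h'
      exact h (isUnit_of_mul_isUnit_right h')
    rw [Matrix.nonsing_inv_apply_not_isUnit _ h1, Matrix.nonsing_inv_apply_not_isUnit _ h]
    simp

lemma isMetricOn_exp {U : Set (Fin n → ℝ)} {g : Fin n → Fin n → (Fin n → ℝ) → ℝ}
    (hg : IsMetricOn U g) {u : (Fin n → ℝ) → ℝ} (hu : ContDiffOn ℝ ∞ u U) :
    IsMetricOn U (fun i j y => Real.exp (2 * u y) * g i j y) where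
  smooth i j := ((contDiffOn_const.mul hu).exp).mul (hg.smooth i j)
  posDef x hx := by
    have h := (hg.posDef x hx).smul (Real.exp_pos (2 * u x))
    have h2 : (Matrix.of fun i j => Real.exp (2 * u x) * g i j x) =
        Real.exp (2 * u x) • Matrix.of fun i j => g i j x := by
      ext i j
      simp
    rw [h2]
    exact h

lemma scalar_apply (c : Contraction →₀ ℝ) (g : Fin n → Fin n → (Fin n → ℝ) → ℝ)
    (x : Fin n → ℝ) : scalar c g x =
      ∑ C ∈ c.support, c C * C.eval partialDeriv g (inverseMetric g) x := by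
  rw [scalar, linComb, Finsupp.sum, Finset.sum_apply]
  rfl

lemma scalar_scale (c : Contraction →₀ ℝ) {l : ℝ} (hl : l ≠ 0)
    (g : Fin n → Fin n → (Fin n → ℝ) → ℝ) (x : Fin n → ℝ) :
    scalar c (fun i j y => l * g i j y) x =
      ∑ C ∈ c.support, c C * ((l⁻¹) ^ C.m * C.eval partialDeriv g (inverseMetric g) x) := by
  have h0 : (fun i j y => l * g i j y) = fun i j => l • g i j := rfl
  rw [h0, scalar_apply, inverseMetric_smul hl]
  refine Finset.sum_congr rfl fun C _ => ?_
  rw [eval_scaleW (fun i a => partialDeriv_smul l i a) (mul_inv_cancel₀ hl)]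
  rfl

/-- Reduction to linear combinations of contractions of weight `-n`. -/
theorem exists_weight (c : Contraction →₀ ℝ) (h : IsConformalInvariant n (-(n : ℝ)) c) :
    ∃ c' : Contraction →₀ ℝ, HasWeight n c' ∧ IsConformalInvariant n (-(n : ℝ)) c' ∧
      ∀ (U : Set (Fin n → ℝ)), IsOpen U → ∀ g : Fin n → Fin n → (Fin n → ℝ) → ℝ,
        IsMetricOn U g → ∀ x ∈ U, scalar c g x = scalar c' g x := by
  classical
  set c' : Contraction →₀ ℝ := c.filter fun C => C.m * 2 = n with hc'
  have hmain : ∀ (U : Set (Fin n → ℝ)), IsOpen U → ∀ g : Fin n → Fin n → (Fin n → ℝ) → ℝ,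
        IsMetricOn U g → ∀ x ∈ U, scalar c g x = scalar c' g x := by
    intro U hU g hg x hx
    set E : Contraction → ℝ := fun C => C.eval partialDeriv g (inverseMetric g) x with hE
    let P : Polynomial ℝ := ∑ C ∈ c.support, Polynomial.C (c C * E C) * Polynomial.X ^ (C.m * 2) -
      Polynomial.C (scalar c g x) * Polynomial.X ^ n
    have hP : ∀ t : ℝ, P.eval (Real.exp t) = 0 := by
      intro t
      have h1 := h U hU g hg (fun _ => -t) contDiffOn_const x hx
      rw [scalar_scale c (Real.exp_pos _).ne'] at h1
      have h2 : Real.exp (-(n : ℝ) * -t) = Real.exp t ^ n := by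
        rw [← Real.exp_nat_mul]
        congr 1
        ring
      rw [h2] at h1
      simp only [P, Polynomial.eval_sub, Polynomial.eval_finsetSum, Polynomial.eval_mul,
        Polynomial.eval_C, Polynomial.eval_pow, Polynomial.eval_X]
      rw [sub_eq_zero, mul_comm (scalar c g x), ← h1]
      refine Finset.sum_congr rfl fun C _ => ?_
      have h3 : (Real.exp (2 * -t))⁻¹ = Real.exp t ^ 2 := by
        rw [← Real.exp_neg, ← Real.exp_nat_mul]
        congr 1
        push_cast
        ring
      rw [h3, ← pow_mul, mul_comm 2 C.m]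
      ring
    have hP0 : P = 0 := by
      apply Polynomial.eq_zero_of_infinite_isRoot
      refine Set.Infinite.mono (s := Set.range Real.exp) ?_ ?_
      · rintro _ ⟨t, rfl⟩
        exact hP t
      · exact Set.infinite_range_of_injective Real.exp_injective
    have h4 : P.coeff n = 0 := by rw [hP0, Polynomial.coeff_zero]
    simp only [P, Polynomial.coeff_sub, Polynomial.finsetSum_coeff,
      Polynomial.coeff_C_mul_X_pow] at h4
    rw [if_pos trivial, sub_eq_zero] at h4
    rw [← h4, scalar_apply, hc', Finsupp.support_filter, Finset.sum_filter]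
    refine Finset.sum_congr rfl fun C _ => ?_
    by_cases h5 : C.m * 2 = n
    · rw [if_pos h5.symm, if_pos h5, Finsupp.filter_apply_pos (fun C : Contraction => C.m * 2 = n) c h5]
    · rw [if_neg (Ne.symm h5), if_neg h5]
  refine ⟨c', ?_, ?_, hmain⟩
  · intro C hC
    rw [hc', Finsupp.support_filter, Finset.mem_filter] at hC
    rw [C.two_m]
    exact hC.2
  · intro U hU g hg u hu x hx
    rw [← hmain U hU g hg x hx, ← hmain U hU _ (isMetricOn_exp hg hu) x hx]
    exact h U hU g hg u hu x hx

end Pool.Agent.Helper44.CI
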