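import Pool.Agent.Helper44.CI.Nat

/-!
# Taylor expansion of smooth metrics
-/

open scoped BigOperators ContDiff Topology
open MvPowerSeries (constantCoeff)

namespace Pool.Agent.Helper44.CI

variable {n : ℕ}

/-- Iterated partial derivative `∂^α`. -/
noncomputable def iterPD (α : Fin n →₀ ℕ) (f : (Fin n → ℝ) → ℝ) : (Fin n → ℝ) → ℝ :=
  (List.finRange n).foldr (fun i h => (partialDeriv i)^[α i] h) f

/-- The Taylor series of `f` at `x`. -/
noncomputable def taylor (x : Fin n → ℝ) (f : (Fin n → ℝ) → ℝ) : MvPowerSeries (Fin n) ℝ :=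
  fun α => (∏ i, ((Nat.factorial (α i) : ℝ))⁻¹) * iterPD α f x

/-! ### Germs and partial derivatives -/

section Germs

variable {x : Fin n → ℝ} {f g : (Fin n → ℝ) → ℝ}

lemma partialDeriv_congr (h : f =ᶠ[𝓝 x] g) (i : Fin n) :
    partialDeriv i f =ᶠ[𝓝 x] partialDeriv i g := by
  have := h.fderiv (𝕜 := ℝ)
  filter_upwards [this] with y hy
  simp only [partialDeriv, hy]

lemma partialDeriv_smooth (hf : ContDiffAt ℝ ∞ f x) (i : Fin n) :
    ContDiffAt ℝ ∞ (partialDeriv i f) x := by
  have h1 : ContDiffAt ℝ ∞ (fderiv ℝ f) x := hf.fderiv_right (m := ∞) (by simp)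
  exact h1.clm_apply contDiffAt_const

lemma eventually_c2 (hf : ContDiffAt ℝ ∞ f x) : ∀ᶠ y in 𝓝 x, ContDiffAt ℝ 2 f y := by
  have h0 : (2 : WithTop ℕ∞) ≤ ∞ := WithTop.coe_le_coe.2 (le_top : (2 : ℕ∞) ≤ ⊤)
  have h1 : ContDiffAt ℝ 2 f x := hf.of_le h0
  exact h1.eventually (by simp)

lemma eventually_diff (hf : ContDiffAt ℝ ∞ f x) : ∀ᶠ y in 𝓝 x, DifferentiableAt ℝ f y := by
  filter_upwards [eventually_c2 hf] with y hy
  exact hy.differentiableAt (by simp)

lemma partialDeriv_add' (hf : ContDiffAt ℝ ∞ f x) (hg : ContDiffAt ℝ ∞ g x) (i : Fin n) :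
    partialDeriv i (fun y => f y + g y) =ᶠ[𝓝 x]
      fun y => partialDeriv i f y + partialDeriv i g y := by
  filter_upwards [eventually_diff hf, eventually_diff hg] with y h1 h2
  simp only [partialDeriv]
  rw [fderiv_fun_add h1 h2]
  rfl

lemma partialDeriv_mul' (hf : ContDiffAt ℝ ∞ f x) (hg : ContDiffAt ℝ ∞ g x) (i : Fin n) :
    partialDeriv i (fun y => f y * g y) =ᶠ[𝓝 x]
      fun y => partialDeriv i f y * g y + f y * partialDeriv i g y := by
  filter_upwards [eventually_diff hf, eventually_diff hg] with y h1 h2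
  simp only [partialDeriv]
  rw [fderiv_fun_mul h1 h2]
  simp only [add_apply, smul_apply, smul_eq_mul]
  ring

lemma partialDeriv_comm (hf : ContDiffAt ℝ ∞ f x) (i j : Fin n) :
    partialDeriv i (partialDeriv j f) =ᶠ[𝓝 x] partialDeriv j (partialDeriv i f) := by
  have key : ∀ i j : Fin n, ∀ y, ContDiffAt ℝ 2 f y → partialDeriv i (partialDeriv j f) y =
      fderiv ℝ (fderiv ℝ f) y (Pi.single i 1) (Pi.single j 1) := by
    intro i j y hy
    have h1 : DifferentiableAt ℝ (fderiv ℝ f) y :=
      (hy.fderiv_right (m := 1) (by norm_num)).differentiableAt (by simp)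
    have h2 : partialDeriv j f = fun z => fderiv ℝ f z (Pi.single j 1) := rfl
    rw [partialDeriv, h2, fderiv_clm_apply h1 (differentiableAt_const _)]
    simp
  filter_upwards [eventually_c2 hf] with y hy
  rw [key i j y hy, key j i y hy]
  exact hy.isSymmSndFDerivAt (by simp) _ _

lemma iterate_congr (i : Fin n) (k : ℕ) (h : f =ᶠ[𝓝 x] g) :
    (partialDeriv i)^[k] f =ᶠ[𝓝 x] (partialDeriv i)^[k] g := by
  induction k generalizing f g with
  | zero => exact h
  | succ k ih => exact ih (partialDeriv_congr h i)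

lemma iterate_smooth (i : Fin n) (k : ℕ) (hf : ContDiffAt ℝ ∞ f x) :
    ContDiffAt ℝ ∞ ((partialDeriv i)^[k] f) x := by
  induction k generalizing f with
  | zero => exact hf
  | succ k ih => exact ih (partialDeriv_smooth hf i)

lemma iterate_comm (i j : Fin n) (k : ℕ) (hf : ContDiffAt ℝ ∞ f x) :
    (partialDeriv i)^[k] (partialDeriv j f) =ᶠ[𝓝 x] partialDeriv j ((partialDeriv i)^[k] f) := by
  induction k generalizing f with
  | zero => exact Filter.EventuallyEq.rfl
  | succ k ih =>
    rw [Function.iterate_succ_apply, Function.iterate_succ_apply]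
    exact (iterate_congr i k (partialDeriv_comm hf i j)).trans (ih (partialDeriv_smooth hf i))

/-- iterated partial derivative along a list of directions -/
noncomputable def iterL (l : List (Fin n)) (α : Fin n →₀ ℕ) (f : (Fin n → ℝ) → ℝ) :
    (Fin n → ℝ) → ℝ :=
  l.foldr (fun i h => (partialDeriv i)^[α i] h) f

lemma iterL_congr (l : List (Fin n)) (α : Fin n →₀ ℕ) (h : f =ᶠ[𝓝 x] g) :
    iterL l α f =ᶠ[𝓝 x] iterL l α g := by
  induction l with
  | nil => exact h
  | cons a l ih => exact iterate_congr a (α a) ih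

lemma iterL_smooth (l : List (Fin n)) (α : Fin n →₀ ℕ) (hf : ContDiffAt ℝ ∞ f x) :
    ContDiffAt ℝ ∞ (iterL l α f) x := by
  induction l with
  | nil => exact hf
  | cons a l ih => exact iterate_smooth a (α a) ih

lemma iterL_comm (l : List (Fin n)) (α : Fin n →₀ ℕ) (hf : ContDiffAt ℝ ∞ f x) (j : Fin n) :
    iterL l α (partialDeriv j f) =ᶠ[𝓝 x] partialDeriv j (iterL l α f) := by
  induction l with
  | nil => exact Filter.EventuallyEq.rfl
  | cons a l ih =>
    exact (iterate_congr a (α a) ih).trans (iterate_comm a j (α a) (iterL_smooth l α hf))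

lemma iterL_not_mem (l : List (Fin n)) (α : Fin n →₀ ℕ) (i : Fin n) (hi : i ∉ l)
    (f : (Fin n → ℝ) → ℝ) : iterL l (α + Finsupp.single i 1) f = iterL l α f := by
  induction l with
  | nil => rfl
  | cons a l ih =>
    have h1 : i ≠ a := fun h => hi (h ▸ List.mem_cons_self)
    have h2 : i ∉ l := fun h => hi (List.mem_cons_of_mem _ h)
    have h3 : (α + Finsupp.single i 1 : Fin n →₀ ℕ) a = α a := by
      simp [h1]
    change (partialDeriv a)^[(α + Finsupp.single i 1 : Fin n →₀ ℕ) a] (iterL l (α + Finsupp.single i 1) f) =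
      (partialDeriv a)^[α a] (iterL l α f)
    rw [h3, ih h2]

lemma iterL_mem (l : List (Fin n)) (hl : l.Nodup) (α : Fin n →₀ ℕ) (i : Fin n) (hi : i ∈ l)
    (hf : ContDiffAt ℝ ∞ f x) :
    iterL l (α + Finsupp.single i 1) f =ᶠ[𝓝 x] iterL l α (partialDeriv i f) := by
  induction l with
  | nil => simp at hi
  | cons a l ih =>
    rw [List.nodup_cons] at hl
    change (partialDeriv a)^[(α + Finsupp.single i 1 : Fin n →₀ ℕ) a] (iterL l (α + Finsupp.single i 1) f)
      =ᶠ[𝓝 x] (partialDeriv a)^[α a] (iterL l α (partialDeriv i f))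
    by_cases h : i = a
    · subst h
      have h3 : (α + Finsupp.single i 1 : Fin n →₀ ℕ) i = α i + 1 := by simp
      rw [iterL_not_mem l α i hl.1, h3, Function.iterate_succ_apply]
      exact iterate_congr i (α i) (iterL_comm l α hf i).symm
    · have h3 : (α + Finsupp.single i 1 : Fin n →₀ ℕ) a = α a := by
        simp [h]
      rw [h3]
      exact iterate_congr a (α a) (ih hl.2 ((List.mem_cons.1 hi).resolve_left h))

end Germs

lemma taylor_congr {x : Fin n → ℝ} {f g : (Fin n → ℝ) → ℝ} (h : f =ᶠ[𝓝 x] g) :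
    taylor x f = taylor x g := by
  funext α
  have : iterPD α f x = iterPD α g x := (iterL_congr (List.finRange n) α h).eq_of_nhds
  simp only [taylor, this]

theorem constantCoeff_taylor (x : Fin n → ℝ) (f : (Fin n → ℝ) → ℝ) :
    constantCoeff (taylor x f) = f x := by
  have h : ∀ l : List (Fin n), iterL l 0 f = f := by
    intro l
    induction l with
    | nil => rfl
    | cons a l ih =>
      change (partialDeriv a)^[(0 : Fin n →₀ ℕ) a] (iterL l 0 f) = f
      rw [ih]
      rfl
  have h1 : iterPD 0 f = f := h _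
  rw [← MvPowerSeries.coeff_zero_eq_constantCoeff_apply]
  change (∏ i, ((Nat.factorial ((0 : Fin n →₀ ℕ) i) : ℝ))⁻¹) * iterPD 0 f x = f x
  rw [h1]
  simp

theorem taylor_partialDeriv {x : Fin n → ℝ} {f : (Fin n → ℝ) → ℝ} (hf : ContDiffAt ℝ ∞ f x)
    (i : Fin n) : taylor x (partialDeriv i f) = pdv n ℝ i (taylor x f) := by
  ext α
  rw [pdv, MvPowerSeries.coeff_pderiv]
  change (∏ j, ((Nat.factorial (α j) : ℝ))⁻¹) * iterPD α (partialDeriv i f) x =
    ((∏ j, ((Nat.factorial ((α + Finsupp.single i 1 : Fin n →₀ ℕ) j) : ℝ))⁻¹) *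
      iterPD (α + Finsupp.single i 1) f x) * (α i + 1)
  have h1 : iterPD (α + Finsupp.single i 1) f x = iterPD α (partialDeriv i f) x :=
    (iterL_mem (List.finRange n) (List.nodup_finRange n) α i (List.mem_finRange i)
      hf).eq_of_nhds
  have h2 : (∏ j, ((Nat.factorial ((α + Finsupp.single i 1 : Fin n →₀ ℕ) j) : ℝ))⁻¹) * (α i + 1 : ℝ) =
      ∏ j, ((Nat.factorial (α j) : ℝ))⁻¹ := by
    rw [← Finset.mul_prod_erase Finset.univ _ (Finset.mem_univ i),
      ← Finset.mul_prod_erase Finset.univ (fun j => ((Nat.factorial (α j) : ℝ))⁻¹)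
        (Finset.mem_univ i)]
    have h3 : ∏ j ∈ Finset.univ.erase i,
        ((Nat.factorial ((α + Finsupp.single i 1 : Fin n →₀ ℕ) j) : ℝ))⁻¹ =
        ∏ j ∈ Finset.univ.erase i, ((Nat.factorial (α j) : ℝ))⁻¹ := by
      refine Finset.prod_congr rfl fun j hj => ?_
      have : i ≠ j := fun h => (Finset.ne_of_mem_erase hj) h.symm
      simp [this]
    rw [h3]
    have h4 : (α + Finsupp.single i 1 : Fin n →₀ ℕ) i = α i + 1 := by simp
    rw [h4, Nat.factorial_succ]
    push_cast
    have h5 : ((α i : ℝ) + 1) ≠ 0 := by positivity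
    have h6 : ((Nat.factorial (α i) : ℝ)) ≠ 0 := by positivity
    field_simp
  rw [h1, ← h2]
  ring

lemma coeff_eq_of_pdv {p q : MvPowerSeries (Fin n) ℝ} (i : Fin n) (β : Fin n →₀ ℕ)
    (h : MvPowerSeries.coeff β (pdv n ℝ i p) = MvPowerSeries.coeff β (pdv n ℝ i q)) :
    MvPowerSeries.coeff (β + Finsupp.single i 1) p =
      MvPowerSeries.coeff (β + Finsupp.single i 1) q := by
  rw [pdv, pdv, MvPowerSeries.coeff_pderiv, MvPowerSeries.coeff_pderiv] at h
  have h5 : ((β i : ℝ) + 1) ≠ 0 := by positivity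
  exact mul_right_cancel₀ h5 h

lemma degree_cases (α : Fin n →₀ ℕ) (h : α ≠ 0) :
    ∃ (β : Fin n →₀ ℕ) (i : Fin n), α = β + Finsupp.single i 1 ∧ β.degree + 1 = α.degree := by
  obtain ⟨i, hi⟩ : ∃ i, α i ≠ 0 := by
    by_contra h'
    push Not at h'
    exact h (by ext i; simpa using h' i)
  have h1 : α - Finsupp.single i 1 + Finsupp.single i 1 = α := by
    rw [tsub_add_cancel_of_le]
    simpa using Nat.one_le_iff_ne_zero.2 hi
  refine ⟨α - Finsupp.single i 1, i, h1.symm, ?_⟩
  have h2 := congrArg Finsupp.degree h1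
  rw [map_add, Finsupp.degree_single] at h2
  exact h2

lemma pdv_add (i : Fin n) (p q : MvPowerSeries (Fin n) ℝ) :
    pdv n ℝ i (p + q) = pdv n ℝ i p + pdv n ℝ i q := by
  simp [pdv]

lemma pdv_mul (i : Fin n) (p q : MvPowerSeries (Fin n) ℝ) :
    pdv n ℝ i (p * q) = pdv n ℝ i p * q + p * pdv n ℝ i q := by
  simp only [pdv, Derivation.leibniz, smul_eq_mul]
  ring

lemma taylor_add {x : Fin n → ℝ} {f g : (Fin n → ℝ) → ℝ} (hf : ContDiffAt ℝ ∞ f x)
    (hg : ContDiffAt ℝ ∞ g x) : taylor x (fun y => f y + g y) = taylor x f + taylor x g := by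
  have key : ∀ N : ℕ, ∀ f g : (Fin n → ℝ) → ℝ, ContDiffAt ℝ ∞ f x → ContDiffAt ℝ ∞ g x →
      ∀ α : Fin n →₀ ℕ, α.degree = N → MvPowerSeries.coeff α (taylor x (fun y => f y + g y)) =
        MvPowerSeries.coeff α (taylor x f + taylor x g) := by
    intro N
    induction N with
    | zero =>
      intro f g hf hg α hα
      have : α = 0 := by
        by_contra h
        obtain ⟨β, i, -, h2⟩ := degree_cases α h
        omega
      subst this
      rw [MvPowerSeries.coeff_zero_eq_constantCoeff_apply,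
        MvPowerSeries.coeff_zero_eq_constantCoeff_apply, map_add]
      simp only [constantCoeff_taylor]
    | succ N ih =>
      intro f g hf hg α hα
      have hα0 : α ≠ 0 := by
        rintro rfl
        simp at hα
      obtain ⟨β, i, rfl, h2⟩ := degree_cases α hα0
      apply coeff_eq_of_pdv
      have h1 := ih (partialDeriv i f) (partialDeriv i g) (partialDeriv_smooth hf i)
        (partialDeriv_smooth hg i) β (by omega)
      rw [← taylor_congr (partialDeriv_add' hf hg i), taylor_partialDeriv (hf.add hg),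
        taylor_partialDeriv hf, taylor_partialDeriv hg, ← pdv_add] at h1
      exact h1
  ext α
  exact key _ f g hf hg α rfl

theorem taylor_mul {x : Fin n → ℝ} {f g : (Fin n → ℝ) → ℝ} (hf : ContDiffAt ℝ ∞ f x)
    (hg : ContDiffAt ℝ ∞ g x) : taylor x (fun y => f y * g y) = taylor x f * taylor x g := by
  have key : ∀ N : ℕ, ∀ f g : (Fin n → ℝ) → ℝ, ContDiffAt ℝ ∞ f x → ContDiffAt ℝ ∞ g x →
      ∀ α : Fin n →₀ ℕ, α.degree = N → MvPowerSeries.coeff α (taylor x (fun y => f y * g y)) =
        MvPowerSeries.coeff α (taylor x f * taylor x g) := by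
    intro N
    induction N with
    | zero =>
      intro f g hf hg α hα
      have : α = 0 := by
        by_contra h
        obtain ⟨β, i, -, h2⟩ := degree_cases α h
        omega
      subst this
      rw [MvPowerSeries.coeff_zero_eq_constantCoeff_apply,
        MvPowerSeries.coeff_zero_eq_constantCoeff_apply, map_mul]
      simp only [constantCoeff_taylor]
    | succ N ih =>
      intro f g hf hg α hα
      have hα0 : α ≠ 0 := by
        rintro rfl
        simp at hα
      obtain ⟨β, i, rfl, h2⟩ := degree_cases α hα0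
      apply coeff_eq_of_pdv
      have h1 := ih (partialDeriv i f) g (partialDeriv_smooth hf i) hg β (by omega)
      have h3 := ih f (partialDeriv i g) hf (partialDeriv_smooth hg i) β (by omega)
      rw [← taylor_partialDeriv (hf.mul hg), taylor_congr (partialDeriv_mul' hf hg i),
        taylor_add ((partialDeriv_smooth hf i).mul hg) (hf.mul (partialDeriv_smooth hg i)),
        map_add, h1, h3, pdv_mul, map_add, taylor_partialDeriv hf, taylor_partialDeriv hg]
  ext α
  exact key _ f g hf hg α rfl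

lemma partialDeriv_const (r : ℝ) (i : Fin n) : partialDeriv i (fun _ => r) = fun _ => 0 := by
  funext y
  simp [partialDeriv]

lemma taylor_const (x : Fin n → ℝ) (r : ℝ) :
    taylor x (fun _ => r) = (MvPowerSeries.C r : MvPowerSeries (Fin n) ℝ) := by
  have h0 : taylor x (fun _ => (0 : ℝ)) = 0 := by
    have h := taylor_add (x := x) (f := fun _ => (0 : ℝ)) (g := fun _ => (0 : ℝ))
      contDiffAt_const contDiffAt_const
    simpa using h
  ext α
  by_cases hα0 : α = 0
  · subst hα0
    rw [MvPowerSeries.coeff_zero_eq_constantCoeff_apply,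
      MvPowerSeries.coeff_zero_eq_constantCoeff_apply, constantCoeff_taylor]
    simp
  · obtain ⟨β, i, rfl, -⟩ := degree_cases α hα0
    apply coeff_eq_of_pdv
    rw [← taylor_partialDeriv contDiffAt_const, partialDeriv_const, h0]
    simp [pdv]

lemma partialDeriv_proj (i j : Fin n) :
    partialDeriv i (fun y => y j) = fun _ => if j = i then 1 else 0 := by
  funext y
  have h : HasFDerivAt (fun y : Fin n → ℝ => y j)
      (ContinuousLinearMap.proj (R := ℝ) (φ := fun _ : Fin n => ℝ) j) y :=
    (ContinuousLinearMap.proj (R := ℝ) (φ := fun _ : Fin n => ℝ) j).hasFDerivAt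
  simp only [partialDeriv]
  rw [h.fderiv]
  simp [Pi.single_apply]

lemma smooth_proj (x : Fin n → ℝ) (j : Fin n) : ContDiffAt ℝ ∞ (fun y : Fin n → ℝ => y j) x :=
  contDiffAt_apply ℝ ℝ j x

lemma taylor_proj (j : Fin n) :
    taylor 0 (fun y => y j) = (MvPowerSeries.X j : MvPowerSeries (Fin n) ℝ) := by
  ext α
  by_cases hα0 : α = 0
  · subst hα0
    rw [MvPowerSeries.coeff_zero_eq_constantCoeff_apply,
      MvPowerSeries.coeff_zero_eq_constantCoeff_apply, constantCoeff_taylor]
    simp
  · obtain ⟨β, i, rfl, -⟩ := degree_cases α hα0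
    apply coeff_eq_of_pdv
    rw [← taylor_partialDeriv (smooth_proj 0 j), partialDeriv_proj, taylor_const, pdv,
      MvPowerSeries.pderiv_X]
    congr 1
    by_cases h : j = i
    · subst h
      simp
    · simp [h]

/-- The Taylor series at `0` of a polynomial function is the polynomial. -/
theorem taylor_eval (p : MvPolynomial (Fin n) ℝ) :
    taylor 0 (fun y => MvPolynomial.eval y p) = (p : MvPowerSeries (Fin n) ℝ) := by
  have key : ContDiffAt ℝ ∞ (fun y : Fin n → ℝ => MvPolynomial.eval y p) 0 ∧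
      taylor 0 (fun y => MvPolynomial.eval y p) = (p : MvPowerSeries (Fin n) ℝ) := by
    induction p using MvPolynomial.induction_on with
    | C a =>
      simp only [MvPolynomial.eval_C, MvPolynomial.coe_C]
      exact ⟨contDiffAt_const, taylor_const 0 a⟩
    | add p q hp hq =>
      simp only [map_add, MvPolynomial.coe_add]
      exact ⟨hp.1.add hq.1, by rw [taylor_add hp.1 hq.1, hp.2, hq.2]⟩
    | mul_X p i hp =>
      simp only [map_mul, MvPolynomial.eval_X, MvPolynomial.coe_mul, MvPolynomial.coe_X]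
      exact ⟨hp.1.mul (smooth_proj 0 i), by rw [taylor_mul hp.1 (smooth_proj 0 i), hp.2,
        taylor_proj]⟩
  exact key.2

/-! ### The algebra of functions smooth at `x` -/

/-- the functions smooth at `x` -/
def smoothAt (x : Fin n → ℝ) : Subalgebra ℝ ((Fin n → ℝ) → ℝ) where
  carrier := {f | ContDiffAt ℝ ∞ f x}
  mul_mem' {f g} hf hg := by
    have h1 : ContDiffAt ℝ ∞ f x := hf
    have h2 : ContDiffAt ℝ ∞ g x := hg
    exact h1.mul h2
  add_mem' {f g} hf hg := by
    have h1 : ContDiffAt ℝ ∞ f x := hf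
    have h2 : ContDiffAt ℝ ∞ g x := hg
    exact h1.add h2
  algebraMap_mem' r := by
    change ContDiffAt ℝ ∞ (fun _ => r) x
    exact contDiffAt_const

/-- the partial derivatives of functions smooth at `x` -/
noncomputable def sderiv (x : Fin n → ℝ) (i : Fin n) (f : smoothAt x) : smoothAt x :=
  ⟨partialDeriv i f.1, partialDeriv_smooth f.2 i⟩

/-- the Taylor series as an algebra homomorphism -/
noncomputable def taylorHom (x : Fin n → ℝ) : smoothAt x →ₐ[ℝ] MvPowerSeries (Fin n) ℝ where
  toFun f := taylor x f.1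
  map_one' := by
    have h := taylor_const x (1 : ℝ)
    rw [map_one] at h
    exact h
  map_mul' f g := taylor_mul f.2 g.2
  map_zero' := by
    have h := taylor_const x (0 : ℝ)
    rw [map_zero] at h
    exact h
  map_add' f g := taylor_add f.2 g.2
  commutes' r := taylor_const x r

lemma inverseMetric_smooth {U : Set (Fin n → ℝ)} (hU : IsOpen U)
    {g : Fin n → Fin n → (Fin n → ℝ) → ℝ} (hg : IsMetricOn U g) {x : Fin n → ℝ} (hx : x ∈ U)
    (i j : Fin n) : ContDiffAt ℝ ∞ (inverseMetric g i j) x := by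
  have hgs : ∀ i j, ContDiffAt ℝ ∞ (g i j) x := fun i j =>
    (hg.smooth i j).contDiffAt (hU.mem_nhds hx)
  have hdet : ContDiffAt ℝ ∞ (fun y => (Matrix.of fun i j => g i j y).det) x := by
    simp only [Matrix.det_apply]
    refine ContDiffAt.sum fun σ _ => ?_
    refine ContDiffAt.const_smul _ ?_
    exact contDiffAt_prod fun i _ => hgs _ _
  have hadj : ∀ i j, ContDiffAt ℝ ∞ (fun y => (Matrix.of fun i j => g i j y).adjugate i j) x := by
    intro i j
    simp only [Matrix.adjugate_apply, Matrix.det_apply]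
    refine ContDiffAt.sum fun σ _ => ?_
    refine ContDiffAt.const_smul _ ?_
    refine contDiffAt_prod fun k _ => ?_
    by_cases h : σ k = j
    · simp only [Matrix.updateRow_apply, h, if_true]
      exact contDiffAt_const
    · simp only [Matrix.updateRow_apply, h, if_false]
      exact hgs _ _
  have h1 : inverseMetric g i j = fun y => ((Matrix.of fun i j => g i j y).det)⁻¹ *
      (Matrix.of fun i j => g i j y).adjugate i j := by
    funext y
    rw [inverseMetric, Matrix.inv_def, Ring.inverse_eq_inv']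
    rfl
  rw [h1]
  exact (hdet.inv (hg.posDef x hx).det_pos.ne').mul (hadj i j)

lemma inverseMetric_mul {U : Set (Fin n → ℝ)} {g : Fin n → Fin n → (Fin n → ℝ) → ℝ}
    (hg : IsMetricOn U g) {y : Fin n → ℝ} (hy : y ∈ U) (i j : Fin n) :
    ∑ k, g i k y * inverseMetric g k j y = if i = j then 1 else 0 := by
  have h6 := congrFun (congrFun (Matrix.mul_nonsing_inv (Matrix.of fun i j => g i j y)
    (hg.posDef y hy).det_pos.ne'.isUnit) i) j
  rw [Matrix.mul_apply] at h6
  simpa [Matrix.one_apply, inverseMetric] using h6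

/-- The value at `x` of the scalar of a metric depends only on the Taylor series of the metric, by
the same formulas. -/
theorem scalar_eq_J {U : Set (Fin n → ℝ)} (hU : IsOpen U) {g : Fin n → Fin n → (Fin n → ℝ) → ℝ}
    (hg : IsMetricOn U g) {x : Fin n → ℝ} (hx : x ∈ U) (c : Contraction →₀ ℝ) :
    scalar c g x = J c (fun i j => taylor x (g i j)) := by
  have hgs : ∀ i j, ContDiffAt ℝ ∞ (g i j) x := fun i j =>
    (hg.smooth i j).contDiffAt (hU.mem_nhds hx)
  let gS : Fin n → Fin n → smoothAt x := fun i j => ⟨g i j, hgs i j⟩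
  let GS : Fin n → Fin n → smoothAt x := fun i j =>
    ⟨inverseMetric g i j, inverseMetric_smooth hU hg hx i j⟩
  have h1 : scalar c g = (linComb c (sderiv x) gS GS).1 :=
    (linComb_map (dA := sderiv x) (dB := partialDeriv) (smoothAt x).val (fun i a => rfl) c gS
      GS).symm
  have h2 := linComb_map (dA := sderiv x) (dB := pdv n ℝ) (taylorHom x)
    (fun i a => taylor_partialDeriv a.2 i) c gS GS
  have h3 : IsInv (fun i j => taylorHom x (gS i j)) (fun i j => taylorHom x (GS i j)) := by
    intro i j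
    change ∑ k, taylorHom x (gS i k) * taylorHom x (GS k j) = dl i j
    rw [← Finset.sum_congr rfl fun k _ => map_mul (taylorHom x) (gS i k) (GS k j), ← map_sum]
    have h4 : (∑ k, gS i k * GS k j).1 =ᶠ[𝓝 x] fun _ => if i = j then (1 : ℝ) else 0 := by
      filter_upwards [hU.mem_nhds hx] with y hy
      have h5 : (∑ k, gS i k * GS k j).1 y = ∑ k, g i k y * inverseMetric g k j y := by
        rw [AddSubmonoidClass.coe_finsetSum, Finset.sum_apply]
        rfl
      rw [h5, inverseMetric_mul hg hy]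
    change taylor x (∑ k, gS i k * GS k j).1 = dl i j
    rw [taylor_congr h4, taylor_const, dl]
    split_ifs <;> simp
  rw [h1, ← constantCoeff_taylor x (linComb c (sderiv x) gS GS).1]
  change constantCoeff (taylorHom x (linComb c (sderiv x) gS GS)) = _
  rw [h2, J, ← h3.eq_invM]
  rfl

end Pool.Agent.Helper44.CI
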