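import Pool.Agent.Helper44.CI.Taylor

/-!
# Taylor expansion with respect to a constant frame
-/

open scoped BigOperators ContDiff Topology
open MvPowerSeries (constantCoeff)

namespace Pool.Agent.Helper44.CI

variable {n : ℕ}

/-- The derivative in the direction of the constant vector `v i`. -/
noncomputable def dirD (v : Fin n → Fin n → ℝ) (i : Fin n) (f : (Fin n → ℝ) → ℝ) (x : Fin n → ℝ) :
    ℝ := fderiv ℝ f x (v i)

/-- Iterated directional derivative. -/
noncomputable def iterV (v : Fin n → Fin n → ℝ) (α : Fin n →₀ ℕ) (f : (Fin n → ℝ) → ℝ) :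
    (Fin n → ℝ) → ℝ :=
  (List.finRange n).foldr (fun i h => (dirD v i)^[α i] h) f

/-- The Taylor series of `f` at `x` in the coordinates of the frame `v`. -/
noncomputable def taylorV (v : Fin n → Fin n → ℝ) (x : Fin n → ℝ) (f : (Fin n → ℝ) → ℝ) :
    MvPowerSeries (Fin n) ℝ :=
  fun α => (∏ i, ((Nat.factorial (α i) : ℝ))⁻¹) * iterV v α f x

variable {v : Fin n → Fin n → ℝ}

/-! ### Germs and partial derivatives -/

section Germs

variable {x : Fin n → ℝ} {f g : (Fin n → ℝ) → ℝ}

lemma dirD_congr (h : f =ᶠ[𝓝 x] g) (i : Fin n) :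
    dirD v i f =ᶠ[𝓝 x] dirD v i g := by
  have := h.fderiv (𝕜 := ℝ)
  filter_upwards [this] with y hy
  simp only [dirD, hy]

lemma dirD_smooth (hf : ContDiffAt ℝ ∞ f x) (i : Fin n) :
    ContDiffAt ℝ ∞ (dirD v i f) x := by
  have h1 : ContDiffAt ℝ ∞ (fderiv ℝ f) x := hf.fderiv_right (m := ∞) (by simp)
  exact h1.clm_apply contDiffAt_const

lemma dirD_add' (hf : ContDiffAt ℝ ∞ f x) (hg : ContDiffAt ℝ ∞ g x) (i : Fin n) :
    dirD v i (fun y => f y + g y) =ᶠ[𝓝 x]
      fun y => dirD v i f y + dirD v i g y := by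
  filter_upwards [eventually_diff hf, eventually_diff hg] with y h1 h2
  simp only [dirD]
  rw [fderiv_fun_add h1 h2]
  rfl

lemma dirD_mul' (hf : ContDiffAt ℝ ∞ f x) (hg : ContDiffAt ℝ ∞ g x) (i : Fin n) :
    dirD v i (fun y => f y * g y) =ᶠ[𝓝 x]
      fun y => dirD v i f y * g y + f y * dirD v i g y := by
  filter_upwards [eventually_diff hf, eventually_diff hg] with y h1 h2
  simp only [dirD]
  rw [fderiv_fun_mul h1 h2]
  simp only [add_apply, smul_apply, smul_eq_mul]
  ring

lemma dirD_comm (hf : ContDiffAt ℝ ∞ f x) (i j : Fin n) :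
    dirD v i (dirD v j f) =ᶠ[𝓝 x] dirD v j (dirD v i f) := by
  have key : ∀ i j : Fin n, ∀ y, ContDiffAt ℝ 2 f y → dirD v i (dirD v j f) y =
      fderiv ℝ (fderiv ℝ f) y (v i) (v j) := by
    intro i j y hy
    have h1 : DifferentiableAt ℝ (fderiv ℝ f) y :=
      (hy.fderiv_right (m := 1) (by norm_num)).differentiableAt (by simp)
    have h2 : dirD v j f = fun z => fderiv ℝ f z (v j) := rfl
    rw [dirD, h2, fderiv_clm_apply h1 (differentiableAt_const _)]
    simp
  filter_upwards [eventually_c2 hf] with y hy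
  rw [key i j y hy, key j i y hy]
  exact hy.isSymmSndFDerivAt (by simp) _ _

lemma iterate_congrV (i : Fin n) (k : ℕ) (h : f =ᶠ[𝓝 x] g) :
    (dirD v i)^[k] f =ᶠ[𝓝 x] (dirD v i)^[k] g := by
  induction k generalizing f g with
  | zero => exact h
  | succ k ih => exact ih (dirD_congr h i)

lemma iterate_smoothV (i : Fin n) (k : ℕ) (hf : ContDiffAt ℝ ∞ f x) :
    ContDiffAt ℝ ∞ ((dirD v i)^[k] f) x := by
  induction k generalizing f with
  | zero => exact hf
  | succ k ih => exact ih (dirD_smooth hf i)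

lemma iterate_commV (i j : Fin n) (k : ℕ) (hf : ContDiffAt ℝ ∞ f x) :
    (dirD v i)^[k] (dirD v j f) =ᶠ[𝓝 x] dirD v j ((dirD v i)^[k] f) := by
  induction k generalizing f with
  | zero => exact Filter.EventuallyEq.rfl
  | succ k ih =>
    rw [Function.iterate_succ_apply, Function.iterate_succ_apply]
    exact (iterate_congrV i k (dirD_comm hf i j)).trans (ih (dirD_smooth hf i))

/-- iterated partial derivative along a list of directions -/
noncomputable def iterLV (v : Fin n → Fin n → ℝ) (l : List (Fin n)) (α : Fin n →₀ ℕ) (f : (Fin n → ℝ) → ℝ) :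
    (Fin n → ℝ) → ℝ :=
  l.foldr (fun i h => (dirD v i)^[α i] h) f

lemma iterL_congrV (l : List (Fin n)) (α : Fin n →₀ ℕ) (h : f =ᶠ[𝓝 x] g) :
    iterLV v l α f =ᶠ[𝓝 x] iterLV v l α g := by
  induction l with
  | nil => exact h
  | cons a l ih => exact iterate_congrV a (α a) ih

lemma iterL_smoothV (l : List (Fin n)) (α : Fin n →₀ ℕ) (hf : ContDiffAt ℝ ∞ f x) :
    ContDiffAt ℝ ∞ (iterLV v l α f) x := by
  induction l with
  | nil => exact hf
  | cons a l ih => exact iterate_smoothV a (α a) ih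

lemma iterL_commV (l : List (Fin n)) (α : Fin n →₀ ℕ) (hf : ContDiffAt ℝ ∞ f x) (j : Fin n) :
    iterLV v l α (dirD v j f) =ᶠ[𝓝 x] dirD v j (iterLV v l α f) := by
  induction l with
  | nil => exact Filter.EventuallyEq.rfl
  | cons a l ih =>
    exact (iterate_congrV a (α a) ih).trans (iterate_commV a j (α a) (iterL_smoothV l α hf))

lemma iterL_not_memV (l : List (Fin n)) (α : Fin n →₀ ℕ) (i : Fin n) (hi : i ∉ l)
    (f : (Fin n → ℝ) → ℝ) : iterLV v l (α + Finsupp.single i 1) f = iterLV v l α f := by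
  induction l with
  | nil => rfl
  | cons a l ih =>
    have h1 : i ≠ a := fun h => hi (h ▸ List.mem_cons_self)
    have h2 : i ∉ l := fun h => hi (List.mem_cons_of_mem _ h)
    have h3 : (α + Finsupp.single i 1 : Fin n →₀ ℕ) a = α a := by
      simp [h1]
    change (dirD v a)^[(α + Finsupp.single i 1 : Fin n →₀ ℕ) a] (iterLV v l (α + Finsupp.single i 1) f) =
      (dirD v a)^[α a] (iterLV v l α f)
    rw [h3, ih h2]

lemma iterL_memV (l : List (Fin n)) (hl : l.Nodup) (α : Fin n →₀ ℕ) (i : Fin n) (hi : i ∈ l)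
    (hf : ContDiffAt ℝ ∞ f x) :
    iterLV v l (α + Finsupp.single i 1) f =ᶠ[𝓝 x] iterLV v l α (dirD v i f) := by
  induction l with
  | nil => simp at hi
  | cons a l ih =>
    rw [List.nodup_cons] at hl
    change (dirD v a)^[(α + Finsupp.single i 1 : Fin n →₀ ℕ) a] (iterLV v l (α + Finsupp.single i 1) f)
      =ᶠ[𝓝 x] (dirD v a)^[α a] (iterLV v l α (dirD v i f))
    by_cases h : i = a
    · subst h
      have h3 : (α + Finsupp.single i 1 : Fin n →₀ ℕ) i = α i + 1 := by simp
      rw [iterL_not_memV l α i hl.1, h3, Function.iterate_succ_apply]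
      exact iterate_congrV i (α i) (iterL_commV l α hf i).symm
    · have h3 : (α + Finsupp.single i 1 : Fin n →₀ ℕ) a = α a := by
        simp [h]
      rw [h3]
      exact iterate_congrV a (α a) (ih hl.2 ((List.mem_cons.1 hi).resolve_left h))

end Germs

lemma taylorV_congr {x : Fin n → ℝ} {f g : (Fin n → ℝ) → ℝ} (h : f =ᶠ[𝓝 x] g) :
    taylorV v x f = taylorV v x g := by
  funext α
  have : iterV v α f x = iterV v α g x := (iterL_congrV (List.finRange n) α h).eq_of_nhds
  simp only [taylorV, this]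

theorem constantCoeff_taylorV (x : Fin n → ℝ) (f : (Fin n → ℝ) → ℝ) :
    constantCoeff (taylorV v x f) = f x := by
  have h : ∀ l : List (Fin n), iterLV v l 0 f = f := by
    intro l
    induction l with
    | nil => rfl
    | cons a l ih =>
      change (dirD v a)^[(0 : Fin n →₀ ℕ) a] (iterLV v l 0 f) = f
      rw [ih]
      rfl
  have h1 : iterV v 0 f = f := h _
  rw [← MvPowerSeries.coeff_zero_eq_constantCoeff_apply]
  change (∏ i, ((Nat.factorial ((0 : Fin n →₀ ℕ) i) : ℝ))⁻¹) * iterV v 0 f x = f x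
  rw [h1]
  simp

theorem taylorV_dirD {x : Fin n → ℝ} {f : (Fin n → ℝ) → ℝ} (hf : ContDiffAt ℝ ∞ f x)
    (i : Fin n) : taylorV v x (dirD v i f) = pdv n ℝ i (taylorV v x f) := by
  ext α
  rw [pdv, MvPowerSeries.coeff_pderiv]
  change (∏ j, ((Nat.factorial (α j) : ℝ))⁻¹) * iterV v α (dirD v i f) x =
    ((∏ j, ((Nat.factorial ((α + Finsupp.single i 1 : Fin n →₀ ℕ) j) : ℝ))⁻¹) *
      iterV v (α + Finsupp.single i 1) f x) * (α i + 1)
  have h1 : iterV v (α + Finsupp.single i 1) f x = iterV v α (dirD v i f) x :=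
    (iterL_memV (List.finRange n) (List.nodup_finRange n) α i (List.mem_finRange i)
      hf).eq_of_nhds
  have h2 : (∏ j, ((Nat.factorial ((α + Finsupp.single i 1 : Fin n →₀ ℕ) j) : ℝ))⁻¹) * (α i + 1 : ℝ) =
      ∏ j, ((Nat.factorial (α j) : ℝ))⁻¹ := by
    rw [← Finset.mul_prod_erase Finset.univ _ (Finset.mem_univ i),
      ← Finset.mul_prod_erase Finset.univ (fun j => ((Nat.factorial (α j) : ℝ))⁻¹)
        (Finset.mem_univ i)]
    have h3 : ∏ j ∈ Finset.univ.erase i,
        ((Nat.factorial ((α + Finsupp.single i 1 : Fin n →₀ ℕ) j) : ℝ))⁻¹ =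
        ∏ j ∈ Finset.univ.erase i, ((Nat.factorial (α j) : ℝ))⁻¹ := by
      refine Finset.prod_congr rfl fun j hj => ?_
      have : i ≠ j := fun h => (Finset.ne_of_mem_erase hj) h.symm
      simp [this]
    rw [h3]
    have h4 : (α + Finsupp.single i 1 : Fin n →₀ ℕ) i = α i + 1 := by simp
    rw [h4, Nat.factorial_succ]
    push_cast
    have h5 : ((α i : ℝ) + 1) ≠ 0 := by positivity
    have h6 : ((Nat.factorial (α i) : ℝ)) ≠ 0 := by positivity
    field_simp
  rw [h1, ← h2]
  ring

lemma taylorV_add {x : Fin n → ℝ} {f g : (Fin n → ℝ) → ℝ} (hf : ContDiffAt ℝ ∞ f x)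
    (hg : ContDiffAt ℝ ∞ g x) : taylorV v x (fun y => f y + g y) = taylorV v x f + taylorV v x g := by
  have key : ∀ N : ℕ, ∀ f g : (Fin n → ℝ) → ℝ, ContDiffAt ℝ ∞ f x → ContDiffAt ℝ ∞ g x →
      ∀ α : Fin n →₀ ℕ, α.degree = N → MvPowerSeries.coeff α (taylorV v x (fun y => f y + g y)) =
        MvPowerSeries.coeff α (taylorV v x f + taylorV v x g) := by
    intro N
    induction N with
    | zero =>
      intro f g hf hg α hα
      have : α = 0 := by
        by_contra h
        obtain ⟨β, i, -, h2⟩ := degree_cases α h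
        omega
      subst this
      rw [MvPowerSeries.coeff_zero_eq_constantCoeff_apply,
        MvPowerSeries.coeff_zero_eq_constantCoeff_apply, map_add]
      simp only [constantCoeff_taylorV]
    | succ N ih =>
      intro f g hf hg α hα
      have hα0 : α ≠ 0 := by
        rintro rfl
        simp at hα
      obtain ⟨β, i, rfl, h2⟩ := degree_cases α hα0
      apply coeff_eq_of_pdv
      have h1 := ih (dirD v i f) (dirD v i g) (dirD_smooth hf i)
        (dirD_smooth hg i) β (by omega)
      rw [← taylorV_congr (dirD_add' hf hg i), taylorV_dirD (hf.add hg),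
        taylorV_dirD hf, taylorV_dirD hg, ← pdv_add] at h1
      exact h1
  ext α
  exact key _ f g hf hg α rfl

theorem taylorV_mul {x : Fin n → ℝ} {f g : (Fin n → ℝ) → ℝ} (hf : ContDiffAt ℝ ∞ f x)
    (hg : ContDiffAt ℝ ∞ g x) : taylorV v x (fun y => f y * g y) = taylorV v x f * taylorV v x g := by
  have key : ∀ N : ℕ, ∀ f g : (Fin n → ℝ) → ℝ, ContDiffAt ℝ ∞ f x → ContDiffAt ℝ ∞ g x →
      ∀ α : Fin n →₀ ℕ, α.degree = N → MvPowerSeries.coeff α (taylorV v x (fun y => f y * g y)) =
        MvPowerSeries.coeff α (taylorV v x f * taylorV v x g) := by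
    intro N
    induction N with
    | zero =>
      intro f g hf hg α hα
      have : α = 0 := by
        by_contra h
        obtain ⟨β, i, -, h2⟩ := degree_cases α h
        omega
      subst this
      rw [MvPowerSeries.coeff_zero_eq_constantCoeff_apply,
        MvPowerSeries.coeff_zero_eq_constantCoeff_apply, map_mul]
      simp only [constantCoeff_taylorV]
    | succ N ih =>
      intro f g hf hg α hα
      have hα0 : α ≠ 0 := by
        rintro rfl
        simp at hα
      obtain ⟨β, i, rfl, h2⟩ := degree_cases α hα0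
      apply coeff_eq_of_pdv
      have h1 := ih (dirD v i f) g (dirD_smooth hf i) hg β (by omega)
      have h3 := ih f (dirD v i g) hf (dirD_smooth hg i) β (by omega)
      rw [← taylorV_dirD (hf.mul hg), taylorV_congr (dirD_mul' hf hg i),
        taylorV_add ((dirD_smooth hf i).mul hg) (hf.mul (dirD_smooth hg i)),
        map_add, h1, h3, pdv_mul, map_add, taylorV_dirD hf, taylorV_dirD hg]
  ext α
  exact key _ f g hf hg α rfl

lemma dirD_const (r : ℝ) (i : Fin n) : dirD v i (fun _ => r) = fun _ => 0 := by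
  funext y
  simp [dirD]

lemma taylorV_const (x : Fin n → ℝ) (r : ℝ) :
    taylorV v x (fun _ => r) = (MvPowerSeries.C r : MvPowerSeries (Fin n) ℝ) := by
  have h0 : taylorV v x (fun _ => (0 : ℝ)) = 0 := by
    have h := taylorV_add (v := v) (x := x) (f := fun _ => (0 : ℝ)) (g := fun _ => (0 : ℝ))
      contDiffAt_const contDiffAt_const
    simpa using h
  ext α
  by_cases hα0 : α = 0
  · subst hα0
    rw [MvPowerSeries.coeff_zero_eq_constantCoeff_apply,
      MvPowerSeries.coeff_zero_eq_constantCoeff_apply, constantCoeff_taylorV]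
    simp
  · obtain ⟨β, i, rfl, -⟩ := degree_cases α hα0
    apply coeff_eq_of_pdv
    rw [← taylorV_dirD contDiffAt_const, dirD_const, h0]
    simp [pdv]

variable (v) in
/-- the directional derivatives of functions smooth at `x` -/
noncomputable def sderivV (x : Fin n → ℝ) (i : Fin n) (f : smoothAt x) : smoothAt x :=
  ⟨dirD v i f.1, dirD_smooth f.2 i⟩

variable (v) in
/-- the Taylor series as an algebra homomorphism -/
noncomputable def taylorHomV (x : Fin n → ℝ) : smoothAt x →ₐ[ℝ] MvPowerSeries (Fin n) ℝ where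
  toFun f := taylorV v x f.1
  map_one' := by
    have h := taylorV_const (v := v) x (1 : ℝ)
    rw [map_one] at h
    exact h
  map_mul' f g := taylorV_mul f.2 g.2
  map_zero' := by
    have h := taylorV_const (v := v) x (0 : ℝ)
    rw [map_zero] at h
    exact h
  map_add' f g := taylorV_add f.2 g.2
  commutes' r := taylorV_const x r

end Pool.Agent.Helper44.CI
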